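import Mathlib

/-!
# MS-21  Bounded second differences (Fubini)

`J = [-κ,κ]`, `x ≥ 0`. `P x q` has `q`-derivative `m x q`, `Y x q` has `x`-derivative `-m x q`; `Y x q' - Y x q ∈ [0, L (q'-q)]` for `q ≤ q'`.
PROOF. Let `I x q = ∫ t in 0..x, P t q`. For `q₁ ≤ q₂` in `J`: `I x q₂ - I x q₁ = ∫_0^x ∫_{q₁}^{q₂} m t r dr dt = ∫_{q₁}^{q₂} ∫_0^x m t r dt dr =
∫_{q₁}^{q₂} (Y 0 r - Y x r) dr` (FTC in `q`: `intervalIntegral.integral_eq_sub_of_hasDerivAt...` with the continuous derivative `m`; Fubini for a continuous function on the rectangle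
`[0,x] × [q₁,q₂]`: `MeasureTheory.integral_integral_swap`, `intervalIntegral_integral_interval_swap`; FTC in `x`). Let `u r = Y 0 r - Y x r`: `|u r - u r'| ≤ L |r - r'|` (both increments
lie in `[0, L|r-r'|]`). For `q₁ ≤ q₂`, `q₀ = (q₁+q₂)/2`, `d = q₂ - q₀`: `I x q₁ + I x q₂ - 2 I x q₀ = ∫_{q₀}^{q₂} u - ∫_{q₁}^{q₀} u = ∫_{q₁}^{q₀} (u (r+d) - u r) dr`, of
absolute value `≤ L d²`. For `q₁ > q₂` exchange them. (`d² ≤ κ²`.)
-/

set_option autoImplicit false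

open Filter Topology Set

namespace Pool.Agent.Helper50.MS

private theorem sd_slice1 {κ : ℝ} {f : ℝ → ℝ → ℝ}
    (hc : ContinuousOn (fun z : ℝ × ℝ => f z.1 z.2) (Ici 0 ×ˢ Icc (-κ) κ))
    {q : ℝ} (hq : q ∈ Icc (-κ) κ) : ContinuousOn (fun x => f x q) (Ici 0) := by
  have h1 : ContinuousOn (fun x : ℝ => (x, q)) (Ici (0:ℝ)) := by fun_prop
  exact hc.comp h1 (fun x hx => ⟨hx, hq⟩)

private theorem sd_slice2 {κ : ℝ} {f : ℝ → ℝ → ℝ}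
    (hc : ContinuousOn (fun z : ℝ × ℝ => f z.1 z.2) (Ici 0 ×ˢ Icc (-κ) κ))
    {x : ℝ} (hx : 0 ≤ x) : ContinuousOn (fun q => f x q) (Icc (-κ) κ) := by
  have h1 : ContinuousOn (fun q : ℝ => (x, q)) (Icc (-κ) κ) := by fun_prop
  exact hc.comp h1 (fun q hq => ⟨hx, hq⟩)

private theorem sd_fub {κ : ℝ} {P Y m : ℝ → ℝ → ℝ}
    (hPc : ContinuousOn (fun z : ℝ × ℝ => P z.1 z.2) (Ici 0 ×ˢ Icc (-κ) κ))
    (hmc : ContinuousOn (fun z : ℝ × ℝ => m z.1 z.2) (Ici 0 ×ˢ Icc (-κ) κ))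
    (hYc : ContinuousOn (fun z : ℝ × ℝ => Y z.1 z.2) (Ici 0 ×ˢ Icc (-κ) κ))
    (hPq : ∀ x : ℝ, 0 ≤ x → ∀ q ∈ Icc (-κ) κ,
      HasDerivWithinAt (fun q => P x q) (m x q) (Icc (-κ) κ) q)
    (hYx : ∀ q ∈ Icc (-κ) κ, ∀ x : ℝ, 0 ≤ x →
      HasDerivWithinAt (fun x => Y x q) (-m x q) (Ici 0) x)
    {x : ℝ} (hx : 0 ≤ x) {a b : ℝ} (ha : -κ ≤ a) (hab : a ≤ b) (hb : b ≤ κ) :
    (∫ t in (0 : ℝ)..x, P t b) - (∫ t in (0 : ℝ)..x, P t a) =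
      ∫ r in a..b, (Y 0 r - Y x r) := by
  have ha' : a ∈ Icc (-κ) κ := ⟨ha, hab.trans hb⟩
  have hb' : b ∈ Icc (-κ) κ := ⟨ha.trans hab, hb⟩
  have hsub : Icc a b ⊆ Icc (-κ) κ := Icc_subset_Icc ha hb
  have hiP : ∀ q ∈ Icc (-κ) κ, IntervalIntegrable (fun t => P t q) MeasureTheory.volume 0 x := by
    intro q hq
    apply ContinuousOn.intervalIntegrable
    rw [uIcc_of_le hx]
    exact (sd_slice1 hPc hq).mono Icc_subset_Ici_self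
  have e1 : ∀ t ∈ uIcc (0:ℝ) x, P t b - P t a = ∫ r in a..b, m t r := by
    intro t ht
    rw [uIcc_of_le hx] at ht
    have ht0 : 0 ≤ t := ht.1
    symm
    apply intervalIntegral.integral_eq_sub_of_hasDerivAt_of_le hab
    · exact (sd_slice2 hPc ht0).mono hsub
    · intro r hr
      apply (hPq t ht0 r ⟨ha.trans hr.1.le, hr.2.le.trans hb⟩).hasDerivAt
      exact Icc_mem_nhds (lt_of_le_of_lt ha hr.1) (lt_of_lt_of_le hr.2 hb)
    · apply ContinuousOn.intervalIntegrable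
      rw [uIcc_of_le hab]
      exact (sd_slice2 hmc ht0).mono hsub
  have e2 : ∀ r ∈ uIcc a b, ∫ t in (0:ℝ)..x, m t r = Y 0 r - Y x r := by
    intro r hr
    rw [uIcc_of_le hab] at hr
    have hr' : r ∈ Icc (-κ) κ := hsub hr
    have e3 : ∫ t in (0:ℝ)..x, m t r = (fun t => -Y t r) x - (fun t => -Y t r) 0 := by
      apply intervalIntegral.integral_eq_sub_of_hasDerivAt_of_le hx
      · exact (((sd_slice1 hYc hr').mono Icc_subset_Ici_self)).neg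
      · intro t ht
        have h4 := (hYx r hr' t ht.1.le).hasDerivAt (Ici_mem_nhds ht.1)
        have h5 := h4.neg
        rw [neg_neg] at h5
        exact h5
      · apply ContinuousOn.intervalIntegrable
        rw [uIcc_of_le hx]
        exact (sd_slice1 hmc hr').mono Icc_subset_Ici_self
    rw [e3]
    ring
  rw [← intervalIntegral.integral_sub (hiP b hb') (hiP a ha')]
  rw [intervalIntegral.integral_congr e1]
  rw [MeasureTheory.intervalIntegral_intervalIntegral_swap]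
  · exact intervalIntegral.integral_congr e2
  · have h6 : MeasureTheory.IntegrableOn (Function.uncurry m) (Icc 0 x ×ˢ Icc a b) := by
      apply ContinuousOn.integrableOn_compact (isCompact_Icc.prod isCompact_Icc)
      exact hmc.mono (prod_mono Icc_subset_Ici_self hsub)
    apply h6.mono_set
    rw [uIoc_of_le hx, uIoc_of_le hab]
    exact prod_mono Ioc_subset_Icc_self Ioc_subset_Icc_self

private theorem sd_le {κ L : ℝ} (hL : 0 ≤ L) {P Y m : ℝ → ℝ → ℝ}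
    (hPc : ContinuousOn (fun z : ℝ × ℝ => P z.1 z.2) (Ici 0 ×ˢ Icc (-κ) κ))
    (hmc : ContinuousOn (fun z : ℝ × ℝ => m z.1 z.2) (Ici 0 ×ˢ Icc (-κ) κ))
    (hYc : ContinuousOn (fun z : ℝ × ℝ => Y z.1 z.2) (Ici 0 ×ˢ Icc (-κ) κ))
    (hPq : ∀ x : ℝ, 0 ≤ x → ∀ q ∈ Icc (-κ) κ,
      HasDerivWithinAt (fun q => P x q) (m x q) (Icc (-κ) κ) q)
    (hYx : ∀ q ∈ Icc (-κ) κ, ∀ x : ℝ, 0 ≤ x →
      HasDerivWithinAt (fun x => Y x q) (-m x q) (Ici 0) x)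
    (hYL : ∀ x : ℝ, 0 ≤ x → ∀ q ∈ Icc (-κ) κ, ∀ q' ∈ Icc (-κ) κ, q ≤ q' →
      0 ≤ Y x q' - Y x q ∧ Y x q' - Y x q ≤ L * (q' - q))
    {x : ℝ} (hx : 0 ≤ x) {q₁ q₂ : ℝ} (h₁ : -κ ≤ q₁) (h : q₁ ≤ q₂) (h₂ : q₂ ≤ κ) :
    |(∫ t in (0 : ℝ)..x, P t q₁) + (∫ t in (0 : ℝ)..x, P t q₂) -
      2 * ∫ t in (0 : ℝ)..x, P t ((q₁ + q₂) / 2)| ≤ L * κ ^ 2 := by
  obtain ⟨d, hd⟩ : ∃ d : ℝ, d = (q₂ - q₁) / 2 := ⟨_, rfl⟩
  obtain ⟨q₀, hq₀⟩ : ∃ q₀ : ℝ, q₀ = (q₁ + q₂) / 2 := ⟨_, rfl⟩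
  rw [← hq₀]
  have hd0 : 0 ≤ d := by linarith
  have hdκ : d ≤ κ := by linarith
  have hq10 : q₁ ≤ q₀ := by linarith
  have hq02 : q₀ ≤ q₂ := by linarith
  have f1 := sd_fub hPc hmc hYc hPq hYx hx h₁ hq10 (hq02.trans h₂)
  have f2 := sd_fub hPc hmc hYc hPq hYx hx (h₁.trans hq10) hq02 h₂
  have hu : ContinuousOn (fun r => Y 0 r - Y x r) (Icc (-κ) κ) :=
    (sd_slice2 hYc le_rfl).sub (sd_slice2 hYc hx)
  have e1 : q₁ + d = q₀ := by linarith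
  have e2 : q₀ + d = q₂ := by linarith
  have f3 : ∫ r in q₀..q₂, (Y 0 r - Y x r) = ∫ r in q₁..q₀, (Y 0 (r + d) - Y x (r + d)) := by
    have := intervalIntegral.integral_comp_add_right (a := q₁) (b := q₀)
      (fun r => Y 0 r - Y x r) d
    rw [this, e1, e2]
  have i1 : IntervalIntegrable (fun r => Y 0 r - Y x r) MeasureTheory.volume q₁ q₀ := by
    apply ContinuousOn.intervalIntegrable
    rw [uIcc_of_le hq10]
    exact hu.mono (Icc_subset_Icc h₁ (hq02.trans h₂))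
  have i2 : IntervalIntegrable (fun r => Y 0 (r + d) - Y x (r + d)) MeasureTheory.volume q₁ q₀ := by
    apply ContinuousOn.intervalIntegrable
    rw [uIcc_of_le hq10]
    have h3 : ContinuousOn (fun r : ℝ => r + d) (Icc q₁ q₀) := by fun_prop
    exact hu.comp h3 (fun r hr => ⟨by linarith [hr.1], by linarith [hr.2]⟩)
  have f4 : (∫ t in (0 : ℝ)..x, P t q₁) + (∫ t in (0 : ℝ)..x, P t q₂) -
      2 * (∫ t in (0 : ℝ)..x, P t q₀) =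
      ∫ r in q₁..q₀, ((Y 0 (r + d) - Y x (r + d)) - (Y 0 r - Y x r)) := by
    rw [intervalIntegral.integral_sub i2 i1, ← f3, ← f1, ← f2]
    ring
  rw [f4]
  have f5 := intervalIntegral.norm_integral_le_of_norm_le_const (a := q₁) (b := q₀) (C := L * d)
    (f := fun r => (Y 0 (r + d) - Y x (r + d)) - (Y 0 r - Y x r)) (by
      intro r hr
      rw [uIoc_of_le hq10] at hr
      have hr1 : r ∈ Icc (-κ) κ := ⟨by linarith [hr.1], by linarith [hr.2]⟩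
      have hr2 : r + d ∈ Icc (-κ) κ := ⟨by linarith [hr.1], by linarith [hr.2]⟩
      have g1 := hYL 0 le_rfl r hr1 (r + d) hr2 (by linarith)
      have g2 := hYL x hx r hr1 (r + d) hr2 (by linarith)
      have e3 : r + d - r = d := by ring
      rw [e3] at g1 g2
      rw [Real.norm_eq_abs, abs_le]
      constructor
      · linarith [g1.1, g2.2]
      · linarith [g1.2, g2.1])
  rw [Real.norm_eq_abs] at f5
  refine f5.trans ?_
  have e4 : q₀ - q₁ = d := by linarith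
  rw [e4, abs_of_nonneg hd0]
  have e5 : d * d ≤ κ * κ := mul_self_le_mul_self hd0 hdκ
  nlinarith [mul_le_mul_of_nonneg_left e5 hL]

theorem second_diff {κ L : ℝ} (hκ : 0 < κ) (hL : 0 ≤ L) {P Y m : ℝ → ℝ → ℝ}
    (hPc : ContinuousOn (fun z : ℝ × ℝ => P z.1 z.2) (Ici 0 ×ˢ Icc (-κ) κ))
    (hmc : ContinuousOn (fun z : ℝ × ℝ => m z.1 z.2) (Ici 0 ×ˢ Icc (-κ) κ))
    (hYc : ContinuousOn (fun z : ℝ × ℝ => Y z.1 z.2) (Ici 0 ×ˢ Icc (-κ) κ))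
    (hPq : ∀ x : ℝ, 0 ≤ x → ∀ q ∈ Icc (-κ) κ,
      HasDerivWithinAt (fun q => P x q) (m x q) (Icc (-κ) κ) q)
    (hYx : ∀ q ∈ Icc (-κ) κ, ∀ x : ℝ, 0 ≤ x →
      HasDerivWithinAt (fun x => Y x q) (-m x q) (Ici 0) x)
    (hYL : ∀ x : ℝ, 0 ≤ x → ∀ q ∈ Icc (-κ) κ, ∀ q' ∈ Icc (-κ) κ, q ≤ q' →
      0 ≤ Y x q' - Y x q ∧ Y x q' - Y x q ≤ L * (q' - q))
    {x : ℝ} (hx : 0 ≤ x) {q₁ q₂ : ℝ} (h₁ : q₁ ∈ Icc (-κ) κ) (h₂ : q₂ ∈ Icc (-κ) κ) :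
    |(∫ t in (0 : ℝ)..x, P t q₁) + (∫ t in (0 : ℝ)..x, P t q₂) -
      2 * ∫ t in (0 : ℝ)..x, P t ((q₁ + q₂) / 2)| ≤ L * κ ^ 2 := by
  rcases le_total q₁ q₂ with h | h
  · exact sd_le hL hPc hmc hYc hPq hYx hYL hx h₁.1 h h₂.2
  · have h3 := sd_le hL hPc hmc hYc hPq hYx hYL hx h₂.1 h h₁.2
    rw [add_comm q₂ q₁, add_comm (∫ t in (0 : ℝ)..x, P t q₂)] at h3
    exact h3

end Pool.Agent.Helper50.MS
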