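import Pool.Agent.Helper50.MS.MidAffine
import Pool.Agent.Helper50.MS.SecondDiff

/-!
# MS-22  The limit of a strip is affine (pure analysis)

`J = [-κ,κ]`, `x ≥ 0`, hypotheses of MS-21; moreover `P` is antitone in `x` and bounded below, `|m| ≤ M`.
PROOF. (1) The limit `w q = lim_{x→∞} P x q` exists (antitone, bounded below), `w q ≤ P x q`; `|P x q - P x q'| ≤ M |q - q'|` (mean value
inequality) so `|w q - w q'| ≤ M|q - q'|`.
(2) `I x q / x → w q` as `x → ∞`, `I x q = ∫_0^x P t q dt` (Cesàro: for `η > 0` take `x₀` with `w q ≤ P t q ≤ w q + η` for `t ≥ x₀`).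
Divide `second_diff` by `x`: `w q₁ + w q₂ = 2 w ((q₁+q₂)/2)`. `mid_affine`: `w q = α + β q` on `J`; `|β| ≤ M` by (1).
(3) Uniform: given `η`, choose a finite `η/(4(M+1))`-net of `J` (or Dini's theorem); for `x ≥ x₀` `P x q_i < w q_i + η/2` at the
net points, so `P x q < w q + η` on `J` by the Lipschitz bounds.
-/

set_option autoImplicit false

open Filter Topology Set

namespace Pool.Agent.Helper50.MS

private theorem al_lip {κ M : ℝ} {f g : ℝ → ℝ}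
    (hf : ∀ q ∈ Icc (-κ) κ, HasDerivWithinAt f (g q) (Icc (-κ) κ) q)
    (hg : ∀ q ∈ Icc (-κ) κ, |g q| ≤ M) {a b : ℝ} (ha : a ∈ Icc (-κ) κ) (hb : b ∈ Icc (-κ) κ) :
    |f b - f a| ≤ M * |b - a| := by
  have h := (convex_Icc (-κ) κ).norm_image_sub_le_of_norm_hasDerivWithin_le
    (f := f) (f' := g) (C := M) hf (fun x hx => by
      rw [Real.norm_eq_abs]
      exact hg x hx) ha hb
  simpa only [Real.norm_eq_abs] using h

private theorem al_cesaro {f : ℝ → ℝ} {w : ℝ} (hf : ContinuousOn f (Ici 0))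
    (h1 : ∀ x : ℝ, 0 ≤ x → w ≤ f x)
    (h2 : ∀ η : ℝ, 0 < η → ∃ x₀ : ℝ, 0 ≤ x₀ ∧ ∀ x : ℝ, x₀ ≤ x → f x < w + η) :
    ∀ η : ℝ, 0 < η → ∃ X : ℝ, 0 ≤ X ∧ ∀ x : ℝ, X ≤ x →
      w * x ≤ (∫ t in (0:ℝ)..x, f t) ∧ (∫ t in (0:ℝ)..x, f t) ≤ (w + η) * x := by
  intro η hη
  obtain ⟨x₀, hx₀, hx₁⟩ := h2 (η / 2) (by linarith)
  have hint : ∀ a b : ℝ, 0 ≤ a → a ≤ b → IntervalIntegrable f MeasureTheory.volume a b := by
    intro a b ha hab
    apply ContinuousOn.intervalIntegrable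
    rw [uIcc_of_le hab]
    exact hf.mono (fun t ht => ha.trans ht.1)
  obtain ⟨R, hR⟩ : ∃ R : ℝ, R = (∫ t in (0:ℝ)..x₀, f t) - (w + η / 2) * x₀ := ⟨_, rfl⟩
  refine ⟨max x₀ (2 * R / η), le_max_of_le_left hx₀, fun x hx => ?_⟩
  have hx2 : x₀ ≤ x := (le_max_left _ _).trans hx
  have hx3 : 2 * R / η ≤ x := (le_max_right _ _).trans hx
  have hx0 : 0 ≤ x := hx₀.trans hx2
  constructor
  · have h3 : ∫ t in (0:ℝ)..x, w ≤ ∫ t in (0:ℝ)..x, f t := by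
      apply intervalIntegral.integral_mono_on hx0 _ (hint 0 x le_rfl hx0)
      · intro t ht
        exact h1 t ht.1
      · exact intervalIntegrable_const
    rw [intervalIntegral.integral_const, smul_eq_mul, sub_zero] at h3
    linarith [mul_comm x w]
  · have h4 : (∫ t in (0:ℝ)..x₀, f t) + (∫ t in x₀..x, f t) = ∫ t in (0:ℝ)..x, f t :=
      intervalIntegral.integral_add_adjacent_intervals (hint 0 x₀ le_rfl hx₀) (hint x₀ x hx₀ hx2)
    have h5 : ∫ t in x₀..x, f t ≤ ∫ t in x₀..x, (w + η / 2) := by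
      apply intervalIntegral.integral_mono_on hx2 (hint x₀ x hx₀ hx2)
      · exact intervalIntegrable_const
      · intro t ht
        exact (hx₁ t ht.1).le
    rw [intervalIntegral.integral_const, smul_eq_mul] at h5
    have h6 : 2 * R ≤ x * η := by
      rwa [div_le_iff₀ hη] at hx3
    have h7 : (x - x₀) * (w + η / 2) = (w + η / 2) * x - (w + η / 2) * x₀ := by ring
    have h8 : (w + η) * x = (w + η / 2) * x + x * η / 2 := by ring
    linarith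

theorem affine_limit {κ L M B : ℝ} (hκ : 0 < κ) (hL : 0 ≤ L) (hM : 0 ≤ M) {P Y m : ℝ → ℝ → ℝ}
    (hPc : ContinuousOn (fun z : ℝ × ℝ => P z.1 z.2) (Ici 0 ×ˢ Icc (-κ) κ))
    (hmc : ContinuousOn (fun z : ℝ × ℝ => m z.1 z.2) (Ici 0 ×ˢ Icc (-κ) κ))
    (hYc : ContinuousOn (fun z : ℝ × ℝ => Y z.1 z.2) (Ici 0 ×ˢ Icc (-κ) κ))
    (hPq : ∀ x : ℝ, 0 ≤ x → ∀ q ∈ Icc (-κ) κ,
      HasDerivWithinAt (fun q => P x q) (m x q) (Icc (-κ) κ) q)
    (hYx : ∀ q ∈ Icc (-κ) κ, ∀ x : ℝ, 0 ≤ x →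
      HasDerivWithinAt (fun x => Y x q) (-m x q) (Ici 0) x)
    (hYL : ∀ x : ℝ, 0 ≤ x → ∀ q ∈ Icc (-κ) κ, ∀ q' ∈ Icc (-κ) κ, q ≤ q' →
      0 ≤ Y x q' - Y x q ∧ Y x q' - Y x q ≤ L * (q' - q))
    (hmM : ∀ x : ℝ, 0 ≤ x → ∀ q ∈ Icc (-κ) κ, |m x q| ≤ M)
    (hanti : ∀ q ∈ Icc (-κ) κ, AntitoneOn (fun x => P x q) (Ici 0))
    (hbdd : ∀ x : ℝ, 0 ≤ x → ∀ q ∈ Icc (-κ) κ, -B ≤ P x q) :
    ∃ α β : ℝ, |β| ≤ M ∧
      (∀ x : ℝ, 0 ≤ x → ∀ q ∈ Icc (-κ) κ, α + β * q ≤ P x q) ∧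
      ∀ η : ℝ, 0 < η → ∃ x₀ : ℝ, 0 ≤ x₀ ∧ ∀ x : ℝ, x₀ ≤ x → ∀ q ∈ Icc (-κ) κ,
        P x q < α + β * q + η := by
  obtain ⟨w, hw⟩ : ∃ w : ℝ → ℝ, ∀ q, w q = sInf ((fun x => P x q) '' Ici 0) :=
    ⟨fun q => sInf ((fun x => P x q) '' Ici 0), fun q => rfl⟩
  have hbb : ∀ q ∈ Icc (-κ) κ, BddBelow ((fun x => P x q) '' Ici 0) := by
    intro q hq
    refine ⟨-B, ?_⟩
    rintro _ ⟨x, hx, rfl⟩
    exact hbdd x hx q hq
  have hw1 : ∀ q ∈ Icc (-κ) κ, ∀ x : ℝ, 0 ≤ x → w q ≤ P x q := by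
    intro q hq x hx
    rw [hw]
    exact csInf_le (hbb q hq) ⟨x, hx, rfl⟩
  have hw2 : ∀ q ∈ Icc (-κ) κ, ∀ η : ℝ, 0 < η → ∃ x₀ : ℝ, 0 ≤ x₀ ∧
      ∀ x : ℝ, x₀ ≤ x → P x q < w q + η := by
    intro q hq η hη
    have h1 : sInf ((fun x => P x q) '' Ici 0) < w q + η := by
      rw [hw]
      linarith
    have hne : ((fun x => P x q) '' Ici 0).Nonempty := ⟨P 0 q, 0, mem_Ici.2 le_rfl, rfl⟩
    obtain ⟨_, ⟨x₀, hx₀, rfl⟩, h2⟩ := exists_lt_of_csInf_lt hne h1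
    have hx₀' : 0 ≤ x₀ := hx₀
    refine ⟨x₀, hx₀', fun x hx => lt_of_le_of_lt ?_ h2⟩
    exact hanti q hq hx₀ (mem_Ici.2 (hx₀'.trans hx)) hx
  have hPL : ∀ x : ℝ, 0 ≤ x → ∀ q ∈ Icc (-κ) κ, ∀ q' ∈ Icc (-κ) κ,
      |P x q' - P x q| ≤ M * |q' - q| := by
    intro x hx q hq q' hq'
    exact al_lip (f := fun q => P x q) (g := fun q => m x q) (hPq x hx)
      (fun q hq => hmM x hx q hq) hq hq'
  have hwL1 : ∀ q ∈ Icc (-κ) κ, ∀ q' ∈ Icc (-κ) κ, w q' - w q ≤ M * |q' - q| := by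
    intro q hq q' hq'
    apply le_of_forall_pos_le_add
    intro η hη
    obtain ⟨x₀, hx₀, h1⟩ := hw2 q hq η hη
    have h2 := h1 x₀ le_rfl
    have h3 := hw1 q' hq' x₀ hx₀
    have h4 := (abs_le.1 (hPL x₀ hx₀ q hq q' hq')).2
    linarith
  have hwL : ∀ q ∈ Icc (-κ) κ, ∀ q' ∈ Icc (-κ) κ, |w q' - w q| ≤ M * |q' - q| := by
    intro q hq q' hq'
    rw [abs_le]
    constructor
    · have h1 := hwL1 q' hq' q hq
      rw [abs_sub_comm] at h1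
      linarith
    · exact hwL1 q hq q' hq'
  have hwc : ContinuousOn w (Icc (-κ) κ) := by
    have h1 : LipschitzOnWith ⟨M, hM⟩ w (Icc (-κ) κ) := by
      apply LipschitzOnWith.of_dist_le_mul
      intro a ha b hb
      rw [Real.dist_eq, Real.dist_eq]
      exact hwL b hb a ha
    exact h1.continuousOn
  have hPs : ∀ q ∈ Icc (-κ) κ, ContinuousOn (fun x => P x q) (Ici 0) := by
    intro q hq
    have h1 : ContinuousOn (fun x : ℝ => (x, q)) (Ici (0:ℝ)) := by fun_prop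
    exact hPc.comp h1 (fun x hx => ⟨hx, hq⟩)
  have hmid : ∀ q₁ ∈ Icc (-κ) κ, ∀ q₂ ∈ Icc (-κ) κ, w q₁ + w q₂ = 2 * w ((q₁ + q₂) / 2) := by
    intro q₁ h₁ q₂ h₂
    have h₀ : (q₁ + q₂) / 2 ∈ Icc (-κ) κ := ⟨by linarith [h₁.1, h₂.1], by linarith [h₁.2, h₂.2]⟩
    have key : ∀ η : ℝ, 0 < η → |w q₁ + w q₂ - 2 * w ((q₁ + q₂) / 2)| ≤ 0 + 3 * η := by
      intro η hη
      obtain ⟨X1, hX1, a1⟩ := al_cesaro (hPs q₁ h₁) (hw1 q₁ h₁) (hw2 q₁ h₁) η hη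
      obtain ⟨X2, hX2, a2⟩ := al_cesaro (hPs q₂ h₂) (hw1 q₂ h₂) (hw2 q₂ h₂) η hη
      obtain ⟨X0, hX0, a0⟩ := al_cesaro (hPs _ h₀) (hw1 _ h₀) (hw2 _ h₀) η hη
      obtain ⟨x, hxd⟩ : ∃ x : ℝ, x = X1 + X2 + X0 + (L * κ ^ 2 / η + 1) := ⟨_, rfl⟩
      have hpos : 0 ≤ L * κ ^ 2 / η := by positivity
      have hx : 0 < x := by linarith
      have b1 := a1 x (by linarith)
      have b2 := a2 x (by linarith)
      have b0 := a0 x (by linarith)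
      have hsd := abs_le.1 (second_diff hκ hL hPc hmc hYc hPq hYx hYL hx.le h₁ h₂)
      have hLx : L * κ ^ 2 ≤ η * x := by
        have h5 : L * κ ^ 2 / η ≤ x := by linarith
        rw [div_le_iff₀ hη] at h5
        linarith [mul_comm x η]
      obtain ⟨D, hD⟩ : ∃ D : ℝ, D = w q₁ + w q₂ - 2 * w ((q₁ + q₂) / 2) := ⟨_, rfl⟩
      rw [← hD, abs_le]
      have e1 : D * x ≤ 3 * η * x := by
        have : D * x = w q₁ * x + w q₂ * x - 2 * (w ((q₁ + q₂) / 2) * x) := by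
          rw [hD]
          ring
        have e3 : (w ((q₁ + q₂) / 2) + η) * x = w ((q₁ + q₂) / 2) * x + η * x := by ring
        linarith [hsd.2, b1.1, b2.1, b0.2]
      have e2 : -(3 * η) * x ≤ D * x := by
        have : D * x = w q₁ * x + w q₂ * x - 2 * (w ((q₁ + q₂) / 2) * x) := by
          rw [hD]
          ring
        have e3 : (w q₁ + η) * x = w q₁ * x + η * x := by ring
        have e4 : (w q₂ + η) * x = w q₂ * x + η * x := by ring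
        linarith [hsd.1, b1.2, b2.2, b0.1]
      constructor
      · have := le_of_mul_le_mul_right e2 hx
        linarith
      · have := le_of_mul_le_mul_right e1 hx
        linarith
    have h3 : |w q₁ + w q₂ - 2 * w ((q₁ + q₂) / 2)| ≤ 0 := by
      apply le_of_forall_pos_le_add
      intro ε hε
      have := key (ε / 3) (by linarith)
      linarith
    have h4 := abs_nonpos_iff.1 h3
    linarith
  obtain ⟨α, β, hαβ⟩ := mid_affine hκ hwc hmid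
  have hκm : κ ∈ Icc (-κ) κ := ⟨by linarith, le_refl _⟩
  have hκm' : -κ ∈ Icc (-κ) κ := ⟨le_refl _, by linarith⟩
  refine ⟨α, β, ?_, ?_, ?_⟩
  · have h1 := hwL (-κ) hκm' κ hκm
    rw [hαβ _ hκm, hαβ _ hκm'] at h1
    have e1 : α + β * κ - (α + β * -κ) = β * (2 * κ) := by ring
    have e2 : κ - -κ = 2 * κ := by ring
    rw [e1, e2, abs_mul, abs_of_pos (by linarith : (0:ℝ) < 2 * κ)] at h1
    exact le_of_mul_le_mul_right h1 (by linarith)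
  · intro x hx q hq
    rw [← hαβ q hq]
    exact hw1 q hq x hx
  · intro η hη
    have hch : ∀ q, ∃ x₀ : ℝ, q ∈ Icc (-κ) κ → (0 ≤ x₀ ∧ ∀ x : ℝ, x₀ ≤ x → P x q < w q + η / 2) := by
      intro q
      by_cases hq : q ∈ Icc (-κ) κ
      · obtain ⟨x₀, h1, h2⟩ := hw2 q hq (η / 2) (by linarith)
        exact ⟨x₀, fun _ => ⟨h1, h2⟩⟩
      · exact ⟨0, fun h => absurd h hq⟩
    choose f hf using hch
    obtain ⟨δ, hδ⟩ : ∃ δ : ℝ, δ = η / (4 * (M + 1)) := ⟨_, rfl⟩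
    have hδpos : 0 < δ := by
      rw [hδ]
      positivity
    have hMδ : M * δ ≤ η / 4 := by
      have h1 : (M + 1) * δ = η / 4 := by
        rw [hδ]
        field_simp
      nlinarith
    obtain ⟨t, ht, htf, hcov⟩ := (isCompact_Icc (a := -κ) (b := κ)).finite_cover_balls hδpos
    obtain ⟨X, hX⟩ := (htf.image f).bddAbove
    refine ⟨max X 0, le_max_right _ _, fun x hx q hq => ?_⟩
    obtain ⟨q', hq', hqq⟩ := mem_iUnion₂.1 (hcov hq)
    have hq'J : q' ∈ Icc (-κ) κ := ht hq'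
    have hfX : f q' ≤ X := hX (mem_image_of_mem f hq')
    have hx1 : f q' ≤ x := hfX.trans ((le_max_left _ _).trans hx)
    have hx0 : 0 ≤ x := (le_max_right _ _).trans hx
    have h1 := (hf q' hq'J).2 x hx1
    have hdist : |q - q'| ≤ δ := by
      rw [Metric.mem_ball, Real.dist_eq] at hqq
      exact hqq.le
    have h2 := (abs_le.1 (hPL x hx0 q' hq'J q hq)).2
    have h3 := (abs_le.1 (hwL q' hq'J q hq)).1
    have h4 : M * |q - q'| ≤ M * δ := mul_le_mul_of_nonneg_left hdist hM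
    rw [← hαβ q hq]
    linarith

end Pool.Agent.Helper50.MS
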