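import Pool.Agent.Helper50.MS.PicAdapted

/-!
# MS-32  The local picture at every point

PROOF. `h.saddle s` gives `e₁, e₂, k₁, k₂`, `‖A s‖ = max |k₁| |k₂|` (`eigen_norm`). Exchange the two so that `|k₂| = ‖A s‖ > 0` (the triple `![e₂,e₁,N s]` is also
orthonormal). If `k₂ > 0`: the frame `F = (e₁,e₂,N s)` is `Adapted`, and MS-31 (`localPic_adapted`) applies, `σ = -1`. If `k₂ < 0`: `(X,-N,-A)` satisfies `Hyp`
(`hyp_neg`; the local parametrizations are the same), `F = (e₁,e₂,-N s)` is adapted to it; MS-31 gives `LocalPic X (-N) (-A) η s K W e₁ e₂ (-1)`, and `localPic_neg` turns it into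
`LocalPic X N A η s (-K) W (-e₁) (-e₂) 1`.
`localPic_neg`: `(-N s) ∈ ...`: `v ∈ -K ↔ -v ∈ K`; `⟪v, N s⟫ = ⟪-v, -N s⟫`; `IsSect (-N) K W → IsSect N (-K) W` (the sets `W ∩ (-N)⁻¹ K' = W ∩ N⁻¹ (-K')`); `HasRay`: the same sets;
`WallAt X (-N) (-A) W e (-1) v → WallAt X N A W (-e) 1 (-v)`: `‖-N w - v‖ = ‖N w - (-v)‖`; `(-1)⟪(-A w) τ,τ⟫ = 1·⟪A w τ,τ⟫`; `(-1)⟪X w,e⟫ = 1·⟪X w,-e⟫`.
-/

set_option autoImplicit false

open Filter Topology Set
open scoped RealInnerProductSpace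

namespace Pool.Agent.Helper50.MS

variable {S : Type} [TopologicalSpace S] {X N : S → E3} {A : S → End3} {c C : ℝ}

private theorem on_iff {a b n : E3} : Orthonormal ℝ ![a, b, n] ↔
    ‖a‖ = 1 ∧ ‖b‖ = 1 ∧ ‖n‖ = 1 ∧ ⟪a, b⟫ = 0 ∧ ⟪a, n⟫ = 0 ∧ ⟪b, n⟫ = 0 := by
  constructor
  · intro h
    exact ⟨h.1 0, h.1 1, h.1 2, h.2 (show (0 : Fin 3) ≠ 1 by decide),
      h.2 (show (0 : Fin 3) ≠ 2 by decide), h.2 (show (1 : Fin 3) ≠ 2 by decide)⟩
  · rintro ⟨h1, h2, h3, h4, h5, h6⟩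
    have h4' : ⟪b, a⟫ = 0 := by rw [real_inner_comm]; exact h4
    have h5' : ⟪n, a⟫ = 0 := by rw [real_inner_comm]; exact h5
    have h6' : ⟪n, b⟫ = 0 := by rw [real_inner_comm]; exact h6
    refine ⟨fun i => ?_, fun i j hij => ?_⟩
    · fin_cases i
      · exact h1
      · exact h2
      · exact h3
    · fin_cases i <;> fin_cases j
      · exact absurd rfl hij
      · exact h4
      · exact h5
      · exact h4'
      · exact absurd rfl hij
      · exact h6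
      · exact h5'
      · exact h6'
      · exact absurd rfl hij

private theorem on_swap {a b n : E3} (h : Orthonormal ℝ ![a, b, n]) :
    Orthonormal ℝ ![b, a, n] := by
  rw [on_iff] at h ⊢
  obtain ⟨h1, h2, h3, h4, h5, h6⟩ := h
  exact ⟨h2, h1, h3, by rw [real_inner_comm]; exact h4, h6, h5⟩

private theorem on_neg {a b n : E3} (h : Orthonormal ℝ ![a, b, n]) :
    Orthonormal ℝ ![a, b, -n] := by
  rw [on_iff] at h ⊢
  obtain ⟨h1, h2, h3, h4, h5, h6⟩ := h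
  exact ⟨h1, h2, by rw [norm_neg]; exact h3, h4, by rw [inner_neg_right, h5, neg_zero],
    by rw [inner_neg_right, h6, neg_zero]⟩

private theorem param_neg {U : Set (ℝ × ℝ)} {ψ : ℝ × ℝ → S} (h : IsParam X N A U ψ) :
    IsParam X (fun s => -N s) (fun s => -A s) U ψ where
  isOpen := h.isOpen
  cont := h.cont
  inj := h.inj
  openMap := h.openMap
  smoothX := h.smoothX
  smoothN := h.smoothN.neg
  smoothA := h.smoothA.neg
  immersion := h.immersion
  unit := fun u hu => by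
    show ‖-N (ψ u)‖ = 1
    rw [norm_neg]
    exact h.unit u hu
  normal := fun u hu v => by
    show ⟪-N (ψ u), fderiv ℝ (fun u => X (ψ u)) u v⟫ = 0
    rw [inner_neg_left, h.normal u hu v, neg_zero]
  shape := fun u hu v => by
    show (-A (ψ u)) (fderiv ℝ (fun u => X (ψ u)) u v) = -fderiv ℝ (fun u => -N (ψ u)) u v
    rw [fderiv_fun_neg]
    show -(A (ψ u) (fderiv ℝ (fun u => X (ψ u)) u v)) = - -fderiv ℝ (fun u => N (ψ u)) u v
    rw [h.shape u hu v]
  shape_normal := fun u hu => by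
    show (-A (ψ u)) (-N (ψ u)) = 0
    rw [map_neg]
    show - -(A (ψ u) (N (ψ u))) = 0
    rw [h.shape_normal u hu, neg_zero, neg_zero]

theorem hyp_neg (h : Hyp X N A c C) : Hyp X (fun s => -N s) (fun s => -A s) c C := by
  refine ⟨fun s => ?_, h.complete, h.cpos, fun s => ?_, h.one_le, fun U ψ hψ u hu v => ?_,
    fun s => ?_⟩
  · obtain ⟨U, ψ, h1, h2⟩ := h.surf s
    exact ⟨U, ψ, param_neg h1, h2⟩
  · show c ≤ ‖-A s‖
    rw [norm_neg]
    exact h.lower s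
  · have h1 := param_neg hψ
    have e1 : (fun s => - -N s) = N := funext fun s => neg_neg _
    have e2 : (fun s => - -A s) = A := funext fun s => neg_neg _
    rw [e1, e2] at h1
    have h2 := h.grad U ψ h1 u hu v
    show ‖fderiv ℝ (fun u => -A (ψ u)) u v‖ ≤
      C * ‖-A (ψ u)‖ ^ 2 * ‖fderiv ℝ (fun u => X (ψ u)) u v‖
    rw [fderiv_fun_neg, norm_neg]
    show ‖-(fderiv ℝ (fun u => A (ψ u)) u v)‖ ≤ _
    rw [norm_neg]
    exact h2
  · obtain ⟨e₁, e₂, k₁, k₂, on, h1, h2, h3, h4⟩ := h.saddle s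
    refine ⟨e₁, e₂, -k₁, -k₂, on_neg on, ?_, ?_, ?_, by rw [neg_mul_neg]; exact h4⟩
    · show -(A s e₁) = (-k₁) • e₁
      rw [h1, neg_smul]
    · show -(A s e₂) = (-k₂) • e₂
      rw [h2, neg_smul]
    · show -(A s (-N s)) = 0
      rw [map_neg, h3, neg_zero, neg_zero]

private theorem in_neg (x e : E3) : ⟪-x, e⟫ = ⟪x, -e⟫ := by
  rw [inner_neg_left, inner_neg_right]

private theorem nrm_neg (x v : E3) : ‖-x - -v‖ = ‖x - v‖ := by
  rw [← neg_sub', norm_neg]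

private theorem nrm_neg' (x v : E3) : ‖-x - v‖ = ‖x - -v‖ := by
  rw [← nrm_neg x (-v), neg_neg]

private theorem ray_neg {w : S} (h : HasRay X (fun s => -N s) w) : HasRay X N w := by
  obtain ⟨R, h1, h2, h3, h4⟩ := h
  exact ⟨R, h1, h2, fun r hr => neg_injective (h3 r hr), h4⟩

private theorem sect_neg {K : Set E3} {W : Set S} (h : IsSect (fun s => -N s) K W) :
    IsSect N {v | -v ∈ K} W where
  openW := h.openW
  maps := fun w hw => h.maps w hw
  proper := fun K' hK' hsub => by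
    have h1 := h.proper (-K') hK'.neg (fun v hv => by
      have h2 := hsub (Set.mem_neg.1 hv)
      have h3 : - -v ∈ K := h2
      rwa [neg_neg] at h3)
    have e : W ∩ N ⁻¹' K' = W ∩ (fun s => -N s) ⁻¹' (-K') := by
      ext w
      rw [Set.mem_inter_iff, Set.mem_inter_iff, Set.mem_preimage, Set.mem_preimage, Set.mem_neg,
        neg_neg]
    rw [e]
    exact h1
  nonempty := fun v hv hv1 => by
    obtain ⟨w, hw1, hw2⟩ := h.nonempty (-v) hv (by rw [norm_neg]; exact hv1)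
    exact ⟨w, hw1, neg_injective hw2⟩
  conn := fun v hv hv1 => by
    have h1 := h.conn (-v) hv (by rw [norm_neg]; exact hv1)
    have e : W ∩ N ⁻¹' {v} = W ∩ (fun s => -N s) ⁻¹' {-v} := by
      ext w
      rw [Set.mem_inter_iff, Set.mem_inter_iff, Set.mem_preimage, Set.mem_preimage,
        Set.mem_singleton_iff, Set.mem_singleton_iff, neg_inj]
    rw [e]
    exact h1

private theorem wall_neg {W : Set S} {e v : E3}
    (h : WallAt X (fun s => -N s) (fun s => -A s) W e (-1) v) : WallAt X N A W (-e) 1 (-v) where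
  sign := by
    obtain ⟨ρ, hρ, h1⟩ := h.sign
    refine ⟨ρ, hρ, fun w hw hwv τ h2 h3 h4 => ?_⟩
    have h5 : ‖-N w - v‖ < ρ := by
      rw [nrm_neg']
      exact hwv
    have h6 := h1 w hw h5 τ (by show ⟪τ, -N w⟫ = 0; rw [inner_neg_right, h2, neg_zero])
      (by rw [inner_neg_right, neg_eq_zero] at h3; exact h3) h4
    have h7 : (-1 : ℝ) * ⟪-(A w τ), τ⟫ < 0 := h6
    rw [inner_neg_left] at h7
    linarith
  lower := fun w hw hwv ε hε => by
    obtain ⟨w', h1, h2, h3⟩ := h.lower w hw (by show -N w = v; rw [hwv, neg_neg]) ε hε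
    have h4 : ‖-N w' - v‖ < ε := h2
    rw [nrm_neg'] at h4
    refine ⟨w', h1, h4, ?_⟩
    rw [inner_neg_right, inner_neg_right]
    linarith
  compact := by
    obtain ⟨ρ, hρ, h1⟩ := h.compact
    refine ⟨ρ, hρ, fun M => ?_⟩
    obtain ⟨K, hK, h2⟩ := h1 M
    refine ⟨K, hK, ?_⟩
    rintro w ⟨h3, h4, h5⟩
    refine h2 ⟨h3, ?_, ?_⟩
    · show ‖-N w - v‖ ≤ ρ
      rw [nrm_neg']
      exact h4
    · rw [inner_neg_right] at h5
      linarith


theorem localPic_neg {η : ℝ} {s : S} {K : Set E3} {W : Set S} {e₁ e₂ : E3}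
    (h : LocalPic X (fun s => -N s) (fun s => -A s) η s K W e₁ e₂ (-1)) :
    LocalPic X N A η s {v | -v ∈ K} W (-e₁) (-e₂) 1 := by
  have hb : ∀ v : E3, ‖v - N s‖ < η → ‖-v - -N s‖ < η := fun v hv => by
    rw [nrm_neg]
    exact hv
  refine ⟨⟨h.cone.isOpen.preimage continuous_neg, fun v hv t ht => ?_, ?_⟩, h.convex.neg,
    fun v hv => ?_, sect_neg h.sect, ?_, ?_, Or.inl rfl, fun v hv => ?_, fun hr => ?_,
    fun h1 h2 => ?_, fun h1 h2 v hv h3 => ?_, fun h1 h2 v hv1 hv h3 h4 => ?_,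
    fun h1 h2 v hv1 hv h3 h4 => ?_⟩
  · have h1 := h.cone.smul (-v) hv t ht
    show -(t • v) ∈ K
    rw [← smul_neg]
    exact h1
  · show ¬ -(0 : E3) ∈ K
    rw [neg_zero]
    exact h.cone.zero
  · have h1 : 0 < ⟪-v, -N s⟫ := h.pos (-v) hv
    rwa [inner_neg_neg] at h1
  · rw [norm_neg]
    exact h.unit₁
  · rw [norm_neg]
    exact h.unit₂
  · have h1 := h.ball (-v) (hb v hv)
    rw [in_neg, in_neg] at h1
    exact h1
  · refine ray_neg (h.ray fun h1 => hr ?_)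
    have h2 : 0 < ⟪-N s, e₁⟫ ∧ 0 < ⟪-N s, e₂⟫ := h1
    rwa [in_neg, in_neg] at h2
  · refine h.mem ?_ ?_
    · show 0 < ⟪-N s, e₁⟫
      rw [in_neg]
      exact h1
    · show 0 < ⟪-N s, e₂⟫
      rw [in_neg]
      exact h2
  · refine h.disj ?_ ?_ (-v) (hb v hv) ?_
    · show 0 < ⟪-N s, e₁⟫
      rw [in_neg]
      exact h1
    · show 0 < ⟪-N s, e₂⟫
      rw [in_neg]
      exact h2
    · rw [in_neg, in_neg]
      exact h3
  · have h5 := h.wall₁ (by show 0 < ⟪-N s, e₁⟫; rw [in_neg]; exact h1)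
      (by show 0 < ⟪-N s, e₂⟫; rw [in_neg]; exact h2) (-v) (by rw [norm_neg]; exact hv1)
      (hb v hv) (by rw [in_neg]; exact h3) (by rw [in_neg]; exact h4)
    have h6 := wall_neg h5.1
    rw [neg_neg] at h6
    exact ⟨h6, fun w hw hwv => ray_neg (h5.2 w hw (by show -N w = -v; rw [hwv]))⟩
  · have h5 := h.wall₂ (by show 0 < ⟪-N s, e₁⟫; rw [in_neg]; exact h1)
      (by show 0 < ⟪-N s, e₂⟫; rw [in_neg]; exact h2) (-v) (by rw [norm_neg]; exact hv1)
      (hb v hv) (by rw [in_neg]; exact h3) (by rw [in_neg]; exact h4)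
    have h6 := wall_neg h5.1
    rw [neg_neg] at h6
    exact ⟨h6, fun w hw hwv => ray_neg (h5.2 w hw (by show -N w = -v; rw [hwv]))⟩

private theorem pic_aux [T2Space S] (h : Hyp X N A c C) (s : S) {e₁ e₂ : E3} {k₁ k₂ : ℝ}
    (on : Orthonormal ℝ ![e₁, e₂, N s]) (h1 : A s e₁ = k₁ • e₁) (h2 : A s e₂ = k₂ • e₂)
    (h3 : A s (N s) = 0) (hk : |k₂| = ‖A s‖) :
    ∃ (K : Set E3) (W : Set S) (e₁ e₂ : E3) (σ : ℝ),
      LocalPic X N A (del C / 100) s K W e₁ e₂ σ := by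
  rcases le_or_gt 0 k₂ with hk2 | hk2
  · rw [abs_of_nonneg hk2] at hk
    obtain ⟨K, W, e₁, e₂, hp⟩ := localPic_adapted h ⟨e₁, e₂, N s, on⟩
      (s := s) ⟨rfl, by rw [← hk]; exact h2, ⟨k₁, h1⟩, h3⟩
    exact ⟨K, W, e₁, e₂, -1, hp⟩
  · rw [abs_of_neg hk2] at hk
    obtain ⟨K, W, f₁, f₂, hp⟩ := localPic_adapted (hyp_neg h) ⟨e₁, e₂, -N s, on_neg on⟩
      (s := s) ⟨rfl, by
        show -(A s e₂) = ‖-A s‖ • e₂
        rw [norm_neg, ← hk, h2, neg_smul], ⟨-k₁, by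
        show -(A s e₁) = (-k₁) • e₁
        rw [h1, neg_smul]⟩, by
        show -(A s (-N s)) = 0
        rw [map_neg, h3, neg_zero, neg_zero]⟩
    exact ⟨_, W, _, _, 1, localPic_neg hp⟩


theorem localPic_exists [T2Space S] (h : Hyp X N A c C) (s : S) :
    ∃ (K : Set E3) (W : Set S) (e₁ e₂ : E3) (σ : ℝ),
      LocalPic X N A (del C / 100) s K W e₁ e₂ σ := by
  obtain ⟨e₁, e₂, k₁, k₂, on, h1, h2, h3, -⟩ := h.saddle s
  have hn := eigen_norm on h1 h2 h3
  rcases max_cases |k₁| |k₂| with ⟨h4, -⟩ | ⟨h4, -⟩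
  · exact pic_aux h s (on_swap on) h2 h1 h3 (by rw [hn, h4])
  · exact pic_aux h s on h1 h2 h3 (by rw [hn, h4])


end Pool.Agent.Helper50.MS
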