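import Pool.Agent.Helper50.MS.SectBasic

/-!
# MS-40  Wall properties are local

The properties `WallAt` at `v` only depend on the part of `W` over a ball around `v`. `sign`: radius `min`. `lower`: `w ∈ closure W'`, `N w = v`: `w ∈ closure W` since `W`, `W'` agree on the
open set `N⁻¹ (ball v ρ) ∋ w`; take `w'` for `min ε ρ`. `compact`: radius `min ρ₁ (ρ/2)`.
-/

set_option autoImplicit false

open Filter Topology Set
open scoped RealInnerProductSpace

namespace Pool.Agent.Helper50.MS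

variable {S : Type} [TopologicalSpace S] [T2Space S] {X N : S → E3} {A : S → End3}

theorem wallAt_congr (hN : Continuous N) {W W' : Set S} {e : E3} {σ : ℝ} {v : E3} {ρ : ℝ}
    (hρ : 0 < ρ) (h : ∀ w : S, ‖N w - v‖ < ρ → (w ∈ W ↔ w ∈ W')) (hW : WallAt X N A W e σ v) :
    WallAt X N A W' e σ v := by
  refine ⟨?_, ?_, ?_⟩
  · obtain ⟨ρ', hρ', hs⟩ := hW.sign
    refine ⟨min ρ ρ', lt_min hρ hρ', fun w hw hwv τ h1 h2 h3 => ?_⟩
    exact hs w ((h w (lt_of_lt_of_le hwv (min_le_left _ _))).2 hw)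
      (lt_of_lt_of_le hwv (min_le_right _ _)) τ h1 h2 h3
  · intro w hw hwv ε hε
    have hcl : w ∈ closure W := by
      rw [mem_closure_iff_nhds] at hw ⊢
      intro t ht
      have hopen : {w' | ‖N w' - v‖ < ρ} ∈ 𝓝 w := by
        have hc : Continuous fun w' => ‖N w' - v‖ := (hN.sub continuous_const).norm
        refine (isOpen_lt hc continuous_const).mem_nhds ?_
        change ‖N w - v‖ < ρ
        rw [hwv, sub_self, norm_zero]
        exact hρ
      obtain ⟨w', ⟨h1, h2⟩, h3⟩ := hw _ (inter_mem ht hopen)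
      exact ⟨w', h1, (h w' h2).2 h3⟩
    obtain ⟨w', hw', h1, h2⟩ := hW.lower w hcl hwv (min ε ρ) (lt_min hε hρ)
    exact ⟨w', (h w' (lt_of_lt_of_le h1 (min_le_right _ _))).1 hw',
      lt_of_lt_of_le h1 (min_le_left _ _), h2⟩
  · obtain ⟨ρ₁, hρ₁, hc⟩ := hW.compact
    refine ⟨min ρ₁ (ρ / 2), lt_min hρ₁ (by positivity), fun M => ?_⟩
    obtain ⟨K, hK, hsub⟩ := hc M
    refine ⟨K, hK, ?_⟩
    rintro w ⟨h1, h2, h3⟩
    have h4 : ‖N w - v‖ < ρ := by
      have := h2.trans (min_le_right _ _)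
      linarith
    exact hsub ⟨(h w h4).2 h1, h2.trans (min_le_left _ _), h3⟩

end Pool.Agent.Helper50.MS
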