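import Pool.Agent.Helper50.MS.ExtendMax
import Pool.Agent.Helper50.MS.WallCongr

/-!
# MS-41  Boundary points of the largest section

`boundary`. `v` unit, `v ∉ Ks`, `v + t v₀ ∈ Ks` for all `t > 0`. PROOF. Fix `0 < t ≤ η/16`, `t ≤ 1/16`. `z = v + t v₀ ∈ Ks`, `1 - t ≤ ‖z‖ ≤ 1 + t`, `u = z/‖z‖ ∈ Ks`, `‖u - v‖ ≤ 2t`. Take `s ∈ Ws` with
`N s = u` and `LocalPic` at `s`: `K, W, e₁, e₂, σ`. `ray_bounded` and `LocalPic.ray` give `0 < ⟪N s,e_i⟫`; so `s ∈ W`. `extend_max` gives `B`, `N s ∈ B`, so `z ∈ B`, and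
 (*) if `x ∈ K`, `τ ≥ 0`, `x + τ v₀ ∈ B` then `x ∈ Ks`, and, for unit `x`, the fibres of `Ws` and `W` over `x` agree. (For `x ≠ 0` not a unit vector apply it to `x/‖x‖`, `τ/‖x‖`.)
Let `f_i t' = ⟪v + t' v₀, e_i⟫` (affine), `f_i t > 0`. `‖v + t'v₀ - N s‖ ≤ 3t < η` for `0 ≤ t' ≤ t`. So `v + t'v₀ ∈ K` iff `f₁ t' > 0` and `f₂ t' > 0` (`ball`); in this case (*) applies to it with
`τ = t - t'`.
 (a) `f₁ 0 > 0` and `f₂ 0 > 0` is impossible: then `v ∈ K`, `v + t v₀ ∈ B`, so `v ∈ Ks`.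
 (b) GENERAL STEP (no wall inside): if `x` is a vector with `‖x - v‖ ≤ t`..., `x + t v₀ ∈ B`, `0 ≤ t₁ < t`, `y = x + t₁ v₀ ∈ Ks`, `⟪y,e_i⟫ = 0`, `⟪y,e_j⟫ > 0`, and for `t₁ < t' ≤ t` `x + t'v₀` has both products positive,
 then False: for `t' > t₁`, `x + t' v₀ ∈ K` and (*) holds there, so the normalized vectors `u' → y/‖y‖` (as `t' → t₁`) are as in `no_wall`; `y/‖y‖` is a unit vector within `η` of `N s`, on the wall `e_i`: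
 `wall₁`/`wall₂` of `LocalPic` give `HasRay` for the points of `closure W` over it. (All norms: `|‖y‖ - 1| ≤ 2t`, `‖y/‖y‖ - N s‖ ≤ 8t < η`.)
 (c) Let `t₁` be the largest `t' ∈ [0,t)` with `f₁ t' ≤ 0` or `f₂ t' ≤ 0` (exists by (a); `f_i` affine, `f_i t > 0`). One of them is `0` there, the other `≥ 0`, so `> 0` by `disj`. If `t₁ > 0` then
 `v + t₁v₀ ∈ Ks` contradicts (b) with `x = v`. So `t₁ = 0`: `⟪v,e_i⟫ = 0 < ⟪v,e_j⟫`, and `t ⟪v₀,e_i⟫ = f_i t > 0`. Put `e = e_i`.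
 (d) choose `δ ≤ t` with, for `‖x - v‖ < δ`: `x + t v₀ ∈ B`, `⟪x + t'v₀,e_j⟫ > 0` for `0 ≤ t' ≤ t`, `⟪x + t v₀,e⟫ > 0`. Then `x ∈ Ks ↔ 0 < ⟪x,e⟫`: (⇐) `x ∈ K` by `ball`, (*) with `τ = t`. (⇒) if `x ∈ Ks`
 and `⟪x,e⟫ ≤ 0`, let `t₁ ∈ [0,t)` be the zero of `t' ↦ ⟪x + t'v₀,e⟫` (increasing): `x + t₁v₀ ∈ Ks` (`IsStar.add`): contradiction with (b).
 (e) for unit `u`, `‖u - v‖ < δ`, `⟪u,e⟫ = 0`: `WallAt X N A W e σ u` by `LocalPic` (`0 < ⟪u,e_j⟫`), and `wallAt_congr`: for `‖N w - u‖ < δ - ‖u - v‖`: `w ∈ Ws → N w ∈ Ks → 0 < ⟪N w,e⟫ → N w ∈ K`, `N w + t v₀ ∈ B`, so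
 the fibres agree over `N w` and `w ∈ W`; `w ∈ W → N w ∈ K → 0 < ⟪N w,e⟫` → the same.
-/

set_option autoImplicit false

open Filter Topology Set
open scoped RealInnerProductSpace

namespace Pool.Agent.Helper50.MS

variable {S : Type} [TopologicalSpace S] [T2Space S] {X N : S → E3} {A : S → End3}

/-- The situation of the proof. -/
private structure Ctx (X N : S → E3) (A : S → End3) (η t σ : ℝ) (v v₀ n e e' : E3) (s₀ : S)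
    (Ks K B : Set E3) (Ws W : Set S) : Prop where
  hmax : IsMax N v₀ s₀ Ks Ws
  hv : ‖v‖ = 1
  hv₀ : ‖v₀‖ = 1
  t0 : 0 < t
  tη : t ≤ η / 16
  t1 : t ≤ 1 / 16
  hn : ‖v - n‖ ≤ 2 * t
  Kcone : IsCone K
  maps : ∀ w ∈ W, N w ∈ K
  Bcone : IsCone B
  hB : ∀ x ∈ K, ∀ τ : ℝ, 0 ≤ τ → x + τ • v₀ ∈ B →
    x ∈ Ks ∧ (‖x‖ = 1 → Ws ∩ N ⁻¹' {x} = W ∩ N ⁻¹' {x})
  zB : v + t • v₀ ∈ B
  ue : ‖e‖ = 1
  ue' : ‖e'‖ = 1
  ball : ∀ x : E3, ‖x - n‖ < η → (x ∈ K ↔ 0 < ⟪x, e⟫ ∧ 0 < ⟪x, e'⟫)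
  wall : ∀ x : E3, ‖x‖ = 1 → ‖x - n‖ < η → ⟪x, e⟫ = 0 → 0 < ⟪x, e'⟫ →
    WallAt X N A W e σ x ∧ ∀ w ∈ closure W, N w = x → HasRay X N w

private theorem norm_near {x v v₀ : E3} {t t' : ℝ} (hv₀ : ‖v₀‖ = 1)
    (hx : ‖x - v‖ ≤ t) (h0 : 0 ≤ t') (h1 : t' ≤ t) : ‖x + t' • v₀ - v‖ ≤ 2 * t := by
  have h2 : x + t' • v₀ - v = (x - v) + t' • v₀ := by abel
  rw [h2]
  refine (norm_add_le _ _).trans ?_
  rw [norm_smul, hv₀, mul_one, Real.norm_of_nonneg h0]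
  linarith

private theorem no_inside (hX : Continuous X) (hN : Continuous N) {η t σ : ℝ}
    {v v₀ n e e' : E3} {s₀ : S} {Ks K B : Set E3} {Ws W : Set S}
    (c : Ctx X N A η t σ v v₀ n e e' s₀ Ks K B Ws W) {x : E3} (hx : ‖x - v‖ ≤ t)
    (hxB : x + t • v₀ ∈ B) {t₁ : ℝ} (h0 : 0 ≤ t₁) (h1 : t₁ < t) (hy : x + t₁ • v₀ ∈ Ks)
    (hye : ⟪x + t₁ • v₀, e⟫ = 0) (hye' : 0 < ⟪x + t₁ • v₀, e'⟫)
    (hpos : ∀ t' : ℝ, t₁ < t' → t' ≤ t → 0 < ⟪x + t' • v₀, e⟫ ∧ 0 < ⟪x + t' • v₀, e'⟫) :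
    False := by
  have ht0 := c.t0
  have htη := c.tη
  have ht1 := c.t1
  -- norms
  have hnear : ∀ t' : ℝ, 0 ≤ t' → t' ≤ t → ‖x + t' • v₀ - v‖ ≤ 2 * t :=
    fun t' h2 h3 => norm_near c.hv₀ hx h2 h3
  have hnorm : ∀ t' : ℝ, 0 ≤ t' → t' ≤ t → |‖x + t' • v₀‖ - 1| ≤ 2 * t := by
    intro t' h2 h3
    rw [← c.hv]
    exact (abs_norm_sub_norm_le _ _).trans (hnear t' h2 h3)
  have hnpos : ∀ t' : ℝ, 0 ≤ t' → t' ≤ t → 0 < ‖x + t' • v₀‖ := by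
    intro t' h2 h3
    have h4 := (abs_le.1 (hnorm t' h2 h3)).1
    linarith
  have hn' : ∀ t' : ℝ, 0 ≤ t' → t' ≤ t → ‖x + t' • v₀ - n‖ < η := by
    intro t' h2 h3
    have h4 : x + t' • v₀ - n = (x + t' • v₀ - v) + (v - n) := by abel
    rw [h4]
    refine lt_of_le_of_lt (norm_add_le _ _) ?_
    have h5 := hnear t' h2 h3
    have h6 := c.hn
    linarith
  have hun : ∀ t' : ℝ, 0 ≤ t' → t' ≤ t → ‖‖x + t' • v₀‖⁻¹ • (x + t' • v₀)‖ = 1 := by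
    intro t' h2 h3
    rw [norm_smul, norm_inv, norm_norm, inv_mul_cancel₀ (hnpos t' h2 h3).ne']
  have hun' : ∀ t' : ℝ, 0 ≤ t' → t' ≤ t →
      ‖‖x + t' • v₀‖⁻¹ • (x + t' • v₀) - n‖ < η := by
    intro t' h2 h3
    have h4 : ‖x + t' • v₀‖⁻¹ • (x + t' • v₀) - n
        = (‖x + t' • v₀‖⁻¹ • (x + t' • v₀) - (x + t' • v₀)) + ((x + t' • v₀ - v) + (v - n)) := by
      abel
    have h5 : ‖‖x + t' • v₀‖⁻¹ • (x + t' • v₀) - (x + t' • v₀)‖ ≤ 2 * t := by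
      have h6 : ‖x + t' • v₀‖⁻¹ • (x + t' • v₀) - (x + t' • v₀)
          = (‖x + t' • v₀‖⁻¹ - 1) • (x + t' • v₀) := by
        rw [sub_smul, one_smul]
      rw [h6, norm_smul, Real.norm_eq_abs, ← abs_of_pos (hnpos t' h2 h3), ← abs_mul,
        abs_of_pos (hnpos t' h2 h3), sub_mul, inv_mul_cancel₀ (hnpos t' h2 h3).ne', one_mul,
        abs_sub_comm]
      exact hnorm t' h2 h3
    rw [h4]
    refine lt_of_le_of_lt (norm_add_le _ _) ?_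
    have h7 := norm_add_le (x + t' • v₀ - v) (v - n)
    have h8 := hnear t' h2 h3
    have h9 := c.hn
    linarith
  set y : E3 := ‖x + t₁ • v₀‖⁻¹ • (x + t₁ • v₀) with hydef
  have hyinv : 0 < ‖x + t₁ • v₀‖⁻¹ := inv_pos.2 (hnpos t₁ h0 h1.le)
  have hyK : y ∈ Ks := c.hmax.star.cone.smul _ hy _ hyinv
  have hy1 : ‖y‖ = 1 := hun t₁ h0 h1.le
  have hyn : ‖y - n‖ < η := hun' t₁ h0 h1.le
  have hyE : ⟪y, e⟫ = 0 := by
    rw [hydef, real_inner_smul_left, hye, mul_zero]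
  have hyE' : 0 < ⟪y, e'⟫ := by
    rw [hydef, real_inner_smul_left]
    exact mul_pos hyinv hye'
  refine no_wall hX hN c.hmax hyK hy1 (W := W) ?_ (c.wall y hy1 hyn hyE hyE').2
  intro ε hε
  -- points just above
  have hcont : ContinuousAt (fun t' : ℝ => ‖x + t' • v₀‖⁻¹ • (x + t' • v₀)) t₁ := by
    have hc1 : ContinuousAt (fun t' : ℝ => x + t' • v₀) t₁ :=
      (continuous_const.add (continuous_id.smul continuous_const)).continuousAt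
    exact (hc1.norm.inv₀ (hnpos t₁ h0 h1.le).ne').smul hc1
  have hev : ∀ᶠ t' in 𝓝[>] t₁, ‖‖x + t' • v₀‖⁻¹ • (x + t' • v₀) - y‖ < ε := by
    have h2 := (Metric.tendsto_nhds.1 hcont.tendsto) ε hε
    have h3 : ∀ᶠ t' in 𝓝 t₁, ‖‖x + t' • v₀‖⁻¹ • (x + t' • v₀) - y‖ < ε := by
      filter_upwards [h2] with t' ht'
      rw [dist_eq_norm] at ht'
      exact ht'
    exact nhdsWithin_le_nhds h3
  have hev2 : ∀ᶠ t' in 𝓝[>] t₁, t' ∈ Ioo t₁ t := Ioo_mem_nhdsGT h1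
  obtain ⟨t', ht1', ht2'⟩ := (hev.and hev2).exists
  have h2 : 0 ≤ t' := h0.trans ht2'.1.le
  have h3 : t' ≤ t := ht2'.2.le
  have hp := hpos t' ht2'.1 h3
  have hyK' : x + t' • v₀ ∈ K := (c.ball _ (hn' t' h2 h3)).2 hp
  have hinv : 0 < ‖x + t' • v₀‖⁻¹ := inv_pos.2 (hnpos t' h2 h3)
  have hu1 : ‖x + t' • v₀‖⁻¹ • (x + t' • v₀) ∈ K := c.Kcone.smul _ hyK' _ hinv
  have hu2 : ‖x + t' • v₀‖⁻¹ • (x + t' • v₀) + (‖x + t' • v₀‖⁻¹ * (t - t')) • v₀ ∈ B := by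
    have h4 : ‖x + t' • v₀‖⁻¹ • (x + t' • v₀) + (‖x + t' • v₀‖⁻¹ * (t - t')) • v₀
        = ‖x + t' • v₀‖⁻¹ • (x + t • v₀) := by
      module
    rw [h4]
    exact c.Bcone.smul _ hxB _ hinv
  obtain ⟨h5, h6⟩ := c.hB _ hu1 _ (mul_nonneg hinv.le (by linarith)) hu2
  exact ⟨_, h5, hun t' h2 h3, ht1', h6 (hun t' h2 h3)⟩

private theorem ctx_main (hX : Continuous X) (hN : Continuous N) (hU : ∀ s, ‖N s‖ = 1)
    {η t σ : ℝ} {v v₀ n e e' : E3} {s₀ : S} {Ks K B : Set E3} {Ws W : Set S}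
    (c : Ctx X N A η t σ v v₀ n e e' s₀ Ks K B Ws W) (hσ : σ = 1 ∨ σ = -1)
    (hray : ∀ t : ℝ, 0 < t → v + t • v₀ ∈ Ks) {t₁ : ℝ} (h0 : 0 ≤ t₁) (h1 : t₁ < t)
    (hye : ⟪v + t₁ • v₀, e⟫ = 0)
    (hye' : ∀ t' : ℝ, t₁ ≤ t' → t' ≤ t → 0 < ⟪v + t' • v₀, e'⟫)
    (hpos : ∀ t' : ℝ, t₁ < t' → t' ≤ t → 0 < ⟪v + t' • v₀, e⟫) :
    ∃ (e : E3) (σ δ : ℝ), ‖e‖ = 1 ∧ (σ = 1 ∨ σ = -1) ∧ 0 < δ ∧ ⟪v, e⟫ = 0 ∧ 0 < ⟪v₀, e⟫ ∧
      (∀ u : E3, ‖u - v‖ < δ → (u ∈ Ks ↔ 0 < ⟪u, e⟫)) ∧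
      ∀ u : E3, ‖u‖ = 1 → ‖u - v‖ < δ → ⟪u, e⟫ = 0 → WallAt X N A Ws e σ u := by
  have ht0 := c.t0
  have htη := c.tη
  have hcn := c.hn
  -- the wall passes through `v`
  have ht₁ : t₁ = 0 := by
    by_contra hne
    have hpos₁ : 0 < t₁ := lt_of_le_of_ne h0 (Ne.symm hne)
    exact no_inside hX hN c (by rw [sub_self, norm_zero]; exact ht0.le) c.zB h0 h1 (hray t₁ hpos₁)
      hye (hye' t₁ le_rfl h1.le) (fun t' h2 h3 => ⟨hpos t' h2 h3, hye' t' h2.le h3⟩)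
  subst ht₁
  rw [zero_smul, add_zero] at hye
  have hv' : 0 < ⟪v, e'⟫ := by
    have h2 := hye' 0 le_rfl h1.le
    rwa [zero_smul, add_zero] at h2
  have hte : 0 < t * ⟪v₀, e⟫ := by
    have h2 := hpos t h1 le_rfl
    rwa [inner_add_left, real_inner_smul_left, hye, zero_add] at h2
  have hv₀e : 0 < ⟪v₀, e⟫ := (mul_pos_iff_of_pos_left ht0).1 hte
  obtain ⟨r, hr, hrB⟩ := Metric.isOpen_iff.1 c.Bcone.isOpen _ c.zB
  have hte' : 0 < ⟪v + t • v₀, e'⟫ := hye' t h1.le le_rfl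
  obtain ⟨δ, hδ0, hδt, hδr, hδm, hδm', hδe⟩ : ∃ δ : ℝ, 0 < δ ∧ δ ≤ t ∧ δ ≤ r ∧ δ ≤ ⟪v, e'⟫ ∧
      δ ≤ ⟪v + t • v₀, e'⟫ ∧ δ ≤ t * ⟪v₀, e⟫ := by
    refine ⟨min (min t r) (min (min ⟪v, e'⟫ ⟪v + t • v₀, e'⟫) (t * ⟪v₀, e⟫)), ?_, ?_, ?_, ?_, ?_,
      ?_⟩
    · exact lt_min (lt_min ht0 hr) (lt_min (lt_min hv' hte') hte)
    · exact (min_le_left _ _).trans (min_le_left _ _)
    · exact (min_le_left _ _).trans (min_le_right _ _)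
    · exact (min_le_right _ _).trans ((min_le_left _ _).trans (min_le_left _ _))
    · exact (min_le_right _ _).trans ((min_le_left _ _).trans (min_le_right _ _))
    · exact (min_le_right _ _).trans (min_le_right _ _)
  have hin : ∀ (x f : E3), ‖f‖ = 1 → -‖x - v‖ ≤ ⟪x, f⟫ - ⟪v, f⟫ := by
    intro x f hf
    have h2 := abs_real_inner_le_norm (x - v) f
    rw [hf, mul_one, inner_sub_left] at h2
    exact (abs_le.1 h2).1
  have hxB : ∀ x : E3, ‖x - v‖ < δ → x + t • v₀ ∈ B := by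
    intro x hx
    refine hrB ?_
    rw [Metric.mem_ball, dist_eq_norm]
    have h2 : x + t • v₀ - (v + t • v₀) = x - v := by abel
    rw [h2]
    linarith
  have hxe' : ∀ x : E3, ‖x - v‖ < δ → ∀ t' : ℝ, 0 ≤ t' → t' ≤ t → 0 < ⟪x + t' • v₀, e'⟫ := by
    intro x hx t' h2 h3
    have h4 := hin x e' c.ue'
    rw [inner_add_left, real_inner_smul_left]
    rw [inner_add_left, real_inner_smul_left] at hδm'
    have h5 : ‖x - v‖ * t < ⟪v, e'⟫ * t + t' * t * ⟪v₀, e'⟫ := by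
      have h6 : ‖x - v‖ * t < δ * t := mul_lt_mul_of_pos_right hx ht0
      have h7 : δ * (t - t') ≤ ⟪v, e'⟫ * (t - t') :=
        mul_le_mul_of_nonneg_right hδm (by linarith)
      have h8 : δ * t' ≤ (⟪v, e'⟫ + t * ⟪v₀, e'⟫) * t' := mul_le_mul_of_nonneg_right hδm' h2
      nlinarith
    have h9 : 0 < (⟪x, e'⟫ + t' * ⟪v₀, e'⟫) * t := by
      have h10 : -‖x - v‖ * t ≤ (⟪x, e'⟫ - ⟪v, e'⟫) * t := mul_le_mul_of_nonneg_right h4 ht0.le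
      nlinarith
    exact (mul_pos_iff_of_pos_right ht0).1 h9
  have hxe : ∀ x : E3, ‖x - v‖ < δ → 0 < ⟪x, e⟫ + t * ⟪v₀, e⟫ := by
    intro x hx
    have h4 := hin x e c.ue
    rw [hye] at h4
    linarith
  have hxn : ∀ x : E3, ‖x - v‖ < δ → ‖x - n‖ < η := by
    intro x hx
    have h2 : x - n = (x - v) + (v - n) := by abel
    rw [h2]
    refine lt_of_le_of_lt (norm_add_le _ _) ?_
    linarith
  have hxK : ∀ x : E3, ‖x - v‖ < δ → 0 < ⟪x, e⟫ → x ∈ K := by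
    intro x hx h2
    refine (c.ball x (hxn x hx)).2 ⟨h2, ?_⟩
    have h3 := hxe' x hx 0 le_rfl ht0.le
    rwa [zero_smul, add_zero] at h3
  have hiff : ∀ u : E3, ‖u - v‖ < δ → (u ∈ Ks ↔ 0 < ⟪u, e⟫) := by
    intro x hx
    constructor
    · intro hxKs
      by_contra hcon
      have hcon' : ⟪x, e⟫ ≤ 0 := not_lt.1 hcon
      have h2 := hxe x hx
      set t₂ : ℝ := -⟪x, e⟫ / ⟪v₀, e⟫ with ht₂
      have h3 : t₂ * ⟪v₀, e⟫ = -⟪x, e⟫ := div_mul_cancel₀ _ hv₀e.ne'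
      have h4 : 0 ≤ t₂ := div_nonneg (by linarith) hv₀e.le
      have h5 : t₂ < t := by
        rw [ht₂, div_lt_iff₀ hv₀e]
        linarith
      refine no_inside hX hN c (by linarith) (hxB x hx) h4 h5
        (c.hmax.star.add x hxKs t₂ h4) ?_ (hxe' x hx t₂ h4 h5.le) ?_
      · rw [inner_add_left, real_inner_smul_left, h3]
        ring
      · intro t' h6 h7
        refine ⟨?_, hxe' x hx t' (h4.trans h6.le) h7⟩
        rw [inner_add_left, real_inner_smul_left]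
        nlinarith
    · intro h2
      exact (c.hB x (hxK x hx h2) t ht0.le (hxB x hx)).1
  refine ⟨e, σ, δ, c.ue, hσ, hδ0, hye, hv₀e, hiff, ?_⟩
  intro u hu1 hu2 hu3
  have hue' : 0 < ⟪u, e'⟫ := by
    have h3 := hxe' u hu2 0 le_rfl ht0.le
    rwa [zero_smul, add_zero] at h3
  have hW := (c.wall u hu1 (hxn u hu2) hu3 hue').1
  refine wallAt_congr hN (ρ := δ - ‖u - v‖) (by linarith) ?_ hW
  intro w hw
  have hwv : ‖N w - v‖ < δ := by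
    have h2 : N w - v = (N w - u) + (u - v) := by abel
    rw [h2]
    refine lt_of_le_of_lt (norm_add_le _ _) ?_
    linarith
  constructor
  · intro hwW
    have h3 := (c.hB (N w) (c.maps w hwW) t ht0.le (hxB _ hwv)).2 (hU w)
    have h4 : w ∈ W ∩ N ⁻¹' {N w} := ⟨hwW, rfl⟩
    rw [← h3] at h4
    exact h4.1
  · intro hwW
    have h2 : 0 < ⟪N w, e⟫ := (hiff _ hwv).1 (c.hmax.sect.maps w hwW)
    have h3 := (c.hB (N w) (hxK _ hwv h2) t ht0.le (hxB _ hwv)).2 (hU w)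
    have h4 : w ∈ Ws ∩ N ⁻¹' {N w} := ⟨hwW, rfl⟩
    rw [h3] at h4
    exact h4.1

/-- Two affine functions which are positive at the right end. -/
private theorem affine_pair {a α b β t : ℝ} (ht : 0 < t) (h1 : 0 < a + t * α)
    (h2 : 0 < b + t * β) (h3 : ¬ (0 < a ∧ 0 < b))
    (h4 : ∀ x : ℝ, 0 ≤ x → x ≤ t → ¬ (a + x * α = 0 ∧ b + x * β = 0)) :
    (∃ t₁ : ℝ, 0 ≤ t₁ ∧ t₁ < t ∧ a + t₁ * α = 0 ∧ (∀ x, t₁ ≤ x → x ≤ t → 0 < b + x * β) ∧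
      ∀ x, t₁ < x → x ≤ t → 0 < a + x * α) ∨
    ∃ t₁ : ℝ, 0 ≤ t₁ ∧ t₁ < t ∧ b + t₁ * β = 0 ∧ (∀ x, t₁ ≤ x → x ≤ t → 0 < a + x * α) ∧
      ∀ x, t₁ < x → x ≤ t → 0 < b + x * β := by
  -- the zero of an affine function
  have hzero : ∀ {a α : ℝ}, 0 < a + t * α → a ≤ 0 →
      ∃ r : ℝ, 0 ≤ r ∧ r < t ∧ a + r * α = 0 ∧ 0 < α := by
    intro a α h5 h6
    have hα : 0 < α := by
      have : 0 < t * α := by linarith
      exact (mul_pos_iff_of_pos_left ht).1 this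
    refine ⟨-a / α, div_nonneg (by linarith) hα.le, ?_, ?_, hα⟩
    · rw [div_lt_iff₀ hα]
      linarith
    · rw [div_mul_cancel₀ _ hα.ne']
      ring
  have hbetween : ∀ {a α : ℝ}, 0 < a + t * α → 0 < a → ∀ x, 0 ≤ x → x ≤ t → 0 < a + x * α := by
    intro a α h5 h6 x h7 h8
    have h9 : 0 < (a + x * α) * t := by
      have : (a + x * α) * t = a * (t - x) + (a + t * α) * x := by ring
      rw [this]
      rcases eq_or_lt_of_le h7 with h10 | h10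
      · rw [← h10]
        nlinarith
      · have h11 : 0 ≤ a * (t - x) := mul_nonneg h6.le (by linarith)
        have h12 : 0 < (a + t * α) * x := mul_pos h5 h10
        linarith
    exact (mul_pos_iff_of_pos_right ht).1 h9
  rcases le_or_gt a 0 with ha | ha
  · obtain ⟨r, hr0, hrt, hra, hα⟩ := hzero h1 ha
    rcases le_or_gt b 0 with hb | hb
    · obtain ⟨q, hq0, hqt, hqb, hβ⟩ := hzero h2 hb
      have hne : r ≠ q := by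
        intro h
        rw [← h] at hqb
        exact h4 r hr0 hrt.le ⟨hra, hqb⟩
      rcases lt_or_gt_of_ne hne with hlt | hlt
      · right
        refine ⟨q, hq0, hqt, hqb, ?_, ?_⟩
        · intro x hx _
          nlinarith
        · intro x hx _
          nlinarith
      · left
        refine ⟨r, hr0, hrt, hra, ?_, ?_⟩
        · intro x hx _
          nlinarith
        · intro x hx _
          nlinarith
    · left
      refine ⟨r, hr0, hrt, hra, ?_, ?_⟩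
      · intro x hx hx'
        exact hbetween h2 hb x (hr0.trans hx) hx'
      · intro x hx _
        nlinarith
  · rcases le_or_gt b 0 with hb | hb
    · obtain ⟨q, hq0, hqt, hqb, hβ⟩ := hzero h2 hb
      right
      refine ⟨q, hq0, hqt, hqb, ?_, ?_⟩
      · intro x hx hx'
        exact hbetween h1 ha x (hq0.trans hx) hx'
      · intro x hx _
        nlinarith
    · exact absurd ⟨ha, hb⟩ h3

theorem boundary (hX : Continuous X) (hN : Continuous N) (hU : ∀ s, ‖N s‖ = 1) {η : ℝ}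
    (hη : 0 < η)
    (pic : ∀ s : S, ∃ (K : Set E3) (W : Set S) (e₁ e₂ : E3) (σ : ℝ),
      LocalPic X N A η s K W e₁ e₂ σ)
    {v₀ : E3} (hv₀ : ‖v₀‖ = 1) {s₀ : S} {Ks : Set E3} {Ws : Set S}
    (hmax : IsMax N v₀ s₀ Ks Ws) {v : E3} (hv : ‖v‖ = 1) (hvK : v ∉ Ks)
    (hray : ∀ t : ℝ, 0 < t → v + t • v₀ ∈ Ks) :
    ∃ (e : E3) (σ δ : ℝ), ‖e‖ = 1 ∧ (σ = 1 ∨ σ = -1) ∧ 0 < δ ∧ ⟪v, e⟫ = 0 ∧ 0 < ⟪v₀, e⟫ ∧
      (∀ u : E3, ‖u - v‖ < δ → (u ∈ Ks ↔ 0 < ⟪u, e⟫)) ∧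
      ∀ u : E3, ‖u‖ = 1 → ‖u - v‖ < δ → ⟪u, e⟫ = 0 → WallAt X N A Ws e σ u := by
  obtain ⟨t, ht0, htη, ht1⟩ : ∃ t : ℝ, 0 < t ∧ t ≤ η / 16 ∧ t ≤ 1 / 16 :=
    ⟨min (η / 16) (1 / 16), lt_min (by linarith) (by norm_num), min_le_left _ _,
      min_le_right _ _⟩
  have hz : v + t • v₀ ∈ Ks := hray t ht0
  have hzv : ‖v + t • v₀ - v‖ = t := by
    rw [add_sub_cancel_left, norm_smul, hv₀, mul_one, Real.norm_of_nonneg ht0.le]
  have hznorm : |‖v + t • v₀‖ - 1| ≤ t := by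
    have h1 := abs_norm_sub_norm_le (v + t • v₀) v
    rwa [hv, hzv] at h1
  have hzpos : 0 < ‖v + t • v₀‖ := by
    have h1 := (abs_le.1 hznorm).1
    linarith
  set u : E3 := ‖v + t • v₀‖⁻¹ • (v + t • v₀) with hu
  have huKs : u ∈ Ks := hmax.star.cone.smul _ hz _ (inv_pos.2 hzpos)
  have hu1 : ‖u‖ = 1 := by
    rw [hu, norm_smul, norm_inv, norm_norm, inv_mul_cancel₀ hzpos.ne']
  have hzu : v + t • v₀ = ‖v + t • v₀‖ • u := by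
    rw [hu, smul_smul, mul_inv_cancel₀ hzpos.ne', one_smul]
  have hvu : ‖v - u‖ ≤ 2 * t := by
    have h1 : v - u = (v - (v + t • v₀)) + ((v + t • v₀) - u) := by abel
    have h2 : ‖(v + t • v₀) - u‖ ≤ t := by
      have h3 : (v + t • v₀) - u = (‖v + t • v₀‖ - 1) • u := by
        rw [sub_smul, one_smul, ← hzu]
      rw [h3, norm_smul, hu1, mul_one]
      exact hznorm
    rw [h1]
    refine (norm_add_le _ _).trans ?_
    rw [norm_sub_rev, hzv]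
    linarith
  obtain ⟨s, hs, hsu⟩ := hmax.sect.nonempty u huKs hu1
  have hsu' : N s = u := hsu
  obtain ⟨K, W, e₁, e₂, σ, hp⟩ := pic s
  have hpos : 0 < ⟪N s, e₁⟫ ∧ 0 < ⟪N s, e₂⟫ := by
    by_contra hcon
    exact ray_bounded hX hmax.sect hs (by rw [hsu']; exact huKs) (hp.ray hcon)
  have hsW : s ∈ W := hp.mem hpos.1 hpos.2
  obtain ⟨B, hBcone, -, hNB, -, hB⟩ := extend_max hN hU hmax hp.cone hp.convex hp.sect hs hsW
  have hzB : v + t • v₀ ∈ B := by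
    rw [hzu, ← hsu']
    exact hBcone.smul _ hNB _ hzpos
  have hvn : ‖v - N s‖ ≤ 2 * t := by rw [hsu']; exact hvu
  have hf : ∀ e : E3, 0 < ⟪N s, e⟫ → 0 < ⟪v, e⟫ + t * ⟪v₀, e⟫ := by
    intro e he
    have h1 : ⟪v + t • v₀, e⟫ = ⟪v, e⟫ + t * ⟪v₀, e⟫ := by
      rw [inner_add_left, real_inner_smul_left]
    rw [← h1, hzu, real_inner_smul_left, ← hsu']
    exact mul_pos hzpos he
  have hn0 : ∀ x : ℝ, 0 ≤ x → x ≤ t → ‖v + x • v₀ - N s‖ < η := by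
    intro x h1 h2
    have h3 : v + x • v₀ - N s = (v + x • v₀ - v) + (v - N s) := by abel
    have h4 : ‖v + x • v₀ - v‖ = x := by
      rw [add_sub_cancel_left, norm_smul, hv₀, mul_one, Real.norm_of_nonneg h1]
    rw [h3]
    refine lt_of_le_of_lt (norm_add_le _ _) ?_
    rw [h4]
    linarith
  have hin : ∀ (x : ℝ) (e : E3), ⟪v + x • v₀, e⟫ = ⟪v, e⟫ + x * ⟪v₀, e⟫ := by
    intro x e
    rw [inner_add_left, real_inner_smul_left]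
  have hnot : ¬ (0 < ⟪v, e₁⟫ ∧ 0 < ⟪v, e₂⟫) := by
    intro hcon
    have h1 : v ∈ K := (hp.ball v (by linarith)).2 hcon
    exact hvK (hB v h1 t ht0.le hzB).1
  have hdisj : ∀ x : ℝ, 0 ≤ x → x ≤ t →
      ¬ (⟪v, e₁⟫ + x * ⟪v₀, e₁⟫ = 0 ∧ ⟪v, e₂⟫ + x * ⟪v₀, e₂⟫ = 0) := by
    intro x h1 h2 h3
    refine hp.disj hpos.1 hpos.2 (v + x • v₀) (hn0 x h1 h2) ?_
    rw [hin, hin]
    exact h3
  have c₁ : Ctx X N A η t σ v v₀ (N s) e₁ e₂ s₀ Ks K B Ws W :=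
    ⟨hmax, hv, hv₀, ht0, htη, ht1, hvn, hp.cone, hp.sect.maps, hBcone, hB, hzB, hp.unit₁,
      hp.unit₂, hp.ball, hp.wall₁ hpos.1 hpos.2⟩
  have c₂ : Ctx X N A η t σ v v₀ (N s) e₂ e₁ s₀ Ks K B Ws W :=
    ⟨hmax, hv, hv₀, ht0, htη, ht1, hvn, hp.cone, hp.sect.maps, hBcone, hB, hzB, hp.unit₂,
      hp.unit₁, fun x hx => (hp.ball x hx).trans and_comm, hp.wall₂ hpos.1 hpos.2⟩
  rcases affine_pair ht0 (hf e₁ hpos.1) (hf e₂ hpos.2) hnot hdisj with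
    ⟨t₁, h1, h2, h3, h4, h5⟩ | ⟨t₁, h1, h2, h3, h4, h5⟩
  · exact ctx_main hX hN hU c₁ hp.sgn hray h1 h2 (by rw [hin]; exact h3)
      (fun x hx hx' => by rw [hin]; exact h4 x hx hx')
      (fun x hx hx' => by rw [hin]; exact h5 x hx hx')
  · exact ctx_main hX hN hU c₂ hp.sgn hray h1 h2 (by rw [hin]; exact h3)
      (fun x hx hx' => by rw [hin]; exact h4 x hx hx')
      (fun x hx hx' => by rw [hin]; exact h5 x hx hx')

end Pool.Agent.Helper50.MS
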