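import Pool.Agent.Helper50.MS.Defs

/-!
# MS-42  The circle orthogonal to a unit vector is connected

The circle is the image of the unit sphere of the plane `(ℝ ∙ e)ᗮ` (dimension 2) under the inclusion: `isPreconnected_sphere` (rank `> 1`). `perp_exists`: two vectors in `E3` have a common nonzero orthogonal vector (dimension 3).
`unit_eq`: two unit vectors with the same positive half space are equal: if `e ≠ e'` then `y = e - e'` has `⟪y,e⟫ = 1 - ⟪e,e'⟫ > 0` and `⟪y,e'⟫ = ⟪e,e'⟫ - 1 < 0`.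
-/

set_option autoImplicit false

open Filter Topology Set
open scoped RealInnerProductSpace

namespace Pool.Agent.Helper50.MS

theorem circle_preconnected {e : E3} (he : ‖e‖ = 1) :
    IsPreconnected {v : E3 | ‖v‖ = 1 ∧ ⟪v, e⟫ = 0} := by
  have he0 : e ≠ 0 := by
    rintro rfl
    rw [norm_zero] at he
    exact zero_ne_one he
  have : Fact (Module.finrank ℝ E3 = 2 + 1) := ⟨by simp⟩
  have hfin : Module.finrank ℝ (Submodule.span ℝ {e})ᗮ = 2 :=
    Submodule.finrank_orthogonal_span_singleton he0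
  have hrank : 1 < Module.rank ℝ (Submodule.span ℝ {e})ᗮ := by
    rw [← Module.finrank_eq_rank, hfin]
    norm_num
  have h1 := isPreconnected_sphere hrank (0 : (Submodule.span ℝ {e})ᗮ) 1
  have h2 := h1.image (fun v => (v : E3)) continuous_subtype_val.continuousOn
  have h3 : (fun v : (Submodule.span ℝ {e})ᗮ => (v : E3)) ''
      Metric.sphere (0 : (Submodule.span ℝ {e})ᗮ) 1 = {v : E3 | ‖v‖ = 1 ∧ ⟪v, e⟫ = 0} := by
    ext v
    constructor
    · rintro ⟨w, hw, rfl⟩
      rw [mem_sphere_zero_iff_norm] at hw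
      refine ⟨hw, ?_⟩
      rw [real_inner_comm]
      exact Submodule.mem_orthogonal_singleton_iff_inner_right.1 w.2
    · rintro ⟨hv1, hv2⟩
      refine ⟨⟨v, ?_⟩, ?_, rfl⟩
      · rw [Submodule.mem_orthogonal_singleton_iff_inner_right, real_inner_comm]
        exact hv2
      · rw [mem_sphere_zero_iff_norm]
        exact hv1
  rw [h3] at h2
  exact h2

theorem perp_exists (x y : E3) : ∃ τ : E3, τ ≠ 0 ∧ ⟪τ, x⟫ = 0 ∧ ⟪τ, y⟫ = 0 := by
  classical
  have h1 : Module.finrank ℝ (Submodule.span ℝ (({x, y} : Finset E3) : Set E3)) ≤ 2 :=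
    (finrank_span_finset_le_card _).trans Finset.card_le_two
  have h2 : Submodule.span ℝ (({x, y} : Finset E3) : Set E3) ≠ ⊤ := by
    intro h
    rw [h, finrank_top] at h1
    simp at h1
  have h3 : (Submodule.span ℝ (({x, y} : Finset E3) : Set E3))ᗮ ≠ ⊥ := by
    intro h
    exact h2 (Submodule.orthogonal_eq_bot_iff.1 h)
  obtain ⟨τ, hτ, hτ0⟩ := (Submodule.ne_bot_iff _).1 h3
  refine ⟨τ, hτ0, ?_, ?_⟩
  · rw [real_inner_comm]
    exact (Submodule.mem_orthogonal _ _).1 hτ x (Submodule.subset_span (by simp))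
  · rw [real_inner_comm]
    exact (Submodule.mem_orthogonal _ _).1 hτ y (Submodule.subset_span (by simp))

theorem unit_eq {e e' : E3} (he : ‖e‖ = 1) (he' : ‖e'‖ = 1)
    (h : ∀ y : E3, 0 < ⟪y, e⟫ → 0 < ⟪y, e'⟫) : e = e' := by
  by_contra hne
  have h1 : ⟪e, e'⟫ < 1 := (inner_lt_one_iff_real_of_norm_eq_one he he').2 hne
  have h2 : ⟪e - e', e⟫ = 1 - ⟪e, e'⟫ := by
    rw [inner_sub_left, real_inner_self_eq_norm_sq, he, real_inner_comm]
    norm_num
  have h3 : ⟪e - e', e'⟫ = ⟪e, e'⟫ - 1 := by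
    rw [inner_sub_left, real_inner_self_eq_norm_sq, he']
    norm_num
  have h4 := h (e - e') (by rw [h2]; linarith)
  rw [h3] at h4
  linarith

end Pool.Agent.Helper50.MS
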