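import Pool.Agent.Helper50.MS.LeafOscM

/-!
# MS-14  The direction `y` stays dominant along a good strip

PROOF. Suppose `Hyy < (3/5) a` at `z₁ = (x₁,q)` (`a = ‖A‖`). The set of `x ∈ [0,x₁]` with `Hyy(x,q) ≥ (7/10) a(x,q)` is closed (`strip_cont`) and contains
`0`; let `x₀` be its maximum (`x₀ < x₁`). On `[x₀,x₁]` we have `Hyy ≤ (7/10) a` (at `x₀` by continuity, there `=`), `|Hxy| = |m| Hyy ≤ 1e-4 Hyy`
(`leaf_slope`), so `big_xx` gives `Hxx ≤ -(9/10) a`, and `P_deriv_nonpos` gives `∂ₓp ≤ Hxx ≤ -(9/10) a`. By `strip_deriv`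
`‖∂ₓA‖ ≤ C a² ‖Xx - m Xy‖ ≤ 1.01 C a² ≤ (1.2 C (-∂ₓp)) a`. `variation_small` with `φ x = -1.2 C p(x,q)` on `[x₀,x₁]`, total
`≤ 1.2 C · 2 δ = 2.4 C δ ≤ 1e-11`: `‖A(x₁) - A(x₀)‖ ≤ 2e-11 ‖A(x₁)‖`. On the line `q = const` (`q (N (G z)) = z.2`) the vector `Xy` is constant, `‖Xy‖² ≤ 1.01`, so
`Hyy(x₁) ≥ Hyy(x₀) - 1.01·2e-11 a(x₁) ≥ (7/10) a(x₀) - ... ≥ 0.69 a(x₁) > (3/5) a(x₁)`: contradiction.
-/

set_option autoImplicit false

open Filter Topology Set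
open scoped RealInnerProductSpace

namespace Pool.Agent.Helper50.MS

variable {S : Type} [TopologicalSpace S] {X N : S → E3} {A : S → End3} {c C : ℝ}

private lemma norm_small' {w : E3} {r : ℝ} (h : ‖w‖ ^ 2 = 1 + r ^ 2) (hr : |r| ≤ 1 / 10 ^ 8) :
    ‖w‖ ≤ 1001 / 1000 := by
  have h2 : r ^ 2 ≤ (1 / 10 ^ 8) ^ 2 := by
    rw [← sq_abs]
    exact pow_le_pow_left₀ (abs_nonneg _) hr 2
  refine abs_le_of_sq_le_sq' ?_ (by norm_num) |>.2
  rw [h]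
  norm_num at h2 ⊢
  linarith

theorem claim_B (h : Hyp X N A c C) (F : Frame) (o : ℝ) {ℓ : ℝ} {G : ℝ × ℝ → S}
    (hG : IsLift (F.psi X N o) (F.dom N A) (Icc 0 ℓ ×ˢ Icc (-kap C) (kap C)) G)
    (hgood : ∀ z ∈ Icc 0 ℓ ×ˢ Icc (-kap C) (kap C), Good F N A C (G z))
    (h0 : ∀ q ∈ Icc (-kap C) (kap C),
      9 / 10 * ‖A (G (0, q))‖ ≤ F.Hyy (N (G (0, q))) (A (G (0, q)))) :
    ∀ z ∈ Icc 0 ℓ ×ˢ Icc (-kap C) (kap C), 3 / 5 * ‖A (G z)‖ ≤ F.Hyy (N (G z)) (A (G z)) := by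
  rintro ⟨x₁, q⟩ ⟨hx₁, hq⟩
  by_contra hlt
  push Not at hlt
  obtain ⟨hκ0, hκ1, hCκ, hδ0, hδ⟩ := kap_del h.one_le
  have hC0 : 0 < C := by linarith [h.one_le]
  have hapos : ∀ s, 0 < ‖A s‖ := fun s => lt_of_lt_of_le h.cpos (h.lower s)
  have hmem : ∀ x ∈ Icc 0 x₁, (x, q) ∈ Icc 0 ℓ ×ˢ Icc (-kap C) (kap C) := fun x hx =>
    ⟨⟨hx.1, hx.2.trans hx₁.2⟩, hq⟩
  obtain ⟨hPc, hmc, hHc, hXc, hAc⟩ := strip_cont h F o hG
  have hline : ContinuousOn (fun x : ℝ => (x, q)) (Icc 0 x₁) := by fun_prop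
  have hH : ContinuousOn (fun x => F.Hyy (N (G (x, q))) (A (G (x, q)))) (Icc 0 x₁) :=
    hHc.comp hline hmem
  have hA : ContinuousOn (fun x => A (G (x, q))) (Icc 0 x₁) := hAc.comp hline hmem
  have hAn : ContinuousOn (fun x => 7 / 10 * ‖A (G (x, q))‖) (Icc 0 x₁) :=
    continuousOn_const.mul hA.norm
  -- the last time
  set E : Set ℝ := {x ∈ Icc 0 x₁ | 7 / 10 * ‖A (G (x, q))‖ ≤ F.Hyy (N (G (x, q))) (A (G (x, q)))}
    with hE
  have hEc : IsCompact E := by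
    have : IsClosed E := isClosed_Icc.isClosed_le hAn hH
    exact isCompact_Icc.of_isClosed_subset this (fun x hx => hx.1)
  have hE0 : (0 : ℝ) ∈ E := by
    refine ⟨⟨le_rfl, hx₁.1⟩, ?_⟩
    have := h0 q hq
    have := hapos (G (0, q))
    linarith
  obtain ⟨x₀, hx₀E, hx₀⟩ := hEc.exists_isGreatest ⟨0, hE0⟩
  have hx₀1 : x₀ < x₁ := by
    rcases lt_or_eq_of_le hx₀E.1.2 with h1 | h1
    · exact h1
    · exfalso
      have h2 := hx₀E.2
      rw [h1] at h2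
      have := hapos (G (x₁, q))
      linarith
  have hsmall : ∀ x ∈ Icc x₀ x₁,
      F.Hyy (N (G (x, q))) (A (G (x, q))) ≤ 7 / 10 * ‖A (G (x, q))‖ := by
    intro x hx
    have hcl : x ∈ closure (Ioc x₀ x₁) := by
      rw [closure_Ioc hx₀1.ne]; exact hx
    have hsub : Ioc x₀ x₁ ⊆ Icc 0 x₁ := fun y hy => ⟨hx₀E.1.1.trans hy.1.le, hy.2⟩
    have hxI : x ∈ Icc 0 x₁ := ⟨hx₀E.1.1.trans hx.1, hx.2⟩
    refine ContinuousWithinAt.closure_le hcl ((hH x hxI).mono hsub) ((hAn x hxI).mono hsub) ?_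
    intro y hy
    by_contra hne
    push Not at hne
    exact absurd (hx₀ ⟨hsub hy, hne.le⟩) (not_le.mpr hy.1)
  -- estimates
  have hest : ∀ x ∈ Icc x₀ x₁, F.Hxx (N (G (x, q))) (A (G (x, q))) ≤ -(9 / 10) * ‖A (G (x, q))‖ ∧
      ‖F.Xx (N (G (x, q))) - F.m (N (G (x, q))) (A (G (x, q))) • F.Xy (N (G (x, q)))‖ ≤
        101 / 100 := by
    intro x hx
    have hxI : x ∈ Icc 0 x₁ := ⟨hx₀E.1.1.trans hx.1, hx.2⟩
    obtain ⟨g1, g2, g3, g4⟩ := hgood _ (hmem x hxI)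
    have hd := hG.mem _ (hmem x hxI)
    have hm : |F.m (N (G (x, q))) (A (G (x, q)))| ≤ 1 / 10 ^ 4 :=
      leaf_slope h F o hG (x := x) (fun r hr => ⟨(hmem x hxI).1, hr⟩)
        (fun r hr => hgood _ ⟨(hmem x hxI).1, hr⟩) q hq
    obtain ⟨n1, n2, -⟩ := norm_Xx F (N (G (x, q)))
    have y1 := norm_small' n1 (g2.trans (by rw [hδ]; norm_num at hκ1 ⊢; linarith))
    have y2 := norm_small' n2 (g3.trans hκ1)
    constructor
    · obtain ⟨e₁, e₂, k₁, k₂, on, hk₁, hk₂, hk₃, hk⟩ := h.saddle (G (x, q))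
      refine big_xx F on hk₁ hk₂ hk₃ hk hd.1.ne' hd.2 ?_ (hsmall x hx)
      have e1 : F.Hxy (N (G (x, q))) (A (G (x, q))) = F.m (N (G (x, q))) (A (G (x, q))) *
          F.Hyy (N (G (x, q))) (A (G (x, q))) := by
        rw [Frame.m, div_mul_cancel₀ _ hd.2.ne']
      rw [e1, abs_mul, abs_of_pos hd.2]
      refine mul_le_mul_of_nonneg_right (hm.trans (by norm_num)) hd.2.le
    · refine (norm_sub_le _ _).trans ?_
      rw [norm_smul, Real.norm_eq_abs]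
      have : |F.m (N (G (x, q))) (A (G (x, q)))| * ‖F.Xy (N (G (x, q)))‖ ≤
          1 / 10 ^ 4 * (1001 / 1000) := by gcongr
      norm_num at this ⊢
      linarith
  -- derivatives
  have hsub' : Icc x₀ x₁ ⊆ Icc 0 x₁ := Icc_subset_Icc_left hx₀E.1.1
  have hder : ∀ x ∈ Icc x₀ x₁, ∃ B : End3, ∃ P' : ℝ,
      HasDerivWithinAt (fun x => A (G (x, q))) B (Icc x₀ x₁) x ∧
      HasDerivWithinAt (fun x => F.p (N (G (x, q)))) P' (Icc x₀ x₁) x ∧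
      P' ≤ -(9 / 10) * ‖A (G (x, q))‖ ∧ ‖B‖ ≤ C * ‖A (G (x, q))‖ ^ 2 * (101 / 100) := by
    intro x hx
    obtain ⟨-, d1, ⟨B, d2, d3⟩, -⟩ := strip_deriv h F o hG (z := (x, q)) (hmem x (hsub' hx))
    obtain ⟨e1, e2⟩ := hest x hx
    refine ⟨B, _, d2.mono (fun y hy => hmem y (hsub' hy)),
      d1.mono (fun y hy => hmem y (hsub' hy)), ?_, ?_⟩
    · refine ((P_deriv_nonpos h F (hG.mem _ (hmem x (hsub' hx)))).2 ?_).trans e1
      have := hapos (G (x, q))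
      have e3 : F.Hxx (N (G (x, q))) (A (G (x, q))) ≤ -(9 / 10) * ‖A (G (x, q))‖ := e1
      linarith
    · refine d3.trans ?_
      gcongr
  choose! B P' hB hP hP' hB' using hder
  have hvar := variation_small (f := fun x => A (G (x, q))) (f' := B)
    (φ := fun x => -(12 / 10 * C) * F.p (N (G (x, q)))) (φ' := fun x => -(12 / 10 * C) * P' x)
    hx₀1.le hB (fun t ht => (hP t ht).const_mul _)
    (fun t ht => by
      have h1 := hP' t ht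
      have h2 := hapos (G (t, q))
      have h3 : P' t ≤ 0 := by linarith
      nlinarith)
    (fun t ht => by
      have h1 := hP' t ht
      have h2 := hapos (G (t, q))
      refine (hB' t ht).trans ?_
      have h3 : C * ‖A (G (t, q))‖ * (101 / 100) ≤ -(12 / 10 * C) * P' t := by
        nlinarith
      calc C * ‖A (G (t, q))‖ ^ 2 * (101 / 100) =
          (C * ‖A (G (t, q))‖ * (101 / 100)) * ‖A (G (t, q))‖ := by ring
        _ ≤ _ := mul_le_mul_of_nonneg_right h3 h2.le)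
  obtain ⟨g1, g2, g3, g4⟩ := hgood _ (hmem x₁ ⟨hx₁.1, le_rfl⟩)
  obtain ⟨g1', g2', g3', g4'⟩ := hgood _ (hmem x₀ hx₀E.1)
  have htot : -(12 / 10 * C) * F.p (N (G (x₁, q))) - -(12 / 10 * C) * F.p (N (G (x₀, q))) ≤
      2 / 10 ^ 12 := by
    have e1 := (abs_le.mp g2).1
    have e2 := (abs_le.mp g2').2
    have e3 : C * del C = 6 / 10 ^ 13 := by
      rw [hδ]
      calc C * (6 / 10 ^ 5 * kap C) = 6 / 10 ^ 5 * (C * kap C) := by ring
        _ = _ := by rw [hCκ]; norm_num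
    have e4 : C * F.p (N (G (x₀, q))) ≤ C * del C := by gcongr
    have e5 : C * (-del C) ≤ C * F.p (N (G (x₁, q))) := by gcongr
    rw [mul_neg] at e5
    rw [e3] at e4 e5
    norm_num at e4 e5 ⊢
    linarith
  obtain ⟨-, hvar2⟩ := hvar (by
    refine htot.trans ?_
    norm_num)
  have ha₁ := hapos (G (x₁, q))
  have hvar3 : ‖A (G (x₁, q)) - A (G (x₀, q))‖ ≤ 1 / 1000 * ‖A (G (x₁, q))‖ := by
    refine hvar2.trans (mul_le_mul_of_nonneg_right ?_ ha₁.le)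
    have htot' := htot
    norm_num at htot' ⊢
    linarith
  -- conclusion
  have hq₁ : F.q (N (G (x₁, q))) = q := (strip_Xa F o hG (hmem x₁ ⟨hx₁.1, le_rfl⟩)).2
  have hq₀ : F.q (N (G (x₀, q))) = q := (strip_Xa F o hG (hmem x₀ hx₀E.1)).2
  have hXy : F.Xy (N (G (x₀, q))) = F.Xy (N (G (x₁, q))) := by
    rw [Frame.Xy, Frame.Xy, hq₀, hq₁]
  have y2 := norm_small' (norm_Xx F (N (G (x₁, q)))).2.1 (g3.trans hκ1)
  set w := F.Xy (N (G (x₁, q))) with hw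
  have hdiff : F.Hyy (N (G (x₁, q))) (A (G (x₁, q))) - F.Hyy (N (G (x₀, q))) (A (G (x₀, q))) =
      ⟪(A (G (x₁, q)) - A (G (x₀, q))) w, w⟫ := by
    rw [Frame.Hyy, Frame.Hyy, hXy, sub_apply, inner_sub_left]
  have hin : |⟪(A (G (x₁, q)) - A (G (x₀, q))) w, w⟫| ≤
      (1 / 1000 * ‖A (G (x₁, q))‖ * (1001 / 1000)) * (1001 / 1000) := by
    refine (abs_real_inner_le_norm _ _).trans ?_
    gcongr
    refine ((A (G (x₁, q)) - A (G (x₀, q))).le_opNorm w).trans ?_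
    gcongr
  have hn : ‖A (G (x₁, q))‖ ≤ ‖A (G (x₀, q))‖ + ‖A (G (x₁, q)) - A (G (x₀, q))‖ := by
    have := norm_add_le (A (G (x₀, q))) (A (G (x₁, q)) - A (G (x₀, q)))
    rwa [add_sub_cancel] at this
  have hx₀H := hx₀E.2
  have := (abs_le.mp hin).1
  rw [← hdiff] at this
  have hlt' : F.Hyy (N (G (x₁, q))) (A (G (x₁, q))) < 3 / 5 * ‖A (G (x₁, q))‖ := hlt
  linarith

end Pool.Agent.Helper50.MS
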