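import Mathlib

/-!
# MS-18  CLAIM D (pure calculus)

Let `ω = δ/(100κ)`. Say `q ≥ q₁` (the case `q ≤ q₁` follows by applying the statement to `r (-q)`). Put `m₀ = m q₁`. Mean value inequality: `r q - r q₁ ≤ (m₀ + ω)(q - q₁)` and
`r κ - r q₁ ≥ (m₀ - ω)(κ - q₁)`. If `q₁ = κ` then `q = κ` is not in `[-κ/2,κ/2]`; so `κ - q₁ > 0`. Let `λ = (q - q₁)/(κ - q₁)`; `1 - λ = (κ - q)/(κ - q₁) ≥ (κ/2)/(2κ) = 1/4`. So
`r q ≤ r q₁ + 2ω(q - q₁) + λ (r κ - r q₁) = (1-λ) r q₁ + λ r κ + 2ω (q - q₁) ≤ -δ/4 + δ/100 + 2·(δ/(100κ))·(3κ/2) = -δ/4 + δ/100 + 3δ/100 ≤ -δ/5`.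
-/

set_option autoImplicit false

open Filter Topology Set

namespace Pool.Agent.Helper50.MS

private theorem cd_arith {κ δ ω d D M R x : ℝ} (hκ : 0 < κ) (hδ : 0 < δ) (hω : ω = δ / (100 * κ))
    (hd : 0 ≤ d) (hd2 : d ≤ 3 * κ / 2) (hD : κ / 2 ≤ D - d) (hD2 : D ≤ 2 * κ) (hR : R ≤ -δ)
    (h1 : x ≤ R + M * d + ω * d) (h2 : R + M * D - ω * D ≤ δ / 100) : x ≤ -δ / 5 := by
  have hDpos : 0 < D := by linarith
  have hω2 : ω * κ = δ / 100 := by
    rw [hω]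
    field_simp
  have hωpos : 0 < ω := by
    rw [hω]
    positivity
  have e1 : ω * d ≤ 3 * δ / 200 := by
    have : ω * d ≤ ω * (3 * κ / 2) := mul_le_mul_of_nonneg_left hd2 hωpos.le
    nlinarith
  have e2 : M * D ≤ δ / 100 - R + ω * D := by linarith
  have e3 : d * (M * D) ≤ d * (δ / 100 - R + ω * D) := mul_le_mul_of_nonneg_left e2 hd
  have e4 : D * x ≤ D * (R + M * d + ω * d) := mul_le_mul_of_nonneg_left h1 hDpos.le
  have e5 : R * (D - d) ≤ -δ * (D - d) := mul_le_mul_of_nonneg_right hR (by linarith)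
  have e6 : δ * (D / 4) ≤ δ * (D - d) := mul_le_mul_of_nonneg_left (by linarith) hδ.le
  have e7 : d * (δ / 100) ≤ D * (δ / 100) := mul_le_mul_of_nonneg_right (by linarith) (by positivity)
  have e8 : (ω * d) * D ≤ (3 * δ / 200) * D := mul_le_mul_of_nonneg_right e1 hDpos.le
  have e9 : D * x ≤ D * (-δ / 5) := by
    have e10 : D * (R + M * d + ω * d) = D * R + d * (M * D) + (ω * d) * D := by ring
    have e11 : d * (δ / 100 - R + ω * D) = d * (δ / 100) - d * R + (ω * d) * D := by ring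
    have e12 : R * (D - d) = D * R - d * R := by ring
    have e13 : 0 ≤ D * δ := by positivity
    nlinarith
  exact le_of_mul_le_mul_left e9 hDpos

private theorem cd_mvt {κ ω : ℝ} {r m : ℝ → ℝ}
    (hr : ∀ q ∈ Icc (-κ) κ, HasDerivWithinAt r (m q) (Icc (-κ) κ) q)
    (hm : ∀ q ∈ Icc (-κ) κ, ∀ q' ∈ Icc (-κ) κ, |m q - m q'| ≤ ω)
    {a b : ℝ} (ha : a ∈ Icc (-κ) κ) (hb : b ∈ Icc (-κ) κ) :
    |r b - r a - m a * (b - a)| ≤ ω * |b - a| := by
  have h := (convex_Icc (-κ) κ).norm_image_sub_le_of_norm_hasDerivWithin_le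
    (f := fun x => r x - m a * x) (f' := fun x => m x - m a * 1) (C := ω)
    (fun x hx => (hr x hx).sub ((hasDerivWithinAt_id x _).const_mul (m a)))
    (fun x hx => by
      rw [mul_one, Real.norm_eq_abs]
      exact hm x hx a ha) ha hb
  simp only [Real.norm_eq_abs] at h
  have e : r b - m a * b - (r a - m a * a) = r b - r a - m a * (b - a) := by ring
  rw [e] at h
  exact h

/-- CLAIM D (pure calculus). -/
theorem claim_D {κ δ : ℝ} (hκ : 0 < κ) (hδ : 0 < δ) {r m : ℝ → ℝ}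
    (hr : ∀ q ∈ Icc (-κ) κ, HasDerivWithinAt r (m q) (Icc (-κ) κ) q)
    (hm : ∀ q ∈ Icc (-κ) κ, ∀ q' ∈ Icc (-κ) κ, |m q - m q'| ≤ δ / (100 * κ))
    (hle : ∀ q ∈ Icc (-κ) κ, r q ≤ δ / 100) {q₁ : ℝ} (hq₁ : q₁ ∈ Icc (-κ) κ) (h₁ : r q₁ ≤ -δ) :
    ∀ q ∈ Icc (-(κ / 2)) (κ / 2), r q ≤ -δ / 5 := by
  intro q hq
  obtain ⟨hqa, hqb⟩ := hq
  obtain ⟨h1a, h1b⟩ := hq₁
  have hqm : q ∈ Icc (-κ) κ := ⟨by linarith, by linarith⟩
  have hq1m : q₁ ∈ Icc (-κ) κ := ⟨h1a, h1b⟩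
  have hκm : κ ∈ Icc (-κ) κ := ⟨by linarith, le_refl _⟩
  have hκm' : -κ ∈ Icc (-κ) κ := ⟨le_refl _, by linarith⟩
  have g1 := abs_le.1 (cd_mvt hr hm hq1m hqm)
  rcases le_total q₁ q with h | h
  · have g2 := abs_le.1 (cd_mvt hr hm hq1m hκm)
    rw [abs_of_nonneg (by linarith : (0:ℝ) ≤ q - q₁)] at g1
    rw [abs_of_nonneg (by linarith : (0:ℝ) ≤ κ - q₁)] at g2
    have g3 := hle κ hκm
    refine cd_arith (d := q - q₁) (D := κ - q₁) (M := m q₁) (R := r q₁) hκ hδ rfl (by linarith)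
      (by linarith) (by linarith) (by linarith) h₁ ?_ ?_
    · linarith [g1.2]
    · linarith [g2.1]
  · have g2 := abs_le.1 (cd_mvt hr hm hq1m hκm')
    rw [abs_of_nonpos (by linarith : q - q₁ ≤ (0:ℝ))] at g1
    rw [abs_of_nonpos (by linarith : -κ - q₁ ≤ (0:ℝ))] at g2
    have g3 := hle (-κ) hκm'
    refine cd_arith (d := q₁ - q) (D := q₁ + κ) (M := - m q₁) (R := r q₁) hκ hδ rfl (by linarith)
      (by linarith) (by linarith) (by linarith) h₁ ?_ ?_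
    · have e : -(q - q₁) = q₁ - q := by ring
      rw [e] at g1
      linarith [g1.2]
    · have e : -(-κ - q₁) = q₁ + κ := by ring
      rw [e] at g2
      linarith [g2.1]

end Pool.Agent.Helper50.MS
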