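import Pool.Agent.Helper50.MS.Cones
import Pool.Agent.Helper50.MS.Circle

/-!
# MS-43  A star-shaped cone with locally flat boundary

PROOF. `φ` always denotes a unit vector orthogonal to `v₀`. `T φ = {τ | φ + τ v₀ ∈ K}` is open, upward closed (`add`) and not empty (`φ + τ v₀ = τ (v₀ + φ/τ) ∈ K` for large `τ`).
Case A: `T φ = ℝ` for all `φ`. Every `v` is `x + τ v₀`, `x ⟂ v₀`; if `x ≠ 0`, `v = ‖x‖ (φ + (τ/‖x‖) v₀) ∈ K`; if `x = 0`, `v = τ v₀` is in `K` iff `τ > 0` (`mem`, `smul`, `zero`, `neg`). Second alternative.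
Case B: `T φ₀ ≠ ℝ` for some `φ₀`. If `T φ ≠ ℝ` let `τ* = inf T φ`, `z = φ + τ* v₀ ∉ K`, `z + t v₀ ∈ K` for `t > 0`, `z ≠ 0`; `hb` for `z/‖z‖` gives `e` with (scaling) `⟪z,e⟫ = 0`, `⟪v₀,e⟫ > 0` and a
`δ' > 0` with `u ∈ K ↔ 0 < ⟪u,e⟫` for `‖u - z‖ < δ'`.
For a unit vector `e` with `⟪v₀,e⟫ > 0` put `t_e φ = -⟪φ,e⟫/⟪v₀,e⟫`, `z_e φ = φ + t_e φ • v₀` (so `⟪z_e,e⟫ = 0`), and `P_e φ : ∃ δ' > 0, ∀ u, ‖u - z_e φ‖ < δ' → (u ∈ K ↔ 0 < ⟪u,e⟫)`. `P_{e₀} φ₀` holds for the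
`e₀` found above. The set of `φ` (in the circle `S¹ = {‖φ‖ = 1, ⟪φ,v₀⟫ = 0}`, preconnected: `circle_preconnected`) with `P_{e₀}` is open (`z_e` is continuous). It is closed: let `φ_j → φ`, `P φ_j` (`e = e₀`). `z_e φ_j ∉ K`
so `z_e φ ∉ K` (`K` open), `T φ ≠ ℝ`, `τ* ≥ t_e φ`; let `e', δ'` belong to `z = φ + τ* v₀`. If `τ* > t_e φ`: take `τ₁ ∈ (t_e φ, τ*)` with `‖φ + τ₁v₀ - z‖ < δ'/2`; `⟪φ + τ₁v₀,e'⟫ < 0`, so for large `j`
`φ_j + τ₁ v₀ ∉ K`; but `τ₁ > t_e φ_j` for large `j`, and `P φ_j` with `add` gives `φ_j + τ v₀ ∈ K` for all `τ > t_e φ_j`. Contradiction. So `τ* = t_e φ`, `z = z_e φ`; for large `j` `z_j = z_e φ_j` is within `δ'` of `z`,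
and near `z_j` the conditions `0 < ⟪u,e⟫`, `0 < ⟪u,e'⟫` are equivalent; then `⟪z_j,e'⟫ = 0` (`≤ 0` since `z_j ∉ K`; if `< 0` then `u = z_j + small e` contradicts) and for all `y`: `0 < ⟪y,e⟫ ↔ 0 < ⟪y,e'⟫`
(`u = z_j + small y`), so `e' = e` (both unit: `y = e - ⟪e,e'⟫ e'`, ... or: if `e' ≠ e` the vector `y = e - e'` has `⟪y,e⟫ = 1 - ⟪e,e'⟫ > 0 > ⟪y,e'⟫`). So `P_e φ`.
Hence `P_e φ` for all `φ`; `φ + τ v₀ ∈ K ↔ τ > t_e φ ↔ 0 < ⟪φ + τ v₀,e⟫`, and, as in case A, `v ∈ K ↔ 0 < ⟪v,e⟫` for all `v`.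
-/

set_option autoImplicit false

open Filter Topology Set
open scoped RealInnerProductSpace

namespace Pool.Agent.Helper50.MS

private lemma cg_smul {K : Set E3} (hK : IsCone K) {t : ℝ} (ht : 0 < t) (v : E3) :
    t • v ∈ K ↔ v ∈ K := by
  constructor
  · intro h
    have := hK.smul _ h t⁻¹ (inv_pos.mpr ht)
    rwa [smul_smul, inv_mul_cancel₀ ht.ne', one_smul] at this
  · intro h
    exact hK.smul v h t ht

/-- The hypothesis for vectors which are not unit vectors. -/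
private lemma cg_scaled {v₀ : E3} {K : Set E3} (hK : IsStar v₀ K)
    (hb : ∀ v : E3, ‖v‖ = 1 → v ∉ K → (∀ t : ℝ, 0 < t → v + t • v₀ ∈ K) →
      ∃ (e : E3) (δ : ℝ), ‖e‖ = 1 ∧ 0 < δ ∧ ⟪v, e⟫ = 0 ∧ 0 < ⟪v₀, e⟫ ∧
        ∀ u : E3, ‖u - v‖ < δ → (u ∈ K ↔ 0 < ⟪u, e⟫))
    {z : E3} (hz : z ≠ 0) (hzK : z ∉ K) (hray : ∀ t : ℝ, 0 < t → z + t • v₀ ∈ K) :
    ∃ (e : E3) (δ : ℝ), ‖e‖ = 1 ∧ 0 < δ ∧ ⟪z, e⟫ = 0 ∧ 0 < ⟪v₀, e⟫ ∧
        ∀ u : E3, ‖u - z‖ < δ → (u ∈ K ↔ 0 < ⟪u, e⟫) := by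
  have hz0 : 0 < ‖z‖ := norm_pos_iff.mpr hz
  have hi : 0 < ‖z‖⁻¹ := inv_pos.mpr hz0
  obtain ⟨e, δ, he, hδ, hve, hv₀e, hloc⟩ := hb (‖z‖⁻¹ • z)
    (by rw [norm_smul, norm_inv, norm_norm, inv_mul_cancel₀ hz0.ne'])
    (by rwa [cg_smul hK.cone hi])
    (by
      intro t ht
      have h1 := hK.cone.smul _ (hray (‖z‖ * t) (by positivity)) ‖z‖⁻¹ hi
      rw [smul_add, smul_smul, ← mul_assoc, inv_mul_cancel₀ hz0.ne', one_mul] at h1
      exact h1)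
  refine ⟨e, δ * ‖z‖, he, by positivity, ?_, hv₀e, fun u hu => ?_⟩
  · rw [inner_smul_left] at hve
    exact (mul_eq_zero.mp hve).resolve_left (by simpa using hz)
  · have h1 : ‖‖z‖⁻¹ • u - ‖z‖⁻¹ • z‖ < δ := by
      rw [← smul_sub, norm_smul, norm_inv, norm_norm, inv_mul_lt_iff₀ hz0, mul_comm]
      exact hu
    have h2 := hloc _ h1
    rw [cg_smul hK.cone hi, inner_smul_left] at h2
    rw [h2]
    simp only [conj_trivial]
    exact mul_pos_iff_of_pos_left hi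

/-- The half lines in the direction `v₀`. -/
private lemma cg_dich {v₀ : E3} {K : Set E3} (hK : IsStar v₀ K) (φ : E3) :
    (∀ τ : ℝ, φ + τ • v₀ ∈ K) ∨ ∃ τ : ℝ, φ + τ • v₀ ∉ K ∧ ∀ t : ℝ, τ < t → φ + t • v₀ ∈ K := by
  by_cases hall : ∀ τ : ℝ, φ + τ • v₀ ∈ K
  · exact Or.inl hall
  · right
    push Not at hall
    obtain ⟨τ₀, hτ₀⟩ := hall
    set T : Set ℝ := {τ | φ + τ • v₀ ∈ K} with hT
    have hup : ∀ τ ∈ T, ∀ t, τ ≤ t → t ∈ T := by
      intro τ hτ t ht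
      have := hK.add _ hτ (t - τ) (by linarith)
      rwa [add_assoc, ← add_smul, add_sub_cancel] at this
    have hTo : IsOpen T := hK.cone.isOpen.preimage (by fun_prop : Continuous fun τ : ℝ => φ + τ • v₀)
    have hTb : BddBelow T := by
      refine ⟨τ₀, fun τ hτ => ?_⟩
      by_contra hlt
      push Not at hlt
      exact hτ₀ (hup τ hτ τ₀ hlt.le)
    have hTn : T.Nonempty := by
      have h1 : Tendsto (fun r : ℝ => v₀ + r • φ) (𝓝[>] 0) (𝓝 v₀) := by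
        have : Continuous (fun r : ℝ => v₀ + r • φ) := by fun_prop
        have h2 := this.tendsto 0
        rw [zero_smul, add_zero] at h2
        exact h2.mono_left nhdsWithin_le_nhds
      have h2 := (h1.eventually (hK.cone.isOpen.mem_nhds hK.mem)).and self_mem_nhdsWithin
      obtain ⟨r, hr, hr0⟩ := h2.exists
      have hr0' : (0 : ℝ) < r := hr0
      refine ⟨r⁻¹, ?_⟩
      have h3 := hK.cone.smul _ hr r⁻¹ (inv_pos.mpr hr0')
      rw [smul_add, smul_smul, inv_mul_cancel₀ hr0'.ne', one_smul, add_comm] at h3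
      exact h3
    refine ⟨sInf T, ?_, ?_⟩
    · intro hmem
      have hmem' : sInf T ∈ T := hmem
      obtain ⟨ε, hε, hball⟩ := Metric.isOpen_iff.mp hTo _ hmem'
      have h1 : sInf T - ε / 2 ∈ T := hball (by
        rw [Metric.mem_ball, Real.dist_eq]
        rw [abs_lt]
        constructor <;> linarith)
      have := csInf_le hTb h1
      linarith
    · intro t ht
      obtain ⟨τ, hτ, hτt⟩ := exists_lt_of_csInf_lt hTn ht
      exact hup τ hτ t hτt.le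

private noncomputable def te (v₀ e φ : E3) : ℝ := -⟪φ, e⟫ / ⟪v₀, e⟫

private def PP (K : Set E3) (v₀ e φ : E3) : Prop :=
  ∃ δ : ℝ, 0 < δ ∧ ∀ u : E3, ‖u - (φ + te v₀ e φ • v₀)‖ < δ → (u ∈ K ↔ 0 < ⟪u, e⟫)

private lemma inner_ze {v₀ e : E3} (h : 0 < ⟪v₀, e⟫) (φ : E3) :
    ⟪φ + te v₀ e φ • v₀, e⟫ = 0 := by
  rw [inner_add_left, inner_smul_left, te]
  simp only [conj_trivial]
  rw [div_mul_cancel₀ _ h.ne']
  ring

private lemma cg_ray {v₀ : E3} (hv₀ : ‖v₀‖ = 1) {K : Set E3} (hK : IsStar v₀ K) {e φ : E3}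
    (h : 0 < ⟪v₀, e⟫) (hP : PP K v₀ e φ) (τ : ℝ) : φ + τ • v₀ ∈ K ↔ te v₀ e φ < τ := by
  obtain ⟨δ, hδ, hloc⟩ := hP
  constructor
  · intro hmem
    by_contra hle
    push Not at hle
    have h1 := hK.add _ hmem (te v₀ e φ - τ) (by linarith)
    rw [add_assoc, ← add_smul, add_sub_cancel] at h1
    have h2 := (hloc _ (by rw [sub_self, norm_zero]; exact hδ)).mp h1
    rw [inner_ze h] at h2
    exact lt_irrefl _ h2
  · intro hlt
    set s := min (τ - te v₀ e φ) (δ / 2) with hs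
    have hs0 : 0 < s := lt_min (by linarith) (by linarith)
    have hs1 : s ≤ τ - te v₀ e φ := min_le_left _ _
    have hs2 : s ≤ δ / 2 := min_le_right _ _
    have h1 : (φ + te v₀ e φ • v₀) + s • v₀ ∈ K := by
      refine (hloc _ ?_).mpr ?_
      · rw [add_sub_cancel_left, norm_smul, hv₀, mul_one, Real.norm_eq_abs, abs_of_pos hs0]
        linarith
      · rw [inner_add_left, inner_ze h, zero_add, inner_smul_left]
        simp only [conj_trivial]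
        positivity
    have h2 := hK.add _ h1 (τ - te v₀ e φ - s) (by linarith)
    rw [add_assoc, ← add_smul, add_assoc, ← add_smul] at h2
    have h3 : te v₀ e φ + (s + (τ - te v₀ e φ - s)) = τ := by ring
    rwa [h3] at h2

private lemma te_cont (v₀ e : E3) : Continuous (te v₀ e) := by
  unfold te
  fun_prop

private lemma cg_open {v₀ : E3} {K : Set E3} (e : E3) : IsOpen {φ | PP K v₀ e φ} := by
  rw [Metric.isOpen_iff]
  rintro φ ⟨δ, hδ, hloc⟩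
  have hc : Continuous (fun φ => φ + te v₀ e φ • v₀) :=
    continuous_id.add ((te_cont v₀ e).smul continuous_const)
  obtain ⟨ε, hε, hε'⟩ := Metric.continuous_iff.mp hc φ (δ / 2) (by linarith)
  refine ⟨ε, hε, fun φ' hφ' => ⟨δ / 2, by linarith, fun u hu => hloc u ?_⟩⟩
  have h1 := hε' φ' hφ'
  rw [dist_eq_norm] at h1
  calc ‖u - (φ + te v₀ e φ • v₀)‖ = ‖(u - (φ' + te v₀ e φ' • v₀)) +
        ((φ' + te v₀ e φ' • v₀) - (φ + te v₀ e φ • v₀))‖ := by congr 1; abel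
    _ ≤ ‖u - (φ' + te v₀ e φ' • v₀)‖ + ‖(φ' + te v₀ e φ' • v₀) - (φ + te v₀ e φ • v₀)‖ :=
        norm_add_le _ _
    _ < δ := by linarith

private lemma cg_closed {v₀ : E3} (hv₀ : ‖v₀‖ = 1) {K : Set E3} (hK : IsStar v₀ K)
    (hb : ∀ v : E3, ‖v‖ = 1 → v ∉ K → (∀ t : ℝ, 0 < t → v + t • v₀ ∈ K) →
      ∃ (e : E3) (δ : ℝ), ‖e‖ = 1 ∧ 0 < δ ∧ ⟪v, e⟫ = 0 ∧ 0 < ⟪v₀, e⟫ ∧
        ∀ u : E3, ‖u - v‖ < δ → (u ∈ K ↔ 0 < ⟪u, e⟫))
    {e : E3} (he : ‖e‖ = 1) (hpos : 0 < ⟪v₀, e⟫) {φ : E3} (hφ1 : ‖φ‖ = 1) (hφ0 : ⟪φ, v₀⟫ = 0)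
    (hcl : φ ∈ closure {φ | PP K v₀ e φ}) : PP K v₀ e φ := by
  have hfreq : ∃ᶠ φ' in 𝓝 φ, PP K v₀ e φ' := mem_closure_iff_frequently.mp hcl
  have hc : Continuous (fun φ => φ + te v₀ e φ • v₀) :=
    continuous_id.add ((te_cont v₀ e).smul continuous_const)
  have hze : φ + te v₀ e φ • v₀ ∉ K := by
    intro hmem
    have h1 : ∀ᶠ φ' in 𝓝 φ, φ' + te v₀ e φ' • v₀ ∈ K :=
      (hc.tendsto φ).eventually (hK.cone.isOpen.mem_nhds hmem)
    obtain ⟨φ', hP, hm⟩ := (hfreq.and_eventually h1).exists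
    exact lt_irrefl _ ((cg_ray hv₀ hK hpos hP _).mp hm)
  obtain ⟨τ, hτ, hτ'⟩ := (cg_dich hK φ).resolve_left (fun hall => hze (hall _))
  have hle : te v₀ e φ ≤ τ := by
    by_contra hlt
    push Not at hlt
    exact hze (hτ' _ hlt)
  have hzne : φ + τ • v₀ ≠ 0 := by
    intro h0
    have h1 : ⟪φ + τ • v₀, φ⟫ = 0 := by rw [h0, inner_zero_left]
    rw [inner_add_left, inner_smul_left, real_inner_self_eq_norm_sq, hφ1,
      real_inner_comm, hφ0] at h1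
    norm_num at h1
  obtain ⟨e', δ', he', hδ', hze', hv₀e', hloc'⟩ := cg_scaled hK hb hzne hτ (by
    intro t ht
    rw [add_assoc, ← add_smul]
    exact hτ' _ (by linarith))
  rcases lt_or_eq_of_le hle with hlt | heq
  · exfalso
    obtain ⟨τ₁, hτ₁, hτ₁'⟩ := exists_between (max_lt hlt (by linarith : τ - δ' / 2 < τ))
    have h1 : te v₀ e φ < τ₁ := (le_max_left _ _).trans_lt hτ₁
    have h2 : τ - δ' / 2 < τ₁ := (le_max_right _ _).trans_lt hτ₁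
    have h3 : ⟪φ + τ₁ • v₀, e'⟫ < 0 := by
      have : φ + τ₁ • v₀ = (φ + τ • v₀) + (τ₁ - τ) • v₀ := by
        rw [add_assoc, ← add_smul, add_sub_cancel]
      rw [this, inner_add_left, hze', zero_add, inner_smul_left]
      simp only [conj_trivial]
      exact mul_neg_of_neg_of_pos (by linarith) hv₀e'
    have e1 : ∀ᶠ φ' in 𝓝 φ, ‖φ' - φ‖ < δ' / 2 := by
      have : Continuous (fun φ' : E3 => ‖φ' - φ‖) := by fun_prop
      refine this.continuousAt.eventually (Iio_mem_nhds ?_)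
      show ‖φ - φ‖ < δ' / 2
      rw [sub_self, norm_zero]; linarith
    have e2 : ∀ᶠ φ' in 𝓝 φ, te v₀ e φ' < τ₁ :=
      (te_cont v₀ e).continuousAt.eventually (Iio_mem_nhds h1)
    have e3 : ∀ᶠ φ' in 𝓝 φ, ⟪φ' + τ₁ • v₀, e'⟫ < 0 := by
      have : Continuous (fun φ' : E3 => ⟪φ' + τ₁ • v₀, e'⟫) := by fun_prop
      exact this.continuousAt.eventually (Iio_mem_nhds h3)
    obtain ⟨φ', hP, h4, h5, h6⟩ := (hfreq.and_eventually (e1.and (e2.and e3))).exists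
    have h7 := (cg_ray hv₀ hK hpos hP τ₁).mpr h5
    have h8 : ‖φ' + τ₁ • v₀ - (φ + τ • v₀)‖ < δ' := by
      have : φ' + τ₁ • v₀ - (φ + τ • v₀) = (φ' - φ) + (τ₁ - τ) • v₀ := by
        rw [sub_smul]; abel
      rw [this]
      refine (norm_add_le _ _).trans_lt ?_
      rw [norm_smul, hv₀, mul_one, Real.norm_eq_abs, abs_of_neg (by linarith : τ₁ - τ < 0)]
      linarith
    have h9 := (hloc' _ h8).mp h7
    linarith
  · -- the two normals agree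
    have hcc : ∀ᶠ φ' in 𝓝 φ, ‖(φ' + te v₀ e φ' • v₀) - (φ + τ • v₀)‖ < δ' := by
      have : Continuous (fun φ' : E3 => ‖(φ' + te v₀ e φ' • v₀) - (φ + τ • v₀)‖) :=
        (hc.sub continuous_const).norm
      refine this.continuousAt.eventually (Iio_mem_nhds ?_)
      show ‖(φ + te v₀ e φ • v₀) - (φ + τ • v₀)‖ < δ'
      rw [heq, sub_self, norm_zero]; exact hδ'
    obtain ⟨φ', hP, h4⟩ := (hfreq.and_eventually hcc).exists
    have hzn : φ' + te v₀ e φ' • v₀ ∉ K := fun hm =>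
      lt_irrefl _ ((cg_ray hv₀ hK hpos hP _).mp hm)
    have h5 : ⟪φ' + te v₀ e φ' • v₀, e'⟫ ≤ 0 := by
      by_contra hlt
      push Not at hlt
      exact hzn ((hloc' _ h4).mpr hlt)
    have hee : e = e' := by
      refine unit_eq he he' (fun y hy => ?_)
      obtain ⟨δ, hδ, hloc⟩ := hP
      have hcont : Tendsto (fun r : ℝ => (φ' + te v₀ e φ' • v₀) + r • y) (𝓝[>] 0)
          (𝓝 (φ' + te v₀ e φ' • v₀)) := by
        have : Continuous (fun r : ℝ => (φ' + te v₀ e φ' • v₀) + r • y) := by fun_prop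
        have h2 := this.tendsto 0
        rw [zero_smul, add_zero] at h2
        exact h2.mono_left nhdsWithin_le_nhds
      have f1 : ∀ᶠ r in 𝓝[>] (0 : ℝ), ‖((φ' + te v₀ e φ' • v₀) + r • y) -
          (φ' + te v₀ e φ' • v₀)‖ < δ := by
        have := hcont.eventually (Metric.ball_mem_nhds _ hδ)
        filter_upwards [this] with r hr
        rwa [dist_eq_norm] at hr
      have f2 : ∀ᶠ r in 𝓝[>] (0 : ℝ), ‖((φ' + te v₀ e φ' • v₀) + r • y) - (φ + τ • v₀)‖ < δ' := by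
        have hc2 : Continuous (fun w : E3 => ‖w - (φ + τ • v₀)‖) := by fun_prop
        exact (hc2.continuousAt.tendsto.comp hcont).eventually (Iio_mem_nhds h4)
      obtain ⟨r, ⟨hr1, hr2⟩, hr0⟩ := ((f1.and f2).and self_mem_nhdsWithin).exists
      have hr0' : (0 : ℝ) < r := hr0
      have g1 : (φ' + te v₀ e φ' • v₀) + r • y ∈ K := by
        refine (hloc _ hr1).mpr ?_
        rw [inner_add_left, inner_ze hpos, zero_add, inner_smul_left]
        simp only [conj_trivial]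
        positivity
      have g2 := (hloc' _ hr2).mp g1
      rw [inner_add_left, inner_smul_left] at g2
      simp only [conj_trivial] at g2
      have g3 : 0 < r * ⟪y, e'⟫ := by linarith
      exact (mul_pos_iff_of_pos_left hr0').mp g3
    subst hee
    refine ⟨δ', hδ', ?_⟩
    rw [heq]
    exact hloc'

theorem cone_global {v₀ : E3} (hv₀ : ‖v₀‖ = 1) {K : Set E3} (hK : IsStar v₀ K)
    (hb : ∀ v : E3, ‖v‖ = 1 → v ∉ K → (∀ t : ℝ, 0 < t → v + t • v₀ ∈ K) →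
      ∃ (e : E3) (δ : ℝ), ‖e‖ = 1 ∧ 0 < δ ∧ ⟪v, e⟫ = 0 ∧ 0 < ⟪v₀, e⟫ ∧
        ∀ u : E3, ‖u - v‖ < δ → (u ∈ K ↔ 0 < ⟪u, e⟫)) :
    (∃ e : E3, ‖e‖ = 1 ∧ 0 < ⟪v₀, e⟫ ∧ ∀ v : E3, v ∈ K ↔ 0 < ⟪v, e⟫) ∨
      ∀ v : E3, v ∈ K ↔ ¬ ∃ t : ℝ, 0 ≤ t ∧ v = -(t • v₀) := by
  have hv₀v₀ : ⟪v₀, v₀⟫ = 1 := by rw [real_inner_self_eq_norm_sq, hv₀]; norm_num
  -- the line through `v₀`
  have hline : ∀ τ : ℝ, τ • v₀ ∈ K ↔ 0 < τ := by
    intro τ
    constructor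
    · intro hmem
      by_contra hle
      push Not at hle
      rcases lt_or_eq_of_le hle with hlt | heq
      · apply hK.neg
        have := hK.cone.smul _ hmem (-τ)⁻¹ (inv_pos.mpr (by linarith))
        rw [smul_smul] at this
        have h2 : (-τ)⁻¹ * τ = -1 := by
          have : τ ≠ 0 := hlt.ne
          field_simp
        rwa [h2, neg_one_smul] at this
      · rw [heq, zero_smul] at hmem
        exact hK.cone.zero hmem
    · intro hpos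
      exact hK.cone.smul _ hK.mem τ hpos
  -- decomposition of vectors
  have hdec : ∀ v : E3, v - ⟪v, v₀⟫ • v₀ ≠ 0 → ∃ (φ : E3) (r τ : ℝ), 0 < r ∧ ‖φ‖ = 1 ∧
      ⟪φ, v₀⟫ = 0 ∧ v = r • (φ + τ • v₀) := by
    intro v hx
    set x := v - ⟪v, v₀⟫ • v₀ with hxdef
    have hr : 0 < ‖x‖ := norm_pos_iff.mpr hx
    refine ⟨‖x‖⁻¹ • x, ‖x‖, ⟪v, v₀⟫ / ‖x‖, hr, ?_, ?_, ?_⟩
    · rw [norm_smul, norm_inv, norm_norm, inv_mul_cancel₀ hr.ne']
    · rw [inner_smul_left, hxdef, inner_sub_left, inner_smul_left, hv₀v₀]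
      simp
    · rw [smul_add, smul_smul, mul_inv_cancel₀ hr.ne', one_smul, smul_smul,
        mul_div_cancel₀ _ hr.ne', hxdef]
      abel
  by_cases hall : ∀ φ : E3, ‖φ‖ = 1 → ⟪φ, v₀⟫ = 0 → ∀ τ : ℝ, φ + τ • v₀ ∈ K
  · right
    intro v
    by_cases hx : v - ⟪v, v₀⟫ • v₀ = 0
    · have hv : v = ⟪v, v₀⟫ • v₀ := sub_eq_zero.mp hx
      rw [hv, hline]
      constructor
      · rintro hpos ⟨t, ht, hvt⟩
        have := congrArg (fun w => ⟪w, v₀⟫) hvt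
        simp only [inner_smul_left, inner_neg_left, hv₀v₀, conj_trivial, mul_one] at this
        linarith
      · intro hne
        by_contra hle
        push Not at hle
        exact hne ⟨-⟪v, v₀⟫, by linarith, by rw [neg_smul, neg_neg]⟩
    · obtain ⟨φ, r, τ, hr, hφ1, hφ0, hv⟩ := hdec v hx
      constructor
      · rintro - ⟨t, ht, hvt⟩
        apply hx
        rw [hvt, inner_neg_left, inner_smul_left, hv₀v₀]
        simp
      · intro _
        rw [hv, cg_smul hK.cone hr]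
        exact hall φ hφ1 hφ0 τ
  · left
    push Not at hall
    obtain ⟨φ₀, hφ₀1, hφ₀0, τ₀, hτ₀⟩ := hall
    obtain ⟨τ, hτ, hτ'⟩ := (cg_dich hK φ₀).resolve_left (fun h => hτ₀ (h τ₀))
    have hzne : φ₀ + τ • v₀ ≠ 0 := by
      intro h0
      have h1 : ⟪φ₀ + τ • v₀, φ₀⟫ = 0 := by rw [h0, inner_zero_left]
      rw [inner_add_left, inner_smul_left, real_inner_self_eq_norm_sq, hφ₀1,
        real_inner_comm, hφ₀0] at h1
      norm_num at h1
    obtain ⟨e, δ, he, hδ, hze, hpos, hloc⟩ := cg_scaled hK hb hzne hτ (by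
      intro t ht
      rw [add_assoc, ← add_smul]
      exact hτ' _ (by linarith))
    have hte : te v₀ e φ₀ = τ := by
      rw [inner_add_left, inner_smul_left] at hze
      simp only [conj_trivial] at hze
      rw [te, div_eq_iff hpos.ne']
      linarith
    have hP₀ : PP K v₀ e φ₀ := ⟨δ, hδ, by rw [hte]; exact hloc⟩
    have hcirc : {v : E3 | ‖v‖ = 1 ∧ ⟪v, v₀⟫ = 0} ⊆ {φ | PP K v₀ e φ} := by
      refine (circle_preconnected hv₀).subset_of_closure_inter_subset (cg_open e)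
        ⟨φ₀, ⟨hφ₀1, hφ₀0⟩, hP₀⟩ ?_
      rintro φ ⟨hcl, hφ1, hφ0⟩
      exact cg_closed hv₀ hK hb he hpos hφ1 hφ0 hcl
    refine ⟨e, he, hpos, fun v => ?_⟩
    by_cases hx : v - ⟪v, v₀⟫ • v₀ = 0
    · have hv : v = ⟪v, v₀⟫ • v₀ := sub_eq_zero.mp hx
      rw [hv, hline, inner_smul_left]
      simp only [conj_trivial]
      exact (mul_pos_iff_of_pos_right hpos).symm
    · obtain ⟨φ, r, t, hr, hφ1, hφ0, hv⟩ := hdec v hx
      have hP : PP K v₀ e φ := hcirc ⟨hφ1, hφ0⟩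
      rw [hv, cg_smul hK.cone hr, cg_ray hv₀ hK hpos hP, inner_smul_left]
      simp only [conj_trivial]
      rw [mul_pos_iff_of_pos_left hr, inner_add_left, inner_smul_left]
      simp only [conj_trivial]
      rw [te, div_lt_iff₀ hpos]
      constructor <;> intro _ <;> linarith

end Pool.Agent.Helper50.MS
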