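import Pool.Agent.Helper50.MS.Defs

/-!
# MS-05  Linear algebra of frames, part 1

`F = (a,b,n)` orthonormal in `E3` (dimension 3), so a basis: `v = ⟪v,a⟫ a + ⟪v,b⟫ b + ⟪v,n⟫ n` (`frame_expand`; e.g. `Orthonormal` with
card = finrank gives `OrthonormalBasis.mk`, sum over `Fin 3`, `Fin.sum_univ_three`) and `|v|² = ⟪v,a⟫² + ⟪v,b⟫² + ⟪v,n⟫²`.
With `p = -⟪v,a⟫/⟪v,n⟫`, `q = -⟪v,b⟫/⟪v,n⟫`, `Xx = a + p n`, `Xy = b + q n`: everything is a direct computation: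
`⟪v,Xx⟫ = ⟪v,a⟫ + p ⟪v,n⟫ = 0`, `⟪v,Xy⟫ = 0`, `|Xx|² = 1 + p²`, `|Xy|² = 1 + q²`, `⟪Xx,Xy⟫ = p q`; if `τ ⟂ v` then
`τ = ⟪τ,a⟫ Xx + ⟪τ,b⟫ Xy` (the difference is a multiple of `n` orthogonal to `v`, and `⟪v,n⟫ ≠ 0`); if `|v| = 1`, `⟪v,n⟫ ≠ 0` then
`(1 + p² + q²) ⟪v,n⟫² = |v|² = 1`. `H_le`: Cauchy-Schwarz and the operator norm.
-/

set_option autoImplicit false

open Filter Topology Set
open scoped RealInnerProductSpace

namespace Pool.Agent.Helper50.MS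

theorem frame_inner (F : Frame) : ⟪F.a, F.a⟫ = 1 ∧ ⟪F.b, F.b⟫ = 1 ∧ ⟪F.n, F.n⟫ = 1 ∧
    ⟪F.a, F.b⟫ = 0 ∧ ⟪F.a, F.n⟫ = 0 ∧ ⟪F.b, F.n⟫ = 0 := by
  have n0 : ‖F.a‖ = 1 := by simpa using F.on.1 0
  have n1 : ‖F.b‖ = 1 := by simpa using F.on.1 1
  have n2 : ‖F.n‖ = 1 := by simpa using F.on.1 2
  have o01 : ⟪F.a, F.b⟫ = 0 := by
    have := F.on.2 (i := 0) (j := 1) (by decide)
    simpa using this
  have o02 : ⟪F.a, F.n⟫ = 0 := by
    have := F.on.2 (i := 0) (j := 2) (by decide)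
    simpa using this
  have o12 : ⟪F.b, F.n⟫ = 0 := by
    have := F.on.2 (i := 1) (j := 2) (by decide)
    simpa using this
  refine ⟨?_, ?_, ?_, o01, o02, o12⟩
  · rw [real_inner_self_eq_norm_sq, n0]; norm_num
  · rw [real_inner_self_eq_norm_sq, n1]; norm_num
  · rw [real_inner_self_eq_norm_sq, n2]; norm_num

theorem frame_expand (F : Frame) (v : E3) :
    v = ⟪v, F.a⟫ • F.a + ⟪v, F.b⟫ • F.b + ⟪v, F.n⟫ • F.n := by
  have hcard : Fintype.card (Fin 3) = Module.finrank ℝ E3 := by simp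
  have hspan : ⊤ ≤ Submodule.span ℝ (Set.range ![F.a, F.b, F.n]) := by
    have hli : LinearIndependent ℝ ![F.a, F.b, F.n] := F.on.linearIndependent
    exact (hli.span_eq_top_of_card_eq_finrank' hcard).ge
  let b : OrthonormalBasis (Fin 3) ℝ E3 := OrthonormalBasis.mk F.on hspan
  have hb : ⇑b = ![F.a, F.b, F.n] := OrthonormalBasis.coe_mk F.on hspan
  have h1 := b.sum_repr' v
  rw [Fin.sum_univ_three, hb] at h1
  simp only [Matrix.cons_val_zero, Matrix.cons_val_one, Matrix.cons_val_two, Matrix.head_cons,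
    Matrix.tail_cons] at h1
  rw [real_inner_comm v F.a, real_inner_comm v F.b, real_inner_comm v F.n] at h1
  exact h1.symm

theorem frame_norm_sq (F : Frame) (v : E3) :
    ‖v‖ ^ 2 = ⟪v, F.a⟫ ^ 2 + ⟪v, F.b⟫ ^ 2 + ⟪v, F.n⟫ ^ 2 := by
  rw [← real_inner_self_eq_norm_sq]
  conv_lhs => rw [frame_expand F v, inner_add_right, inner_add_right, inner_smul_right,
    inner_smul_right, inner_smul_right, ← frame_expand F v]
  ring

theorem inner_Xx (F : Frame) (v : E3) (hv : ⟪v, F.n⟫ ≠ 0) : ⟪v, F.Xx v⟫ = 0 ∧ ⟪v, F.Xy v⟫ = 0 := by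
  constructor
  · rw [Frame.Xx, inner_add_right, inner_smul_right, Frame.p]
    field_simp
    ring
  · rw [Frame.Xy, inner_add_right, inner_smul_right, Frame.q]
    field_simp
    ring

theorem norm_Xx (F : Frame) (v : E3) : ‖F.Xx v‖ ^ 2 = 1 + F.p v ^ 2 ∧
    ‖F.Xy v‖ ^ 2 = 1 + F.q v ^ 2 ∧ ⟪F.Xx v, F.Xy v⟫ = F.p v * F.q v := by
  obtain ⟨haa, hbb, hnn, hab, han, hbn⟩ := frame_inner F
  have hna : ⟪F.n, F.a⟫ = 0 := by rw [real_inner_comm]; exact han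
  have hnb : ⟪F.n, F.b⟫ = 0 := by rw [real_inner_comm]; exact hbn
  refine ⟨?_, ?_, ?_⟩
  · rw [← real_inner_self_eq_norm_sq, Frame.Xx]
    simp only [inner_add_left, inner_add_right, inner_smul_left, inner_smul_right, haa, han, hna,
      hnn, conj_trivial]
    ring
  · rw [← real_inner_self_eq_norm_sq, Frame.Xy]
    simp only [inner_add_left, inner_add_right, inner_smul_left, inner_smul_right, hbb, hbn, hnb,
      hnn, conj_trivial]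
    ring
  · rw [Frame.Xx, Frame.Xy]
    simp only [inner_add_left, inner_add_right, inner_smul_left, inner_smul_right, hab, han, hnb,
      hnn, conj_trivial]
    ring

theorem tangent_expand (F : Frame) (v τ : E3) (hv : ⟪v, F.n⟫ ≠ 0) (hτ : ⟪v, τ⟫ = 0) :
    τ = ⟪τ, F.a⟫ • F.Xx v + ⟪τ, F.b⟫ • F.Xy v := by
  have h1 := frame_expand F τ
  have h2 : ⟪v, τ⟫ = ⟪τ, F.a⟫ * ⟪v, F.a⟫ + ⟪τ, F.b⟫ * ⟪v, F.b⟫ + ⟪τ, F.n⟫ * ⟪v, F.n⟫ := by
    conv_lhs => rw [h1, inner_add_right, inner_add_right, inner_smul_right, inner_smul_right,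
      inner_smul_right]
  rw [hτ] at h2
  have h3 : ⟪τ, F.n⟫ = ⟪τ, F.a⟫ * F.p v + ⟪τ, F.b⟫ * F.q v := by
    rw [Frame.p, Frame.q]
    field_simp
    linarith
  rw [Frame.Xx, Frame.Xy, smul_add, smul_add, smul_smul, smul_smul]
  conv_lhs => rw [h1, h3, add_smul]
  abel

theorem inner_n_sq (F : Frame) (v : E3) (hv : ‖v‖ = 1) (hn : ⟪v, F.n⟫ ≠ 0) :
    (1 + F.p v ^ 2 + F.q v ^ 2) * ⟪v, F.n⟫ ^ 2 = 1 := by
  have h1 := frame_norm_sq F v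
  rw [hv] at h1
  rw [Frame.p, Frame.q]
  field_simp
  linarith

/-- The entries `H` are bounded by the norm. -/
theorem H_le (F : Frame) (v : E3) (B : End3) :
    |F.Hxx v B| ≤ ‖B‖ * (1 + F.p v ^ 2) ∧ |F.Hyy v B| ≤ ‖B‖ * (1 + F.q v ^ 2) ∧
    |F.Hxy v B| ≤ ‖B‖ * (‖F.Xx v‖ * ‖F.Xy v‖) := by
  obtain ⟨h1, h2, -⟩ := norm_Xx F v
  have key : ∀ x y : E3, |⟪B x, y⟫| ≤ ‖B‖ * (‖x‖ * ‖y‖) := by
    intro x y
    calc |⟪B x, y⟫| ≤ ‖B x‖ * ‖y‖ := abs_real_inner_le_norm _ _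
      _ ≤ (‖B‖ * ‖x‖) * ‖y‖ := by
        gcongr
        exact B.le_opNorm x
      _ = ‖B‖ * (‖x‖ * ‖y‖) := by ring
  refine ⟨?_, ?_, ?_⟩
  · have := key (F.Xx v) (F.Xx v)
    rw [← sq, h1] at this
    exact this
  · have := key (F.Xy v) (F.Xy v)
    rw [← sq, h2] at this
    exact this
  · exact key (F.Xx v) (F.Xy v)

end Pool.Agent.Helper50.MS
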