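import Mathlib

/-!
# MS-11  The variation lemma (Gronwall with a variable coefficient)

PROOF. Fix `ε > 0` and let `B t = (‖f a‖ + ε) (exp((1+ε)(φ t - φ a)) - 1) + ε (1 + (t - a)) * ...` - or simpler: first note that it is enough to
bound `‖f t - f a‖ ≤ B t` for `B t = ‖f a‖ (exp(φ t - φ a) - 1) + ε * exp(φ t - φ a + (t - a))`, for every `ε > 0` (then `ε → 0`).
`B a = ε ≥ 0 = ‖f a - f a‖`, `B' t = φ' t (B t + ‖f a‖) + ε exp(...)`. Where `‖f t - f a‖ = B t` we have `‖f' t‖ ≤ φ' t ‖f t‖ ≤ φ' t (B t + ‖f a‖) < B' t`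
(`φ' t ≥ 0` when `f t ≠ 0`; if `f t = 0` then `f' t = 0` and `B' t > 0` needs `φ' t (B t + ‖f a‖) ≥ 0`: assume `hφ0 : 0 ≤ φ' t`).
Apply `image_norm_le_of_norm_deriv_right_lt_deriv_boundary'` (Mathlib, `Mathlib/Analysis/Calculus/MeanValue.lean`) to `t ↦ f t - f a`
(`HasDerivWithinAt` on `Icc` gives the right derivative at points of `Ico`: `HasDerivWithinAt.mono_of_mem_nhdsWithin`/`Ici`).
-/

set_option autoImplicit false

open Filter Topology Set

namespace Pool.Agent.Helper50.MS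

theorem variation {V : Type*} [NormedAddCommGroup V] [NormedSpace ℝ V] {f f' : ℝ → V}
    {φ φ' : ℝ → ℝ} {a b : ℝ} (hab : a ≤ b)
    (hf : ∀ t ∈ Icc a b, HasDerivWithinAt f (f' t) (Icc a b) t)
    (hφ : ∀ t ∈ Icc a b, HasDerivWithinAt φ (φ' t) (Icc a b) t)
    (hφ0 : ∀ t ∈ Icc a b, 0 ≤ φ' t)
    (h : ∀ t ∈ Icc a b, ‖f' t‖ ≤ φ' t * ‖f t‖) :
    ‖f b - f a‖ ≤ ‖f a‖ * (Real.exp (φ b - φ a) - 1) := by
  have key : ∀ ε : ℝ, 0 < ε → ‖f b - f a‖ ≤ ‖f a‖ * (Real.exp (φ b - φ a) - 1) +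
      ε * Real.exp (φ b - φ a + (b - a)) := by
    intro ε hε
    have hr : ∀ {W : Type _} [NormedAddCommGroup W] [NormedSpace ℝ W] {g : ℝ → W} {g' : W} {t : ℝ},
        t ∈ Ico a b → HasDerivWithinAt g g' (Icc a b) t → HasDerivWithinAt g g' (Ici t) t := by
      intro W _ _ g g' t ht hg
      have h1 : HasDerivWithinAt g g' (Icc t b) t := hg.mono (Icc_subset_Icc_left ht.1)
      exact h1.mono_of_mem_nhdsWithin (Icc_mem_nhdsGE ht.2)
    have hr' : ∀ {g : ℝ → ℝ} {g' : ℝ} {t : ℝ},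
        t ∈ Ico a b → HasDerivWithinAt g g' (Icc a b) t → HasDerivWithinAt g g' (Ici t) t := by
      intro g g' t ht hg
      have h1 : HasDerivWithinAt g g' (Icc t b) t := hg.mono (Icc_subset_Icc_left ht.1)
      exact h1.mono_of_mem_nhdsWithin (Icc_mem_nhdsGE ht.2)
    have hBd : ∀ t ∈ Icc a b, HasDerivWithinAt
        (fun t => ‖f a‖ * (Real.exp (φ t - φ a) - 1) + ε * Real.exp (φ t - φ a + (t - a)))
        (‖f a‖ * (Real.exp (φ t - φ a) * φ' t) +
          ε * (Real.exp (φ t - φ a + (t - a)) * (φ' t + 1))) (Icc a b) t := by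
      intro t ht
      have h1 : HasDerivWithinAt (fun t => φ t - φ a) (φ' t) (Icc a b) t := (hφ t ht).sub_const _
      have h2 : HasDerivWithinAt (fun t => φ t - φ a + (t - a)) (φ' t + 1) (Icc a b) t :=
        h1.add ((hasDerivWithinAt_id t _).sub_const a)
      exact ((h1.exp.sub_const 1).const_mul _).add (h2.exp.const_mul ε)
    have := image_norm_le_of_norm_deriv_right_lt_deriv_boundary' (f := fun t => f t - f a)
      (f' := f') (a := a) (b := b)
      (B := fun t => ‖f a‖ * (Real.exp (φ t - φ a) - 1) + ε * Real.exp (φ t - φ a + (t - a)))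
      (B' := fun t => ‖f a‖ * (Real.exp (φ t - φ a) * φ' t) +
          ε * (Real.exp (φ t - φ a + (t - a)) * (φ' t + 1)))
      (fun t ht => ((hf t ht).sub_const (f a)).continuousWithinAt)
      (fun t ht => hr ht ((hf t (Ico_subset_Icc_self ht)).sub_const (f a)))
      (by simp; exact hε.le)
      (fun t ht => (hBd t ht).continuousWithinAt)
      (fun t ht => hr' ht (hBd t (Ico_subset_Icc_self ht)))
      (by
        intro t ht heq
        have ht' := Ico_subset_Icc_self ht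
        have e1 : ‖f t‖ ≤ ‖f t - f a‖ + ‖f a‖ := by
          have := norm_add_le (f t - f a) (f a)
          rwa [sub_add_cancel] at this
        rw [heq] at e1
        have e2 := h t ht'
        have e3 := hφ0 t ht'
        have e4 : 0 < ε * Real.exp (φ t - φ a + (t - a)) := mul_pos hε (Real.exp_pos _)
        calc ‖f' t‖ ≤ φ' t * ‖f t‖ := e2
          _ ≤ φ' t * (‖f a‖ * (Real.exp (φ t - φ a) - 1) +
              ε * Real.exp (φ t - φ a + (t - a)) + ‖f a‖) := by gcongr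
          _ < _ := by nlinarith)
      (right_mem_Icc.mpr hab)
    exact this
  refine le_of_forall_pos_le_add fun δ hδ => ?_
  have hE : 0 < Real.exp (φ b - φ a + (b - a)) := Real.exp_pos _
  have := key (δ / Real.exp (φ b - φ a + (b - a))) (by positivity)
  rwa [div_mul_cancel₀ _ hE.ne'] at this

/-- The same for all intermediate points, with a linear bound. -/
theorem variation_small {V : Type*} [NormedAddCommGroup V] [NormedSpace ℝ V] {f f' : ℝ → V}
    {φ φ' : ℝ → ℝ} {a b : ℝ} (hab : a ≤ b)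
    (hf : ∀ t ∈ Icc a b, HasDerivWithinAt f (f' t) (Icc a b) t)
    (hφ : ∀ t ∈ Icc a b, HasDerivWithinAt φ (φ' t) (Icc a b) t)
    (hφ0 : ∀ t ∈ Icc a b, 0 ≤ φ' t)
    (h : ∀ t ∈ Icc a b, ‖f' t‖ ≤ φ' t * ‖f t‖) (hsmall : φ b - φ a ≤ 1 / 10) :
    ‖f b - f a‖ ≤ 11 / 10 * (φ b - φ a) * ‖f a‖ ∧
      ‖f b - f a‖ ≤ 5 / 4 * (φ b - φ a) * ‖f b‖ := by
  have h1 := variation hab hf hφ hφ0 h
  have hmono : φ a ≤ φ b := by
    have : MonotoneOn φ (Icc a b) := by
      refine monotoneOn_of_deriv_nonneg (convex_Icc _ _)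
        (fun x hxx => (hφ x hxx).continuousWithinAt) ?_ ?_
      · intro x hxx
        rw [interior_Icc] at hxx
        exact ((hφ x (Ioo_subset_Icc_self hxx)).hasDerivAt
          (Icc_mem_nhds hxx.1 hxx.2)).differentiableAt.differentiableWithinAt
      · intro x hxx
        rw [interior_Icc] at hxx
        rw [((hφ x (Ioo_subset_Icc_self hxx)).hasDerivAt (Icc_mem_nhds hxx.1 hxx.2)).deriv]
        exact hφ0 x (Ioo_subset_Icc_self hxx)
    exact this (left_mem_Icc.mpr hab) (right_mem_Icc.mpr hab) hab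
  set x := φ b - φ a with hx
  have hx0 : 0 ≤ x := by linarith
  have h2 : Real.exp x - 1 ≤ 11 / 10 * x := by
    have := Real.abs_exp_sub_one_sub_id_le (x := x) (by rw [abs_of_nonneg hx0]; linarith)
    have := (abs_le.mp this).2
    nlinarith
  have h3 : ‖f b - f a‖ ≤ 11 / 10 * x * ‖f a‖ := by
    calc ‖f b - f a‖ ≤ ‖f a‖ * (Real.exp x - 1) := h1
      _ ≤ ‖f a‖ * (11 / 10 * x) := by gcongr
      _ = _ := by ring
  refine ⟨h3, ?_⟩
  have h4 : ‖f a‖ ≤ ‖f b‖ + ‖f b - f a‖ := by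
    have := norm_sub_le (f b) (f b - f a)
    rwa [sub_sub_cancel] at this
  have h5 : ‖f b - f a‖ ≤ 11 / 10 * x * (‖f b‖ + ‖f b - f a‖) := h3.trans (by gcongr)
  have h6 : 11 / 10 * x * ‖f b - f a‖ ≤ 11 / 100 * ‖f b - f a‖ := by
    nlinarith [norm_nonneg (f b - f a)]
  have h7 : 0 ≤ x * ‖f b‖ := by positivity
  nlinarith

end Pool.Agent.Helper50.MS
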