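import Pool.Agent.Helper50.MS.StripMono
import Pool.Agent.Helper50.MS.Variation

/-!
# MS-12  The shape operator is nearly constant on the leaves of good strips

`J = [-κ, κ]`, `κ = kap C = 1/(10^8 C)`, `δ = del C = 6e-5 κ`. On the leaf `{x} × J` all points are `Good`: `|p| ≤ δ`, `|q| ≤ κ`, `Hyy ≥ a/2`, `a = ‖A‖`.
PROOF of `leaf_osc_A`. `Nn = ⟪N,n⟫ ≤ 1`, `‖Xy‖ = √(1+q²) ≤ 1.0001`. The derivative of `A` along the leaf is `≤ C a² (Nn/Hyy)‖Xy‖ ≤ 2.01 C a` (`strip_deriv`, restricted to `J`), so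
`variation_small` with `φ q = 2.1 C q`, total `≤ 4.2 C κ = 4.2e-8`, gives `‖A(q) - A(q')‖ ≤ (5/4)·4.2 C κ ‖A(q')‖ ≤ 6 C κ ‖A(q')‖` for `q, q' ∈ J` (both
orders: `variation_small` bounds by both end points).
-/

set_option autoImplicit false

open Filter Topology Set
open scoped RealInnerProductSpace

namespace Pool.Agent.Helper50.MS

variable {S : Type} [TopologicalSpace S] {X N : S → E3} {A : S → End3} {c C : ℝ}

theorem kap_del (hC : 1 ≤ C) : 0 < kap C ∧ kap C ≤ 1 / 10 ^ 8 ∧ C * kap C = 1 / 10 ^ 8 ∧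
    0 < del C ∧ del C = 6 / 10 ^ 5 * kap C := by
  have hC0 : 0 < C := by linarith
  have h1 : 0 < kap C := by unfold kap; positivity
  have h3 : C * kap C = 1 / 10 ^ 8 := by
    unfold kap
    field_simp
  refine ⟨h1, ?_, h3, ?_, rfl⟩
  · calc kap C = 1 * kap C := (one_mul _).symm
      _ ≤ C * kap C := by gcongr
      _ = _ := h3
  · unfold del; positivity

theorem leaf_osc_A (h : Hyp X N A c C) (F : Frame) (o : ℝ) {D : Set (ℝ × ℝ)} {G : ℝ × ℝ → S}
    (hG : IsLift (F.psi X N o) (F.dom N A) D G) {x : ℝ}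
    (hD : ∀ q ∈ Icc (-kap C) (kap C), (x, q) ∈ D)
    (hgood : ∀ q ∈ Icc (-kap C) (kap C), Good F N A C (G (x, q))) :
    ∀ q ∈ Icc (-kap C) (kap C), ∀ q' ∈ Icc (-kap C) (kap C),
      ‖A (G (x, q)) - A (G (x, q'))‖ ≤ 6 * C * kap C * ‖A (G (x, q'))‖ := by
  obtain ⟨hκ0, hκ1, hCκ, hδ0, hδ⟩ := kap_del h.one_le
  obtain ⟨-, -, -, hN1⟩ := surface_cont h.surf
  have hC0 : 0 < C := by linarith [h.one_le]
  -- the derivative along the leaf
  have hder : ∀ t ∈ Icc (-kap C) (kap C), ∃ B : End3,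
      HasDerivWithinAt (fun q => A (G (x, q))) B (Icc (-kap C) (kap C)) t ∧
        ‖B‖ ≤ 21 / 10 * C * ‖A (G (x, t))‖ := by
    intro t ht
    obtain ⟨-, -, -, -, -, B, hB, hB'⟩ := strip_deriv h F o hG (z := (x, t)) (hD t ht)
    refine ⟨B, hB.mono (fun q hq => hD q hq), hB'.trans ?_⟩
    obtain ⟨g1, g2, g3, g4⟩ := hgood t ht
    have hA0 : 0 < ‖A (G (x, t))‖ := lt_of_lt_of_le h.cpos (h.lower _)
    have hmem := hG.mem (x, t) (hD t ht)
    have hH0 : 0 < F.Hyy (N (G (x, t))) (A (G (x, t))) := hmem.2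
    have hn0 : 0 < ⟪N (G (x, t)), F.n⟫ := hmem.1
    have hn1 : ⟪N (G (x, t)), F.n⟫ ≤ 1 := by
      have h1 := real_inner_le_norm (N (G (x, t))) F.n
      have h2 : ‖F.n‖ = 1 := by simpa using F.on.1 2
      rwa [hN1, h2, mul_one] at h1
    have hXy : ‖F.Xy (N (G (x, t)))‖ ≤ 21 / 20 := by
      have h1 := (norm_Xx F (N (G (x, t)))).2.1
      have h2 : F.q (N (G (x, t))) ^ 2 ≤ (1 / 10 ^ 8) ^ 2 := by
        rw [← sq_abs]
        exact pow_le_pow_left₀ (abs_nonneg _) (g3.trans hκ1) 2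
      refine abs_le_of_sq_le_sq' ?_ (by norm_num) |>.2
      rw [h1]
      norm_num at h2 ⊢
      linarith
    rw [norm_smul, Real.norm_eq_abs, abs_of_pos (div_pos hn0 hH0)]
    set a := ‖A (G (x, t))‖
    set n := ⟪N (G (x, t)), F.n⟫
    set H := F.Hyy (N (G (x, t))) (A (G (x, t)))
    have h3 : n / H ≤ 2 / a := by
      rw [div_le_div_iff₀ hH0 hA0]
      nlinarith
    calc C * a ^ 2 * (n / H * ‖F.Xy (N (G (x, t)))‖) ≤ C * a ^ 2 * (2 / a * (21 / 20)) := by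
          gcongr
      _ = 21 / 10 * C * a := by field_simp; ring
  choose! B hB hB' using hder
  have hφ : ∀ s : Set ℝ, ∀ t, HasDerivWithinAt (fun q => 21 / 10 * C * q) (21 / 10 * C) s t := by
    intro s t
    have := (hasDerivWithinAt_id t s).const_mul (21 / 10 * C)
    simpa using this
  have main : ∀ q₁ ∈ Icc (-kap C) (kap C), ∀ q₂ ∈ Icc (-kap C) (kap C), q₁ ≤ q₂ →
      ‖A (G (x, q₂)) - A (G (x, q₁))‖ ≤
        11 / 10 * (21 / 10 * C * q₂ - 21 / 10 * C * q₁) * ‖A (G (x, q₁))‖ ∧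
      ‖A (G (x, q₂)) - A (G (x, q₁))‖ ≤
        5 / 4 * (21 / 10 * C * q₂ - 21 / 10 * C * q₁) * ‖A (G (x, q₂))‖ := by
    intro q₁ h₁ q₂ h₂ h12
    have hsub : Icc q₁ q₂ ⊆ Icc (-kap C) (kap C) := Icc_subset_Icc h₁.1 h₂.2
    refine variation_small (f := fun q => A (G (x, q))) (f' := B)
      (φ := fun q => 21 / 10 * C * q) (φ' := fun _ => 21 / 10 * C) h12
      (fun t ht => (hB t (hsub ht)).mono hsub) (fun t ht => hφ _ t)
      (fun t ht => by positivity) (fun t ht => hB' t (hsub ht)) ?_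
    have : 21 / 10 * C * q₂ - 21 / 10 * C * q₁ ≤ 42 / 10 * (C * kap C) := by
      nlinarith [h₁.1, h₂.2]
    rw [hCκ] at this
    norm_num at this ⊢
    linarith
  intro q hq q' hq'
  have hbound : ∀ q₁ ∈ Icc (-kap C) (kap C), ∀ q₂ ∈ Icc (-kap C) (kap C),
      21 / 10 * C * q₂ - 21 / 10 * C * q₁ ≤ 42 / 10 * (C * kap C) := by
    intro q₁ h₁ q₂ h₂
    nlinarith [h₁.1, h₂.2]
  rcases le_total q' q with hle | hle
  · refine (main q' hq' q hq hle).1.trans ?_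
    have := hbound q' hq' q hq
    refine mul_le_mul_of_nonneg_right ?_ (norm_nonneg _)
    have h5 : 0 < C * kap C := by positivity
    nlinarith
  · rw [norm_sub_rev]
    refine (main q hq q' hq' hle).2.trans ?_
    have := hbound q hq q' hq'
    refine mul_le_mul_of_nonneg_right ?_ (norm_nonneg _)
    have h5 : 0 < C * kap C := by positivity
    nlinarith

end Pool.Agent.Helper50.MS
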