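import Pool.Agent.Helper50.MS.Defs2
import Pool.Agent.Helper50.MS.FrameLin
import Pool.Agent.Helper50.MS.LeafOscA

/-!
# MS-25  The cone of a full strip

`coneOf`: the directions `v` with `⟪v,n⟫ > 0`, `|⟪v,b⟫| < κ/2 ⟪v,n⟫` (i.e. `|q v| < κ/2`), `α₁ + β₁ q < p < α₂ + β₂ q`.
`w₁ = -a + β₁ b - α₁ n`, `w₂ = a - β₂ b + α₂ n`: for `⟪v,n⟫ > 0`, `p v > α₁ + β₁ q v ↔ 0 < ⟪v,w₁⟫` and `p v < α₂ + β₂ q v ↔ 0 < ⟪v,w₂⟫`
(multiply by `⟪v,n⟫`). So `coneOf` is an intersection of open half spaces through `0`: open, convex, a cone, `0 ∉`. `‖w_i‖² = 1 + β² + α² ∈ [1, 4]`.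
(ball): for `‖v - n‖ < δ/100` (`δ = del C = 6e-5 κ`): `⟪v,n⟫ > 1/2`, `|⟪v,b⟫| ≤ δ/100 < κ/4`: so `v ∈ coneOf ↔ 0 < ⟪v,w₁⟫ ∧ 0 < ⟪v,w₂⟫`.
-/

set_option autoImplicit false

open Filter Topology Set
open scoped RealInnerProductSpace

namespace Pool.Agent.Helper50.MS

variable {C : ℝ}

theorem inner_w₁ (F : Frame) (α β : ℝ) (v : E3) :
    ⟪v, w₁ F α β⟫ = -⟪v, F.a⟫ + β * ⟪v, F.b⟫ - α * ⟪v, F.n⟫ := by
  rw [w₁, inner_sub_right, inner_add_right, inner_neg_right, inner_smul_right, inner_smul_right]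

theorem inner_w₂ (F : Frame) (α β : ℝ) (v : E3) :
    ⟪v, w₂ F α β⟫ = ⟪v, F.a⟫ - β * ⟪v, F.b⟫ + α * ⟪v, F.n⟫ := by
  rw [w₂, inner_add_right, inner_sub_right, inner_smul_right, inner_smul_right]

private theorem norm_w (F : Frame) (x β α : ℝ) (hx : x ^ 2 = 1) (w : E3)
    (ha : ⟪w, F.a⟫ = x) (hb : ⟪w, F.b⟫ ^ 2 = β ^ 2) (hn : ⟪w, F.n⟫ ^ 2 = α ^ 2)
    (hα : |α| ≤ 1) (hβ : |β| ≤ 1) : 1 ≤ ‖w‖ ∧ ‖w‖ ≤ 2 := by
  have h1 := frame_norm_sq F w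
  rw [ha, hb, hn, hx] at h1
  have h2 : α ^ 2 ≤ 1 := by rw [← sq_abs]; nlinarith [abs_nonneg α]
  have h3 : β ^ 2 ≤ 1 := by rw [← sq_abs]; nlinarith [abs_nonneg β]
  constructor
  · nlinarith [norm_nonneg w, sq_nonneg α, sq_nonneg β]
  · nlinarith [norm_nonneg w, sq_nonneg α, sq_nonneg β]

theorem cone_props (hC : 1 ≤ C) (F : Frame) {α₁ β₁ α₂ β₂ : ℝ} (h₁ : |α₁| ≤ del C)
    (h₂ : |β₁| ≤ 1 / 10 ^ 4) (h₃ : |α₂| ≤ del C) (h₄ : |β₂| ≤ 1 / 10 ^ 4) :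
    IsCone (coneOf F C α₁ β₁ α₂ β₂) ∧ Convex ℝ (coneOf F C α₁ β₁ α₂ β₂) ∧
    1 ≤ ‖w₁ F α₁ β₁‖ ∧ ‖w₁ F α₁ β₁‖ ≤ 2 ∧ 1 ≤ ‖w₂ F α₂ β₂‖ ∧ ‖w₂ F α₂ β₂‖ ≤ 2 ∧
    (∀ v : E3, 0 < ⟪v, F.n⟫ → (α₁ + β₁ * F.q v < F.p v ↔ 0 < ⟪v, w₁ F α₁ β₁⟫)) ∧
    (∀ v : E3, 0 < ⟪v, F.n⟫ → (F.p v < α₂ + β₂ * F.q v ↔ 0 < ⟪v, w₂ F α₂ β₂⟫)) ∧
    ∀ v : E3, ‖v - F.n‖ < del C / 100 →
      (v ∈ coneOf F C α₁ β₁ α₂ β₂ ↔ 0 < ⟪v, w₁ F α₁ β₁⟫ ∧ 0 < ⟪v, w₂ F α₂ β₂⟫) := by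
  obtain ⟨hκ0, hκ1, hCκ, hδ0, hδ⟩ := kap_del hC
  obtain ⟨haa, hbb, hnn, hab, han, hbn⟩ := frame_inner F
  have hba : ⟪F.b, F.a⟫ = 0 := by rw [real_inner_comm]; exact hab
  have hna : ⟪F.n, F.a⟫ = 0 := by rw [real_inner_comm]; exact han
  have hnb : ⟪F.n, F.b⟫ = 0 := by rw [real_inner_comm]; exact hbn
  have hp1 : ∀ v : E3, 0 < ⟪v, F.n⟫ → (α₁ + β₁ * F.q v < F.p v ↔ 0 < ⟪v, w₁ F α₁ β₁⟫) := by
    intro v hv
    rw [inner_w₁, Frame.p, Frame.q, lt_div_iff₀ hv, add_mul, mul_assoc, div_mul_cancel₀ _ hv.ne']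
    constructor <;> intro h <;> linarith
  have hp2 : ∀ v : E3, 0 < ⟪v, F.n⟫ → (F.p v < α₂ + β₂ * F.q v ↔ 0 < ⟪v, w₂ F α₂ β₂⟫) := by
    intro v hv
    rw [inner_w₂, Frame.p, Frame.q, div_lt_iff₀ hv, add_mul, mul_assoc, div_mul_cancel₀ _ hv.ne']
    constructor <;> intro h <;> linarith
  have hset : coneOf F C α₁ β₁ α₂ β₂ = {v : E3 | 0 < ⟪v, F.n⟫ ∧
      |⟪v, F.b⟫| < kap C / 2 * ⟪v, F.n⟫ ∧ 0 < ⟪v, w₁ F α₁ β₁⟫ ∧ 0 < ⟪v, w₂ F α₂ β₂⟫} := by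
    ext v
    constructor
    · rintro ⟨g1, g2, g3, g4⟩
      exact ⟨g1, g2, (hp1 v g1).1 g3, (hp2 v g1).1 g4⟩
    · rintro ⟨g1, g2, g3, g4⟩
      exact ⟨g1, g2, (hp1 v g1).2 g3, (hp2 v g1).2 g4⟩
  have hδ1 : del C ≤ 1 := by rw [hδ]; norm_num at hκ1 ⊢; linarith
  have hw1 := norm_w F (-1) β₁ α₁ (by norm_num) (w₁ F α₁ β₁)
    (by rw [real_inner_comm, inner_w₁, haa, hab, han]; ring)
    (by rw [real_inner_comm, inner_w₁, hba, hbb, hbn]; ring)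
    (by rw [real_inner_comm, inner_w₁, hna, hnb, hnn]; ring) (h₁.trans hδ1)
    (h₂.trans (by norm_num))
  have hw2 := norm_w F 1 β₂ α₂ (by norm_num) (w₂ F α₂ β₂)
    (by rw [real_inner_comm, inner_w₂, haa, hab, han]; ring)
    (by rw [real_inner_comm, inner_w₂, hba, hbb, hbn]; ring)
    (by rw [real_inner_comm, inner_w₂, hna, hnb, hnn]; ring) (h₃.trans hδ1)
    (h₄.trans (by norm_num))
  refine ⟨⟨?_, ?_, ?_⟩, ?_, hw1.1, hw1.2, hw2.1, hw2.2, hp1, hp2, ?_⟩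
  · rw [hset]
    have c : ∀ w : E3, Continuous fun v : E3 => ⟪v, w⟫ := fun w =>
      continuous_id.inner continuous_const
    exact (isOpen_lt continuous_const (c _)).inter ((isOpen_lt (c _).abs
      (continuous_const.mul (c _))).inter ((isOpen_lt continuous_const (c _)).inter
        (isOpen_lt continuous_const (c _))))
  · rw [hset]
    rintro v ⟨g1, g2, g3, g4⟩ t ht
    simp only [mem_ofPred_eq, real_inner_smul_left]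
    refine ⟨mul_pos ht g1, ?_, mul_pos ht g3, mul_pos ht g4⟩
    rw [abs_mul, abs_of_pos ht]
    calc t * |⟪v, F.b⟫| < t * (kap C / 2 * ⟪v, F.n⟫) := by gcongr
      _ = _ := by ring
  · intro h0
    have := h0.1
    rw [inner_zero_left] at this
    exact lt_irrefl _ this
  · rw [hset]
    rintro v ⟨g1, g2, g3, g4⟩ v' ⟨g1', g2', g3', g4'⟩ x y hx hy hxy
    have key : ∀ r r' : ℝ, 0 < r → 0 < r' → 0 < x * r + y * r' := by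
      intro r r' hr hr'
      rcases hx.lt_or_eq with hx' | hx'
      · exact add_pos_of_pos_of_nonneg (mul_pos hx' hr) (mul_nonneg hy hr'.le)
      · rw [← hx', zero_add] at hxy
        rw [← hx', hxy]
        linarith
    simp only [mem_ofPred_eq, inner_add_left, real_inner_smul_left]
    refine ⟨key _ _ g1 g1', ?_, key _ _ g3 g3', key _ _ g4 g4'⟩
    have h5 := key _ _ (sub_pos.2 g2) (sub_pos.2 g2')
    calc |x * ⟪v, F.b⟫ + y * ⟪v', F.b⟫| ≤ |x * ⟪v, F.b⟫| + |y * ⟪v', F.b⟫| := abs_add_le _ _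
      _ = x * |⟪v, F.b⟫| + y * |⟪v', F.b⟫| := by
        rw [abs_mul, abs_mul, abs_of_nonneg hx, abs_of_nonneg hy]
      _ < _ := by nlinarith
  · intro v hv
    have hn1 : ‖F.n‖ = 1 := by simpa using F.on.1 2
    have hb1 : ‖F.b‖ = 1 := by simpa using F.on.1 1
    have h5 : |⟪v, F.n⟫ - 1| ≤ del C / 100 := by
      have : ⟪v, F.n⟫ - 1 = ⟪v - F.n, F.n⟫ := by rw [inner_sub_left, hnn]
      rw [this]
      refine (abs_real_inner_le_norm _ _).trans ?_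
      rw [hn1, mul_one]
      exact hv.le
    have h6 : |⟪v, F.b⟫| ≤ del C / 100 := by
      have : ⟪v, F.b⟫ = ⟪v - F.n, F.b⟫ := by rw [inner_sub_left, hnb, sub_zero]
      rw [this]
      refine (abs_real_inner_le_norm _ _).trans ?_
      rw [hb1, mul_one]
      exact hv.le
    have h7 : 1 / 2 < ⟪v, F.n⟫ := by
      have := (abs_le.1 h5).1
      linarith
    have h8 : |⟪v, F.b⟫| < kap C / 2 * ⟪v, F.n⟫ := by
      refine lt_of_le_of_lt h6 ?_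
      rw [hδ]
      nlinarith
    rw [hset]
    constructor
    · rintro ⟨_, _, g3, g4⟩
      exact ⟨g3, g4⟩
    · rintro ⟨g3, g4⟩
      exact ⟨by linarith, h8, g3, g4⟩

end Pool.Agent.Helper50.MS
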