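import Pool.Agent.Helper50.MS.Defs

/-!
# MS-37  Cones

`sphere_preconnected`: `K ∩ sphere 0 1` is the image of `K` under the continuous map `v ↦ ‖v‖⁻¹ • v` (on `v ≠ 0`): for `v ∈ K` the value is a unit vector in `K` (`smul`), and unit vectors
of `K` are fixed.
`star_preconnected`: `K` contains a ball `ball v₀ r`, so (`smul`) the convex set `B = {v | ∃ t > 0, ‖v - t v₀‖ < t r}` is contained in `K` (`IsStar.mem`, open), `v₀ ∈ B`. For `v ∈ K` and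
`t > ‖v‖/r`: `v + t v₀ ∈ B`, and the segment `{v + τ v₀ | 0 ≤ τ ≤ t}` is in `K` (`add`). So `v` is joined to `v₀` inside `K` by the union of two convex sets with a common point:
`isPreconnected_of_forall v₀`.
`ball_cone`: for an open cone `K` and `u ∈ K` there is `r > 0` such that `B u r = {v | ∃ t > 0, ‖v - t • u‖ < t * r}` is an open convex cone without `0` (`r < ‖u‖`), `u ∈ B ⊆ K`.
`ext_cone`: `K₀` star-shaped, `K` a convex open cone, `B` a convex open cone, `B ⊆ K ∩ K₀`, `B` nonempty. `K₂ = {v ∈ K | ∃ τ ≥ 0, v + τ v₀ ∈ B}` is an open cone, `B ⊆ K₂ ⊆ K`; `K₀ ∪ K₂` is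
star-shaped; `K₀ ∩ K₂` is preconnected. PROOF. open: for fixed `τ` the set `{v ∈ K | v + τ v₀ ∈ B}` is open. cone: `t v + (tτ) v₀ ∈ B`. `add`: `v ∈ K₂` with `τ`, `t ≥ 0`: if `t ≤ τ` then
`v + t v₀` is on the segment from `v ∈ K` to `v + τ v₀ ∈ B ⊆ K`, so in `K`, and `(v + t v₀) + (τ - t) v₀ ∈ B`; if `t > τ`, `v + t v₀ = (v + τ v₀) + (t-τ) v₀ ∈ K₀`. `-v₀ ∉ K₂`: otherwise
`-v₀ ∈ K` and `(τ-1) v₀ ∈ B`: `τ > 1` gives `v₀ ∈ B ⊆ K` (cone), so `0 = (1/2)(v₀ + (-v₀)) ∈ K`; `τ = 1` gives `0 ∈ B`; `τ < 1` gives `-v₀ ∈ B ⊆ K₀`. All impossible. preconnected: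
for `v ∈ K₀ ∩ K₂` the segment `v + t v₀`, `0 ≤ t ≤ τ`, lies in `K₀` (`add`) and in `K₂`, and ends in the convex set `B ⊆ K₀ ∩ K₂`: `isPreconnected_of_forall` with a base point in `B`.
-/

set_option autoImplicit false

open Filter Topology Set
open scoped RealInnerProductSpace

namespace Pool.Agent.Helper50.MS

theorem sphere_preconnected {K : Set E3} (hK : IsCone K) (hc : IsPreconnected K) :
    IsPreconnected (K ∩ Metric.sphere 0 1) := by
  have hne : ∀ v ∈ K, ‖v‖ ≠ 0 := by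
    intro v hv h0
    rw [norm_eq_zero] at h0
    exact hK.zero (h0 ▸ hv)
  have himg : (fun v : E3 => ‖v‖⁻¹ • v) '' K = K ∩ Metric.sphere 0 1 := by
    ext w
    constructor
    · rintro ⟨v, hv, rfl⟩
      have h1 : 0 < ‖v‖ := lt_of_le_of_ne (norm_nonneg v) (hne v hv).symm
      refine ⟨hK.smul v hv _ (inv_pos.2 h1), ?_⟩
      rw [mem_sphere_zero_iff_norm, norm_smul, norm_inv, norm_norm, inv_mul_cancel₀ h1.ne']
    · rintro ⟨hw, hw1⟩
      refine ⟨w, hw, ?_⟩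
      rw [mem_sphere_zero_iff_norm] at hw1
      simp only [hw1, inv_one, one_smul]
  rw [← himg]
  refine hc.image _ ?_
  exact (continuousOn_id.norm.inv₀ hne).smul continuousOn_id

theorem cone_inter {K₁ K₂ : Set E3} (h₁ : IsCone K₁) (h₂ : IsCone K₂) : IsCone (K₁ ∩ K₂) := by
  exact ⟨h₁.isOpen.inter h₂.isOpen, fun v hv t ht => ⟨h₁.smul v hv.1 t ht, h₂.smul v hv.2 t ht⟩,
    fun h => h₁.zero h.1⟩

/-- every point is moved into an open cone by a multiple of a direction of the cone -/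
private theorem cn_reach {B : Set E3} (hB : IsCone B) {v₀ : E3} (h0 : v₀ ∈ B) (v : E3) :
    ∃ t : ℝ, 0 < t ∧ v + t • v₀ ∈ B := by
  have hc : Continuous fun s : ℝ => v₀ + s • v := by fun_prop
  have h1 : (fun s : ℝ => v₀ + s • v) ⁻¹' B ∈ 𝓝 (0 : ℝ) := by
    refine (hB.isOpen.preimage hc).mem_nhds ?_
    simpa using h0
  obtain ⟨δ, hδ, hball⟩ := Metric.mem_nhds_iff.1 h1
  have h2 : v₀ + (δ / 2) • v ∈ B := by
    refine @hball (δ / 2) ?_
    rw [Metric.mem_ball, Real.dist_eq, sub_zero, abs_of_pos (half_pos hδ)]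
    exact half_lt_self hδ
  refine ⟨(δ / 2)⁻¹, inv_pos.2 (half_pos hδ), ?_⟩
  have h3 := hB.smul _ h2 (δ / 2)⁻¹ (inv_pos.2 (half_pos hδ))
  rw [smul_add, inv_smul_smul₀ (half_pos hδ).ne', add_comm] at h3
  exact h3

private theorem cn_seg (v v₀ : E3) (t : ℝ) :
    IsPreconnected ((fun τ : ℝ => v + τ • v₀) '' Icc 0 t) :=
  isPreconnected_Icc.image _ (by fun_prop)

private theorem cn_add {B : Set E3} (hB : IsCone B) (hc : Convex ℝ B) {v w : E3} (hv : v ∈ B)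
    (hw : w ∈ B) : v + w ∈ B := by
  have h1 := hc hv hw (a := 1 / 2) (b := 1 / 2) (by norm_num) (by norm_num) (by norm_num)
  have h2 := hB.smul _ h1 2 (by norm_num)
  have h3 : (2 : ℝ) • ((1 / 2 : ℝ) • v + (1 / 2 : ℝ) • w) = v + w := by
    rw [smul_add, smul_smul, smul_smul]
    norm_num
  rwa [h3] at h2

private theorem cn_neg {B : Set E3} (hB : IsCone B) (hc : Convex ℝ B) {v : E3} (hv : v ∈ B)
    (hw : -v ∈ B) : False := by
  have h1 := cn_add hB hc hv hw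
  rw [add_neg_cancel] at h1
  exact hB.zero h1

private theorem cn_ball {K : Set E3} (hK : IsCone K) {u : E3} (hu : u ∈ K) :
    ∃ B : Set E3, IsCone B ∧ Convex ℝ B ∧ u ∈ B ∧ B ⊆ K := by
  obtain ⟨δ, hδ, hball⟩ := Metric.isOpen_iff.1 hK.isOpen u hu
  have hu0 : u ≠ 0 := fun h => hK.zero (h ▸ hu)
  have hn : 0 < ‖u‖ := norm_pos_iff.2 hu0
  obtain ⟨r, hr⟩ : ∃ r, r = min δ ‖u‖ := ⟨_, rfl⟩
  have hr0 : 0 < r := by rw [hr]; exact lt_min hδ hn
  have hr1 : r ≤ δ := by rw [hr]; exact min_le_left _ _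
  have hr2 : r ≤ ‖u‖ := by rw [hr]; exact min_le_right _ _
  refine ⟨{v | ∃ t : ℝ, 0 < t ∧ ‖v - t • u‖ < t * r}, ⟨?_, ?_, ?_⟩, ?_, ?_, ?_⟩
  · have h1 : {v : E3 | ∃ t : ℝ, 0 < t ∧ ‖v - t • u‖ < t * r} =
        ⋃ t : ℝ, ⋃ _ : 0 < t, {v : E3 | ‖v - t • u‖ < t * r} := by
      ext v
      simp
    rw [h1]
    refine isOpen_iUnion fun t => isOpen_iUnion fun _ => ?_
    exact isOpen_lt (by fun_prop) continuous_const
  · rintro v ⟨t, ht, hv⟩ s hs
    refine ⟨s * t, mul_pos hs ht, ?_⟩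
    rw [mul_smul, ← smul_sub, norm_smul, Real.norm_eq_abs, abs_of_pos hs, mul_assoc]
    exact mul_lt_mul_of_pos_left hv hs
  · rintro ⟨t, ht, hv⟩
    rw [zero_sub, norm_neg, norm_smul, Real.norm_eq_abs, abs_of_pos ht] at hv
    exact absurd hv (not_lt.2 (mul_le_mul_of_nonneg_left hr2 ht.le))
  · rintro v ⟨t, ht, hv⟩ w ⟨s, hs, hw⟩ a b ha hb hab
    have hv' : a * ‖v - t • u‖ ≤ a * (t * r) := mul_le_mul_of_nonneg_left hv.le ha
    have hw' : b * ‖w - s • u‖ ≤ b * (s * r) := mul_le_mul_of_nonneg_left hw.le hb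
    have h1 : ‖a • v + b • w - (a * t + b * s) • u‖ ≤ a * ‖v - t • u‖ + b * ‖w - s • u‖ := by
      have h2 : a • v + b • w - (a * t + b * s) • u = a • (v - t • u) + b • (w - s • u) := by
        rw [smul_sub, smul_sub, add_smul, mul_smul, mul_smul]
        abel
      rw [h2]
      refine (norm_add_le _ _).trans (le_of_eq ?_)
      rw [norm_smul, norm_smul, Real.norm_eq_abs, Real.norm_eq_abs, abs_of_nonneg ha,
        abs_of_nonneg hb]
    refine ⟨a * t + b * s, ?_, ?_⟩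
    · rcases eq_or_lt_of_le ha with h0 | h0
      · have hb1 : b = 1 := by linarith
        rw [← h0, hb1]
        linarith
      · have := mul_pos h0 ht
        have := mul_nonneg hb hs.le
        linarith
    · rcases eq_or_lt_of_le ha with h0 | h0
      · have hb1 : b = 1 := by linarith
        rw [← h0, hb1] at h1 ⊢
        simp only [one_mul, zero_mul, zero_add] at h1 ⊢
        exact h1.trans_lt hw
      · have h3 : a * ‖v - t • u‖ < a * (t * r) := mul_lt_mul_of_pos_left hv h0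
        have h4 : (a * t + b * s) * r = a * (t * r) + b * (s * r) := by ring
        rw [h4]
        linarith
  · refine ⟨1, one_pos, ?_⟩
    rw [one_smul, sub_self, norm_zero, one_mul]
    exact hr0
  · rintro v ⟨t, ht, hv⟩
    have h1 : t⁻¹ • v ∈ Metric.ball u δ := by
      rw [mem_ball_iff_norm]
      have h2 : t⁻¹ • v - u = t⁻¹ • (v - t • u) := by
        rw [smul_sub, inv_smul_smul₀ ht.ne']
      rw [h2, norm_smul, Real.norm_eq_abs, abs_of_pos (inv_pos.2 ht)]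
      have h3 : t⁻¹ * ‖v - t • u‖ < t⁻¹ * (t * r) := mul_lt_mul_of_pos_left hv (inv_pos.2 ht)
      rw [inv_mul_cancel_left₀ ht.ne'] at h3
      exact h3.trans_le hr1
    have h2 := hK.smul _ (hball h1) t ht
    rwa [smul_inv_smul₀ ht.ne'] at h2

theorem star_preconnected {v₀ : E3} {K : Set E3} (h : IsStar v₀ K) : IsPreconnected K := by
  obtain ⟨B, hB, hBc, hv₀, hBK⟩ := cn_ball h.cone h.mem
  refine isPreconnected_of_forall v₀ fun v hv => ?_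
  obtain ⟨t, ht, hvt⟩ := cn_reach hB hv₀ v
  refine ⟨B ∪ (fun τ : ℝ => v + τ • v₀) '' Icc 0 t, ?_, Or.inl hv₀, Or.inr ?_, ?_⟩
  · refine union_subset hBK ?_
    rintro _ ⟨τ, hτ, rfl⟩
    exact h.add v hv τ hτ.1
  · exact ⟨0, ⟨le_rfl, ht.le⟩, by simp⟩
  · exact IsPreconnected.union (v + t • v₀) hvt ⟨t, ⟨ht.le, le_rfl⟩, rfl⟩ hBc.isPreconnected
      (cn_seg v v₀ t)

theorem star_inter {v₀ : E3} {K₁ K₂ : Set E3} (h₁ : IsStar v₀ K₁) (h₂ : IsStar v₀ K₂) :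
    IsStar v₀ (K₁ ∩ K₂) := by
  exact ⟨cone_inter h₁.cone h₂.cone, fun v hv t ht => ⟨h₁.add v hv.1 t ht, h₂.add v hv.2 t ht⟩,
    ⟨h₁.mem, h₂.mem⟩, fun h => h₁.neg h.1⟩

theorem star_union {v₀ : E3} {K₁ K₂ : Set E3} (h₁ : IsStar v₀ K₁) (h₂ : IsStar v₀ K₂) :
    IsStar v₀ (K₁ ∪ K₂) := by
  refine ⟨⟨h₁.cone.isOpen.union h₂.cone.isOpen, ?_, ?_⟩, ?_, Or.inl h₁.mem, ?_⟩
  · rintro v (hv | hv) t ht
    · exact Or.inl (h₁.cone.smul v hv t ht)
    · exact Or.inr (h₂.cone.smul v hv t ht)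
  · rintro (h | h)
    · exact h₁.cone.zero h
    · exact h₂.cone.zero h
  · rintro v (hv | hv) t ht
    · exact Or.inl (h₁.add v hv t ht)
    · exact Or.inr (h₂.add v hv t ht)
  · rintro (h | h)
    · exact h₁.neg h
    · exact h₂.neg h

theorem ball_cone {K : Set E3} (hK : IsCone K) {u : E3} (hu : u ∈ K) :
    ∃ B : Set E3, IsCone B ∧ Convex ℝ B ∧ u ∈ B ∧ B ⊆ K := by
  exact cn_ball hK hu

/-- Around a direction `v₀` of an open cone there is a star-shaped convex cone. -/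
theorem ball_star {K : Set E3} (hK : IsCone K) {v₀ : E3} (hv₀ : v₀ ∈ K) (h1 : ‖v₀‖ = 1) :
    ∃ B : Set E3, IsStar v₀ B ∧ B ⊆ K := by
  obtain ⟨B, hB, hBc, hv, hBK⟩ := cn_ball hK hv₀
  refine ⟨B, ⟨hB, fun v hv' t ht => ?_, hv, fun h => cn_neg hB hBc hv h⟩, hBK⟩
  rcases eq_or_lt_of_le ht with h0 | h0
  · rw [← h0, zero_smul, add_zero]
    exact hv'
  · exact cn_add hB hBc hv' (hB.smul _ hv t h0)

theorem ext_cone {v₀ : E3} {K₀ K B : Set E3} (h₀ : IsStar v₀ K₀) (hK : IsCone K)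
    (hKc : Convex ℝ K) (hB : IsCone B) (hBc : Convex ℝ B) (hBn : B.Nonempty)
    (hBK : B ⊆ K ∩ K₀) :
    IsCone {v | v ∈ K ∧ ∃ τ : ℝ, 0 ≤ τ ∧ v + τ • v₀ ∈ B} ∧
    IsStar v₀ (K₀ ∪ {v | v ∈ K ∧ ∃ τ : ℝ, 0 ≤ τ ∧ v + τ • v₀ ∈ B}) ∧
    IsPreconnected (K₀ ∩ {v | v ∈ K ∧ ∃ τ : ℝ, 0 ≤ τ ∧ v + τ • v₀ ∈ B}) := by
  have hseg : ∀ v ∈ K, ∀ τ : ℝ, v + τ • v₀ ∈ B → ∀ t : ℝ, 0 ≤ t → t ≤ τ →
      v + t • v₀ ∈ {v | v ∈ K ∧ ∃ τ : ℝ, 0 ≤ τ ∧ v + τ • v₀ ∈ B} := by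
    intro v hv τ hvτ t ht htτ
    rcases eq_or_lt_of_le ht with h0 | h0
    · rw [← h0, zero_smul, add_zero]
      exact ⟨hv, τ, ht.trans htτ, hvτ⟩
    · have hτ : 0 < τ := h0.trans_le htτ
      refine ⟨?_, τ - t, sub_nonneg.2 htτ, ?_⟩
      · have h1 := hKc.add_smul_mem hv (hBK hvτ).1 (t := t / τ)
          ⟨div_nonneg ht hτ.le, (div_le_one hτ).2 htτ⟩
        rwa [smul_smul, div_mul_cancel₀ _ hτ.ne'] at h1
      · have h2 : v + t • v₀ + (τ - t) • v₀ = v + τ • v₀ := by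
          rw [add_assoc, ← add_smul, add_sub_cancel]
        rw [h2]
        exact hvτ
  have hcone : IsCone {v | v ∈ K ∧ ∃ τ : ℝ, 0 ≤ τ ∧ v + τ • v₀ ∈ B} := by
    refine ⟨?_, ?_, fun h => hK.zero h.1⟩
    · have h1 : {v | v ∈ K ∧ ∃ τ : ℝ, 0 ≤ τ ∧ v + τ • v₀ ∈ B} =
          K ∩ ⋃ τ : ℝ, ⋃ _ : 0 ≤ τ, (fun v : E3 => v + τ • v₀) ⁻¹' B := by
        ext v
        simp
      rw [h1]
      refine hK.isOpen.inter (isOpen_iUnion fun τ => isOpen_iUnion fun _ => ?_)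
      exact hB.isOpen.preimage (by fun_prop)
    · rintro v ⟨hv, τ, hτ, hvτ⟩ t ht
      refine ⟨hK.smul v hv t ht, t * τ, mul_nonneg ht.le hτ, ?_⟩
      rw [mul_smul, ← smul_add]
      exact hB.smul _ hvτ t ht
  refine ⟨hcone, ⟨⟨h₀.cone.isOpen.union hcone.isOpen, ?_, ?_⟩, ?_, Or.inl h₀.mem, ?_⟩, ?_⟩
  · rintro v (hv | hv) t ht
    · exact Or.inl (h₀.cone.smul v hv t ht)
    · exact Or.inr (hcone.smul v hv t ht)
  · rintro (h | h)
    · exact h₀.cone.zero h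
    · exact hcone.zero h
  · rintro v (hv | ⟨hv, τ, hτ, hvτ⟩) t ht
    · exact Or.inl (h₀.add v hv t ht)
    · rcases le_or_gt t τ with h1 | h1
      · exact Or.inr (hseg v hv τ hvτ t ht h1)
      · left
        have h2 := h₀.add _ (hBK hvτ).2 (t - τ) (sub_nonneg.2 h1.le)
        rwa [add_assoc, ← add_smul, add_sub_cancel] at h2
  · rintro (h | ⟨hv, τ, hτ, hvτ⟩)
    · exact h₀.neg h
    · have h1 : -v₀ + τ • v₀ = (τ - 1) • v₀ := by
        rw [sub_smul, one_smul]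
        abel
      rw [h1] at hvτ
      rcases lt_trichotomy τ 1 with h2 | h2 | h2
      · have h3 := hB.smul _ hvτ (1 - τ)⁻¹ (inv_pos.2 (by linarith))
        have h4 : (1 - τ)⁻¹ • (τ - 1) • v₀ = -v₀ := by
          rw [smul_smul, show (1 - τ)⁻¹ * (τ - 1) = -1 by
            rw [show τ - 1 = -(1 - τ) by ring, mul_neg, inv_mul_cancel₀ (by linarith)],
            neg_smul, one_smul]
        rw [h4] at h3
        exact h₀.neg (hBK h3).2
      · rw [h2, sub_self, zero_smul] at hvτ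
        exact hB.zero hvτ
      · have h3 := hB.smul _ hvτ (τ - 1)⁻¹ (inv_pos.2 (by linarith))
        rw [inv_smul_smul₀ (by linarith)] at h3
        exact cn_neg hK hKc (hBK h3).1 hv
  · obtain ⟨b, hb⟩ := hBn
    have hBsub : B ⊆ K₀ ∩ {v | v ∈ K ∧ ∃ τ : ℝ, 0 ≤ τ ∧ v + τ • v₀ ∈ B} := by
      intro x hx
      refine ⟨(hBK hx).2, (hBK hx).1, 0, le_rfl, ?_⟩
      rw [zero_smul, add_zero]
      exact hx
    refine isPreconnected_of_forall b fun v hv => ?_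
    obtain ⟨hv0, hvK, τ, hτ, hvτ⟩ := hv
    refine ⟨B ∪ (fun t : ℝ => v + t • v₀) '' Icc 0 τ, ?_, Or.inl hb, Or.inr ?_, ?_⟩
    · refine union_subset hBsub ?_
      rintro _ ⟨t, ht, rfl⟩
      exact ⟨h₀.add v hv0 t ht.1, hseg v hvK τ hvτ t ht.1 ht.2⟩
    · exact ⟨0, ⟨le_rfl, hτ⟩, by simp⟩
    · exact IsPreconnected.union (v + τ • v₀) hvτ ⟨τ, ⟨hτ, le_rfl⟩, rfl⟩ hBc.isPreconnected
        (cn_seg v v₀ τ)

end Pool.Agent.Helper50.MS
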