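import Pool.Agent.Helper50.MS.Defs

/-!
# MS-44  A convex cone minus a ray

`convex_minus_ray`: `K` convex open cone; `K \ {-t v₀ | t ≥ 0}` is preconnected. PROOF. `isPreconnected_of_forall_pair`: for `u₁, u₂` in it write `u_i = x_i + τ_i v₀`, `x_i ⟂ v₀`. If the segment from `u₁` to `u₂` avoids the
ray, done. In general choose `u₃` in the set whose component `x₃ ⟂ v₀` is not a real multiple of `x₁` nor of `x₂` (possible: `u₁ + ε y`, `K` is open, the orthogonal plane of `v₀` has dimension 2; if `x₁ = 0` then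
`u₁ = τ₁ v₀`, `τ₁ > 0`, and any `x₃ ≠ 0` is fine for the first segment): the segment from `u_i` to `u₃` meets the line `ℝ v₀` only if `x_i = 0`, at `u_i` itself, which is not on the ray. So the two segments are in the set.
-/

set_option autoImplicit false

open Filter Topology Set
open scoped RealInnerProductSpace

namespace Pool.Agent.Helper50.MS

private theorem plane_ne_top (v₀ u : E3) :
    Submodule.span ℝ (Set.range ![v₀, u]) ≠ ⊤ := by
  intro h
  have h1 : (Set.range ![v₀, u]).finrank ℝ ≤ Fintype.card (Fin 2) := finrank_range_le_card _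
  rw [Set.finrank, h, finrank_top] at h1
  simp at h1

private theorem seg_aux {v₀ u u₃ : E3} (hu : ¬ ∃ t : ℝ, 0 ≤ t ∧ u = -(t • v₀))
    (h₃ : u₃ ∉ Submodule.span ℝ (Set.range ![v₀, u])) :
    segment ℝ u u₃ ⊆ {v | ¬ ∃ t : ℝ, 0 ≤ t ∧ v = -(t • v₀)} := by
  rintro w ⟨a, b, ha, hb, hab, rfl⟩ ⟨τ, hτ, hw⟩
  by_cases hb0 : b = 0
  · subst hb0
    have ha1 : a = 1 := by linarith
    subst ha1
    apply hu
    refine ⟨τ, hτ, ?_⟩
    simpa using hw
  · apply h₃
    have h1 : u₃ = (-(b⁻¹ * τ)) • v₀ + (-(b⁻¹ * a)) • u := by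
      have h2 : b • u₃ = -(τ • v₀) - a • u := by
        rw [← hw]; abel
      calc u₃ = b⁻¹ • (b • u₃) := by rw [smul_smul, inv_mul_cancel₀ hb0, one_smul]
        _ = _ := by
          rw [h2, smul_sub, smul_neg, smul_smul, smul_smul, neg_smul, neg_smul]
          abel
    rw [h1]
    exact Submodule.add_mem _ (Submodule.smul_mem _ _ (Submodule.subset_span ⟨0, rfl⟩))
      (Submodule.smul_mem _ _ (Submodule.subset_span ⟨1, rfl⟩))

theorem convex_minus_ray {v₀ : E3} (hv₀ : ‖v₀‖ = 1) {K : Set E3} (hK : IsCone K)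
    (hKc : Convex ℝ K) : IsPreconnected (K ∩ {v | ¬ ∃ t : ℝ, 0 ≤ t ∧ v = -(t • v₀)}) := by
  have _ := hv₀
  apply isPreconnected_of_forall_pair
  rintro u₁ ⟨hu₁K, hu₁⟩ u₂ ⟨hu₂K, hu₂⟩
  obtain ⟨u₃, hu₃K, h₁, h₂⟩ : ∃ u₃ ∈ K, u₃ ∉ Submodule.span ℝ (Set.range ![v₀, u₁]) ∧
      u₃ ∉ Submodule.span ℝ (Set.range ![v₀, u₂]) := by
    by_contra hc
    push Not at hc
    have hsub : K ⊆ (Submodule.span ℝ (Set.range ![v₀, u₁]) : Set E3) ∪
        (Submodule.span ℝ (Set.range ![v₀, u₂]) : Set E3) := by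
      intro u hu
      by_cases h1 : u ∈ Submodule.span ℝ (Set.range ![v₀, u₁])
      · exact Or.inl h1
      · exact Or.inr (hc u hu h1)
    have hpos : 0 < (MeasureTheory.volume : MeasureTheory.Measure E3) K :=
      hK.isOpen.measure_pos _ ⟨u₁, hu₁K⟩
    have h0 : (MeasureTheory.volume : MeasureTheory.Measure E3) K = 0 := by
      apply MeasureTheory.measure_mono_null hsub
      rw [MeasureTheory.measure_union_null_iff]
      exact ⟨MeasureTheory.Measure.addHaar_submodule _ _ (plane_ne_top v₀ u₁),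
        MeasureTheory.Measure.addHaar_submodule _ _ (plane_ne_top v₀ u₂)⟩
    exact absurd h0 hpos.ne'
  refine ⟨segment ℝ u₁ u₃ ∪ segment ℝ u₂ u₃, ?_, Or.inl (left_mem_segment ℝ _ _),
    Or.inr (left_mem_segment ℝ _ _), ?_⟩
  · apply union_subset
    · exact subset_inter (hKc.segment_subset hu₁K hu₃K) (seg_aux hu₁ h₁)
    · exact subset_inter (hKc.segment_subset hu₂K hu₃K) (seg_aux hu₂ h₂)
  · exact IsPreconnected.union u₃ (right_mem_segment ℝ _ _) (right_mem_segment ℝ _ _)
      (convex_segment _ _).isPreconnected (convex_segment _ _).isPreconnected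

end Pool.Agent.Helper50.MS
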