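import Pool.Agent.Helper50.MS.LocalInverse

/-!
# MS-33  Critical points of height functions

Let `s = ψ u₀`, `IsParam X N A U ψ`, `f = X ∘ ψ` (smooth near `u₀`), `τ v = fderiv f u₀ v`.
`crit_tangent`. If `g u = ⟪X u, y⟫ - ε ‖X u - x₀‖²` has a local minimum at `s` then, for `z = y - 2 ε (X s - x₀)`, `⟪z, τ v⟫ = 0` for all `v` (derivative of `g ∘ ψ` at the
local minimum `u₀`: `IsLocalMin.fderiv_eq_zero` or along lines; `ψ` maps neighbourhoods of `u₀` to neighbourhoods of `s`, so `g ∘ ψ` has a local minimum at `u₀` because `ψ` is continuous), so `z = ⟪z,N s⟫ N s` (`τ` is injective, so has a 2-dimensional range, orthogonal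
to `N s`).
`no_local_min` (`ε > 0`). For `v ≠ 0` let `γ t = f (u₀ + t v)`, smooth near 0, `γ' = τ`, `φ t = ⟪γ t,y⟫ - ε‖γ t - x₀‖²` has a local minimum at `0`, so `φ'' 0 ≥ 0`
(second derivative test: if `φ' 0 = 0` and `φ'' 0 < 0` then 0 is a strict local maximum: Mathlib `isLocalMax_of_deriv_deriv_neg` or by hand). `φ'' 0 = ⟪γ'' 0, z⟫ - 2ε‖τ v‖²`
and `⟪γ'' 0, N s⟫ = ⟪A τ, τ⟫`: differentiate `⟪N (ψ (u₀+tv)), γ' t⟫ = 0` at `t = 0`: `⟪-A τ,τ⟫ + ⟪N,γ''⟫ = 0`. With `z = μ N s`: `μ ⟪A τ,τ⟫ ≥ 2ε‖τ‖² > 0` for every tangent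
`τ ≠ 0` (every vector orthogonal to `N s` is some `τ v`, by dimension). For the principal directions `e₁,e₂` (`h.saddle`): `μ k₁ > 0`, `μ k₂ > 0`, so `k₁ k₂ > 0`: contradiction.
-/

set_option autoImplicit false

open Filter Topology Set
open scoped RealInnerProductSpace ContDiff

namespace Pool.Agent.Helper50.MS

variable {S : Type} [TopologicalSpace S] {X N : S → E3} {A : S → End3} {c C : ℝ}

/-- Every vector orthogonal to the normal is a tangent vector. -/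
private lemma exists_tangent {U : Set (ℝ × ℝ)} {ψ : ℝ × ℝ → S} (hψ : IsParam X N A U ψ)
    {u₀ : ℝ × ℝ} (hu₀ : u₀ ∈ U) {e₁ e₂ : E3} (on : Orthonormal ℝ ![e₁, e₂, N (ψ u₀)]) {τ : E3}
    (hτ : ⟪τ, N (ψ u₀)⟫ = 0) : ∃ v, fderiv ℝ (fun u => X (ψ u)) u₀ v = τ := by
  set dX := fderiv ℝ (fun u => X (ψ u)) u₀ with hdX
  let F : Frame := ⟨e₁, e₂, N (ψ u₀), on⟩
  have hex : ∀ v, dX v = ⟪dX v, e₁⟫ • e₁ + ⟪dX v, e₂⟫ • e₂ := by
    intro v
    have h1 := frame_expand F (dX v)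
    have h2 : ⟪dX v, N (ψ u₀)⟫ = 0 := by
      rw [real_inner_comm]; exact hψ.normal u₀ hu₀ v
    have h3 : F.n = N (ψ u₀) := rfl
    rw [h3, h2, zero_smul, add_zero] at h1
    exact h1
  let L : (ℝ × ℝ) →ₗ[ℝ] (ℝ × ℝ) :=
    { toFun := fun v => (⟪dX v, e₁⟫, ⟪dX v, e₂⟫)
      map_add' := fun v w => by simp [inner_add_left]
      map_smul' := fun r v => by simp [inner_smul_left] }
  have hLi : Function.Injective L := by
    rw [injective_iff_map_eq_zero]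
    intro v hv
    have h1 : ⟪dX v, e₁⟫ = 0 := congrArg Prod.fst hv
    have h2 : ⟪dX v, e₂⟫ = 0 := congrArg Prod.snd hv
    have h3 : dX v = 0 := by rw [hex v, h1, h2]; simp
    exact hψ.immersion u₀ hu₀ (h3.trans (map_zero dX).symm)
  have hLs : Function.Surjective L := (LinearMap.injective_iff_surjective (f := L)).mp hLi
  obtain ⟨v, hv⟩ := hLs (⟪τ, e₁⟫, ⟪τ, e₂⟫)
  refine ⟨v, ?_⟩
  have h1 : ⟪dX v, e₁⟫ = ⟪τ, e₁⟫ := congrArg Prod.fst hv
  have h2 : ⟪dX v, e₂⟫ = ⟪τ, e₂⟫ := congrArg Prod.snd hv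
  have h4 := frame_expand F τ
  have h3 : F.n = N (ψ u₀) := rfl
  rw [h3, hτ, zero_smul, add_zero] at h4
  rw [hex v, h1, h2]
  exact h4.symm

private lemma line_deriv (u₀ v : ℝ × ℝ) (t : ℝ) : HasDerivAt (fun t : ℝ => u₀ + t • v) v t := by
  have := ((hasDerivAt_id t).smul_const v).const_add u₀
  simpa using this

private lemma comp_line {V : Type*} [NormedAddCommGroup V] [NormedSpace ℝ V] {g : ℝ × ℝ → V}
    {u₀ v : ℝ × ℝ} {t : ℝ} (hg : DifferentiableAt ℝ g (u₀ + t • v)) :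
    HasDerivAt (fun t : ℝ => g (u₀ + t • v)) (fderiv ℝ g (u₀ + t • v) v) t :=
  HasFDerivAt.comp_hasDerivAt (x := t) (f := fun t : ℝ => u₀ + t • v) (l := g)
    (l' := fderiv ℝ g (u₀ + t • v)) (f' := v) hg.hasFDerivAt (line_deriv u₀ v t)

/-- The first derivative of the height function along a curve. -/
private lemma height_deriv {γ : ℝ → E3} {γ' : E3} {t : ℝ} (hγ : HasDerivAt γ γ' t) (y x₀ : E3)
    (ε : ℝ) : HasDerivAt (fun t => ⟪γ t, y⟫ - ε * ‖γ t - x₀‖ ^ 2)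
      (⟪γ', y⟫ - 2 * ε * ⟪γ t - x₀, γ'⟫) t := by
  have h1 : HasDerivAt (fun t => ⟪γ t, y⟫) ⟪γ', y⟫ t := by
    have := hγ.inner ℝ (hasDerivAt_const t y)
    simpa using this
  have h2 : HasDerivAt (fun t => γ t - x₀) γ' t := hγ.sub_const x₀
  have h3 : HasDerivAt (fun t => ‖γ t - x₀‖ ^ 2) (2 * ⟪γ t - x₀, γ'⟫) t := h2.norm_sq
  have h4 := h1.sub (h3.const_mul ε)
  refine h4.congr_deriv ?_
  ring

private lemma local_min_line {g : S → ℝ} {U : Set (ℝ × ℝ)} {ψ : ℝ × ℝ → S}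
    (hψ : IsParam X N A U ψ) {u₀ : ℝ × ℝ} (hu₀ : u₀ ∈ U) (hg : IsLocalMin g (ψ u₀)) (v : ℝ × ℝ) :
    IsLocalMin (fun t : ℝ => g (ψ (u₀ + t • v))) 0 := by
  have h1 : ContinuousAt ψ u₀ := hψ.cont.continuousAt (hψ.isOpen.mem_nhds hu₀)
  have h2 : ContinuousAt (fun t : ℝ => u₀ + t • v) 0 := (line_deriv u₀ v 0).continuousAt
  have h3 : ContinuousAt (fun t : ℝ => ψ (u₀ + t • v)) 0 := by
    have : ContinuousAt ψ ((fun t : ℝ => u₀ + t • v) 0) := by simpa using h1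
    exact ContinuousAt.comp (f := fun t : ℝ => u₀ + t • v) (g := ψ) this h2
  have h4 : Tendsto (fun t : ℝ => ψ (u₀ + t • v)) (𝓝 0) (𝓝 (ψ u₀)) := by
    have := h3.tendsto
    simpa using this
  have h5 : ∀ᶠ u in 𝓝 (ψ u₀), g (ψ u₀) ≤ g u := hg
  have h6 := h4.eventually h5
  show ∀ᶠ t in 𝓝 (0 : ℝ), g (ψ (u₀ + (0 : ℝ) • v)) ≤ g (ψ (u₀ + t • v))
  simpa using h6

theorem crit_tangent (h : Hyp X N A c C) {s : S} (y x₀ : E3) (ε : ℝ)
    (hs : IsLocalMin (fun u => ⟪X u, y⟫ - ε * ‖X u - x₀‖ ^ 2) s) :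
    y - (2 * ε) • (X s - x₀) = ⟪y - (2 * ε) • (X s - x₀), N s⟫ • N s := by
  obtain ⟨U, ψ, hψ, u₀, hu₀, rfl⟩ := h.surf s
  have hUn : U ∈ 𝓝 u₀ := hψ.isOpen.mem_nhds hu₀
  obtain ⟨e₁, e₂, k₁, k₂, on, -⟩ := h.saddle (ψ u₀)
  set z := y - (2 * ε) • (X (ψ u₀) - x₀) with hz
  have hXd : DifferentiableAt ℝ (fun u => X (ψ u)) u₀ :=
    (hψ.smoothX.contDiffAt hUn).differentiableAt (by simp)
  have hkey : ∀ v, ⟪fderiv ℝ (fun u => X (ψ u)) u₀ v, z⟫ = 0 := by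
    intro v
    have h1 := local_min_line hψ hu₀ hs v
    have h2 : HasDerivAt (fun t : ℝ => X (ψ (u₀ + t • v)))
        (fderiv ℝ (fun u => X (ψ u)) u₀ v) 0 := by
      have := comp_line (g := fun u => X (ψ u)) (u₀ := u₀) (v := v) (t := 0) (by simpa using hXd)
      simpa using this
    have h3 := height_deriv h2 y x₀ ε
    have h4 := h1.hasDerivAt_eq_zero h3
    rw [hz, inner_sub_right, inner_smul_right, real_inner_comm (X (ψ u₀) - x₀)]
    simp only [zero_smul, add_zero] at h4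
    exact h4
  obtain ⟨v₁, hv₁⟩ := exists_tangent hψ hu₀ on (τ := e₁) (by
    have := on.2 (i := 0) (j := 2) (by decide)
    simpa using this)
  obtain ⟨v₂, hv₂⟩ := exists_tangent hψ hu₀ on (τ := e₂) (by
    have := on.2 (i := 1) (j := 2) (by decide)
    simpa using this)
  let F : Frame := ⟨e₁, e₂, N (ψ u₀), on⟩
  have h1 := frame_expand F z
  have h2 : ⟪z, F.a⟫ = 0 := by
    rw [real_inner_comm]
    have := hkey v₁
    rw [hv₁] at this
    exact this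
  have h3 : ⟪z, F.b⟫ = 0 := by
    rw [real_inner_comm]
    have := hkey v₂
    rw [hv₂] at this
    exact this
  rw [h2, h3, zero_smul, zero_smul, zero_add, zero_add] at h1
  exact h1

/-- The second derivative test. -/
private lemma second_test {φ φ₁ : ℝ → ℝ} {φ₂ : ℝ} (hmin : IsLocalMin φ 0)
    (h₁ : ∀ᶠ t in 𝓝 (0 : ℝ), HasDerivAt φ (φ₁ t) t) (h₂ : HasDerivAt φ₁ φ₂ 0) : 0 ≤ φ₂ := by
  by_contra hneg
  push Not at hneg
  have e1 : deriv φ =ᶠ[𝓝 0] φ₁ := h₁.mono fun t ht => ht.deriv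
  have e2 : deriv (deriv φ) 0 = φ₂ := by
    rw [e1.deriv_eq]; exact h₂.deriv
  have e3 : deriv φ 0 = 0 := hmin.deriv_eq_zero
  have e4 : ContinuousAt φ 0 := h₁.self_of_nhds.continuousAt
  have hmax : IsLocalMax φ 0 := isLocalMax_of_deriv_deriv_neg (by rw [e2]; exact hneg) e3 e4
  have e5 : φ =ᶠ[𝓝 0] fun _ => φ 0 := by
    filter_upwards [hmax, hmin] with t h1 h2
    exact le_antisymm h1 h2
  have e6 : deriv φ =ᶠ[𝓝 0] fun _ => 0 := by
    have := e5.deriv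
    filter_upwards [this] with t ht
    rw [ht]; simp
  have e7 : deriv (deriv φ) 0 = 0 := by
    rw [e6.deriv_eq]; simp
  rw [e2] at e7
  linarith

theorem no_local_min (h : Hyp X N A c C) (s : S) (y x₀ : E3) {ε : ℝ} (hε : 0 < ε) :
    ¬ IsLocalMin (fun u => ⟪X u, y⟫ - ε * ‖X u - x₀‖ ^ 2) s := by
  intro hs
  have hcrit := crit_tangent h y x₀ ε hs
  obtain ⟨U, ψ, hψ, u₀, hu₀, rfl⟩ := h.surf s
  have hUn : U ∈ 𝓝 u₀ := hψ.isOpen.mem_nhds hu₀
  obtain ⟨e₁, e₂, k₁, k₂, on, hk₁, hk₂, hk₃, hk⟩ := h.saddle (ψ u₀)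
  set z := y - (2 * ε) • (X (ψ u₀) - x₀) with hz
  set μ := ⟪z, N (ψ u₀)⟫ with hμ
  have hXc : ContDiffOn ℝ ∞ (fun u => X (ψ u)) U := hψ.smoothX
  have hXd : ∀ u ∈ U, DifferentiableAt ℝ (fun u => X (ψ u)) u := fun u hu =>
    (hXc.contDiffAt (hψ.isOpen.mem_nhds hu)).differentiableAt (by simp)
  have hNd : DifferentiableAt ℝ (fun u => N (ψ u)) u₀ :=
    (hψ.smoothN.contDiffAt hUn).differentiableAt (by simp)
  have hdXd : DifferentiableAt ℝ (fderiv ℝ (fun u => X (ψ u))) u₀ := by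
    have : ContDiffAt ℝ 1 (fderiv ℝ (fun u => X (ψ u))) u₀ :=
      (hXc.contDiffAt hUn).fderiv_right (by norm_cast)
    exact this.differentiableAt (by simp)
  have key : ∀ v, 2 * ε * ‖fderiv ℝ (fun u => X (ψ u)) u₀ v‖ ^ 2 ≤
      μ * ⟪A (ψ u₀) (fderiv ℝ (fun u => X (ψ u)) u₀ v), fderiv ℝ (fun u => X (ψ u)) u₀ v⟫ := by
    intro v
    have hmin := local_min_line hψ hu₀ hs v
    have hUt : ∀ᶠ t in 𝓝 (0 : ℝ), u₀ + t • v ∈ U := by
      have h2 : Tendsto (fun t : ℝ => u₀ + t • v) (𝓝 0) (𝓝 u₀) := by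
        have := (line_deriv u₀ v 0).continuousAt.tendsto
        simpa using this
      exact h2.eventually hUn
    have hγ : ∀ᶠ t in 𝓝 (0 : ℝ), HasDerivAt (fun t : ℝ => X (ψ (u₀ + t • v)))
        (fderiv ℝ (fun u => X (ψ u)) (u₀ + t • v) v) t := by
      filter_upwards [hUt] with t ht
      exact comp_line (g := fun u => X (ψ u)) (hXd _ ht)
    have hγ0 : HasDerivAt (fun t : ℝ => X (ψ (u₀ + t • v)))
        (fderiv ℝ (fun u => X (ψ u)) u₀ v) 0 := by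
      have := hγ.self_of_nhds
      simpa using this
    obtain ⟨γ₂, hγ₂⟩ : ∃ γ₂, HasDerivAt
        (fun t : ℝ => fderiv ℝ (fun u => X (ψ u)) (u₀ + t • v) v) γ₂ 0 := by
      have h1 := comp_line (g := fderiv ℝ (fun u => X (ψ u))) (u₀ := u₀) (v := v) (t := 0)
        (by simpa using hdXd)
      have h2 := h1.clm_apply (hasDerivAt_const (0 : ℝ) v)
      exact ⟨_, h2⟩
    have hN0 : HasDerivAt (fun t : ℝ => N (ψ (u₀ + t • v)))
        (fderiv ℝ (fun u => N (ψ u)) u₀ v) 0 := by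
      have := comp_line (g := fun u => N (ψ u)) (u₀ := u₀) (v := v) (t := 0) (by simpa using hNd)
      simpa using this
    -- second fundamental form
    have hII : ⟪N (ψ u₀), γ₂⟫ = ⟪A (ψ u₀) (fderiv ℝ (fun u => X (ψ u)) u₀ v),
        fderiv ℝ (fun u => X (ψ u)) u₀ v⟫ := by
      have h1 := hN0.inner ℝ hγ₂
      have h2 : (fun t : ℝ => ⟪N (ψ (u₀ + t • v)),
          fderiv ℝ (fun u => X (ψ u)) (u₀ + t • v) v⟫) =ᶠ[𝓝 0] fun _ => 0 := by
        filter_upwards [hUt] with t ht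
        exact hψ.normal _ ht v
      have h3 := (h1.congr_of_eventuallyEq h2.symm).unique (hasDerivAt_const (0 : ℝ) (0 : ℝ))
      simp only [zero_smul, add_zero] at h3
      have h4 := hψ.shape u₀ hu₀ v
      rw [h4, inner_neg_left]
      linarith
    have hφ₂ : HasDerivAt (fun t : ℝ => ⟪fderiv ℝ (fun u => X (ψ u)) (u₀ + t • v) v, y⟫ -
        2 * ε * ⟪X (ψ (u₀ + t • v)) - x₀, fderiv ℝ (fun u => X (ψ u)) (u₀ + t • v) v⟫)
        (⟪γ₂, y⟫ - 2 * ε * (⟪X (ψ u₀) - x₀, γ₂⟫ +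
          ⟪fderiv ℝ (fun u => X (ψ u)) u₀ v, fderiv ℝ (fun u => X (ψ u)) u₀ v⟫)) 0 := by
      have h1 : HasDerivAt (fun t : ℝ => ⟪fderiv ℝ (fun u => X (ψ u)) (u₀ + t • v) v, y⟫)
          ⟪γ₂, y⟫ 0 := by
        have := hγ₂.inner ℝ (hasDerivAt_const (0 : ℝ) y)
        simpa using this
      have h2 := (hγ0.sub_const x₀).inner ℝ hγ₂
      simp only [zero_smul, add_zero] at h2
      exact h1.sub (h2.const_mul (2 * ε))
    have h0 := second_test hmin (by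
      filter_upwards [hγ] with t ht
      exact height_deriv ht y x₀ ε) hφ₂
    have h5 : ⟪γ₂, z⟫ = μ * ⟪N (ψ u₀), γ₂⟫ := by
      rw [hcrit, inner_smul_right, real_inner_comm]
    rw [hz, inner_sub_right, inner_smul_right, real_inner_comm (X (ψ u₀) - x₀), hII] at h5
    rw [real_inner_self_eq_norm_sq] at h0
    linarith
  have htan : ∀ τ : E3, ⟪τ, N (ψ u₀)⟫ = 0 → 2 * ε * ‖τ‖ ^ 2 ≤ μ * ⟪A (ψ u₀) τ, τ⟫ := by
    intro τ hτ
    obtain ⟨v, hv⟩ := exists_tangent hψ hu₀ on hτ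
    rw [← hv]; exact key v
  have n1 : ‖e₁‖ = 1 := by simpa using on.1 0
  have n2 : ‖e₂‖ = 1 := by simpa using on.1 1
  have t1 := htan e₁ (by
    have := on.2 (i := 0) (j := 2) (by decide)
    simpa using this)
  have t2 := htan e₂ (by
    have := on.2 (i := 1) (j := 2) (by decide)
    simpa using this)
  rw [hk₁, inner_smul_left, real_inner_self_eq_norm_sq, n1] at t1
  rw [hk₂, inner_smul_left, real_inner_self_eq_norm_sq, n2] at t2
  simp only [conj_trivial, one_pow, mul_one] at t1 t2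
  have p1 : 0 < μ * k₁ := by linarith
  have p2 : 0 < μ * k₂ := by linarith
  have p3 : 0 < (μ * k₁) * (μ * k₂) := mul_pos p1 p2
  have p4 : (μ * k₁) * (μ * k₂) = μ ^ 2 * (k₁ * k₂) := by ring
  rw [p4] at p3
  nlinarith [sq_nonneg μ]

end Pool.Agent.Helper50.MS
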