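import Mathlib

/-!
# Project MS (MP_0da599_gt, Milnor's conjecture for complete saddle surfaces): definitions

An oriented immersed surface in `R^3` is given by a topological space `S`, the immersion
`X : S -> R^3`, the unit normal `N : S -> R^3` and the shape operator `A s : R^3 -> R^3`
(`dN = - A dX`, `A N = 0`), which are smooth in local parametrizations.
-/

set_option autoImplicit false

open Filter Topology Set
open scoped RealInnerProductSpace ContDiff

namespace Pool.Agent.Helper50.MS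

/-- Euclidean three-space. -/
abbrev E3 : Type := EuclideanSpace ℝ (Fin 3)

/-- Linear endomorphisms of Euclidean three-space. -/
abbrev End3 : Type := E3 →L[ℝ] E3

/-- `ψ`, on the open set `U` of the plane, is a local parametrization of the surface `(X, N, A)`:
an open embedding of `U` in `S` such that `X ∘ ψ` is an immersion of class `C^∞`, `N ∘ ψ` is a
unit normal, and `A ∘ ψ` is the shape operator, extended by `0` on the normal line. -/
structure IsParam {S : Type} [TopologicalSpace S] (X N : S → E3) (A : S → End3)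
    (U : Set (ℝ × ℝ)) (ψ : ℝ × ℝ → S) : Prop where
  isOpen : IsOpen U
  cont : ContinuousOn ψ U
  inj : InjOn ψ U
  openMap : ∀ V : Set (ℝ × ℝ), V ⊆ U → IsOpen V → IsOpen (ψ '' V)
  smoothX : ContDiffOn ℝ ∞ (fun u => X (ψ u)) U
  smoothN : ContDiffOn ℝ ∞ (fun u => N (ψ u)) U
  smoothA : ContDiffOn ℝ ∞ (fun u => A (ψ u)) U
  immersion : ∀ u ∈ U, Function.Injective (fderiv ℝ (fun u => X (ψ u)) u)
  unit : ∀ u ∈ U, ‖N (ψ u)‖ = 1
  normal : ∀ u ∈ U, ∀ v : ℝ × ℝ, ⟪N (ψ u), fderiv ℝ (fun u => X (ψ u)) u v⟫ = 0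
  shape : ∀ u ∈ U, ∀ v : ℝ × ℝ,
    A (ψ u) (fderiv ℝ (fun u => X (ψ u)) u v) = - fderiv ℝ (fun u => N (ψ u)) u v
  shape_normal : ∀ u ∈ U, A (ψ u) (N (ψ u)) = 0

/-- `(X, N, A)` is an oriented immersed surface: every point of `S` lies in the image of a local
parametrization. -/
def IsSurface {S : Type} [TopologicalSpace S] (X N : S → E3) (A : S → End3) : Prop :=
  ∀ s : S, ∃ (U : Set (ℝ × ℝ)) (ψ : ℝ × ℝ → S), IsParam X N A U ψ ∧ s ∈ ψ '' U

/-- The surface is complete: a curve of finite length (after a change of parameter: a continuous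
curve `γ` on `[0, 1)` such that `X ∘ γ` is Lipschitz) has an endpoint in `S`. -/
def IsCompleteSurface {S : Type} [TopologicalSpace S] (X : S → E3) : Prop :=
  ∀ γ : ℝ → S, ContinuousOn γ (Ico 0 1) →
    (∃ L : NNReal, LipschitzOnWith L (fun t => X (γ t)) (Ico 0 1)) →
    ∃ s : S, Tendsto γ (𝓝[<] 1) (𝓝 s)

/-- The gradient of the second fundamental form is at most `C |A|^2`: the differential of the
matrix valued function `A` satisfies `|dA(v)| ≤ C |A|^2 |dX(v)|`. -/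
def GradBound {S : Type} [TopologicalSpace S] (X N : S → E3) (A : S → End3) (C : ℝ) : Prop :=
  ∀ (U : Set (ℝ × ℝ)) (ψ : ℝ × ℝ → S), IsParam X N A U ψ → ∀ u ∈ U, ∀ v : ℝ × ℝ,
    ‖fderiv ℝ (fun u => A (ψ u)) u v‖
      ≤ C * ‖A (ψ u)‖ ^ 2 * ‖fderiv ℝ (fun u => X (ψ u)) u v‖

/-- `k₁, k₂` are the principal curvatures: the eigenvalues of the shape operator on the tangent
plane. -/
def ArePrincipal {S : Type} (N : S → E3) (A : S → End3) (k₁ k₂ : S → ℝ) : Prop :=
  ∀ s : S, ∃ e₁ e₂ : E3, Orthonormal ℝ ![e₁, e₂, N s] ∧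
    A s e₁ = k₁ s • e₁ ∧ A s e₂ = k₂ s • e₂

/-- An orthonormal frame. -/
structure Frame where
  a : E3
  b : E3
  n : E3
  on : Orthonormal ℝ ![a, b, n]

namespace Frame

/-- The first gradient coordinate of the direction `v`. -/
noncomputable def p (F : Frame) (v : E3) : ℝ := - ⟪v, F.a⟫ / ⟪v, F.n⟫

/-- The second gradient coordinate of the direction `v`. -/
noncomputable def q (F : Frame) (v : E3) : ℝ := - ⟪v, F.b⟫ / ⟪v, F.n⟫

/-- The first tangent vector of the graph with normal `v`. -/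
noncomputable def Xx (F : Frame) (v : E3) : E3 := F.a + F.p v • F.n

/-- The second tangent vector of the graph with normal `v`. -/
noncomputable def Xy (F : Frame) (v : E3) : E3 := F.b + F.q v • F.n

noncomputable def Hxx (F : Frame) (v : E3) (B : End3) : ℝ := ⟪B (F.Xx v), F.Xx v⟫
noncomputable def Hxy (F : Frame) (v : E3) (B : End3) : ℝ := ⟪B (F.Xx v), F.Xy v⟫
noncomputable def Hyy (F : Frame) (v : E3) (B : End3) : ℝ := ⟪B (F.Xy v), F.Xy v⟫

/-- The slope `f_xy / f_yy`. -/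
noncomputable def m (F : Frame) (v : E3) (B : End3) : ℝ := F.Hxy v B / F.Hyy v B

/-- The points where the surface is a graph over the plane of the frame with `f_yy > 0`. -/
def dom {S : Type} (F : Frame) (N : S → E3) (A : S → End3) : Set S :=
  {s | 0 < ⟪N s, F.n⟫ ∧ 0 < F.Hyy (N s) (A s)}

/-- The coordinates `(x, q)`, `x` measured from `o`. -/
noncomputable def psi {S : Type} (F : Frame) (X N : S → E3) (o : ℝ) (s : S) : ℝ × ℝ :=
  (⟪X s, F.a⟫ - o, F.q (N s))

end Frame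

/-- The hypotheses of the theorem, in the form used in the proof. -/
structure Hyp {S : Type} [TopologicalSpace S] (X N : S → E3) (A : S → End3) (c C : ℝ) : Prop where
  surf : IsSurface X N A
  complete : IsCompleteSurface X
  cpos : 0 < c
  lower : ∀ s, c ≤ ‖A s‖
  one_le : 1 ≤ C
  grad : GradBound X N A C
  saddle : ∀ s : S, ∃ (e₁ e₂ : E3) (k₁ k₂ : ℝ), Orthonormal ℝ ![e₁, e₂, N s] ∧
    A s e₁ = k₁ • e₁ ∧ A s e₂ = k₂ • e₂ ∧ A s (N s) = 0 ∧ k₁ * k₂ ≤ 0

/-- `G` is a lift (a continuous section) of the map `Φ : S → ℝ²`, with values in `S₀`, over the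
set `D` of the plane. -/
structure IsLift {S : Type} [TopologicalSpace S] (Φ : S → ℝ × ℝ) (S₀ : Set S)
    (D : Set (ℝ × ℝ)) (G : ℝ × ℝ → S) : Prop where
  cont : ContinuousOn G D
  mem : ∀ z ∈ D, G z ∈ S₀
  eq : ∀ z ∈ D, Φ (G z) = z

/-- The half width of the strips. -/
noncomputable def kap (C : ℝ) : ℝ := 1 / (10 ^ 8 * C)

/-- The height of the strips. -/
noncomputable def del (C : ℝ) : ℝ := 6 / 10 ^ 5 * kap C

/-- The conditions on good strips. -/
def Good {S : Type} (F : Frame) (N : S → E3) (A : S → End3) (C : ℝ) (s : S) : Prop :=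
  1 / 2 ≤ ⟪N s, F.n⟫ ∧ |F.p (N s)| ≤ del C ∧ |F.q (N s)| ≤ kap C ∧ ‖A s‖ / 2 ≤ F.Hyy (N s) (A s)

/-- The frame is adapted to the surface at the point `s`: the normal is `n`, and `b` is a principal
direction of the largest principal curvature in absolute value, which is positive. -/
def Adapted {S : Type} (F : Frame) (N : S → E3) (A : S → End3) (s : S) : Prop :=
  N s = F.n ∧ A s F.b = ‖A s‖ • F.b ∧ (∃ k : ℝ, A s F.a = k • F.a) ∧ A s F.n = 0

/-- `g` is a good leaf: a lift of `psi` over `{0} × [-κ, κ]` which is nearly straight. -/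
structure IsLeaf {S : Type} [TopologicalSpace S] (F : Frame) (X N : S → E3) (A : S → End3)
    (C o : ℝ) (g : ℝ → S) : Prop where
  cont : ContinuousOn g (Icc (-kap C) (kap C))
  psi : ∀ q ∈ Icc (-kap C) (kap C), F.psi X N o (g q) = (0, q)
  inn : ∀ q ∈ Icc (-kap C) (kap C), 1 / 2 ≤ ⟪N (g q), F.n⟫
  p : ∀ q ∈ Icc (-kap C) (kap C), |F.p (N (g q))| ≤ del C / 100
  yy : ∀ q ∈ Icc (-kap C) (kap C), 9 / 10 * ‖A (g q)‖ ≤ F.Hyy (N (g q)) (A (g q))

/-! ### Monotone sections of the Gauss map -/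

/-- `W` is a monotone section of `N` over the open set `D` of the unit sphere (`D` is the set of
unit vectors in the set `C`): `N` is proper from `W` to `D`, with nonempty connected fibres. -/
structure IsSect {S : Type} [TopologicalSpace S] (N : S → E3) (C : Set E3) (W : Set S) : Prop where
  openW : IsOpen W
  maps : ∀ w ∈ W, N w ∈ C
  proper : ∀ K : Set E3, IsCompact K → K ⊆ C → IsCompact (W ∩ N ⁻¹' K)
  nonempty : ∀ v ∈ C, ‖v‖ = 1 → (W ∩ N ⁻¹' {v}).Nonempty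
  conn : ∀ v ∈ C, ‖v‖ = 1 → IsPreconnected (W ∩ N ⁻¹' {v})

/-- Open cones. -/
structure IsCone (C : Set E3) : Prop where
  isOpen : IsOpen C
  smul : ∀ v ∈ C, ∀ t : ℝ, 0 < t → t • v ∈ C
  zero : (0 : E3) ∉ C

/-- Open cones which are star-shaped with respect to the direction `v₀` and do not contain
`-v₀`. -/
structure IsStar (v₀ : E3) (C : Set E3) : Prop where
  cone : IsCone C
  add : ∀ v ∈ C, ∀ t : ℝ, 0 ≤ t → v + t • v₀ ∈ C
  mem : v₀ ∈ C
  neg : -v₀ ∉ C

/-- Properties of the wall with normal `e` at the direction `v` (a boundary point of the set of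
directions `⟪v, e⟫ > 0`) for the section `W`, with the sign `σ`. -/
structure WallAt {S : Type} [TopologicalSpace S] (X N : S → E3) (A : S → End3) (W : Set S)
    (e : E3) (σ : ℝ) (v : E3) : Prop where
  /-- near the wall the horizontal sections have curvature of the sign `-σ` -/
  sign : ∃ ρ : ℝ, 0 < ρ ∧ ∀ w ∈ W, ‖N w - v‖ < ρ → ∀ τ : E3, ⟪τ, N w⟫ = 0 → ⟪τ, e⟫ = 0 → τ ≠ 0 →
    σ * ⟪A w τ, τ⟫ < 0
  /-- a limit point of `W` on the wall is not a lowest point -/
  lower : ∀ w ∈ closure W, N w = v → ∀ ε : ℝ, 0 < ε →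
    ∃ w' ∈ W, ‖N w' - v‖ < ε ∧ σ * ⟪X w', e⟫ < σ * ⟪X w, e⟫
  /-- near the wall, points of bounded height stay in a compact set -/
  compact : ∃ ρ : ℝ, 0 < ρ ∧ ∀ M : ℝ, ∃ K : Set S, IsCompact K ∧
    {w | w ∈ W ∧ ‖N w - v‖ ≤ ρ ∧ σ * ⟪X w, e⟫ ≤ M} ⊆ K

/-- The fibre of `N` through `w` contains an unbounded connected set. -/
def HasRay {S : Type} [TopologicalSpace S] (X N : S → E3) (w : S) : Prop :=
  ∃ R : Set S, IsPreconnected R ∧ w ∈ R ∧ (∀ r ∈ R, N r = N w) ∧ ¬ Bornology.IsBounded (X '' R)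

/-- The picture of the surface around the point `s`: a section `W` over the convex cone `C`,
which in the ball of radius `η` around `N s` is bounded only by the two walls `e₁, e₂`. -/
structure LocalPic {S : Type} [TopologicalSpace S] (X N : S → E3) (A : S → End3) (η : ℝ) (s : S)
    (C : Set E3) (W : Set S) (e₁ e₂ : E3) (σ : ℝ) : Prop where
  cone : IsCone C
  convex : Convex ℝ C
  pos : ∀ v ∈ C, 0 < ⟪v, N s⟫
  sect : IsSect N C W
  unit₁ : ‖e₁‖ = 1
  unit₂ : ‖e₂‖ = 1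
  sgn : σ = 1 ∨ σ = -1
  ball : ∀ v : E3, ‖v - N s‖ < η → (v ∈ C ↔ 0 < ⟪v, e₁⟫ ∧ 0 < ⟪v, e₂⟫)
  /-- if `N s` is not an interior direction then `s` lies on a flat ray -/
  ray : ¬ (0 < ⟪N s, e₁⟫ ∧ 0 < ⟪N s, e₂⟫) → HasRay X N s
  mem : 0 < ⟪N s, e₁⟫ → 0 < ⟪N s, e₂⟫ → s ∈ W
  disj : 0 < ⟪N s, e₁⟫ → 0 < ⟪N s, e₂⟫ → ∀ v : E3, ‖v - N s‖ < η →
    ¬ (⟪v, e₁⟫ = 0 ∧ ⟪v, e₂⟫ = 0)
  wall₁ : 0 < ⟪N s, e₁⟫ → 0 < ⟪N s, e₂⟫ → ∀ v : E3, ‖v‖ = 1 → ‖v - N s‖ < η → ⟪v, e₁⟫ = 0 →
    0 < ⟪v, e₂⟫ → WallAt X N A W e₁ σ v ∧ ∀ w ∈ closure W, N w = v → HasRay X N w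
  wall₂ : 0 < ⟪N s, e₁⟫ → 0 < ⟪N s, e₂⟫ → ∀ v : E3, ‖v‖ = 1 → ‖v - N s‖ < η → ⟪v, e₂⟫ = 0 →
    0 < ⟪v, e₁⟫ → WallAt X N A W e₂ σ v ∧ ∀ w ∈ closure W, N w = v → HasRay X N w

end Pool.Agent.Helper50.MS
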