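import Pool.Agent.Helper50.MS.Defs

/-!
# Project MS: further definitions used in the modules
-/

set_option autoImplicit false

open Filter Topology Set
open scoped RealInnerProductSpace

namespace Pool.Agent.Helper50.MS

/-- The closed conditions on strips. -/
def calG {S : Type} (F : Frame) (N : S → E3) (A : S → End3) (C : ℝ) : Set S :=
  {s | 1 / 2 ≤ ⟪N s, F.n⟫ ∧ |F.p (N s)| ≤ del C ∧ ‖A s‖ / 2 ≤ F.Hyy (N s) (A s)}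

/-- The open conditions on strips. -/
def calGo {S : Type} (F : Frame) (N : S → E3) (A : S → End3) (C : ℝ) : Set S :=
  {s | 1 / 2 < ⟪N s, F.n⟫ ∧ |F.p (N s)| < del C ∧ ‖A s‖ / 2 < F.Hyy (N s) (A s)}

/-- The data on the right side of a leaf. -/
structure IsSide {S : Type} [TopologicalSpace S] (F : Frame) (X N : S → E3) (A : S → End3)
    (C o : ℝ) (g : ℝ → S) (I : Set ℝ) (G : ℝ × ℝ → S) (α β : ℝ) : Prop where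
  lift : IsLift (F.psi X N o) (F.dom N A) (I ×ˢ Icc (-kap C) (kap C)) G
  good : ∀ z ∈ I ×ˢ Icc (-kap C) (kap C), Good F N A C (G z)
  start : ∀ q ∈ Icc (-kap C) (kap C), G (0, q) = g q
  alpha : |α| ≤ del C
  beta : |β| ≤ 1 / 10 ^ 4
  near : ∀ η : ℝ, 0 < η → ∃ x₀ ∈ I, ∀ x ∈ I, x₀ ≤ x → ∀ q : ℝ, |q| ≤ kap C / 2 →
    F.p (N (G (x, q))) < α + β * q + η
  alt : (I = Ici 0 ∧ ∀ z ∈ I ×ˢ Icc (-kap C) (kap C), α + β * z.2 ≤ F.p (N (G z))) ∨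
    (∃ ℓ : ℝ, 0 < ℓ ∧ I = Icc 0 ℓ) ∧ α = -del C / 5 ∧ β = 0

/-- The full strip around a point `s`, with the lower wall `p = α₁ + β₁ q` on the right and the
upper wall `p = α₂ + β₂ q` on the left. -/
structure IsFull {S : Type} [TopologicalSpace S] (F : Frame) (X N : S → E3) (A : S → End3)
    (C : ℝ) (s : S) (I : Set ℝ) (G : ℝ × ℝ → S) (α₁ β₁ α₂ β₂ : ℝ) : Prop where
  ord : I.OrdConnected
  nhds : I ∈ 𝓝 (0 : ℝ)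
  lift : IsLift (F.psi X N ⟪X s, F.a⟫) (F.dom N A) (I ×ˢ Icc (-kap C) (kap C)) G
  good : ∀ z ∈ I ×ˢ Icc (-kap C) (kap C), Good F N A C (G z)
  start : G (0, 0) = s
  slope : ∀ z ∈ I ×ˢ Icc (-kap C) (kap C), |F.m (N (G z)) (A (G z))| ≤ 1 / 10 ^ 4
  alpha₁ : |α₁| ≤ del C
  beta₁ : |β₁| ≤ 1 / 10 ^ 4
  alpha₂ : |α₂| ≤ del C
  beta₂ : |β₂| ≤ 1 / 10 ^ 4
  near₁ : ∀ η : ℝ, 0 < η → ∃ x₀ ∈ I, ∀ x ∈ I, x₀ ≤ x → ∀ q : ℝ, |q| ≤ kap C / 2 →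
    F.p (N (G (x, q))) < α₁ + β₁ * q + η
  near₂ : ∀ η : ℝ, 0 < η → ∃ x₀ ∈ I, ∀ x ∈ I, x ≤ x₀ → ∀ q : ℝ, |q| ≤ kap C / 2 →
    α₂ + β₂ * q - η < F.p (N (G (x, q)))
  alt₁ : (Ici 0 ⊆ I ∧ ∀ z ∈ I ×ˢ Icc (-kap C) (kap C), α₁ + β₁ * z.2 ≤ F.p (N (G z))) ∨
    (∃ ℓ : ℝ, IsGreatest I ℓ) ∧ α₁ = -del C / 5 ∧ β₁ = 0
  alt₂ : (Iic 0 ⊆ I ∧ ∀ z ∈ I ×ˢ Icc (-kap C) (kap C), F.p (N (G z)) ≤ α₂ + β₂ * z.2) ∨
    (∃ ℓ : ℝ, IsLeast I ℓ) ∧ α₂ = del C / 5 ∧ β₂ = 0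

/-- The cone of directions of a full strip. -/
def coneOf (F : Frame) (C α₁ β₁ α₂ β₂ : ℝ) : Set E3 :=
  {v | 0 < ⟪v, F.n⟫ ∧ |⟪v, F.b⟫| < kap C / 2 * ⟪v, F.n⟫ ∧ α₁ + β₁ * F.q v < F.p v ∧
    F.p v < α₂ + β₂ * F.q v}

/-- The section of a full strip. -/
def secOf {S : Type} (F : Frame) (N : S → E3) (C : ℝ) (I : Set ℝ) (G : ℝ × ℝ → S)
    (α₁ β₁ α₂ β₂ : ℝ) : Set S :=
  G '' {z | z.1 ∈ I ∧ |z.2| < kap C / 2 ∧ α₁ + β₁ * z.2 < F.p (N (G z)) ∧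
    F.p (N (G z)) < α₂ + β₂ * z.2}

/-- The vector of the right wall. -/
noncomputable def w₁ (F : Frame) (α₁ β₁ : ℝ) : E3 := -F.a + β₁ • F.b - α₁ • F.n

/-- The vector of the left wall. -/
noncomputable def w₂ (F : Frame) (α₂ β₂ : ℝ) : E3 := F.a - β₂ • F.b + α₂ • F.n

/-- `(K, W)` is the largest star-shaped section through `s₀`. -/
structure IsMax {S : Type} [TopologicalSpace S] (N : S → E3) (v₀ : E3) (s₀ : S) (K : Set E3)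
    (W : Set S) : Prop where
  star : IsStar v₀ K
  sect : IsSect N K W
  mem : s₀ ∈ W
  max : ∀ (K' : Set E3) (W' : Set S), IsStar v₀ K' → IsSect N K' W' → s₀ ∈ W' → K' ⊆ K ∧ W' ⊆ W

end Pool.Agent.Helper50.MS
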