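import Pool.Agent.Helper50.MS.FrameLin

/-!
# MS-06  Linear algebra of frames, part 2: eigenframes

`B e₁ = k₁ e₁`, `B e₂ = k₂ e₂`, `B v = 0`, `(e₁,e₂,v)` orthonormal (so an orthonormal basis of `E3`; `frame_expand` for the frame `⟨e₁,e₂,v,on⟩`). Then
`B x = k₁ ⟪x,e₁⟫ e₁ + k₂ ⟪x,e₂⟫ e₂`, `B` is symmetric,
`‖B‖ = max |k₁| |k₂|` (`opNorm_le_bound`, and `B e_i`), and
`Hxx Hyy - Hxy² = k₁ k₂ (x₁ y₂ - x₂ y₁)²` with `x_i = ⟪Xx,e_i⟫`, `y_i = ⟪Xy,e_i⟫`, and `(x₁ y₂ - x₂ y₁)² = |Xx|²|Xy|² - ⟪Xx,Xy⟫²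
= 1 + p² + q²` (Lagrange's identity in the plane `v^⊥` which contains `Xx, Xy`, `inner_Xx`).

`big_xx`: for a unit vector `τ ∈ {e₁,e₂}` with `|⟪Bτ,τ⟫| = ‖B‖`: `τ = ξ Xx + η Xy`, `ξ = ⟪τ,a⟫`, `η = ⟪τ,b⟫`, `ξ² + η² ≤ 1`, so
`‖B‖ = |ξ² Hxx + 2ξη Hxy + η² Hyy| ≤ max(|Hxx|, Hyy) + |Hxy|`. With `|Hxy| ≤ Hyy/50`, `Hyy ≤ (7/10)‖B‖` we get
`max(|Hxx|,Hyy) ≥ (1 - 7/500)‖B‖ > Hyy`, so `|Hxx| ≥ (9/10)‖B‖`; and `Hxx Hyy ≤ Hxy² ≤ Hyy²/2500` (`eigen_det`, `hk`) gives `Hxx ≤ Hyy/2500 < (9/10)‖B‖`. So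
`Hxx ≤ -(9/10)‖B‖`. (`‖B‖ > 0` because `Hyy > 0`.)
-/

set_option autoImplicit false

open Filter Topology Set
open scoped RealInnerProductSpace

namespace Pool.Agent.Helper50.MS

theorem eigen_apply {v e₁ e₂ : E3} {B : End3} {k₁ k₂ : ℝ} (on : Orthonormal ℝ ![e₁, e₂, v])
    (h₁ : B e₁ = k₁ • e₁) (h₂ : B e₂ = k₂ • e₂) (h₃ : B v = 0) (x : E3) :
    B x = (k₁ * ⟪x, e₁⟫) • e₁ + (k₂ * ⟪x, e₂⟫) • e₂ := by
  let F : Frame := ⟨e₁, e₂, v, on⟩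
  have h4 : x = ⟪x, e₁⟫ • e₁ + ⟪x, e₂⟫ • e₂ + ⟪x, v⟫ • v := frame_expand F x
  conv_lhs => rw [h4, map_add, map_add, map_smul, map_smul, map_smul, h₁, h₂, h₃]
  rw [smul_zero, add_zero, smul_smul, smul_smul, mul_comm k₁, mul_comm k₂]

theorem eigen_symm {v e₁ e₂ : E3} {B : End3} {k₁ k₂ : ℝ} (on : Orthonormal ℝ ![e₁, e₂, v])
    (h₁ : B e₁ = k₁ • e₁) (h₂ : B e₂ = k₂ • e₂) (h₃ : B v = 0) (x y : E3) :
    ⟪B x, y⟫ = ⟪x, B y⟫ := by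
  rw [eigen_apply on h₁ h₂ h₃ x, eigen_apply on h₁ h₂ h₃ y]
  simp only [inner_add_left, inner_add_right, inner_smul_left, inner_smul_right, conj_trivial]
  rw [real_inner_comm y e₁, real_inner_comm y e₂]
  ring

theorem eigen_norm {v e₁ e₂ : E3} {B : End3} {k₁ k₂ : ℝ} (on : Orthonormal ℝ ![e₁, e₂, v])
    (h₁ : B e₁ = k₁ • e₁) (h₂ : B e₂ = k₂ • e₂) (h₃ : B v = 0) :
    ‖B‖ = max |k₁| |k₂| := by
  let F : Frame := ⟨e₁, e₂, v, on⟩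
  obtain ⟨haa, hbb, hnn, hab, han, hbn⟩ := frame_inner F
  have n1 : ‖e₁‖ = 1 := by simpa using on.1 0
  have n2 : ‖e₂‖ = 1 := by simpa using on.1 1
  apply le_antisymm
  · refine B.opNorm_le_bound (le_max_of_le_left (abs_nonneg _)) fun x => ?_
    have e1 : ‖B x‖ ^ 2 = (k₁ * ⟪x, e₁⟫) ^ 2 + (k₂ * ⟪x, e₂⟫) ^ 2 := by
      have haa' : ⟪e₁, e₁⟫ = 1 := haa
      have hbb' : ⟪e₂, e₂⟫ = 1 := hbb
      have hab' : ⟪e₁, e₂⟫ = 0 := hab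
      have hba' : ⟪e₂, e₁⟫ = 0 := by rw [real_inner_comm]; exact hab
      rw [← real_inner_self_eq_norm_sq, eigen_apply on h₁ h₂ h₃ x]
      simp only [inner_add_left, inner_add_right, inner_smul_left, inner_smul_right, conj_trivial,
        haa', hbb', hab', hba']
      ring
    have e2 : ‖x‖ ^ 2 = ⟪x, e₁⟫ ^ 2 + ⟪x, e₂⟫ ^ 2 + ⟪x, v⟫ ^ 2 := frame_norm_sq F x
    set M := max |k₁| |k₂| with hM
    have hM0 : 0 ≤ M := le_max_of_le_left (abs_nonneg _)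
    have a1 : k₁ ^ 2 ≤ M ^ 2 := by
      rw [← sq_abs k₁]
      exact pow_le_pow_left₀ (abs_nonneg _) (le_max_left _ _) 2
    have a2 : k₂ ^ 2 ≤ M ^ 2 := by
      rw [← sq_abs k₂]
      exact pow_le_pow_left₀ (abs_nonneg _) (le_max_right _ _) 2
    refine abs_le_of_sq_le_sq' ?_ (by positivity) |>.2
    rw [mul_pow, e1, e2, mul_pow, mul_pow]
    nlinarith [sq_nonneg ⟪x, e₁⟫, sq_nonneg ⟪x, e₂⟫, sq_nonneg ⟪x, v⟫,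
      mul_nonneg (sub_nonneg.mpr a1) (sq_nonneg ⟪x, e₁⟫),
      mul_nonneg (sub_nonneg.mpr a2) (sq_nonneg ⟪x, e₂⟫), mul_nonneg (sq_nonneg M) (sq_nonneg ⟪x, v⟫)]
  · apply max_le
    · have := B.le_opNorm e₁
      rw [h₁, norm_smul, n1, mul_one, mul_one] at this
      exact this
    · have := B.le_opNorm e₂
      rw [h₂, norm_smul, n2, mul_one, mul_one] at this
      exact this

private lemma entries {v e₁ e₂ : E3} {B : End3} {k₁ k₂ : ℝ}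
    (on : Orthonormal ℝ ![e₁, e₂, v]) (h₁ : B e₁ = k₁ • e₁) (h₂ : B e₂ = k₂ • e₂) (h₃ : B v = 0)
    (x y : E3) : ⟪B x, y⟫ = k₁ * ⟪x, e₁⟫ * ⟪y, e₁⟫ + k₂ * ⟪x, e₂⟫ * ⟪y, e₂⟫ := by
  rw [eigen_apply on h₁ h₂ h₃ x, inner_add_left, inner_smul_left, inner_smul_left,
    real_inner_comm y e₁, real_inner_comm y e₂]
  simp

private lemma inner_expand {v e₁ e₂ : E3} (on : Orthonormal ℝ ![e₁, e₂, v]) (x y : E3)
    (hx : ⟪v, x⟫ = 0) : ⟪x, y⟫ = ⟪x, e₁⟫ * ⟪y, e₁⟫ + ⟪x, e₂⟫ * ⟪y, e₂⟫ := by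
  let F : Frame := ⟨e₁, e₂, v, on⟩
  have h4 : x = ⟪x, e₁⟫ • e₁ + ⟪x, e₂⟫ • e₂ + ⟪x, v⟫ • v := frame_expand F x
  rw [real_inner_comm v x, hx, zero_smul, add_zero] at h4
  conv_lhs => rw [h4, inner_add_left, inner_smul_left, inner_smul_left]
  rw [real_inner_comm y e₁, real_inner_comm y e₂]
  simp

theorem eigen_det (F : Frame) {v e₁ e₂ : E3} {B : End3} {k₁ k₂ : ℝ}
    (on : Orthonormal ℝ ![e₁, e₂, v]) (h₁ : B e₁ = k₁ • e₁) (h₂ : B e₂ = k₂ • e₂) (h₃ : B v = 0)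
    (hv : ⟪v, F.n⟫ ≠ 0) :
    F.Hxx v B * F.Hyy v B - F.Hxy v B ^ 2 = k₁ * k₂ * (1 + F.p v ^ 2 + F.q v ^ 2) := by
  obtain ⟨hx0, hy0⟩ := inner_Xx F v hv
  obtain ⟨hxx, hyy, hxy⟩ := norm_Xx F v
  rw [← real_inner_self_eq_norm_sq, inner_expand on _ _ hx0] at hxx
  rw [← real_inner_self_eq_norm_sq, inner_expand on _ _ hy0] at hyy
  rw [inner_expand on _ _ hx0] at hxy
  rw [Frame.Hxx, Frame.Hyy, Frame.Hxy, entries on h₁ h₂ h₃, entries on h₁ h₂ h₃,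
    entries on h₁ h₂ h₃]
  set x₁ := ⟪F.Xx v, e₁⟫
  set x₂ := ⟪F.Xx v, e₂⟫
  set y₁ := ⟪F.Xy v, e₁⟫
  set y₂ := ⟪F.Xy v, e₂⟫
  have e1 : (x₁ * y₂ - x₂ * y₁) ^ 2 = (x₁ * x₁ + x₂ * x₂) * (y₁ * y₁ + y₂ * y₂) -
    (x₁ * y₁ + x₂ * y₂) ^ 2 := by ring
  have e2 : (x₁ * y₂ - x₂ * y₁) ^ 2 = 1 + F.p v ^ 2 + F.q v ^ 2 := by
    rw [e1, hxx, hyy, hxy]; ring
  rw [← e2]
  ring

theorem big_xx (F : Frame) {v e₁ e₂ : E3} {B : End3} {k₁ k₂ : ℝ}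
    (on : Orthonormal ℝ ![e₁, e₂, v]) (h₁ : B e₁ = k₁ • e₁) (h₂ : B e₂ = k₂ • e₂) (h₃ : B v = 0)
    (hk : k₁ * k₂ ≤ 0) (hv : ⟪v, F.n⟫ ≠ 0) (hyy : 0 < F.Hyy v B)
    (hxy : |F.Hxy v B| ≤ 1 / 50 * F.Hyy v B) (hs : F.Hyy v B ≤ 7 / 10 * ‖B‖) :
    F.Hxx v B ≤ -(9 / 10) * ‖B‖ := by
  have hB : 0 < ‖B‖ := by linarith
  -- the principal direction
  have hdir : ∃ τ : E3, ‖τ‖ = 1 ∧ ⟪v, τ⟫ = 0 ∧ |⟪B τ, τ⟫| = ‖B‖ := by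
    have n1 : ‖e₁‖ = 1 := by simpa using on.1 0
    have n2 : ‖e₂‖ = 1 := by simpa using on.1 1
    have o1 : ⟪v, e₁⟫ = 0 := by
      have := on.2 (i := 2) (j := 0) (by decide)
      simpa using this
    have o2 : ⟪v, e₂⟫ = 0 := by
      have := on.2 (i := 2) (j := 1) (by decide)
      simpa using this
    rw [eigen_norm on h₁ h₂ h₃]
    rcases le_total |k₁| |k₂| with hle | hle
    · refine ⟨e₂, n2, o2, ?_⟩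
      rw [max_eq_right hle, h₂, inner_smul_left, real_inner_self_eq_norm_sq, n2]
      simp
    · refine ⟨e₁, n1, o1, ?_⟩
      rw [max_eq_left hle, h₁, inner_smul_left, real_inner_self_eq_norm_sq, n1]
      simp
  obtain ⟨τ, hτ1, hτ0, hτ⟩ := hdir
  have ht := tangent_expand F v τ hv hτ0
  set ξ := ⟪τ, F.a⟫ with hξ
  set η := ⟪τ, F.b⟫ with hη
  have hξη : ξ ^ 2 + η ^ 2 ≤ 1 := by
    have := frame_norm_sq F τ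
    rw [hτ1] at this
    nlinarith [sq_nonneg ⟪τ, F.n⟫]
  have hq : ⟪B τ, τ⟫ = ξ ^ 2 * F.Hxx v B + 2 * ξ * η * F.Hxy v B + η ^ 2 * F.Hyy v B := by
    have hsym : ⟪B (F.Xy v), F.Xx v⟫ = ⟪B (F.Xx v), F.Xy v⟫ := by
      rw [eigen_symm on h₁ h₂ h₃, real_inner_comm]
    rw [Frame.Hxx, Frame.Hxy, Frame.Hyy, ht]
    simp only [map_add, map_smul, inner_add_left, inner_add_right, inner_smul_left,
      inner_smul_right, conj_trivial, hsym]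
    ring
  rw [hq] at hτ
  have hdet := eigen_det F on h₁ h₂ h₃ hv
  set H₁ := F.Hxx v B
  set H₂ := F.Hxy v B
  set H₃ := F.Hyy v B
  have hbound : ‖B‖ ≤ ξ ^ 2 * |H₁| + |H₂| + η ^ 2 * H₃ := by
    rw [← hτ]
    have e1 : |2 * ξ * η * H₂| ≤ |H₂| := by
      rw [abs_mul]
      have : |2 * ξ * η| ≤ 1 := by
        rw [abs_le]
        constructor
        · nlinarith [sq_nonneg (ξ + η)]
        · nlinarith [sq_nonneg (ξ - η)]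
      calc |2 * ξ * η| * |H₂| ≤ 1 * |H₂| := by gcongr
        _ = |H₂| := one_mul _
    have e2 : |ξ ^ 2 * H₁| = ξ ^ 2 * |H₁| := by
      rw [abs_mul, abs_of_nonneg (sq_nonneg ξ)]
    have e3 : |η ^ 2 * H₃| = η ^ 2 * H₃ := abs_of_nonneg (by positivity)
    calc |ξ ^ 2 * H₁ + 2 * ξ * η * H₂ + η ^ 2 * H₃|
        ≤ |ξ ^ 2 * H₁ + 2 * ξ * η * H₂| + |η ^ 2 * H₃| := abs_add_le _ _
      _ ≤ |ξ ^ 2 * H₁| + |2 * ξ * η * H₂| + |η ^ 2 * H₃| := by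
        gcongr
        exact abs_add_le _ _
      _ ≤ _ := by rw [e2, e3]; gcongr
  have hH₁ : 9 / 10 * ‖B‖ ≤ |H₁| := by
    by_contra hlt
    push Not at hlt
    have : ξ ^ 2 * |H₁| + η ^ 2 * H₃ ≤ 9 / 10 * ‖B‖ := by
      nlinarith [mul_nonneg (sq_nonneg ξ) (sub_nonneg.mpr hlt.le),
        mul_nonneg (sq_nonneg η) (sub_nonneg.mpr (hs.trans (by linarith : 7 / 10 * ‖B‖ ≤ 9 / 10 * ‖B‖))),
        mul_nonneg hB.le (sub_nonneg.mpr hξη)]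
    linarith
  have hneg : H₁ ≤ 7 / 10 * ‖B‖ := by
    have e1 : H₁ * H₃ ≤ H₂ ^ 2 := by
      have : k₁ * k₂ * (1 + F.p v ^ 2 + F.q v ^ 2) ≤ 0 :=
        mul_nonpos_of_nonpos_of_nonneg hk (by positivity)
      linarith
    have e2 : H₂ ^ 2 ≤ (1 / 50 * H₃) ^ 2 := by
      rw [← sq_abs H₂]
      exact pow_le_pow_left₀ (abs_nonneg _) hxy 2
    have e3 : H₁ * H₃ ≤ H₃ * H₃ := by nlinarith
    exact (le_of_mul_le_mul_right e3 hyy).trans hs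
  rcases abs_cases H₁ with ⟨h5, h6⟩ | ⟨h5, h6⟩
  · rw [h5] at hH₁
    linarith
  · rw [h5] at hH₁
    linarith

end Pool.Agent.Helper50.MS
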