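import Pool.Agent.Helper50.MS.SectBasic

/-!
# MS-36  Gluing sections

`glue_fibres`. `D = (K₁ ∩ K₂) ∩ sphere 0 1` preconnected, `w₀ ∈ W₁ ∩ W₂`. Let `E = {v ∈ D | W₁ ∩ N⁻¹{v} = W₂ ∩ N⁻¹{v}}`. (i) If for `v ∈ D` the fibres
`Φ_i = W_i ∩ N⁻¹{v}` have a common point then they are equal (`fibre_subset` with `R = Φ₁`, which is preconnected by `conn`, and the section `W₂`; and symmetric).
So `N w₀ ∈ E`. (ii) `E` is open in `D`: for `v ∈ E` the fibre `Φ₁ = Φ₂ ⊆ O := W₁ ∩ W₂`; `tube` for `W₁`: for `v' ∈ D` near `v` the (nonempty) fibre of `W₁` over `v'` lies in `W₂`: common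
points, so `v' ∈ E`. (iii) `E` is closed in `D`: `D \ E` is open in `D`: for `v ∈ D \ E` the fibres `Φ₁, Φ₂` are disjoint compact sets, so (`S` Hausdorff) there are disjoint open
`O_i ⊇ Φ_i` (`IsCompact.separatedNhds` or `SeparatedNhds.of_isCompact_isCompact`); `tube` for both: for `v'` near `v` the fibres over `v'` lie in `O₁`, `O₂`: disjoint and nonempty, so
not equal. Conclude with preconnectedness of `D` (`IsPreconnected.subset_clopen`-type argument, subtype).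
`glue`. `W = W₁ ∪ W₂`, `K = K₁ ∪ K₂`. open, maps: clear. Over a unit `v ∈ K₁`: `W ∩ N⁻¹{v} = W₁ ∩ N⁻¹{v}` (if `v ∈ K₂` the fibres agree, if `v ∉ K₂` then `W₂` has no point over
`v`), same for `K₂`: nonempty, conn. proper: `L ⊆ K₁ ∪ K₂` compact; `IsCompact.binary_compact_cover`: `L = L₁ ∪ L₂`, `L_i ⊆ K_i` compact; `W ∩ N⁻¹ L = (W₁ ∩ N⁻¹L₁) ∪ (W₂ ∩ N⁻¹L₂)`
by the previous remark (all `N w` are unit vectors, `hU`).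
-/

set_option autoImplicit false

open Filter Topology Set
open scoped RealInnerProductSpace

namespace Pool.Agent.Helper50.MS

variable {S : Type} [TopologicalSpace S] [T2Space S] {N : S → E3}

private theorem gl_common {K₁ K₂ : Set E3} {W₁ W₂ : Set S}
    (h₁ : IsSect N K₁ W₁) (h₂ : IsSect N K₂ W₂) {v : E3} (hv₁ : v ∈ K₁) (hv₂ : v ∈ K₂)
    (hv : ‖v‖ = 1) {s : S} (hs₁ : s ∈ W₁) (hs₂ : s ∈ W₂) (hs : N s = v) :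
    W₁ ∩ N ⁻¹' {v} = W₂ ∩ N ⁻¹' {v} := by
  have hs' : s ∈ N ⁻¹' {v} := hs
  apply Subset.antisymm
  · refine subset_inter ?_ inter_subset_right
    exact fibre_subset h₂ hv₂ (h₁.conn v hv₁ hv) inter_subset_right ⟨s, ⟨hs₁, hs'⟩, hs₂⟩
  · refine subset_inter ?_ inter_subset_right
    exact fibre_subset h₁ hv₁ (h₂.conn v hv₂ hv) inter_subset_right ⟨s, ⟨hs₂, hs'⟩, hs₁⟩

theorem glue_fibres (hN : Continuous N) (hU : ∀ s, ‖N s‖ = 1) {K₁ K₂ : Set E3} {W₁ W₂ : Set S}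
    (h₁ : IsSect N K₁ W₁) (h₂ : IsSect N K₂ W₂) (o₁ : IsOpen K₁) (o₂ : IsOpen K₂)
    (hc : IsPreconnected ((K₁ ∩ K₂) ∩ Metric.sphere 0 1)) (hw : (W₁ ∩ W₂).Nonempty) :
    ∀ v ∈ K₁ ∩ K₂, ‖v‖ = 1 → W₁ ∩ N ⁻¹' {v} = W₂ ∩ N ⁻¹' {v} := by
  set D : Set E3 := (K₁ ∩ K₂) ∩ Metric.sphere 0 1 with hD
  have hDn : ∀ v ∈ D, ‖v‖ = 1 := fun v hv => mem_sphere_zero_iff_norm.1 hv.2
  let P : E3 → Prop := fun v => W₁ ∩ N ⁻¹' {v} = W₂ ∩ N ⁻¹' {v}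
  -- openness
  have hop : ∀ v ∈ D, P v → ∃ ε : ℝ, 0 < ε ∧ ∀ v' ∈ D, dist v' v < ε → P v' := by
    intro v hv hPv
    obtain ⟨ε, hε, ht⟩ := tube hN h₁ o₁ hv.1.1 (h₁.openW.inter h₂.openW)
      (fun s hs => ⟨hs.1, ((hPv ▸ hs : s ∈ W₂ ∩ N ⁻¹' {v})).1⟩)
    refine ⟨ε, hε, fun v' hv' hd => ?_⟩
    obtain ⟨s, hs1, hs2⟩ := h₁.nonempty v' hv'.1.1 (hDn v' hv')
    have hs3 : N s = v' := hs2
    have hs4 := ht s hs1 (by rw [hs3, ← dist_eq_norm]; exact hd)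
    exact gl_common h₁ h₂ hv'.1.1 hv'.1.2 (hDn v' hv') hs4.1 hs4.2 hs3
  have hcl : ∀ v ∈ D, ¬ P v → ∃ ε : ℝ, 0 < ε ∧ ∀ v' ∈ D, dist v' v < ε → ¬ P v' := by
    intro v hv hPv
    have c₁ : IsCompact (W₁ ∩ N ⁻¹' {v}) := h₁.proper {v} isCompact_singleton
      (singleton_subset_iff.2 hv.1.1)
    have c₂ : IsCompact (W₂ ∩ N ⁻¹' {v}) := h₂.proper {v} isCompact_singleton
      (singleton_subset_iff.2 hv.1.2)
    have hdis : Disjoint (W₁ ∩ N ⁻¹' {v}) (W₂ ∩ N ⁻¹' {v}) := by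
      rw [Set.disjoint_left]
      intro s hs1 hs2
      exact hPv (gl_common h₁ h₂ hv.1.1 hv.1.2 (hDn v hv) hs1.1 hs2.1 hs1.2)
    obtain ⟨O₁, O₂, hO₁, hO₂, hs₁, hs₂, hO⟩ := SeparatedNhds.of_isCompact_isCompact c₁ c₂ hdis
    obtain ⟨ε₁, hε₁, ht₁⟩ := tube hN h₁ o₁ hv.1.1 hO₁ hs₁
    obtain ⟨ε₂, hε₂, ht₂⟩ := tube hN h₂ o₂ hv.1.2 hO₂ hs₂
    refine ⟨min ε₁ ε₂, lt_min hε₁ hε₂, fun v' hv' hd hP' => ?_⟩
    obtain ⟨s, hs1, hs2⟩ := h₁.nonempty v' hv'.1.1 (hDn v' hv')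
    have hs3 : N s = v' := hs2
    have hs4 : s ∈ W₂ ∩ N ⁻¹' {v'} := by
      have : s ∈ W₁ ∩ N ⁻¹' {v'} := ⟨hs1, hs2⟩
      rwa [show W₁ ∩ N ⁻¹' {v'} = W₂ ∩ N ⁻¹' {v'} from hP'] at this
    have hs5 := ht₁ s hs1 (by
      rw [hs3, ← dist_eq_norm]; exact hd.trans_le (min_le_left _ _))
    have hs6 := ht₂ s hs4.1 (by
      rw [hs3, ← dist_eq_norm]; exact hd.trans_le (min_le_right _ _))
    exact Set.disjoint_left.1 hO hs5 hs6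
  intro v₀ hv₀ hn₀
  have hv₀D : v₀ ∈ D := ⟨hv₀, mem_sphere_zero_iff_norm.2 hn₀⟩
  by_contra hcon
  have hcon' : ¬ P v₀ := hcon
  obtain ⟨w₀, hw1, hw2⟩ := hw
  have hw₀D : N w₀ ∈ D := ⟨⟨h₁.maps w₀ hw1, h₂.maps w₀ hw2⟩, mem_sphere_zero_iff_norm.2 (hU w₀)⟩
  have hPw : P (N w₀) := gl_common h₁ h₂ hw₀D.1.1 hw₀D.1.2 (hU w₀) hw1 hw2 rfl
  let U : Set E3 := ⋃ (v : E3) (ε : ℝ) (_ : v ∈ D ∧ P v ∧ 0 < ε ∧
    ∀ v' ∈ D, dist v' v < ε → P v'), Metric.ball v ε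
  let V : Set E3 := ⋃ (v : E3) (ε : ℝ) (_ : v ∈ D ∧ ¬ P v ∧ 0 < ε ∧
    ∀ v' ∈ D, dist v' v < ε → ¬ P v'), Metric.ball v ε
  have hUo : IsOpen U := isOpen_iUnion fun _ => isOpen_iUnion fun _ => isOpen_iUnion fun _ =>
    Metric.isOpen_ball
  have hVo : IsOpen V := isOpen_iUnion fun _ => isOpen_iUnion fun _ => isOpen_iUnion fun _ =>
    Metric.isOpen_ball
  have hmU : ∀ v ∈ D, P v → v ∈ U := by
    intro v hv hP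
    obtain ⟨ε, hε, hh⟩ := hop v hv hP
    exact mem_iUnion.2 ⟨v, mem_iUnion.2 ⟨ε, mem_iUnion.2 ⟨⟨hv, hP, hε, hh⟩,
      Metric.mem_ball_self hε⟩⟩⟩
  have hmV : ∀ v ∈ D, ¬ P v → v ∈ V := by
    intro v hv hP
    obtain ⟨ε, hε, hh⟩ := hcl v hv hP
    exact mem_iUnion.2 ⟨v, mem_iUnion.2 ⟨ε, mem_iUnion.2 ⟨⟨hv, hP, hε, hh⟩,
      Metric.mem_ball_self hε⟩⟩⟩
  have hcov : D ⊆ U ∪ V := by
    intro v hv
    by_cases hP : P v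
    · exact Or.inl (hmU v hv hP)
    · exact Or.inr (hmV v hv hP)
  obtain ⟨x, hxD, hxU, hxV⟩ := hc U V hUo hVo hcov ⟨N w₀, hw₀D, hmU _ hw₀D hPw⟩
    ⟨v₀, hv₀D, hmV _ hv₀D hcon'⟩
  obtain ⟨v, hx1⟩ := mem_iUnion.1 hxU
  obtain ⟨ε, hx2⟩ := mem_iUnion.1 hx1
  obtain ⟨⟨_, _, _, hh⟩, hx3⟩ := mem_iUnion.1 hx2
  obtain ⟨v', hy1⟩ := mem_iUnion.1 hxV
  obtain ⟨ε', hy2⟩ := mem_iUnion.1 hy1
  obtain ⟨⟨_, _, _, hh'⟩, hy3⟩ := mem_iUnion.1 hy2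
  exact hh' x hxD hy3 (hh x hxD hx3)

theorem glue (hN : Continuous N) (hU : ∀ s, ‖N s‖ = 1) {K₁ K₂ : Set E3} {W₁ W₂ : Set S}
    (h₁ : IsSect N K₁ W₁) (h₂ : IsSect N K₂ W₂) (o₁ : IsOpen K₁) (o₂ : IsOpen K₂)
    (hc : IsPreconnected ((K₁ ∩ K₂) ∩ Metric.sphere 0 1)) (hw : (W₁ ∩ W₂).Nonempty) :
    IsSect N (K₁ ∪ K₂) (W₁ ∪ W₂) := by
  have hg := glue_fibres hN hU h₁ h₂ o₁ o₂ hc hw
  -- points over `K₁` lie in `W₁`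
  have a₁ : ∀ s ∈ W₁ ∪ W₂, N s ∈ K₁ → s ∈ W₁ := by
    rintro s (hs | hs) hk
    · exact hs
    · have h := hg (N s) ⟨hk, h₂.maps s hs⟩ (hU s)
      have h' : s ∈ W₂ ∩ N ⁻¹' {N s} := ⟨hs, rfl⟩
      rw [← h] at h'
      exact h'.1
  have a₂ : ∀ s ∈ W₁ ∪ W₂, N s ∈ K₂ → s ∈ W₂ := by
    rintro s (hs | hs) hk
    · have h := hg (N s) ⟨h₁.maps s hs, hk⟩ (hU s)
      have h' : s ∈ W₁ ∩ N ⁻¹' {N s} := ⟨hs, rfl⟩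
      rw [h] at h'
      exact h'.1
    · exact hs
  have b₁ : ∀ L : Set E3, L ⊆ K₁ → (W₁ ∪ W₂) ∩ N ⁻¹' L = W₁ ∩ N ⁻¹' L := by
    intro L hL
    apply Subset.antisymm
    · rintro s ⟨hs, hl⟩
      exact ⟨a₁ s hs (hL hl), hl⟩
    · rintro s ⟨hs, hl⟩
      exact ⟨Or.inl hs, hl⟩
  have b₂ : ∀ L : Set E3, L ⊆ K₂ → (W₁ ∪ W₂) ∩ N ⁻¹' L = W₂ ∩ N ⁻¹' L := by
    intro L hL
    apply Subset.antisymm
    · rintro s ⟨hs, hl⟩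
      exact ⟨a₂ s hs (hL hl), hl⟩
    · rintro s ⟨hs, hl⟩
      exact ⟨Or.inr hs, hl⟩
  refine ⟨h₁.openW.union h₂.openW, ?_, ?_, ?_, ?_⟩
  · rintro w (h | h)
    · exact Or.inl (h₁.maps w h)
    · exact Or.inr (h₂.maps w h)
  · intro L hL hLK
    obtain ⟨L₁, L₂, c₁, c₂, s₁, s₂, rfl⟩ := hL.binary_compact_cover o₁ o₂ hLK
    rw [preimage_union, inter_union_distrib_left, b₁ L₁ s₁, b₂ L₂ s₂]
    exact (h₁.proper L₁ c₁ s₁).union (h₂.proper L₂ c₂ s₂)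
  · rintro v (hv | hv) hn
    · rw [b₁ {v} (singleton_subset_iff.2 hv)]
      exact h₁.nonempty v hv hn
    · rw [b₂ {v} (singleton_subset_iff.2 hv)]
      exact h₂.nonempty v hv hn
  · rintro v (hv | hv) hn
    · rw [b₁ {v} (singleton_subset_iff.2 hv)]
      exact h₁.conn v hv hn
    · rw [b₂ {v} (singleton_subset_iff.2 hv)]
      exact h₂.conn v hv hn

end Pool.Agent.Helper50.MS
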