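import Pool.Agent.Helper50.MS.Defs2
import Pool.Agent.Helper50.MS.Glue
import Pool.Agent.Helper50.MS.Cones

/-!
# MS-38  The largest star-shaped section

Let `𝒮` be the set of pairs `(K,W)` with `IsStar v₀ K`, `IsSect N K W`, `s₀ ∈ W` (`N s₀ = v₀`). PROOF. (a) two members glue: `K₁ ∩ K₂` is star-shaped (`star_inter`), so preconnected (`star_preconnected`),
so `(K₁ ∩ K₂) ∩ sphere` is preconnected (`sphere_preconnected`); `s₀ ∈ W₁ ∩ W₂`; `glue`, `star_union`: `(K₁ ∪ K₂, W₁ ∪ W₂) ∈ 𝒮`, and by `glue_fibres` the fibres of `W₁`, `W₂` over unit `v ∈ K₁ ∩ K₂` agree. (b) By induction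
finite nonempty unions of members are members. (c) `K* = ⋃ K`, `W* = ⋃ W` over `𝒮`. Fibre of `W*` over a unit `v ∈ K₁`, `(K₁,W₁) ∈ 𝒮`: it is `W₁ ∩ N⁻¹{v}`: if `w ∈ W₂`, `N w = v` then `v ∈ K₂` (maps) and the
fibres agree. So nonempty, conn. proper: `L ⊆ K*` compact is covered by finitely many `K_i` (open): `L ⊆ K_f` for a member `(K_f,W_f)` by (b), and `W* ∩ N⁻¹ L = W_f ∩ N⁻¹ L`.
`IsStar v₀ K*`: open, cone, `zero`, `add`, `mem` (𝒮 is nonempty), `neg`: all membership statements. Maximality: clear.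
-/

set_option autoImplicit false

open Filter Topology Set
open scoped RealInnerProductSpace

namespace Pool.Agent.Helper50.MS

variable {S : Type} [TopologicalSpace S] [T2Space S] {N : S → E3}

theorem exists_max (hN : Continuous N) (hU : ∀ s, ‖N s‖ = 1) {v₀ : E3} {s₀ : S}
    (hs₀ : N s₀ = v₀) {K₀ : Set E3} {W₀ : Set S} (h₀ : IsStar v₀ K₀) (h₁ : IsSect N K₀ W₀)
    (h₂ : s₀ ∈ W₀) : ∃ (K : Set E3) (W : Set S), IsMax N v₀ s₀ K W := by
  classical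
  let P : Set E3 × Set S → Prop := fun q => IsStar v₀ q.1 ∧ IsSect N q.1 q.2 ∧ s₀ ∈ q.2
  have hconn : ∀ q r, P q → P r → IsPreconnected ((q.1 ∩ r.1) ∩ Metric.sphere (0 : E3) 1) := by
    intro q r hq hr
    have h := star_inter hq.1 hr.1
    exact sphere_preconnected h.cone (star_preconnected h)
  have hglue : ∀ q r, P q → P r → P (q.1 ∪ r.1, q.2 ∪ r.2) := by
    intro q r hq hr
    exact ⟨star_union hq.1 hr.1, glue hN hU hq.2.1 hr.2.1 hq.1.cone.isOpen hr.1.cone.isOpen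
      (hconn q r hq hr) ⟨s₀, hq.2.2, hr.2.2⟩, Or.inl hq.2.2⟩
  have hfib : ∀ q r, P q → P r → ∀ v ∈ q.1 ∩ r.1, ‖v‖ = 1 →
      q.2 ∩ N ⁻¹' {v} = r.2 ∩ N ⁻¹' {v} := by
    intro q r hq hr
    exact glue_fibres hN hU hq.2.1 hr.2.1 hq.1.cone.isOpen hr.1.cone.isOpen
      (hconn q r hq hr) ⟨s₀, hq.2.2, hr.2.2⟩
  let I : Type := {q : Set E3 × Set S // P q}
  let Kf : I → Set E3 := fun i => i.1.1
  let Wf : I → Set S := fun i => i.1.2
  have hbase : P (K₀, W₀) := ⟨h₀, h₁, h₂⟩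
  have hstar : ∀ i, IsStar v₀ (Kf i) := fun i => i.2.1
  have hsect : ∀ i, IsSect N (Kf i) (Wf i) := fun i => i.2.2.1
  have hmem : ∀ i, s₀ ∈ Wf i := fun i => i.2.2.2
  have hfibre : ∀ i, ∀ v ∈ Kf i, ‖v‖ = 1 → (⋃ j, Wf j) ∩ N ⁻¹' {v} = Wf i ∩ N ⁻¹' {v} := by
    intro i v hv hv1
    apply Set.Subset.antisymm
    · rintro w ⟨hw, hwv⟩
      obtain ⟨j, hj⟩ := Set.mem_iUnion.1 hw
      have hNw : N w = v := hwv
      have hvj : v ∈ Kf j := by
        rw [← hNw]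
        exact (hsect j).maps w hj
      have h3 := hfib j.1 i.1 j.2 i.2 v ⟨hvj, hv⟩ hv1
      have h4 : w ∈ j.1.2 ∩ N ⁻¹' {v} := ⟨hj, hwv⟩
      rw [h3] at h4
      exact h4
    · rintro w ⟨hw, hwv⟩
      exact ⟨Set.mem_iUnion.2 ⟨i, hw⟩, hwv⟩
  have hfinite : ∀ t : Finset I, ∃ m : I, (⋃ i ∈ t, Kf i) ⊆ Kf m := by
    intro t
    induction t using Finset.induction_on with
    | empty => exact ⟨⟨_, hbase⟩, by simp⟩
    | insert a t ha ih =>
      obtain ⟨m, hm⟩ := ih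
      refine ⟨⟨_, hglue a.1 m.1 a.2 m.2⟩, ?_⟩
      intro v hv
      simp only [Set.mem_iUnion, Finset.mem_insert, exists_prop] at hv
      obtain ⟨i, hi | hi, hv⟩ := hv
      · subst hi
        exact Or.inl hv
      · exact Or.inr (hm (by simp only [Set.mem_iUnion, exists_prop]; exact ⟨i, hi, hv⟩))
  refine ⟨⋃ i, Kf i, ⋃ i, Wf i, ?_, ?_, ?_, ?_⟩
  · refine ⟨⟨isOpen_iUnion fun i => (hstar i).cone.isOpen, ?_, ?_⟩, ?_, ?_, ?_⟩
    · intro v hv t ht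
      obtain ⟨i, hi⟩ := Set.mem_iUnion.1 hv
      exact Set.mem_iUnion.2 ⟨i, (hstar i).cone.smul v hi t ht⟩
    · intro h0
      obtain ⟨i, hi⟩ := Set.mem_iUnion.1 h0
      exact (hstar i).cone.zero hi
    · intro v hv t ht
      obtain ⟨i, hi⟩ := Set.mem_iUnion.1 hv
      exact Set.mem_iUnion.2 ⟨i, (hstar i).add v hi t ht⟩
    · exact Set.mem_iUnion.2 ⟨⟨_, hbase⟩, h₀.mem⟩
    · intro h0
      obtain ⟨i, hi⟩ := Set.mem_iUnion.1 h0
      exact (hstar i).neg hi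
  · refine ⟨isOpen_iUnion fun i => (hsect i).openW, ?_, ?_, ?_, ?_⟩
    · intro w hw
      obtain ⟨i, hi⟩ := Set.mem_iUnion.1 hw
      exact Set.mem_iUnion.2 ⟨i, (hsect i).maps w hi⟩
    · intro L hL hLK
      obtain ⟨t, ht⟩ := hL.elim_finite_subcover Kf (fun i => (hstar i).cone.isOpen) hLK
      obtain ⟨m, hm⟩ := hfinite t
      have hLm : L ⊆ Kf m := ht.trans hm
      have heq : (⋃ i, Wf i) ∩ N ⁻¹' L = Wf m ∩ N ⁻¹' L := by
        apply Set.Subset.antisymm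
        · rintro w ⟨hw, hwL⟩
          have h3 : w ∈ (⋃ j, Wf j) ∩ N ⁻¹' {N w} := ⟨hw, rfl⟩
          rw [hfibre m (N w) (hLm hwL) (hU w)] at h3
          exact ⟨h3.1, hwL⟩
        · rintro w ⟨hw, hwL⟩
          exact ⟨Set.mem_iUnion.2 ⟨m, hw⟩, hwL⟩
      rw [heq]
      exact (hsect m).proper L hL hLm
    · intro v hv hv1
      obtain ⟨i, hi⟩ := Set.mem_iUnion.1 hv
      rw [hfibre i v hi hv1]
      exact (hsect i).nonempty v hi hv1
    · intro v hv hv1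
      obtain ⟨i, hi⟩ := Set.mem_iUnion.1 hv
      rw [hfibre i v hi hv1]
      exact (hsect i).conn v hi hv1
  · exact Set.mem_iUnion.2 ⟨⟨_, hbase⟩, h₂⟩
  · intro K' W' hK' hW' hs'
    have hP' : P (K', W') := ⟨hK', hW', hs'⟩
    exact ⟨fun v hv => Set.mem_iUnion.2 ⟨⟨_, hP'⟩, hv⟩, fun w hw => Set.mem_iUnion.2 ⟨⟨_, hP'⟩, hw⟩⟩

end Pool.Agent.Helper50.MS
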