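import Pool.Agent.Helper50.MS.Defs2
import Pool.Agent.Helper50.MS.Glue
import Pool.Agent.Helper50.MS.Cones

/-!
# MS-39  Extension of the largest section, and no wall inside

`extend_max`. `(Ks,Ws)` maximal, `(K,W)` a section over a convex cone, `s ∈ Ws ∩ W`. PROOF. `N s ∈ K ∩ Ks`; `ball_cone` gives `B ∋ N s`, `B ⊆ K ∩ Ks`. `K₂ = {v ∈ K | ∃ τ ≥ 0, v + τ v₀ ∈ B}`;
`ext_cone`; `W₂ = W ∩ N⁻¹ K₂` is a section over `K₂` (`sect_restrict`), `s ∈ W₂` (`τ = 0`); `(Ks ∩ K₂) ∩ sphere` is preconnected (`sphere_preconnected`, `cone_inter`); `glue` gives a star-shaped section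
`(Ks ∪ K₂, Ws ∪ W₂)`, so `K₂ ⊆ Ks` by maximality; and `glue_fibres`: for unit `v ∈ K₂`: `Ws ∩ N⁻¹{v} = W₂ ∩ N⁻¹{v} = W ∩ N⁻¹{v}`.

`no_wall`. Let `T = Ws ∩ W`. For `ε > 0` take `u` of `hlim`: the fibre of `Ws` over `u` is nonempty (`u ∈ Ks` unit) and equal to that of `W`: a point `w ∈ T` with `N w = u`. `cluster` (MS-35)
gives `w ∈ Ws`, `N w = v`, `w ∈ closure T ⊆ closure W`; `hray` gives `HasRay X N w`, `ray_bounded` is a contradiction.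
-/

set_option autoImplicit false

open Filter Topology Set
open scoped RealInnerProductSpace

namespace Pool.Agent.Helper50.MS

variable {S : Type} [TopologicalSpace S] [T2Space S] {N : S → E3}

theorem extend_max (hN : Continuous N) (hU : ∀ s, ‖N s‖ = 1) {v₀ : E3} {s₀ : S} {Ks : Set E3}
    {Ws : Set S} (hmax : IsMax N v₀ s₀ Ks Ws) {K : Set E3} {W : Set S} (hK : IsCone K)
    (hKc : Convex ℝ K) (hW : IsSect N K W) {s : S} (hs : s ∈ Ws) (hs' : s ∈ W) :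
    ∃ B : Set E3, IsCone B ∧ Convex ℝ B ∧ N s ∈ B ∧ B ⊆ K ∩ Ks ∧
      ∀ v ∈ K, ∀ τ : ℝ, 0 ≤ τ → v + τ • v₀ ∈ B →
        v ∈ Ks ∧ (‖v‖ = 1 → Ws ∩ N ⁻¹' {v} = W ∩ N ⁻¹' {v}) := by
  have hNK : N s ∈ K := hW.maps s hs'
  have hNKs : N s ∈ Ks := hmax.sect.maps s hs
  obtain ⟨B, hB, hBc, hNB, hBK⟩ := ball_cone (cone_inter hK hmax.star.cone) ⟨hNK, hNKs⟩
  obtain ⟨hK2, hstar, hpre⟩ := ext_cone hmax.star hK hKc hB hBc ⟨N s, hNB⟩ hBK
  set K₂ : Set E3 := {v | v ∈ K ∧ ∃ τ : ℝ, 0 ≤ τ ∧ v + τ • v₀ ∈ B} with hK₂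
  have hsub : K₂ ⊆ K := fun v hv => hv.1
  have h₂ := sect_restrict hN hW hK2.isOpen hsub
  have hsW2 : s ∈ W ∩ N ⁻¹' K₂ := by
    refine ⟨hs', hNK, 0, le_rfl, ?_⟩
    rw [zero_smul, add_zero]
    exact hNB
  have hc := sphere_preconnected (cone_inter hmax.star.cone hK2) hpre
  have hglue := glue hN hU hmax.sect h₂ hmax.star.cone.isOpen hK2.isOpen hc ⟨s, hs, hsW2⟩
  have hfib := glue_fibres hN hU hmax.sect h₂ hmax.star.cone.isOpen hK2.isOpen hc ⟨s, hs, hsW2⟩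
  have hle := (hmax.max _ _ hstar hglue (Or.inl hmax.mem)).1
  refine ⟨B, hB, hBc, hNB, hBK, ?_⟩
  intro v hv τ hτ hvB
  have hvK2 : v ∈ K₂ := ⟨hv, τ, hτ, hvB⟩
  have hvKs : v ∈ Ks := hle (Or.inr hvK2)
  refine ⟨hvKs, fun h1 => ?_⟩
  rw [hfib v ⟨hvKs, hvK2⟩ h1]
  ext w
  constructor
  · rintro ⟨⟨h3, -⟩, h4⟩
    exact ⟨h3, h4⟩
  · rintro ⟨h3, h4⟩
    refine ⟨⟨h3, ?_⟩, h4⟩
    have h5 : N w = v := h4
    show N w ∈ K₂
    rw [h5]
    exact hvK2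

/-- No point of a wall inside the largest section: `v` is a limit of directions over which the
sections `Ws` and `W` agree. -/
theorem no_wall {X : S → E3} (hX : Continuous X) (hN : Continuous N) {v₀ : E3} {s₀ : S}
    {Ks : Set E3} {Ws : Set S} (hmax : IsMax N v₀ s₀ Ks Ws) {W : Set S} {v : E3}
    (hv : v ∈ Ks) (hv1 : ‖v‖ = 1)
    (hlim : ∀ ε : ℝ, 0 < ε → ∃ u : E3, u ∈ Ks ∧ ‖u‖ = 1 ∧ ‖u - v‖ < ε ∧
      Ws ∩ N ⁻¹' {u} = W ∩ N ⁻¹' {u})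
    (hray : ∀ w ∈ closure W, N w = v → HasRay X N w) : False := by
  obtain ⟨w, hw, hNw, hcl⟩ := cluster hN hmax.sect hmax.star.cone.isOpen hv (T := Ws ∩ W)
    inter_subset_left (by
      intro ε hε
      obtain ⟨u, hu, hu1, huv, heq⟩ := hlim ε hε
      obtain ⟨w, hw, hNw⟩ := hmax.sect.nonempty u hu hu1
      have h1 : w ∈ W ∩ N ⁻¹' {u} := by
        rw [← heq]
        exact ⟨hw, hNw⟩
      refine ⟨w, ⟨hw, h1.1⟩, ?_⟩
      have h2 : N w = u := hNw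
      rw [h2]
      exact huv)
  refine ray_bounded hX hmax.sect hw ?_ (hray w (closure_mono inter_subset_right hcl) hNw)
  rw [hNw]
  exact hv

end Pool.Agent.Helper50.MS
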