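import Pool.Agent.Helper50.MS.SideExists

/-!
# MS-24  The full strip around a point

PROOF. `leaf_exists` gives `g`. Right side: `side_exists` for `F`, `o = ⟪X s,a⟫`. Left side: the frame `F' = (-a, b, n)`, `o' = -o`:
`F'.p = -F.p`, `F'.q = F.q`, `F'.Hyy = F.Hyy`, `F'.Hxy = -F.Hxy`, `F'.Xx = -F.Xx` (`-a + (-p) n`), `F'.dom = F.dom`, `F'.psi X N o' u = (-(F.psi X N o u).1, (F.psi X N o u).2)`, `IsLeaf F' X N A C (-o) g`. `side_exists` for `F'` gives `G₂` on `I₂ × J`; put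
`G (x,q) = G₁ (x,q)` for `x ≥ 0` and `G₂ (-x,q)` for `x ≤ 0` (both are `g q` at `x = 0`), `I = I₁ ∪ (-I₂)`, `α₂ = -α'`, `β₂ = -β'` (`P' = -P ≥ α' + β' q` means
`P ≤ -α' - β' q`; finite case: `α' = -δ/5` gives `α₂ = δ/5`). Continuity: two closed pieces (`ContinuousOn.union_isClosed` or `ContinuousOn.piecewise`). `slope`: `leaf_slope`. `alt₁` for points with `x < 0`:
`P(x,q) ≥ P(0,q)` (`strip_P_anti`).
-/

set_option autoImplicit false

open Filter Topology Set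
open scoped RealInnerProductSpace

namespace Pool.Agent.Helper50.MS

variable {S : Type} [TopologicalSpace S] {X N : S → E3} {A : S → End3} {c C : ℝ}

private lemma side_props {F : Frame} {o : ℝ} {g : ℝ → S} {I : Set ℝ} {G : ℝ × ℝ → S} {α β : ℝ}
    (h : IsSide F X N A C o g I G α β) :
    (0 : ℝ) ∈ I ∧ I ⊆ Ici 0 ∧ I.OrdConnected ∧ IsClosed I ∧ ∃ ε : ℝ, 0 < ε ∧ Icc 0 ε ⊆ I := by
  rcases h.alt with ⟨hI, -⟩ | ⟨⟨ℓ, hℓ, hI⟩, -⟩
  · rw [hI]
    exact ⟨le_refl (0 : ℝ), subset_rfl, ordConnected_Ici, isClosed_Ici, 1, one_pos,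
      Icc_subset_Ici_self⟩
  · rw [hI]
    exact ⟨⟨le_rfl, hℓ.le⟩, Icc_subset_Ici_self, ordConnected_Icc, isClosed_Icc, ℓ, hℓ, subset_rfl⟩

theorem full_exists [T2Space S] (h : Hyp X N A c C) (F : Frame) {s : S} (hs : Adapted F N A s) :
    ∃ (I : Set ℝ) (G : ℝ × ℝ → S) (α₁ β₁ α₂ β₂ : ℝ), IsFull F X N A C s I G α₁ β₁ α₂ β₂ := by
  obtain ⟨g, hg0, hg⟩ := leaf_exists h F hs
  set o := ⟪X s, F.a⟫ with ho
  obtain ⟨hκ0, hκ1, hCκ, hδ0, hδ⟩ := kap_del h.one_le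
  obtain ⟨haa, hbb, hnn, hab, han, hbn⟩ := frame_inner F
  have hna1 : ‖F.a‖ = 1 := by simpa using F.on.1 0
  have hnb1 : ‖F.b‖ = 1 := by simpa using F.on.1 1
  have hnn1 : ‖F.n‖ = 1 := by simpa using F.on.1 2
  have on' : Orthonormal ℝ ![-F.a, F.b, F.n] := by
    rw [orthonormal_iff_ite]
    have hba : ⟪F.b, F.a⟫ = 0 := by rw [real_inner_comm]; exact hab
    have hna : ⟪F.n, F.a⟫ = 0 := by rw [real_inner_comm]; exact han
    have hnb : ⟪F.n, F.b⟫ = 0 := by rw [real_inner_comm]; exact hbn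
    intro i j
    fin_cases i <;> fin_cases j <;>
      simp [inner_neg_left, inner_neg_right, hab, han, hbn, hba, hna, hnb, hna1, hnb1, hnn1]
  let F' : Frame := ⟨-F.a, F.b, F.n, on'⟩
  have hp : ∀ v, F'.p v = - F.p v := fun v => by
    show - ⟪v, -F.a⟫ / ⟪v, F.n⟫ = - (- ⟪v, F.a⟫ / ⟪v, F.n⟫)
    rw [inner_neg_right]; ring
  have hq : ∀ v, F'.q v = F.q v := fun v => rfl
  have hyy : ∀ v B, F'.Hyy v B = F.Hyy v B := fun v B => rfl
  have hpsi : ∀ u, F'.psi X N (-o) u = (-(F.psi X N o u).1, (F.psi X N o u).2) := fun u => by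
    show (⟪X u, -F.a⟫ - -o, F.q (N u)) = (-(⟪X u, F.a⟫ - o), F.q (N u))
    rw [inner_neg_right]
    congr 1
    ring
  have hdom : F'.dom N A = F.dom N A := rfl
  have hgood' : ∀ u, Good F' N A C u ↔ Good F N A C u := fun u => by
    have h1 : |F'.p (N u)| = |F.p (N u)| := by rw [hp, abs_neg]
    unfold Good
    rw [h1]
    rfl
  have hg' : IsLeaf F' X N A C (-o) g := by
    refine ⟨hg.cont, fun q hq' => ?_, hg.inn, fun q hq' => ?_, hg.yy⟩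
    · rw [hpsi, hg.psi q hq', neg_zero]
    · rw [hp, abs_neg]; exact hg.p q hq'
  obtain ⟨I₁, G₁, α₁, β₁, h₁⟩ := side_exists h F o hg
  obtain ⟨I₂, G₂, α', β', h₂⟩ := side_exists h F' (-o) hg'
  obtain ⟨i1, i2, i3, i4, ε₁, hε₁, i5⟩ := side_props h₁
  obtain ⟨j1, j2, j3, j4, ε₂, hε₂, j5⟩ := side_props h₂
  set J : Set ℝ := Icc (-kap C) (kap C) with hJ
  set I : Set ℝ := I₁ ∪ {x | -x ∈ I₂} with hI
  set G : ℝ × ℝ → S := fun z => if 0 ≤ z.1 then G₁ z else G₂ (-z.1, z.2) with hG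
  have memI₁ : ∀ x ∈ I, 0 ≤ x → x ∈ I₁ := by
    rintro x (hx | hx) h0
    · exact hx
    · have h3 : -x ∈ Ici (0 : ℝ) := j2 hx
      have h4 : 0 ≤ -x := h3
      have h5 : x = 0 := by linarith
      rw [h5]; exact i1
  have memI₂ : ∀ x ∈ I, x ≤ 0 → -x ∈ I₂ := by
    rintro x (hx | hx) h0
    · have h3 : 0 ≤ x := i2 hx
      have h5 : x = 0 := by linarith
      rw [h5, neg_zero]; exact j1
    · exact hx
  have Gpos : ∀ x q, 0 ≤ x → G (x, q) = G₁ (x, q) := fun x q hx => if_pos hx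
  have Gneg : ∀ x, x ≤ 0 → ∀ q ∈ J, G (x, q) = G₂ (-x, q) := fun x hx q hq' => by
    rcases lt_or_eq_of_le hx with h3 | h3
    · exact if_neg (not_le.mpr h3)
    · rw [h3, Gpos 0 q le_rfl, neg_zero, h₁.start q hq', h₂.start q hq']
  have hord : I.OrdConnected := by
    rw [ordConnected_iff]
    intro x hx y hy hxy z hz
    rcases le_total 0 z with h0 | h0
    · have h3 : y ∈ I₁ := memI₁ y hy (h0.trans hz.2)
      exact Or.inl (i3.out i1 h3 ⟨h0, hz.2⟩)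
    · have h3 : -x ∈ I₂ := memI₂ x hx (hz.1.trans h0)
      exact Or.inr (j3.out j1 h3 ⟨by linarith, by linarith [hz.1]⟩)
  have hlift : IsLift (F.psi X N o) (F.dom N A) (I ×ˢ J) G := by
    refine ⟨?_, ?_, ?_⟩
    · have hu : I ×ˢ J = I₁ ×ˢ J ∪ {x | -x ∈ I₂} ×ˢ J := union_prod
      rw [hu]
      refine ContinuousOn.union_of_isClosed ?_ ?_ (i4.prod isClosed_Icc)
        ((j4.preimage continuous_neg).prod isClosed_Icc)
      · exact h₁.lift.cont.congr (fun z hz => Gpos z.1 z.2 (i2 hz.1))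
      · have : ContinuousOn (fun z : ℝ × ℝ => G₂ (-z.1, z.2)) ({x | -x ∈ I₂} ×ˢ J) :=
          h₂.lift.cont.comp (by fun_prop) (fun z hz => ⟨hz.1, hz.2⟩)
        refine this.congr (fun z hz => ?_)
        have h3 : 0 ≤ -z.1 := j2 hz.1
        exact Gneg z.1 (by linarith) z.2 hz.2
    · rintro ⟨x, q⟩ ⟨hx, hq'⟩
      rcases le_total 0 x with h0 | h0
      · rw [Gpos x q h0]; exact h₁.lift.mem _ ⟨memI₁ x hx h0, hq'⟩
      · rw [Gneg x h0 q hq', ← hdom]; exact h₂.lift.mem _ ⟨memI₂ x hx h0, hq'⟩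
    · rintro ⟨x, q⟩ ⟨hx, hq'⟩
      rcases le_total 0 x with h0 | h0
      · rw [Gpos x q h0]; exact h₁.lift.eq _ ⟨memI₁ x hx h0, hq'⟩
      · rw [Gneg x h0 q hq']
        have h3 := h₂.lift.eq (-x, q) ⟨memI₂ x hx h0, hq'⟩
        rw [hpsi] at h3
        have h4 : -(F.psi X N o (G₂ (-x, q))).1 = -x := congrArg Prod.fst h3
        have h5 : (F.psi X N o (G₂ (-x, q))).2 = q := congrArg Prod.snd h3
        exact Prod.ext (neg_inj.mp h4) h5
  have hgood : ∀ z ∈ I ×ˢ J, Good F N A C (G z) := by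
    rintro ⟨x, q⟩ ⟨hx, hq'⟩
    rcases le_total 0 x with h0 | h0
    · rw [Gpos x q h0]; exact h₁.good _ ⟨memI₁ x hx h0, hq'⟩
    · rw [Gneg x h0 q hq', ← hgood']; exact h₂.good _ ⟨memI₂ x hx h0, hq'⟩
  have hanti : ∀ x ∈ I, ∀ y ∈ I, x ≤ y → ∀ q ∈ J, F.p (N (G (y, q))) ≤ F.p (N (G (x, q))) :=
    fun x hx y hy hxy q hq' => strip_P_anti h F o hlift hxy
      (fun t ht => ⟨hord.out hx hy ht, hq'⟩)
  have h0I : (0 : ℝ) ∈ I := Or.inl i1
  have halfJ : ∀ q : ℝ, |q| ≤ kap C / 2 → q ∈ J := fun q hq' => by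
    have := abs_le.mp hq'
    exact ⟨by linarith, by linarith⟩
  refine ⟨I, G, α₁, β₁, -α', -β', hord, ?_, hlift, hgood, ?_, ?_, h₁.alpha, h₁.beta, ?_, ?_,
    ?_, ?_, ?_, ?_⟩
  · refine mem_of_superset (Ioo_mem_nhds (neg_lt_zero.mpr hε₂) hε₁) ?_
    intro x hx
    rcases le_total 0 x with h0 | h0
    · exact Or.inl (i5 ⟨h0, hx.2.le⟩)
    · exact Or.inr (j5 ⟨by linarith, by linarith [hx.1]⟩)
  · rw [Gpos 0 0 le_rfl, h₁.start 0 ⟨by linarith, hκ0.le⟩, hg0]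
  · rintro ⟨x, q⟩ ⟨hx, hq'⟩
    exact leaf_slope h F o hlift (x := x) (fun r hr => ⟨hx, hr⟩)
      (fun r hr => hgood _ ⟨hx, hr⟩) q hq'
  · rw [abs_neg]; exact h₂.alpha
  · rw [abs_neg]; exact h₂.beta
  · intro η hη
    obtain ⟨x₀, hx₀, hn⟩ := h₁.near η hη
    have hx₀0 : 0 ≤ x₀ := i2 hx₀
    refine ⟨x₀, Or.inl hx₀, fun x hx hxx q hq' => ?_⟩
    rw [Gpos x q (hx₀0.trans hxx)]
    exact hn x (memI₁ x hx (hx₀0.trans hxx)) hxx q hq'
  · intro η hη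
    obtain ⟨x₀, hx₀, hn⟩ := h₂.near η hη
    have hx₀0 : 0 ≤ x₀ := j2 hx₀
    refine ⟨-x₀, Or.inr (by simpa using hx₀), fun x hx hxx q hq' => ?_⟩
    have hx0 : x ≤ 0 := by linarith
    rw [Gneg x hx0 q (halfJ q hq')]
    have h3 := hn (-x) (memI₂ x hx hx0) (by linarith) q hq'
    rw [hp] at h3
    linarith
  · rcases h₁.alt with ⟨hI₁, hle⟩ | ⟨⟨ℓ, hℓ, hI₁⟩, e1, e2⟩
    · left
      have hle' : ∀ x, 0 ≤ x → ∀ q ∈ J, α₁ + β₁ * q ≤ F.p (N (G (x, q))) := fun x hx q hq' => by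
        rw [Gpos x q hx]
        exact hle (x, q) ⟨by rw [hI₁]; exact hx, hq'⟩
      refine ⟨fun x hx => Or.inl (by rw [hI₁]; exact hx), ?_⟩
      rintro ⟨x, q⟩ ⟨hx, hq'⟩
      rcases le_total 0 x with h0 | h0
      · exact hle' x h0 q hq'
      · exact (hle' 0 le_rfl q hq').trans (hanti x hx 0 h0I h0 q hq')
    · right
      refine ⟨⟨ℓ, Or.inl (by rw [hI₁]; exact ⟨hℓ.le, le_rfl⟩), ?_⟩, e1, e2⟩
      intro x hx
      rcases le_total 0 x with h0 | h0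
      · have := memI₁ x hx h0
        rw [hI₁] at this
        exact this.2
      · exact h0.trans hℓ.le
  · rcases h₂.alt with ⟨hI₂, hle⟩ | ⟨⟨ℓ, hℓ, hI₂⟩, e1, e2⟩
    · left
      have hle' : ∀ x, x ≤ 0 → ∀ q ∈ J, F.p (N (G (x, q))) ≤ -α' + -β' * q := fun x hx q hq' => by
        rw [Gneg x hx q hq']
        have h3 := hle (-x, q) ⟨by rw [hI₂]; exact neg_nonneg.mpr hx, hq'⟩
        rw [hp] at h3
        have h4 : α' + β' * q ≤ -F.p (N (G₂ (-x, q))) := h3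
        linarith
      refine ⟨fun x hx => Or.inr (by
        rw [hI₂]
        have h3 : x ≤ 0 := hx
        exact neg_nonneg.mpr h3), ?_⟩
      rintro ⟨x, q⟩ ⟨hx, hq'⟩
      rcases le_total x 0 with h0 | h0
      · exact hle' x h0 q hq'
      · exact (hanti 0 h0I x hx h0 q hq').trans (hle' 0 le_rfl q hq')
    · right
      refine ⟨⟨-ℓ, Or.inr (by
        show - -ℓ ∈ I₂
        rw [neg_neg, hI₂]
        exact ⟨hℓ.le, le_rfl⟩), ?_⟩,
        by rw [e1]; ring, by rw [e2, neg_zero]⟩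
      intro x hx
      rcases le_total x 0 with h0 | h0
      · have := memI₂ x hx h0
        rw [hI₂] at this
        linarith [this.2]
      · linarith

end Pool.Agent.Helper50.MS
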