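import Pool.Agent.Helper50.MS.StripDeriv

/-!
# MS-10  The function `Y`, and monotonicity of `p` along the lines of a strip

`strip_Y`: derivatives of `Y = ⟪X (G ·), b⟫`: inner products with `b` of the derivatives of `X ∘ G` (`strip_deriv`):
`⟪Xx - m Xy, b⟫ = -m`, `⟪(Nn/Hyy) Xy, b⟫ = Nn/Hyy` (`⟪Xx,b⟫ = 0`, `⟪Xy,b⟫ = 1`).
`strip_Xa`: `⟪X (G z), a⟫ = o + z.1` and `F.q (N (G z)) = z.2` (unfold `psi`).
`P_deriv_nonpos`: `(Hxx - m Hxy)/Nn = (Hxx Hyy - Hxy²)/(Hyy Nn) = k₁ k₂ (1+p²+q²)/(Hyy Nn) ≤ 0` (`eigen_det`, `h.saddle`) and, since `m Hxy = Hxy²/Hyy ≥ 0` and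
`0 < Nn ≤ 1`: if `Hxx ≤ 0` then `(Hxx - m Hxy)/Nn ≤ Hxx - m Hxy ≤ Hxx`.
`strip_P_anti`: the derivative of `x ↦ p (N (G (x,q)))` on `[x₁,x₂]` is `≤ 0` (`strip_deriv`, `P_deriv_nonpos`; `antitoneOn_of_deriv_nonpos` on the interior, where `HasDerivWithinAt` on `Icc` is
`HasDerivAt`, and continuity on `Icc`).
-/

set_option autoImplicit false

open Filter Topology Set
open scoped RealInnerProductSpace

namespace Pool.Agent.Helper50.MS

variable {S : Type} [TopologicalSpace S] {X N : S → E3} {A : S → End3} {c C : ℝ}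

theorem strip_Y (h : Hyp X N A c C) (F : Frame) (o : ℝ) {D : Set (ℝ × ℝ)} {G : ℝ × ℝ → S}
    (hG : IsLift (F.psi X N o) (F.dom N A) D G) {z : ℝ × ℝ} (hz : z ∈ D) :
    HasDerivWithinAt (fun x => ⟪X (G (x, z.2)), F.b⟫) (-F.m (N (G z)) (A (G z)))
        {x | (x, z.2) ∈ D} z.1 ∧
      HasDerivWithinAt (fun q => ⟪X (G (z.1, q)), F.b⟫)
        (⟪N (G z), F.n⟫ / F.Hyy (N (G z)) (A (G z))) {q | (z.1, q) ∈ D} z.2 := by
  obtain ⟨h1, -, -, h2, -, -⟩ := strip_deriv h F o hG hz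
  obtain ⟨haa, hbb, hnn, hab, han, hbn⟩ := frame_inner F
  have hnb : ⟪F.n, F.b⟫ = 0 := by rw [real_inner_comm]; exact hbn
  have hXx : ⟪F.Xx (N (G z)), F.b⟫ = 0 := by
    rw [Frame.Xx, inner_add_left, inner_smul_left, hab, hnb]; simp
  have hXy : ⟪F.Xy (N (G z)), F.b⟫ = 1 := by
    rw [Frame.Xy, inner_add_left, inner_smul_left, hbb, hnb]; simp
  constructor
  · have h3 := h1.inner ℝ (hasDerivWithinAt_const z.1 _ F.b)
    refine h3.congr_deriv ?_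
    rw [inner_sub_left, inner_smul_left, hXx, hXy]
    simp
  · have h3 := h2.inner ℝ (hasDerivWithinAt_const z.2 _ F.b)
    refine h3.congr_deriv ?_
    rw [inner_smul_left, hXy]
    simp

theorem strip_Xa (F : Frame) (o : ℝ) {D : Set (ℝ × ℝ)} {G : ℝ × ℝ → S}
    (hG : IsLift (F.psi X N o) (F.dom N A) D G) {z : ℝ × ℝ} (hz : z ∈ D) :
    ⟪X (G z), F.a⟫ = o + z.1 ∧ F.q (N (G z)) = z.2 := by
  have h1 := hG.eq z hz
  have h2 : ⟪X (G z), F.a⟫ - o = z.1 := congrArg Prod.fst h1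
  have h3 : F.q (N (G z)) = z.2 := congrArg Prod.snd h1
  exact ⟨by linarith, h3⟩

theorem P_deriv_nonpos (h : Hyp X N A c C) (F : Frame) {s : S} (hs : s ∈ F.dom N A) :
    (F.Hxx (N s) (A s) - F.m (N s) (A s) * F.Hxy (N s) (A s)) / ⟪N s, F.n⟫ ≤ 0 ∧
    (F.Hxx (N s) (A s) ≤ 0 →
      (F.Hxx (N s) (A s) - F.m (N s) (A s) * F.Hxy (N s) (A s)) / ⟪N s, F.n⟫ ≤
        F.Hxx (N s) (A s)) := by
  obtain ⟨hn, hyy⟩ := hs
  obtain ⟨e₁, e₂, k₁, k₂, on, hk₁, hk₂, hk₃, hk⟩ := h.saddle s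
  obtain ⟨-, -, -, hN1⟩ := surface_cont h.surf
  have hdet := eigen_det F on hk₁ hk₂ hk₃ hn.ne'
  have hdet' : F.Hxx (N s) (A s) * F.Hyy (N s) (A s) - F.Hxy (N s) (A s) ^ 2 ≤ 0 := by
    rw [hdet]
    exact mul_nonpos_of_nonpos_of_nonneg hk (by positivity)
  have hnle : ⟪N s, F.n⟫ ≤ 1 := by
    have h1 := real_inner_le_norm (N s) F.n
    have h2 : ‖F.n‖ = 1 := by simpa using F.on.1 2
    rwa [hN1 s, h2, mul_one] at h1
  set H₁ := F.Hxx (N s) (A s)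
  set H₂ := F.Hxy (N s) (A s)
  set H₃ := F.Hyy (N s) (A s)
  have hm : F.m (N s) (A s) * H₂ = H₂ ^ 2 / H₃ := by
    rw [Frame.m]; ring
  have hnum : H₁ - F.m (N s) (A s) * H₂ = (H₁ * H₃ - H₂ ^ 2) / H₃ := by
    rw [hm]
    field_simp
  have hnum0 : H₁ - F.m (N s) (A s) * H₂ ≤ 0 := by
    rw [hnum]
    exact div_nonpos_of_nonpos_of_nonneg hdet' hyy.le
  refine ⟨div_nonpos_of_nonpos_of_nonneg hnum0 hn.le, fun hH₁ => ?_⟩
  have h4 : H₁ - F.m (N s) (A s) * H₂ ≤ H₁ := by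
    rw [hm]
    have : 0 ≤ H₂ ^ 2 / H₃ := by positivity
    linarith
  rw [div_le_iff₀ hn]
  nlinarith

/-- Along a strip, `p` is nonincreasing in `x` on segments contained in `D`. -/
theorem strip_P_anti (h : Hyp X N A c C) (F : Frame) (o : ℝ) {D : Set (ℝ × ℝ)} {G : ℝ × ℝ → S}
    (hG : IsLift (F.psi X N o) (F.dom N A) D G) {x₁ x₂ q : ℝ} (hx : x₁ ≤ x₂)
    (hD : ∀ x ∈ Icc x₁ x₂, (x, q) ∈ D) :
    F.p (N (G (x₂, q))) ≤ F.p (N (G (x₁, q))) := by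
  have hd : ∀ x ∈ Icc x₁ x₂, HasDerivWithinAt (fun x => F.p (N (G (x, q))))
      ((F.Hxx (N (G (x, q))) (A (G (x, q))) - F.m (N (G (x, q))) (A (G (x, q))) *
        F.Hxy (N (G (x, q))) (A (G (x, q)))) / ⟪N (G (x, q)), F.n⟫) (Icc x₁ x₂) x := by
    intro x hxx
    have h1 := (strip_deriv h F o hG (z := (x, q)) (hD x hxx)).2.1
    exact h1.mono (fun y hy => hD y hy)
  have hanti : AntitoneOn (fun x => F.p (N (G (x, q)))) (Icc x₁ x₂) := by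
    refine antitoneOn_of_deriv_nonpos (convex_Icc _ _)
      (fun x hxx => (hd x hxx).continuousWithinAt) ?_ ?_
    · intro x hxx
      rw [interior_Icc] at hxx
      exact ((hd x (Ioo_subset_Icc_self hxx)).hasDerivAt
        (Icc_mem_nhds hxx.1 hxx.2)).differentiableAt.differentiableWithinAt
    · intro x hxx
      rw [interior_Icc] at hxx
      rw [((hd x (Ioo_subset_Icc_self hxx)).hasDerivAt (Icc_mem_nhds hxx.1 hxx.2)).deriv]
      exact (P_deriv_nonpos h F (hG.mem _ (hD x (Ioo_subset_Icc_self hxx)))).1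
  exact hanti (left_mem_Icc.mpr hx) (right_mem_Icc.mpr hx) hx

end Pool.Agent.Helper50.MS
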