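import Pool.Agent.Helper50.MS.Defs2
import Pool.Agent.Helper50.MS.StripMono
import Pool.Agent.Helper50.MS.LeafOscA

/-!
# MS-15  Completeness: limits along the lines of a strip

`calG F N A C = {s | 1/2 ≤ ⟪N s,n⟫, |p| ≤ δ, ‖A‖/2 ≤ Hyy}` (no condition on `q`).

`line_limit`: a lift over a set `D` containing `[0,ℓ) × {q}`, with values in `calG` there and `|q| ≤ 1`, has a
limit in `calG` for `x → ℓ`. PROOF. `Hyy ≥ ‖A‖/2 ≥ c/2`, `|Hxy| ≤ ‖A‖ ‖Xx‖ ‖Xy‖ ≤ 2 ‖A‖`, `|m| ≤ 4`, `‖∂ₓ(X ∘ G)‖ = ‖Xx - m Xy‖ ≤ 10`: so `x ↦ X (G (x,q))` is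
Lipschitz on `[0,ℓ)` (`Convex.lipschitzOnWith_of_nnnorm_hasDerivWithin_le`), and `γ t = G (ℓ t, q)` is a curve as in `IsCompleteSurface`: it has a
limit `s` for `t → 1`, so `G (x,q) → s` for `x → ℓ`. `N, A` are continuous (`surface_cont`); `⟪N s,n⟫ ≥ 1/2`, so `p`, `Hyy` are continuous at `s` (`H_cont`, open set) and the
inequalities pass to the limit (`le_of_tendsto`).
`leaf_limit`: the same in the `q`-direction: `‖∂_q(X ∘ G)‖ = (Nn/Hyy)‖Xy‖ ≤ (2/c)·(1+|q|)`, bounded on bounded intervals.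
`calG_sub`: `calG ⊆ dom` since `Hyy ≥ c/2 > 0`. `calGo_open`: the strict version is open (`H_cont`, continuity of `‖A s‖`).
-/

set_option autoImplicit false

open Filter Topology Set
open scoped RealInnerProductSpace

namespace Pool.Agent.Helper50.MS

variable {S : Type} [TopologicalSpace S] {X N : S → E3} {A : S → End3} {c C : ℝ}

theorem calG_sub (h : Hyp X N A c C) (F : Frame) : calG F N A C ⊆ F.dom N A := by
  rintro s ⟨h1, h2, h3⟩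
  have h4 := h.lower s
  have h5 := h.cpos
  exact ⟨by linarith, by linarith⟩

omit [TopologicalSpace S] in
theorem calGo_sub (F : Frame) : calGo F N A C ⊆ calG F N A C := by
  rintro s ⟨h1, h2, h3⟩
  exact ⟨h1.le, h2.le, h3.le⟩

theorem calGo_open (h : Hyp X N A c C) (F : Frame) : IsOpen (calGo F N A C) := by
  obtain ⟨-, hN, hA, -⟩ := surface_cont h.surf
  obtain ⟨hp, -, -, -, hyy, -⟩ := H_cont h.surf F
  have o0 : IsOpen {s | 0 < ⟪N s, F.n⟫} :=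
    isOpen_lt continuous_const (hN.inner continuous_const)
  have o1 : IsOpen {s | 1 / 2 < ⟪N s, F.n⟫} :=
    isOpen_lt continuous_const (hN.inner continuous_const)
  have o2 : IsOpen ({s | 0 < ⟪N s, F.n⟫} ∩ (fun s => |F.p (N s)|) ⁻¹' Iio (del C)) :=
    (hp.abs).isOpen_inter_preimage o0 isOpen_Iio
  have o3 : IsOpen ({s | 0 < ⟪N s, F.n⟫} ∩
      (fun s => F.Hyy (N s) (A s) - ‖A s‖ / 2) ⁻¹' Ioi 0) :=
    (hyy.sub (hA.norm.div_const 2).continuousOn).isOpen_inter_preimage o0 isOpen_Ioi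
  have : calGo F N A C = ({s | 1 / 2 < ⟪N s, F.n⟫} ∩
      ({s | 0 < ⟪N s, F.n⟫} ∩ (fun s => |F.p (N s)|) ⁻¹' Iio (del C))) ∩
      ({s | 0 < ⟪N s, F.n⟫} ∩ (fun s => F.Hyy (N s) (A s) - ‖A s‖ / 2) ⁻¹' Ioi 0) := by
    ext s
    constructor
    · rintro ⟨h1, h2, h3⟩
      have h0 : 0 < ⟪N s, F.n⟫ := by linarith
      exact ⟨⟨h1, h0, h2⟩, h0, sub_pos.mpr h3⟩
    · rintro ⟨⟨h1, -, h2⟩, -, h3⟩
      exact ⟨h1, h2, sub_pos.mp h3⟩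
  rw [this]
  exact (o1.inter o2).inter o3

private lemma curve_limit (h : Hyp X N A c C) (F : Frame) {ℓ K : ℝ} (hℓ : 0 < ℓ) {γ : ℝ → S}
    (hγ : ContinuousOn γ (Ico 0 ℓ))
    (hd : ∀ t ∈ Ico 0 ℓ, ∃ v : E3, HasDerivWithinAt (fun t => X (γ t)) v (Ico 0 ℓ) t ∧ ‖v‖ ≤ K)
    (hg : ∀ t ∈ Ico 0 ℓ, γ t ∈ calG F N A C) :
    ∃ s ∈ calG F N A C, Tendsto γ (𝓝[<] ℓ) (𝓝 s) := by
  have hK : 0 ≤ K := by
    obtain ⟨v, -, hv⟩ := hd 0 ⟨le_rfl, hℓ⟩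
    exact (norm_nonneg v).trans hv
  choose! v hv hvK using hd
  have hlip : ∀ t ∈ Ico 0 ℓ, ∀ t' ∈ Ico 0 ℓ, ‖X (γ t) - X (γ t')‖ ≤ K * ‖t - t'‖ := by
    intro t ht t' ht'
    exact Convex.norm_image_sub_le_of_norm_hasDerivWithin_le hv hvK (convex_Ico 0 ℓ) ht' ht
  have hmap : ∀ t ∈ Ico (0 : ℝ) 1, ℓ * t ∈ Ico 0 ℓ := by
    intro t ht
    exact ⟨mul_nonneg hℓ.le ht.1, by nlinarith [ht.2]⟩
  obtain ⟨s, hs⟩ := h.complete (fun t => γ (ℓ * t))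
    (hγ.comp (by fun_prop) hmap)
    ⟨Real.toNNReal (K * ℓ), by
      refine LipschitzOnWith.of_dist_le_mul fun t ht t' ht' => ?_
      have h1 := hlip (ℓ * t) (hmap t ht) (ℓ * t') (hmap t' ht')
      rw [← mul_sub, norm_mul, Real.norm_eq_abs ℓ, abs_of_pos hℓ, ← mul_assoc] at h1
      rw [Real.coe_toNNReal _ (by positivity), dist_eq_norm, dist_eq_norm]
      exact h1⟩
  have hlim : Tendsto γ (𝓝[<] ℓ) (𝓝 s) := by
    have h1 : Tendsto (fun t => t / ℓ) (𝓝[<] ℓ) (𝓝[<] 1) := by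
      refine tendsto_nhdsWithin_iff.mpr ⟨?_, ?_⟩
      · have : Tendsto (fun t : ℝ => t / ℓ) (𝓝 ℓ) (𝓝 (ℓ / ℓ)) :=
          (continuous_id.div_const ℓ).tendsto ℓ
        rw [div_self hℓ.ne'] at this
        exact this.mono_left nhdsWithin_le_nhds
      · filter_upwards [self_mem_nhdsWithin] with t ht
        exact (div_lt_one hℓ).mpr ht
    have h2 := hs.comp h1
    refine h2.congr (fun t => ?_)
    show γ (ℓ * (t / ℓ)) = γ t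
    rw [mul_div_cancel₀ _ hℓ.ne']
  refine ⟨s, ?_, hlim⟩
  obtain ⟨-, hN, hA, -⟩ := surface_cont h.surf
  obtain ⟨hp, -, -, -, hyy, -⟩ := H_cont h.surf F
  have hev : ∀ᶠ t in 𝓝[<] ℓ, γ t ∈ calG F N A C := by
    filter_upwards [Ico_mem_nhdsLT hℓ] with t ht
    exact hg t ht
  have h1 : 1 / 2 ≤ ⟪N s, F.n⟫ := by
    have : Tendsto (fun t => ⟪N (γ t), F.n⟫) (𝓝[<] ℓ) (𝓝 ⟪N s, F.n⟫) :=
      ((hN.inner continuous_const).tendsto s).comp hlim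
    exact ge_of_tendsto this (hev.mono fun t ht => ht.1)
  have o0 : IsOpen {s | 0 < ⟪N s, F.n⟫} :=
    isOpen_lt continuous_const (hN.inner continuous_const)
  have hs0 : s ∈ {s | 0 < ⟪N s, F.n⟫} := by
    show 0 < ⟪N s, F.n⟫
    linarith
  refine ⟨h1, ?_, ?_⟩
  · have : Tendsto (fun t => |F.p (N (γ t))|) (𝓝[<] ℓ) (𝓝 |F.p (N s)|) :=
      ((hp.abs).continuousAt (o0.mem_nhds hs0)).tendsto.comp hlim
    exact le_of_tendsto this (hev.mono fun t ht => ht.2.1)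
  · have e1 : Tendsto (fun t => F.Hyy (N (γ t)) (A (γ t))) (𝓝[<] ℓ) (𝓝 (F.Hyy (N s) (A s))) :=
      (hyy.continuousAt (o0.mem_nhds hs0)).tendsto.comp hlim
    have e2 : Tendsto (fun t => ‖A (γ t)‖ / 2) (𝓝[<] ℓ) (𝓝 (‖A s‖ / 2)) :=
      ((hA.norm.div_const 2).tendsto s).comp hlim
    exact le_of_tendsto_of_tendsto e2 e1 (hev.mono fun t ht => ht.2.2)

theorem line_limit (h : Hyp X N A c C) (F : Frame) (o : ℝ) {ℓ q : ℝ} (hℓ : 0 < ℓ) (hq : |q| ≤ 1)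
    {D : Set (ℝ × ℝ)} {G : ℝ × ℝ → S} (hG : IsLift (F.psi X N o) (F.dom N A) D G)
    (hD : ∀ x ∈ Ico 0 ℓ, (x, q) ∈ D) (hg : ∀ x ∈ Ico 0 ℓ, G (x, q) ∈ calG F N A C) :
    ∃ s ∈ calG F N A C, Tendsto (fun x => G (x, q)) (𝓝[<] ℓ) (𝓝 s) := by
  refine curve_limit h F (K := 10) hℓ (hG.cont.comp (by fun_prop) hD) (fun x hx => ?_) hg
  obtain ⟨d1, -⟩ := strip_deriv h F o hG (z := (x, q)) (hD x hx)
  refine ⟨_, d1.mono (fun y hy => hD y hy), ?_⟩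
  obtain ⟨g1, g2, g3⟩ := hg x hx
  obtain ⟨hκ0, hκ1, hCκ, hδ0, hδ⟩ := kap_del h.one_le
  obtain ⟨n1, n2, -⟩ := norm_Xx F (N (G (x, q)))
  have hqq : F.q (N (G (x, q))) = q := (strip_Xa F o hG (hD x hx)).2
  have hd := hG.mem _ (hD x hx)
  have hp1 : F.p (N (G (x, q))) ^ 2 ≤ 1 := by
    rw [← sq_abs]
    have : |F.p (N (G (x, q)))| ≤ 1 := g2.trans (by rw [hδ]; norm_num at hκ1 ⊢; linarith)
    calc |F.p (N (G (x, q)))| ^ 2 ≤ 1 ^ 2 := pow_le_pow_left₀ (abs_nonneg _) this 2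
      _ = 1 := one_pow 2
  have hq1 : q ^ 2 ≤ 1 := by
    rw [← sq_abs]
    calc |q| ^ 2 ≤ 1 ^ 2 := pow_le_pow_left₀ (abs_nonneg _) hq 2
      _ = 1 := one_pow 2
  have x1 : ‖F.Xx (N (G (x, q)))‖ ≤ 3 / 2 := by
    refine abs_le_of_sq_le_sq' ?_ (by norm_num) |>.2
    rw [n1]; norm_num; linarith
  have x2 : ‖F.Xy (N (G (x, q)))‖ ≤ 3 / 2 := by
    refine abs_le_of_sq_le_sq' ?_ (by norm_num) |>.2
    rw [n2, hqq]; norm_num; linarith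
  have ha : 0 < ‖A (G (x, q))‖ := lt_of_lt_of_le h.cpos (h.lower _)
  have hm : |F.m (N (G (x, q))) (A (G (x, q)))| ≤ 9 / 2 := by
    rw [Frame.m, abs_div, abs_of_pos hd.2, div_le_iff₀ hd.2]
    have e1 := (H_le F (N (G (x, q))) (A (G (x, q)))).2.2
    have e2 : ‖A (G (x, q))‖ * (‖F.Xx (N (G (x, q)))‖ * ‖F.Xy (N (G (x, q)))‖) ≤
      ‖A (G (x, q))‖ * (3 / 2 * (3 / 2)) := by gcongr
    have g3' : ‖A (G (x, q))‖ / 2 ≤ F.Hyy (N (G (x, q))) (A (G (x, q))) := g3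
    linarith
  show ‖F.Xx (N (G (x, q))) - F.m (N (G (x, q))) (A (G (x, q))) • F.Xy (N (G (x, q)))‖ ≤ 10
  refine (norm_sub_le _ _).trans ?_
  rw [norm_smul, Real.norm_eq_abs]
  have : |F.m (N (G (x, q))) (A (G (x, q)))| * ‖F.Xy (N (G (x, q)))‖ ≤ 9 / 2 * (3 / 2) := by
    gcongr
  linarith

theorem leaf_limit (h : Hyp X N A c C) (F : Frame) (o : ℝ) {ℓ x : ℝ} (hℓ : 0 < ℓ)
    {D : Set (ℝ × ℝ)} {G : ℝ × ℝ → S} (hG : IsLift (F.psi X N o) (F.dom N A) D G)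
    (hD : ∀ q ∈ Ico 0 ℓ, (x, q) ∈ D) (hg : ∀ q ∈ Ico 0 ℓ, G (x, q) ∈ calG F N A C) :
    ∃ s ∈ calG F N A C, Tendsto (fun q => G (x, q)) (𝓝[<] ℓ) (𝓝 s) := by
  refine curve_limit h F (K := 2 / c * (1 + ℓ)) hℓ (hG.cont.comp (by fun_prop) hD)
    (fun q hq => ?_) hg
  obtain ⟨-, -, -, d1, -⟩ := strip_deriv h F o hG (z := (x, q)) (hD q hq)
  refine ⟨_, d1.mono (fun y hy => hD y hy), ?_⟩
  obtain ⟨g1, g2, g3⟩ := hg q hq
  obtain ⟨-, -, -, hN1⟩ := surface_cont h.surf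
  obtain ⟨n1, n2, -⟩ := norm_Xx F (N (G (x, q)))
  have hqq : F.q (N (G (x, q))) = q := (strip_Xa F o hG (hD q hq)).2
  have hd := hG.mem _ (hD q hq)
  have hn1 : ⟪N (G (x, q)), F.n⟫ ≤ 1 := by
    have h1 := real_inner_le_norm (N (G (x, q))) F.n
    have h2 : ‖F.n‖ = 1 := by simpa using F.on.1 2
    rwa [hN1, h2, mul_one] at h1
  have x2 : ‖F.Xy (N (G (x, q)))‖ ≤ 1 + ℓ := by
    refine abs_le_of_sq_le_sq' ?_ (by linarith) |>.2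
    rw [n2, hqq]
    nlinarith [hq.1, hq.2]
  have hH : c / 2 ≤ F.Hyy (N (G (x, q))) (A (G (x, q))) := by
    have h1 := h.lower (G (x, q))
    have g3' : ‖A (G (x, q))‖ / 2 ≤ F.Hyy (N (G (x, q))) (A (G (x, q))) := g3
    linarith
  have hc := h.cpos
  show ‖(⟪N (G (x, q)), F.n⟫ / F.Hyy (N (G (x, q))) (A (G (x, q)))) • F.Xy (N (G (x, q)))‖ ≤ _
  rw [norm_smul, Real.norm_eq_abs, abs_of_pos (div_pos hd.1 hd.2)]
  have h3 : ⟪N (G (x, q)), F.n⟫ / F.Hyy (N (G (x, q))) (A (G (x, q))) ≤ 2 / c := by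
    rw [div_le_div_iff₀ hd.2 hc]
    nlinarith
  gcongr

end Pool.Agent.Helper50.MS
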