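import Pool.Agent.Helper50.MS.LiftDichotomy
import Pool.Agent.Helper50.MS.LineLimit
import Pool.Agent.Helper50.MS.ClaimB
import Pool.Agent.Helper50.MS.ClaimD

/-!
# MS-19  Half strips

`J = [-κ,κ]`. `half_strip`: from a leaf `g` the strip continues to the right either forever, or until `p ≤ -δ/5` on the middle half of the leaf.
PROOF. `lift_dichotomy` for `Φ = psi`, `S₀ = dom`, `𝒢 = calG`, `𝒢₀ = calGo`, `c₁ = -κ`, `c₂ = κ`, `g₀ = g`: `g q ∈ calGo` by `IsLeaf` (`⟪N,n⟫² (1+p²+q²) = 1` (`inner_n_sq`)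
with `|p|,|q|` small and `⟪N,n⟫ ≥ 1/2 > 0` gives `⟪N,n⟫ ≥ 0.9`; `‖A‖ ≥ c > 0` so `‖A‖/2 < (9/10)‖A‖ ≤ Hyy`); the limits exist by `line_limit`. For a lift `G`
over `D` with values in `calG`: `q (N (G z)) = z.2 ∈ J` (from `psi (G z) = z`), so all points are `Good`.
First alternative: done (`Good` on `[0,∞) × J`).
Second alternative: `G` over `[0,ℓ] × J`, all `Good`, and `G (ℓ,q₁) ∉ calGo`. By `claim_B` (start: `IsLeaf.yy`) `Hyy ≥ (3/5)‖A‖ > ‖A‖/2`; `⟪N,n⟫ ≥ 0.9 > 1/2`; so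
`|p| ≥ δ` at `(ℓ,q₁)`, i.e. `|p| = δ`; by `strip_P_anti` `p(ℓ,q₁) ≤ p(0,q₁) ≤ δ/100`, so `p(ℓ,q₁) = -δ`. Now `claim_D` with `r q = p (N (G (ℓ,q)))`, `m`: derivative by `strip_deriv`,
`|m q - m q'| ≤ 6e-7 = δ/(100κ)` by `leaf_osc_m`, `r ≤ δ/100` by `strip_P_anti` and `IsLeaf.p`.
-/

set_option autoImplicit false

open Filter Topology Set
open scoped RealInnerProductSpace

namespace Pool.Agent.Helper50.MS

variable {S : Type} [TopologicalSpace S] [T2Space S] {X N : S → E3} {A : S → End3} {c C : ℝ}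

theorem half_strip (h : Hyp X N A c C) (F : Frame) (o : ℝ) {g : ℝ → S}
    (hg : IsLeaf F X N A C o g) :
    (∃ G : ℝ × ℝ → S, IsLift (F.psi X N o) (F.dom N A) (Ici 0 ×ˢ Icc (-kap C) (kap C)) G ∧
      (∀ z ∈ Ici 0 ×ˢ Icc (-kap C) (kap C), Good F N A C (G z)) ∧
      ∀ q ∈ Icc (-kap C) (kap C), G (0, q) = g q) ∨
    ∃ ℓ : ℝ, 0 < ℓ ∧ ∃ G : ℝ × ℝ → S,
      IsLift (F.psi X N o) (F.dom N A) (Icc 0 ℓ ×ˢ Icc (-kap C) (kap C)) G ∧
      (∀ z ∈ Icc 0 ℓ ×ˢ Icc (-kap C) (kap C), Good F N A C (G z)) ∧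
      (∀ q ∈ Icc (-kap C) (kap C), G (0, q) = g q) ∧
      ∀ q ∈ Icc (-(kap C / 2)) (kap C / 2), F.p (N (G (ℓ, q))) ≤ -del C / 5 := by
  obtain ⟨hκ0, hκ1, hCκ, hδ0, hδ⟩ := kap_del h.one_le
  obtain ⟨-, -, -, hN1⟩ := surface_cont h.surf
  have hapos : ∀ s, 0 < ‖A s‖ := fun s => lt_of_lt_of_le h.cpos (h.lower s)
  have hκ1' : kap C ≤ 1 / 100 := hκ1.trans (by norm_num)
  have hδ1 : del C ≤ 1 / 100 := by
    rw [hδ]
    linarith
  have hqabs : ∀ q ∈ Icc (-kap C) (kap C), |q| ≤ kap C := fun q hq => abs_le.2 hq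
  have hinn : ∀ s, 1 / 2 ≤ ⟪N s, F.n⟫ → |F.p (N s)| ≤ del C → |F.q (N s)| ≤ kap C →
      1 / 2 < ⟪N s, F.n⟫ := by
    intro s h1 h2 h3
    have h4 := inner_n_sq F (N s) (hN1 s) (by linarith)
    have h5 : F.p (N s) ^ 2 ≤ 1 := by
      rw [← sq_abs]
      have : |F.p (N s)| ≤ 1 := by linarith
      calc |F.p (N s)| ^ 2 ≤ 1 ^ 2 := pow_le_pow_left₀ (abs_nonneg _) this 2
        _ = 1 := one_pow 2
    have h6 : F.q (N s) ^ 2 ≤ 1 := by
      rw [← sq_abs]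
      have : |F.q (N s)| ≤ 1 := by linarith
      calc |F.q (N s)| ^ 2 ≤ 1 ^ 2 := pow_le_pow_left₀ (abs_nonneg _) this 2
        _ = 1 := one_pow 2
    by_contra hne
    push Not at hne
    have h7 : ⟪N s, F.n⟫ = 1 / 2 := le_antisymm hne h1
    rw [h7] at h4
    nlinarith
  have hgo : ∀ q ∈ Icc (-kap C) (kap C), g q ∈ calGo F N A C := by
    intro q hq
    have h1 : F.q (N (g q)) = q := congrArg Prod.snd (hg.psi q hq)
    have h2 := hg.p q hq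
    refine ⟨hinn _ (hg.inn q hq) (h2.trans (by linarith)) (by rw [h1]; exact hqabs q hq), ?_, ?_⟩
    · exact lt_of_le_of_lt h2 (by linarith)
    · have h3 := hg.yy q hq
      have h4 := hapos (g q)
      linarith
  have hgood : ∀ (D : Set ℝ) (G : ℝ × ℝ → S),
      IsLift (F.psi X N o) (F.dom N A) (D ×ˢ Icc (-kap C) (kap C)) G →
      (∀ z ∈ D ×ˢ Icc (-kap C) (kap C), G z ∈ calG F N A C) →
      ∀ z ∈ D ×ˢ Icc (-kap C) (kap C), Good F N A C (G z) := by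
    intro D G hG hmem z hz
    obtain ⟨h1, h2, h3⟩ := hmem z hz
    refine ⟨h1, h2, ?_, h3⟩
    rw [(strip_Xa F o hG hz).2]
    exact hqabs z.2 hz.2
  rcases lift_dichotomy (dom_isOpen h.surf F) (psi_isLocalHomeomorphOn h F o) (calG_sub h F)
    (calGo_sub F) (calGo_open h F) (by linarith : -kap C ≤ kap C) hg.cont hgo hg.psi
    (fun ℓ hℓ G hG hmem _ q hq => line_limit h F o hℓ ((hqabs q hq).trans (by linarith)) hG
      (fun x hx => ⟨hx, hq⟩) (fun x hx => hmem _ ⟨hx, hq⟩)) with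
    ⟨G, hG, hmem, hst⟩ | ⟨ℓ, hℓ, G, hG, hmem, hst, q₁, hq₁, hnot⟩
  · exact Or.inl ⟨G, hG, hgood _ G hG hmem, hst⟩
  · right
    have hgd := hgood _ G hG hmem
    have hB := claim_B h F o hG hgd (by
      intro q hq
      rw [hst q hq]
      exact hg.yy q hq)
    have hle : ∀ q ∈ Icc (-kap C) (kap C), F.p (N (G (ℓ, q))) ≤ del C / 100 := by
      intro q hq
      have h1 := strip_P_anti h F o hG hℓ.le (q := q) (fun x hx => ⟨hx, hq⟩)
      rw [hst q hq] at h1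
      exact h1.trans ((le_abs_self _).trans (hg.p q hq))
    have hz₁ : (ℓ, q₁) ∈ Icc 0 ℓ ×ˢ Icc (-kap C) (kap C) := ⟨⟨hℓ.le, le_rfl⟩, hq₁⟩
    have hp₁ : F.p (N (G (ℓ, q₁))) ≤ -del C := by
      obtain ⟨h1, h2, h3, h4⟩ := hgd _ hz₁
      have h5 : ¬ |F.p (N (G (ℓ, q₁)))| < del C := by
        intro h5
        apply hnot
        refine ⟨hinn _ h1 h2 h3, h5, ?_⟩
        have h6 := hB _ hz₁
        have h7 := hapos (G (ℓ, q₁))
        linarith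
      have h6 := hle q₁ hq₁
      by_contra h7
      push Not at h7
      exact h5 (abs_lt.2 ⟨h7, by linarith⟩)
    refine ⟨ℓ, hℓ, G, hG, hgd, hst, ?_⟩
    refine claim_D hκ0 hδ0 (r := fun q => F.p (N (G (ℓ, q))))
      (m := fun q => F.m (N (G (ℓ, q))) (A (G (ℓ, q)))) ?_ ?_ hle hq₁ hp₁
    · intro q hq
      have h1 := (strip_deriv h F o hG (z := (ℓ, q)) ⟨⟨hℓ.le, le_rfl⟩, hq⟩).2.2.2.2.1
      exact h1.mono (fun q' hq' => ⟨⟨hℓ.le, le_rfl⟩, hq'⟩)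
    · intro q hq q' hq'
      have h1 := leaf_osc_m h F o hG (x := ℓ) (fun q hq => ⟨⟨hℓ.le, le_rfl⟩, hq⟩)
        (fun q hq => hgd _ ⟨⟨hℓ.le, le_rfl⟩, hq⟩) q hq q' hq'
      refine h1.trans (le_of_eq ?_)
      rw [hδ]
      field_simp
      norm_num

end Pool.Agent.Helper50.MS
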