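import Pool.Agent.Helper50.MS.LeafHalf

/-!
# MS-17  Existence of the initial leaf

Apply `leaf_half` to `F` and to `F' = (a,-b,n)` (`Adapted F' N A s`; `F'.q = -F.q`, `F'.p = F.p`, `F'.Hyy = F.Hyy`, `F'.psi X N o u = ((F.psi X N o u).1, -(F.psi X N o u).2)`) and put
`g q = g₁ q` for `q ≥ 0`, `g q = g₂ (-q)` for `q ≤ 0` (both are `s` at `0`: `ContinuousOn.union_isClosed` or `ContinuousOn.if`).
-/

set_option autoImplicit false

open Filter Topology Set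
open scoped RealInnerProductSpace

namespace Pool.Agent.Helper50.MS

variable {S : Type} [TopologicalSpace S] [T2Space S] {X N : S → E3} {A : S → End3} {c C : ℝ}

theorem leaf_exists (h : Hyp X N A c C) (F : Frame) {s : S} (hs : Adapted F N A s) :
    ∃ g : ℝ → S, g 0 = s ∧ IsLeaf F X N A C ⟪X s, F.a⟫ g := by
  obtain ⟨hκ0, hκ1, hCκ, hδ0, hδ⟩ := kap_del h.one_le
  obtain ⟨haa, hbb, hnn, hab, han, hbn⟩ := frame_inner F
  have hna1 : ‖F.a‖ = 1 := by simpa using F.on.1 0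
  have hnb1 : ‖F.b‖ = 1 := by simpa using F.on.1 1
  have hnn1 : ‖F.n‖ = 1 := by simpa using F.on.1 2
  have on' : Orthonormal ℝ ![F.a, -F.b, F.n] := by
    rw [orthonormal_iff_ite]
    have hba : ⟪F.b, F.a⟫ = 0 := by rw [real_inner_comm]; exact hab
    have hna : ⟪F.n, F.a⟫ = 0 := by rw [real_inner_comm]; exact han
    have hnb : ⟪F.n, F.b⟫ = 0 := by rw [real_inner_comm]; exact hbn
    intro i j
    fin_cases i <;> fin_cases j <;>
      simp [inner_neg_left, inner_neg_right, hab, han, hbn, hba, hna, hnb, hna1, hnb1, hnn1]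
  let F' : Frame := ⟨F.a, -F.b, F.n, on'⟩
  have hs' : Adapted F' N A s := by
    refine ⟨hs.1, ?_, hs.2.2.1, hs.2.2.2⟩
    show A s (-F.b) = ‖A s‖ • (-F.b)
    rw [map_neg, hs.2.1, smul_neg]
  have hp : ∀ v, F'.p v = F.p v := fun v => rfl
  have hq : ∀ v, F'.q v = - F.q v := fun v => by
    show - ⟪v, -F.b⟫ / ⟪v, F.n⟫ = - (- ⟪v, F.b⟫ / ⟪v, F.n⟫)
    rw [inner_neg_right]; ring
  have hXy : ∀ v, F'.Xy v = - F.Xy v := fun v => by
    show -F.b + F'.q v • F.n = -(F.b + F.q v • F.n)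
    rw [hq, neg_smul, neg_add]
  have hyy : ∀ v B, F'.Hyy v B = F.Hyy v B := fun v B => by
    rw [Frame.Hyy, Frame.Hyy, hXy, map_neg, inner_neg_neg]
  obtain ⟨g₁, hg₁0, hg₁c, hg₁⟩ := leaf_half h F hs
  obtain ⟨g₂, hg₂0, hg₂c, hg₂⟩ := leaf_half h F' hs'
  -- the second half in terms of F
  have hg₂' : ∀ q ∈ Icc (-kap C) 0, F.psi X N ⟪X s, F.a⟫ (g₂ (-q)) = (0, q) ∧
      1 / 2 ≤ ⟪N (g₂ (-q)), F.n⟫ ∧ |F.p (N (g₂ (-q)))| ≤ del C / 100 ∧
      9 / 10 * ‖A (g₂ (-q))‖ ≤ F.Hyy (N (g₂ (-q))) (A (g₂ (-q))) := by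
    intro q hq'
    obtain ⟨h1, h2, h3, h4⟩ := hg₂ (-q) ⟨by linarith [hq'.2], by linarith [hq'.1]⟩
    refine ⟨?_, h2, h3, ?_⟩
    · have e1 : ⟪X (g₂ (-q)), F.a⟫ - ⟪X s, F.a⟫ = 0 := congrArg Prod.fst h1
      have e2 : F'.q (N (g₂ (-q))) = -q := congrArg Prod.snd h1
      rw [hq, neg_inj] at e2
      exact Prod.ext e1 e2
    · rw [← hyy]; exact h4
  set g : ℝ → S := fun q => if 0 ≤ q then g₁ q else g₂ (-q) with hg
  have hgpos : ∀ q, 0 ≤ q → g q = g₁ q := fun q hq => if_pos hq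
  have hgneg : ∀ q, q ≤ 0 → g q = g₂ (-q) := fun q hq => by
    rcases lt_or_eq_of_le hq with h1 | h1
    · exact if_neg (not_le.mpr h1)
    · rw [h1, neg_zero, hg₂0, hgpos 0 le_rfl, hg₁0]
  have hall : ∀ q ∈ Icc (-kap C) (kap C), F.psi X N ⟪X s, F.a⟫ (g q) = (0, q) ∧
      1 / 2 ≤ ⟪N (g q), F.n⟫ ∧ |F.p (N (g q))| ≤ del C / 100 ∧
      9 / 10 * ‖A (g q)‖ ≤ F.Hyy (N (g q)) (A (g q)) := by
    intro q hq'
    rcases le_total 0 q with h1 | h1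
    · rw [hgpos q h1]; exact hg₁ q ⟨h1, hq'.2⟩
    · rw [hgneg q h1]; exact hg₂' q ⟨hq'.1, h1⟩
  refine ⟨g, ?_, ?_, fun q hq => (hall q hq).1, fun q hq => (hall q hq).2.1,
    fun q hq => (hall q hq).2.2.1, fun q hq => (hall q hq).2.2.2⟩
  · rw [hgpos 0 le_rfl, hg₁0]
  · have hu : Icc (-kap C) (kap C) = Icc (-kap C) 0 ∪ Icc 0 (kap C) :=
      (Icc_union_Icc_eq_Icc (by linarith) hκ0.le).symm
    rw [hu]
    refine ContinuousOn.union_of_isClosed ?_ ?_ isClosed_Icc isClosed_Icc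
    · refine ContinuousOn.congr (f := fun q => g₂ (-q)) ?_ (fun q hq => hgneg q hq.2)
      exact hg₂c.comp (by fun_prop) (fun q hq => ⟨by linarith [hq.2], by linarith [hq.1]⟩)
    · exact hg₁c.congr (fun q hq => hgpos q hq.1)

end Pool.Agent.Helper50.MS
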