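import Pool.Agent.Helper50.MS.LiftDichotomy
import Pool.Agent.Helper50.MS.LineLimit

/-!
# MS-16  Existence of half of the initial leaf

`leaf_half`. `s` adapted to `F`: `N s = n`, `A s b = L b`, `L = ‖A s‖`, `A s a = k a`, `A s n = 0`; so `p = q = 0`, `Hyy = L` at `s`, and `s ∈ calGo`.
PROOF. Let `Φ' u = ((psi u).2, (psi u).1)` (`psi` with `o = ⟪X s,a⟫`, so `psi s = (0,0)`), a local homeomorphism on `dom` (compose
`psi_isLocalHomeomorphOn` with the swap homeomorphism `Homeomorph.prodComm`: `IsLocalHomeomorphOn.mk` with `e.trans (swap.toOpenPartialHomeomorph)`).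
Apply `lift_dichotomy` to `Φ'`, `𝒢 = calG`, `𝒢₀ = calGo`, `c₁ = c₂ = 0`, `g₀ = fun _ => s`. A lift `G` of `Φ'` over `I × {0}` is the same as the lift
`G' (x,q) = G (q,x)` of `psi` over `{0} × I`; the limits exist by `leaf_limit`.
If the lift is infinite, or `ℓ > κ`, restrict to `[0,κ]`. Claim: for a lift over `[0,ℓ]`, `ℓ ≤ κ`, with values in `calG` the estimates (E) below hold on it, so
`G (ℓ,0) ∈ calGo` and the second alternative of the dichotomy cannot occur with `ℓ ≤ κ`; and (E) holds on `[0,κ]`.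
(E): `g q = G (q,0)`, `psi (g q) = (0,q)`. As in MS-12 the derivative of `A ∘ g` is at most `2.1 C ‖A‖`, so `variation_small` gives `‖A(g q) - A s‖ ≤ 3 C κ L =: ε L`, `ε = 3e-8`.
 `Xy = b + q n`, `A s Xy = L b`, so `Hyy (g q) ≥ L - 1.01 ε L`, `‖A (g q)‖ ≤ (1+ε) L`: `Hyy ≥ (9/10) ‖A (g q)‖` (indeed 0.99). `⟪A s Xx, Xy⟫ = ⟪k a, b + q n⟫ = 0`, so
 `|Hxy| ≤ 1.01 ε L`, `|m| ≤ 2 ε = 6e-8 ≤ 6e-7`, and (the derivative of `p` along the leaf is `m`) `|p| ≤ 6e-7 κ = δ/100`. `⟪N,n⟫² (1+p²+q²) = 1`: `⟪N,n⟫ ≥ 0.9`.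
 (The bounds use `|p| ≤ δ`, `Hyy ≥ ‖A‖/2`, which are part of `calG`.)
-/

set_option autoImplicit false

open Filter Topology Set
open scoped RealInnerProductSpace

namespace Pool.Agent.Helper50.MS

variable {S : Type} [TopologicalSpace S] {X N : S → E3} {A : S → End3} {c C : ℝ}

private lemma norm_small'' {w : E3} {r : ℝ} (h : ‖w‖ ^ 2 = 1 + r ^ 2) (hr : |r| ≤ 1 / 10 ^ 8) :
    ‖w‖ ≤ 1001 / 1000 := by
  have h2 : r ^ 2 ≤ (1 / 10 ^ 8) ^ 2 := by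
    rw [← sq_abs]
    exact pow_le_pow_left₀ (abs_nonneg _) hr 2
  refine abs_le_of_sq_le_sq' ?_ (by norm_num) |>.2
  rw [h]
  norm_num at h2 ⊢
  linarith

private lemma leaf_est (h : Hyp X N A c C) (F : Frame) {s : S} (hs : Adapted F N A s) {ℓ : ℝ}
    (hℓ : ℓ ≤ kap C) {D : Set (ℝ × ℝ)} {G : ℝ × ℝ → S}
    (hG : IsLift (F.psi X N ⟪X s, F.a⟫) (F.dom N A) D G)
    (hD : ∀ q ∈ Icc 0 ℓ, ((0 : ℝ), q) ∈ D) (hg : ∀ q ∈ Icc 0 ℓ, G (0, q) ∈ calG F N A C)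
    (h0 : G (0, 0) = s) : ∀ q ∈ Icc 0 ℓ, G (0, q) ∈ calGo F N A C ∧
      1 / 2 ≤ ⟪N (G (0, q)), F.n⟫ ∧ |F.p (N (G (0, q)))| ≤ del C / 100 ∧
      9 / 10 * ‖A (G (0, q))‖ ≤ F.Hyy (N (G (0, q))) (A (G (0, q))) := by
  obtain ⟨hκ0, hκ1, hCκ, hδ0, hδ⟩ := kap_del h.one_le
  obtain ⟨-, -, -, hN1⟩ := surface_cont h.surf
  have hC0 : 0 < C := by linarith [h.one_le]
  obtain ⟨haa, hbb, hnn, hab, han, hbn⟩ := frame_inner F
  obtain ⟨hsN, hsb, ⟨k, hsa⟩, hsn⟩ := hs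
  have hFn : ‖F.n‖ = 1 := by simpa using F.on.1 2
  have hapos : ∀ s, 0 < ‖A s‖ := fun s => lt_of_lt_of_le h.cpos (h.lower s)
  have hqq : ∀ q ∈ Icc 0 ℓ, F.q (N (G (0, q))) = q := fun q hq =>
    (strip_Xa F _ hG (hD q hq)).2
  have hXyn : ∀ q ∈ Icc 0 ℓ, ‖F.Xy (N (G (0, q)))‖ ≤ 1001 / 1000 := by
    intro q hq
    refine norm_small'' (norm_Xx F (N (G (0, q)))).2.1 ?_
    rw [hqq q hq, abs_of_nonneg hq.1]
    exact hq.2.trans (hℓ.trans hκ1)
  have hXxn : ∀ q ∈ Icc 0 ℓ, ‖F.Xx (N (G (0, q)))‖ ≤ 1001 / 1000 := by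
    intro q hq
    refine norm_small'' (norm_Xx F (N (G (0, q)))).1 ((hg q hq).2.1.trans ?_)
    rw [hδ]; norm_num at hκ1 ⊢; linarith
  -- oscillation of the shape operator
  have hder : ∀ t ∈ Icc 0 ℓ, ∃ B : End3,
      HasDerivWithinAt (fun q => A (G (0, q))) B (Icc 0 ℓ) t ∧
        ‖B‖ ≤ 21 / 10 * C * ‖A (G (0, t))‖ := by
    intro t ht
    obtain ⟨-, -, -, -, -, B, hB, hB'⟩ := strip_deriv h F _ hG (z := (0, t)) (hD t ht)
    refine ⟨B, hB.mono (fun q hq => hD q hq), hB'.trans ?_⟩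
    obtain ⟨g1, g2, g4⟩ := hg t ht
    have hA0 := hapos (G (0, t))
    have hmem := hG.mem (0, t) (hD t ht)
    have hH0 : 0 < F.Hyy (N (G (0, t))) (A (G (0, t))) := hmem.2
    have hn0 : 0 < ⟪N (G (0, t)), F.n⟫ := hmem.1
    have hn1 : ⟪N (G (0, t)), F.n⟫ ≤ 1 := by
      have h1 := real_inner_le_norm (N (G (0, t))) F.n
      rwa [hN1, hFn, mul_one] at h1
    have hXy := hXyn t ht
    rw [norm_smul, Real.norm_eq_abs, abs_of_pos (div_pos hn0 hH0)]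
    set a := ‖A (G (0, t))‖
    set n := ⟪N (G (0, t)), F.n⟫
    set H := F.Hyy (N (G (0, t))) (A (G (0, t)))
    have h3 : n / H ≤ 2 / a := by
      rw [div_le_div_iff₀ hH0 hA0]
      nlinarith
    calc C * a ^ 2 * (n / H * ‖F.Xy (N (G (0, t)))‖) ≤ C * a ^ 2 * (2 / a * (21 / 20)) := by
          gcongr
          linarith
      _ = 21 / 10 * C * a := by field_simp; ring
  choose! B hB hB' using hder
  have hosc : ∀ q ∈ Icc 0 ℓ, ‖A (G (0, q)) - A s‖ ≤ 3 / 10 ^ 8 * ‖A s‖ := by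
    intro q hq
    have hsub : Icc 0 q ⊆ Icc 0 ℓ := Icc_subset_Icc_right hq.2
    have h1 := variation_small (f := fun q => A (G (0, q))) (f' := B)
      (φ := fun q => 21 / 10 * C * q) (φ' := fun _ => 21 / 10 * C) hq.1
      (fun t ht => (hB t (hsub ht)).mono hsub)
      (fun t ht => by
        have := (hasDerivWithinAt_id t (Icc 0 q)).const_mul (21 / 10 * C)
        simpa using this)
      (fun t ht => by positivity) (fun t ht => hB' t (hsub ht))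
      (by
        have : C * q ≤ C * kap C := mul_le_mul_of_nonneg_left (hq.2.trans hℓ) hC0.le
        rw [hCκ] at this
        norm_num at this ⊢
        linarith)
    obtain ⟨h2, -⟩ := h1
    simp only [h0, mul_zero, sub_zero] at h2
    refine h2.trans (mul_le_mul_of_nonneg_right ?_ (norm_nonneg _))
    have : C * q ≤ C * kap C := mul_le_mul_of_nonneg_left (hq.2.trans hℓ) hC0.le
    rw [hCκ] at this
    norm_num at this ⊢
    linarith
  have hL := hapos s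
  -- second fundamental form
  have form : ∀ q ∈ Icc 0 ℓ, ∀ x y : E3, ‖x‖ ≤ 1001 / 1000 → ‖y‖ ≤ 1001 / 1000 →
      |⟪A (G (0, q)) x, y⟫ - ⟪A s x, y⟫| ≤ 4 / 10 ^ 8 * ‖A s‖ := by
    intro q hq x y hx hy
    rw [← inner_sub_left, ← sub_apply]
    refine (abs_real_inner_le_norm _ _).trans ?_
    have e1 : ‖(A (G (0, q)) - A s) x‖ ≤ 3 / 10 ^ 8 * ‖A s‖ * (1001 / 1000) := by
      refine ((A (G (0, q)) - A s).le_opNorm x).trans ?_
      have := hosc q hq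
      gcongr
    calc ‖(A (G (0, q)) - A s) x‖ * ‖y‖ ≤ (3 / 10 ^ 8 * ‖A s‖ * (1001 / 1000)) * (1001 / 1000) := by
          gcongr
      _ ≤ 4 / 10 ^ 8 * ‖A s‖ := by
        have : 3 / 10 ^ 8 * ‖A s‖ * (1001 / 1000) * (1001 / 1000) =
          (3 / 10 ^ 8 * (1001 / 1000) * (1001 / 1000)) * ‖A s‖ := by ring
        rw [this]
        gcongr
        norm_num
  have hAb : ∀ r : ℝ, A s (F.b + r • F.n) = ‖A s‖ • F.b := by
    intro r
    rw [map_add, map_smul, hsb, hsn, smul_zero, add_zero]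
  have hAa : ∀ r : ℝ, A s (F.a + r • F.n) = k • F.a := by
    intro r
    rw [map_add, map_smul, hsa, hsn, smul_zero, add_zero]
  have hyy : ∀ q ∈ Icc 0 ℓ, |F.Hyy (N (G (0, q))) (A (G (0, q))) - ‖A s‖| ≤
      4 / 10 ^ 8 * ‖A s‖ := by
    intro q hq
    have h1 := form q hq _ _ (hXyn q hq) (hXyn q hq)
    have h2 : ⟪A s (F.Xy (N (G (0, q)))), F.Xy (N (G (0, q)))⟫ = ‖A s‖ := by
      rw [Frame.Xy, hAb, inner_smul_left, inner_add_right, inner_smul_right, hbb, hbn]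
      simp
    rw [h2] at h1
    exact h1
  have hxy : ∀ q ∈ Icc 0 ℓ, |F.Hxy (N (G (0, q))) (A (G (0, q)))| ≤ 4 / 10 ^ 8 * ‖A s‖ := by
    intro q hq
    have h1 := form q hq _ _ (hXxn q hq) (hXyn q hq)
    have h2 : ⟪A s (F.Xx (N (G (0, q)))), F.Xy (N (G (0, q)))⟫ = 0 := by
      rw [Frame.Xx, Frame.Xy, hAa, inner_smul_left, inner_add_right, inner_smul_right, hab, han]
      simp
    rw [h2, sub_zero] at h1
    exact h1
  have hm : ∀ q ∈ Icc 0 ℓ, |F.m (N (G (0, q))) (A (G (0, q)))| ≤ 6 / 10 ^ 7 := by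
    intro q hq
    have hmem := hG.mem (0, q) (hD q hq)
    rw [Frame.m, abs_div, abs_of_pos hmem.2, div_le_iff₀ hmem.2]
    have h1 := (abs_le.mp (hyy q hq)).1
    have h2 := hxy q hq
    norm_num at h1 h2 ⊢
    linarith
  have hp0 : F.p (N (G (0, 0))) = 0 := by
    rw [h0, hsN, Frame.p, real_inner_comm, han]; simp
  intro q hq
  have hmem := hG.mem (0, q) (hD q hq)
  obtain ⟨g1, g2, g4⟩ := hg q hq
  have hp : |F.p (N (G (0, q)))| ≤ del C / 100 := by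
    have hsub : Icc 0 q ⊆ Icc 0 ℓ := Icc_subset_Icc_right hq.2
    have h1 := Convex.norm_image_sub_le_of_norm_hasDerivWithin_le
      (f := fun q => F.p (N (G (0, q)))) (f' := fun q => F.m (N (G (0, q))) (A (G (0, q))))
      (s := Icc 0 q) (x := 0) (y := q) (C := 6 / 10 ^ 7)
      (fun t ht => by
        have h1 := (strip_deriv h F _ hG (z := (0, t)) (hD t (hsub ht))).2.2.2.2.1
        exact h1.mono (fun y hy => hD y (hsub hy)))
      (fun t ht => hm t (hsub ht)) (convex_Icc _ _) ⟨le_rfl, hq.1⟩ ⟨hq.1, le_rfl⟩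
    rw [hp0, sub_zero, sub_zero, Real.norm_eq_abs, Real.norm_eq_abs, abs_of_nonneg hq.1] at h1
    refine h1.trans ?_
    have := hq.2.trans hℓ
    rw [hδ]
    norm_num
    linarith
  have hyy' : 9 / 10 * ‖A (G (0, q))‖ ≤ F.Hyy (N (G (0, q))) (A (G (0, q))) := by
    have h1 := (abs_le.mp (hyy q hq)).1
    have h2 := hosc q hq
    have h3 : ‖A (G (0, q))‖ ≤ ‖A s‖ + ‖A (G (0, q)) - A s‖ := by
      have := norm_add_le (A s) (A (G (0, q)) - A s)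
      rwa [add_sub_cancel] at this
    norm_num at h1 h2 ⊢
    linarith
  refine ⟨⟨?_, ?_, ?_⟩, g1, hp, hyy'⟩
  · have h1 := inner_n_sq F (N (G (0, q))) (hN1 _) hmem.1.ne'
    have hp2 : F.p (N (G (0, q))) ^ 2 ≤ 1 := by
      rw [← sq_abs]
      have : |F.p (N (G (0, q)))| ≤ 1 := hp.trans (by rw [hδ]; norm_num at hκ1 ⊢; linarith)
      calc |F.p (N (G (0, q)))| ^ 2 ≤ 1 ^ 2 := pow_le_pow_left₀ (abs_nonneg _) this 2
        _ = 1 := one_pow 2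
    have hq2 : F.q (N (G (0, q))) ^ 2 < 1 := by
      rw [hqq q hq]
      have : q < 1 := lt_of_le_of_lt (hq.2.trans (hℓ.trans hκ1)) (by norm_num)
      nlinarith [hq.1]
    by_contra hne
    push Not at hne
    have hmem1 : 0 < ⟪N (G (0, q)), F.n⟫ := hmem.1
    nlinarith [sq_nonneg (F.p (N (G (0, q)))), sq_nonneg (F.q (N (G (0, q))))]
  · exact lt_of_le_of_lt hp (by linarith)
  · have := hapos (G (0, q))
    linarith

theorem leaf_half [T2Space S] (h : Hyp X N A c C) (F : Frame) {s : S} (hs : Adapted F N A s) :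
    ∃ g : ℝ → S, g 0 = s ∧ ContinuousOn g (Icc 0 (kap C)) ∧ ∀ q ∈ Icc 0 (kap C),
      F.psi X N ⟪X s, F.a⟫ (g q) = (0, q) ∧ 1 / 2 ≤ ⟪N (g q), F.n⟫ ∧
      |F.p (N (g q))| ≤ del C / 100 ∧ 9 / 10 * ‖A (g q)‖ ≤ F.Hyy (N (g q)) (A (g q)) := by
  obtain ⟨hκ0, hκ1, hCκ, hδ0, hδ⟩ := kap_del h.one_le
  obtain ⟨haa, hbb, hnn, hab, han, hbn⟩ := frame_inner F
  have hna : ⟪F.n, F.a⟫ = 0 := by rw [real_inner_comm]; exact han
  have hnb : ⟪F.n, F.b⟫ = 0 := by rw [real_inner_comm]; exact hbn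
  have hapos : ∀ s, 0 < ‖A s‖ := fun s => lt_of_lt_of_le h.cpos (h.lower s)
  set o := ⟪X s, F.a⟫ with ho
  set Φ : S → ℝ × ℝ := fun u => ((F.psi X N o u).2, (F.psi X N o u).1) with hΦ
  have hΦl : IsLocalHomeomorphOn Φ (F.dom N A) := by
    have h1 := psi_isLocalHomeomorphOn h F o
    have h2 : IsLocalHomeomorphOn (Homeomorph.prodComm ℝ ℝ) (univ : Set (ℝ × ℝ)) :=
      (Homeomorph.prodComm ℝ ℝ).isLocalHomeomorph.isLocalHomeomorphOn
    exact h2.comp h1 (fun _ _ => mem_univ _)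
  have hp0 : F.p (N s) = 0 := by rw [hs.1, Frame.p, hna]; simp
  have hq0 : F.q (N s) = 0 := by rw [hs.1, Frame.q, hnb]; simp
  have hsGo : s ∈ calGo F N A C := by
    refine ⟨?_, ?_, ?_⟩
    · rw [hs.1, hnn]; norm_num
    · rw [hp0, abs_zero]; exact hδ0
    · rw [Frame.Hyy, Frame.Xy, hq0, zero_smul, add_zero, hs.2.1, inner_smul_left, hbb,
        conj_trivial, mul_one]
      have := hapos s
      linarith
  have hpsis : F.psi X N o s = (0, 0) := by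
    rw [Frame.psi, hq0, ho, sub_self]
  -- translation of lifts
  have trans : ∀ (I : Set ℝ) (G : ℝ × ℝ → S), IsLift Φ (F.dom N A) (I ×ˢ Icc (0 : ℝ) 0) G →
      IsLift (F.psi X N o) (F.dom N A) ({0} ×ˢ I) (fun z => G (z.2, z.1)) := by
    intro I G hG
    have hmap : ∀ z ∈ ({0} : Set ℝ) ×ˢ I, (z.2, z.1) ∈ I ×ˢ Icc (0 : ℝ) 0 := by
      rintro z ⟨hz1, hz2⟩
      refine ⟨hz2, ?_⟩
      rw [Icc_self]; exact hz1
    refine ⟨hG.cont.comp (by fun_prop) hmap, fun z hz => hG.mem _ (hmap z hz), fun z hz => ?_⟩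
    have h1 := hG.eq _ (hmap z hz)
    have h2 : (F.psi X N o (G (z.2, z.1))).2 = z.2 := congrArg Prod.fst h1
    have h3 : (F.psi X N o (G (z.2, z.1))).1 = z.1 := congrArg Prod.snd h1
    exact Prod.ext h3 h2
  have hdich := lift_dichotomy (𝒢 := calG F N A C) (𝒢₀ := calGo F N A C)
    (dom_isOpen h.surf F) hΦl (calG_sub h F) (calGo_sub F) (calGo_open h F) (le_refl (0 : ℝ))
    (g₀ := fun _ => s) continuousOn_const (fun q _ => hsGo)
    (fun q hq => by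
      have hq' : q = 0 := le_antisymm hq.2 hq.1
      show ((F.psi X N o s).2, (F.psi X N o s).1) = (0, q)
      rw [hpsis, hq'])
    (by
      intro ℓ hℓ G hG hGm hG0 q hq
      have hq' : q = 0 := le_antisymm hq.2 hq.1
      subst hq'
      have h1 := trans _ G hG
      have h2 := leaf_limit h F o (ℓ := ℓ) (x := 0) hℓ h1 (fun q hq => ⟨rfl, hq⟩)
        (fun q hq => hGm (q, 0) ⟨hq, ⟨le_rfl, le_rfl⟩⟩)
      exact h2)
  have main : ∃ G : ℝ × ℝ → S, IsLift Φ (F.dom N A) (Icc 0 (kap C) ×ˢ Icc (0 : ℝ) 0) G ∧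
      (∀ z ∈ Icc 0 (kap C) ×ˢ Icc (0 : ℝ) 0, G z ∈ calG F N A C) ∧ G (0, 0) = s := by
    rcases hdich with ⟨G, hG, hGm, hG0⟩ | ⟨ℓ, hℓ, G, hG, hGm, hG0, q₁, hq₁, hq₁'⟩
    · have hsub : Icc 0 (kap C) ×ˢ Icc (0 : ℝ) 0 ⊆ Ici 0 ×ˢ Icc (0 : ℝ) 0 :=
        prod_mono Icc_subset_Ici_self subset_rfl
      exact ⟨G, ⟨hG.cont.mono hsub, fun z hz => hG.mem z (hsub hz), fun z hz => hG.eq z (hsub hz)⟩,
        fun z hz => hGm z (hsub hz), hG0 0 ⟨le_rfl, le_rfl⟩⟩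
    · rcases le_total ℓ (kap C) with hle | hle
      · exfalso
        have h1 := trans _ G hG
        have h2 := leaf_est h F hs hle h1 (fun q hq => ⟨rfl, hq⟩)
          (fun q hq => hGm (q, 0) ⟨hq, ⟨le_rfl, le_rfl⟩⟩) (hG0 0 ⟨le_rfl, le_rfl⟩) ℓ
          ⟨hℓ.le, le_rfl⟩
        have hq' : q₁ = 0 := le_antisymm hq₁.2 hq₁.1
        rw [hq'] at hq₁'
        exact hq₁' h2.1
      · have hsub : Icc 0 (kap C) ×ˢ Icc (0 : ℝ) 0 ⊆ Icc 0 ℓ ×ˢ Icc (0 : ℝ) 0 :=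
          prod_mono (Icc_subset_Icc_right hle) subset_rfl
        exact ⟨G, ⟨hG.cont.mono hsub, fun z hz => hG.mem z (hsub hz),
          fun z hz => hG.eq z (hsub hz)⟩, fun z hz => hGm z (hsub hz), hG0 0 ⟨le_rfl, le_rfl⟩⟩
  obtain ⟨G, hG, hGm, hG0⟩ := main
  have h1 := trans _ G hG
  have h2 := leaf_est h F hs le_rfl h1 (fun q hq => ⟨rfl, hq⟩)
    (fun q hq => hGm (q, 0) ⟨hq, ⟨le_rfl, le_rfl⟩⟩) hG0
  refine ⟨fun q => G (q, 0), hG0, ?_, fun q hq => ?_⟩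
  · exact hG.cont.comp (by fun_prop) (fun q hq => ⟨hq, ⟨le_rfl, le_rfl⟩⟩)
  · exact ⟨h1.eq (0, q) ⟨rfl, hq⟩, (h2 q hq).2⟩

end Pool.Agent.Helper50.MS
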