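import Pool.Agent.Helper50.MS.LeafOscA

/-!
# MS-13  Leaves of good strips are nearly straight

Notation as in MS-12. (ii) With `a' = ‖A(q')‖`, `a = ‖A(q)‖ ≥ 0.9999 a'`: `Hxy = ⟪A Xx,Xy⟫`, `Xx(q) - Xx(q') = (p - p') n`, `Xy(q) - Xy(q') = (q - q') n` so
`|Hxy(q) - Hxy(q')| ≤ 1.001 a' (6 C κ + 2 δ + 2 κ) ≤ 8.1 C κ a'` and `|Hyy(q) - Hyy(q')| ≤ 1.001 a'(6 C κ + 4 κ) ≤ 10.1 C κ a'` (`C ≥ 1`); `Hyy(q) ≥ a/2 ≥ 0.4999 a'`,
`|m(q')| ≤ a' · 1.001/(a'/2) ≤ 2.01`. So `|m(q) - m(q')| ≤ |ΔHxy|/Hyy(q) + |m(q')| |ΔHyy|/Hyy(q) ≤ (8.1 + 2.01·10.1)/0.4999 C κ ≤ 60 C κ = 6e-7`.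
(`a' > 0` by `h.lower`.)
(iii) `leaf_slope`: `|p(κ) - p(-κ)| ≤ 2δ`; `p` has derivative `m` along the leaf (`strip_deriv`), so by the mean value theorem (`exists_hasDerivAt_eq_slope`) some `|m| ≤ δ/κ = 6e-5`, and by (ii)
`|m| ≤ 6e-5 + 6e-7 ≤ 1e-4` on all of `J`.
-/

set_option autoImplicit false

open Filter Topology Set
open scoped RealInnerProductSpace

namespace Pool.Agent.Helper50.MS

variable {S : Type} [TopologicalSpace S] {X N : S → E3} {A : S → End3} {c C : ℝ}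

private lemma form_diff (B B' : End3) {x y x' y' : E3} {ε s t : ℝ} (hε : 0 ≤ ε)
    (hs : 0 ≤ s) (_ht : 0 ≤ t)
    (hBB : ‖B - B'‖ ≤ ε * ‖B'‖) (hx : ‖x‖ ≤ 1001 / 1000) (hy : ‖y‖ ≤ 1001 / 1000)
    (hx' : ‖x'‖ ≤ 1001 / 1000) (hxx : ‖x - x'‖ ≤ s) (hyy : ‖y - y'‖ ≤ t) :
    |⟪B x, y⟫ - ⟪B' x', y'⟫| ≤ ‖B'‖ * (101 / 100 * ε + 1001 / 1000 * s + 1001 / 1000 * t) := by
  have e1 : ⟪B x, y⟫ - ⟪B' x', y'⟫ = ⟪(B - B') x, y⟫ + ⟪B' (x - x'), y⟫ + ⟪B' x', y - y'⟫ := by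
    rw [sub_apply, map_sub, inner_sub_left, inner_sub_left, inner_sub_right]
    ring
  have b0 : 0 ≤ ‖B'‖ := norm_nonneg _
  have e2 : |⟪(B - B') x, y⟫| ≤ (ε * ‖B'‖ * (1001 / 1000)) * (1001 / 1000) := by
    refine (abs_real_inner_le_norm _ _).trans ?_
    gcongr
    refine ((B - B').le_opNorm x).trans ?_
    gcongr
  have e3 : |⟪B' (x - x'), y⟫| ≤ (‖B'‖ * s) * (1001 / 1000) := by
    refine (abs_real_inner_le_norm _ _).trans ?_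
    gcongr
    refine (B'.le_opNorm _).trans ?_
    gcongr
  have e4 : |⟪B' x', y - y'⟫| ≤ (‖B'‖ * (1001 / 1000)) * t := by
    refine (abs_real_inner_le_norm _ _).trans ?_
    gcongr
    refine (B'.le_opNorm _).trans ?_
    gcongr
  rw [e1]
  have e5 := abs_add_le (⟪(B - B') x, y⟫ + ⟪B' (x - x'), y⟫) ⟪B' x', y - y'⟫
  have e6 := abs_add_le ⟪(B - B') x, y⟫ ⟪B' (x - x'), y⟫
  have e7 : 0 ≤ ε * ‖B'‖ := by positivity
  nlinarith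

private lemma norm_small {w : E3} {r : ℝ} (h : ‖w‖ ^ 2 = 1 + r ^ 2) (hr : |r| ≤ 1 / 10 ^ 8) :
    ‖w‖ ≤ 1001 / 1000 := by
  have h2 : r ^ 2 ≤ (1 / 10 ^ 8) ^ 2 := by
    rw [← sq_abs]
    exact pow_le_pow_left₀ (abs_nonneg _) hr 2
  refine abs_le_of_sq_le_sq' ?_ (by norm_num) |>.2
  rw [h]
  norm_num at h2 ⊢
  linarith

private lemma m_osc (F : Frame) {v v' : E3} {B B' : End3} (hB' : 0 < ‖B'‖)
    (hp : |F.p v| ≤ 1 / 10 ^ 11) (hp' : |F.p v'| ≤ 1 / 10 ^ 11)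
    (hq : |F.q v| ≤ 1 / 10 ^ 8) (hq' : |F.q v'| ≤ 1 / 10 ^ 8)
    (hBB : ‖B - B'‖ ≤ 6 / 10 ^ 8 * ‖B'‖) (hH : ‖B‖ / 2 ≤ F.Hyy v B)
    (hH' : ‖B'‖ / 2 ≤ F.Hyy v' B') :
    |F.m v B - F.m v' B'| ≤ 6 / 10 ^ 7 := by
  obtain ⟨n1, n2, -⟩ := norm_Xx F v
  obtain ⟨n1', n2', -⟩ := norm_Xx F v'
  have hFn : ‖F.n‖ = 1 := by simpa using F.on.1 2
  have x1 := norm_small n1 (hp.trans (by norm_num))
  have x2 := norm_small n2 hq
  have x1' := norm_small n1' (hp'.trans (by norm_num))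
  have x2' := norm_small n2' hq'
  have d1 : ‖F.Xx v - F.Xx v'‖ ≤ 2 / 10 ^ 11 := by
    have : F.Xx v - F.Xx v' = (F.p v - F.p v') • F.n := by
      rw [Frame.Xx, Frame.Xx, sub_smul]; abel
    rw [this, norm_smul, hFn, mul_one, Real.norm_eq_abs]
    calc |F.p v - F.p v'| ≤ |F.p v| + |F.p v'| := abs_sub _ _
      _ ≤ 1 / 10 ^ 11 + 1 / 10 ^ 11 := add_le_add hp hp'
      _ = _ := by norm_num
  have d2 : ‖F.Xy v - F.Xy v'‖ ≤ 2 / 10 ^ 8 := by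
    have : F.Xy v - F.Xy v' = (F.q v - F.q v') • F.n := by
      rw [Frame.Xy, Frame.Xy, sub_smul]; abel
    rw [this, norm_smul, hFn, mul_one, Real.norm_eq_abs]
    calc |F.q v - F.q v'| ≤ |F.q v| + |F.q v'| := abs_sub _ _
      _ ≤ 1 / 10 ^ 8 + 1 / 10 ^ 8 := add_le_add hq hq'
      _ = _ := by norm_num
  have k1 : |F.Hxy v B - F.Hxy v' B'| ≤ ‖B'‖ * (81 / 10 ^ 9) := by
    refine (form_diff B B' (by norm_num) (by norm_num) (by norm_num) hBB x1 x2 x1' d1 d2).trans ?_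
    gcongr
    norm_num
  have k2 : |F.Hyy v B - F.Hyy v' B'| ≤ ‖B'‖ * (101 / 10 ^ 9) := by
    refine (form_diff B B' (by norm_num) (by norm_num) (by norm_num) hBB x2 x2 x2' d2 d2).trans ?_
    gcongr
    norm_num
  have k3 : 0 < F.Hyy v' B' := by linarith
  have k4 : 4999 / 10000 * ‖B'‖ ≤ F.Hyy v B := by
    have : ‖B'‖ ≤ ‖B‖ + ‖B - B'‖ := by
      have := norm_sub_le B (B - B')
      rwa [sub_sub_cancel] at this
    norm_num at hBB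
    linarith
  have k5 : 0 < F.Hyy v B := lt_of_lt_of_le (by positivity) k4
  have k6 : |F.m v' B'| ≤ 201 / 100 := by
    rw [Frame.m, abs_div, abs_of_pos k3, div_le_iff₀ k3]
    have := (H_le F v' B').2.2
    have : ‖B'‖ * (‖F.Xx v'‖ * ‖F.Xy v'‖) ≤ ‖B'‖ * (1001 / 1000 * (1001 / 1000)) := by gcongr
    nlinarith
  have k7 : F.m v B - F.m v' B' = ((F.Hxy v B - F.Hxy v' B') - F.m v' B' *
      (F.Hyy v B - F.Hyy v' B')) / F.Hyy v B := by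
    rw [eq_div_iff k5.ne']
    simp only [Frame.m]
    field_simp
    ring
  rw [k7, abs_div, abs_of_pos k5, div_le_iff₀ k5]
  have k8 : |F.m v' B' * (F.Hyy v B - F.Hyy v' B')| ≤ 201 / 100 * (‖B'‖ * (101 / 10 ^ 9)) := by
    rw [abs_mul]
    gcongr
  have k9 := abs_sub (F.Hxy v B - F.Hxy v' B') (F.m v' B' * (F.Hyy v B - F.Hyy v' B'))
  norm_num at k1 k8 k9 ⊢
  linarith

theorem leaf_osc_m (h : Hyp X N A c C) (F : Frame) (o : ℝ) {D : Set (ℝ × ℝ)} {G : ℝ × ℝ → S}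
    (hG : IsLift (F.psi X N o) (F.dom N A) D G) {x : ℝ}
    (hD : ∀ q ∈ Icc (-kap C) (kap C), (x, q) ∈ D)
    (hgood : ∀ q ∈ Icc (-kap C) (kap C), Good F N A C (G (x, q))) :
    ∀ q ∈ Icc (-kap C) (kap C), ∀ q' ∈ Icc (-kap C) (kap C),
      |F.m (N (G (x, q))) (A (G (x, q))) - F.m (N (G (x, q'))) (A (G (x, q')))| ≤ 6 / 10 ^ 7 := by
  intro q hq q' hq'
  obtain ⟨hκ0, hκ1, hCκ, hδ0, hδ⟩ := kap_del h.one_le
  obtain ⟨-, g2, g3, g4⟩ := hgood q hq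
  obtain ⟨-, g2', g3', g4'⟩ := hgood q' hq'
  have hδ1 : del C ≤ 1 / 10 ^ 11 := by
    rw [hδ]; norm_num at hκ1 ⊢; linarith
  refine m_osc F (lt_of_lt_of_le h.cpos (h.lower _)) (g2.trans hδ1) (g2'.trans hδ1)
    (g3.trans hκ1) (g3'.trans hκ1) ?_ g4 g4'
  have := leaf_osc_A h F o hG hD hgood q hq q' hq'
  have e : 6 * C * kap C = 6 / 10 ^ 8 := by
    rw [mul_assoc, hCκ]; norm_num
  rwa [e] at this

theorem leaf_slope (h : Hyp X N A c C) (F : Frame) (o : ℝ) {D : Set (ℝ × ℝ)} {G : ℝ × ℝ → S}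
    (hG : IsLift (F.psi X N o) (F.dom N A) D G) {x : ℝ}
    (hD : ∀ q ∈ Icc (-kap C) (kap C), (x, q) ∈ D)
    (hgood : ∀ q ∈ Icc (-kap C) (kap C), Good F N A C (G (x, q))) :
    ∀ q ∈ Icc (-kap C) (kap C), |F.m (N (G (x, q))) (A (G (x, q)))| ≤ 1 / 10 ^ 4 := by
  intro q hq
  obtain ⟨hκ0, hκ1, hCκ, hδ0, hδ⟩ := kap_del h.one_le
  have hd : ∀ t ∈ Icc (-kap C) (kap C), HasDerivWithinAt (fun q => F.p (N (G (x, q))))
      (F.m (N (G (x, t))) (A (G (x, t)))) (Icc (-kap C) (kap C)) t := by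
    intro t ht
    have h1 := (strip_deriv h F o hG (z := (x, t)) (hD t ht)).2.2.2.2.1
    exact h1.mono (fun y hy => hD y hy)
  have hlt : -kap C < kap C := by linarith
  obtain ⟨t, ht, hslope⟩ := exists_hasDerivAt_eq_slope (fun q => F.p (N (G (x, q))))
    (fun t => F.m (N (G (x, t))) (A (G (x, t)))) hlt
    (fun t ht => (hd t ht).continuousWithinAt)
    (fun t ht => (hd t (Ioo_subset_Icc_self ht)).hasDerivAt (Icc_mem_nhds ht.1 ht.2))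
  have h1 := (hgood (kap C) (right_mem_Icc.mpr hlt.le)).2.1
  have h2 := (hgood (-kap C) (left_mem_Icc.mpr hlt.le)).2.1
  have h3 : |F.m (N (G (x, t))) (A (G (x, t)))| ≤ 6 / 10 ^ 5 := by
    have h4 : F.m (N (G (x, t))) (A (G (x, t))) =
        (F.p (N (G (x, kap C))) - F.p (N (G (x, -kap C)))) / (kap C - -kap C) := hslope
    have h5 : (0 : ℝ) < kap C - -kap C := by linarith
    rw [h4, abs_div, abs_of_pos h5, div_le_iff₀ h5]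
    calc |F.p (N (G (x, kap C))) - F.p (N (G (x, -kap C)))|
        ≤ |F.p (N (G (x, kap C)))| + |F.p (N (G (x, -kap C)))| := abs_sub _ _
      _ ≤ del C + del C := add_le_add h1 h2
      _ = 6 / 10 ^ 5 * (kap C - -kap C) := by rw [hδ]; ring
  have h4 := leaf_osc_m h F o hG hD hgood q hq t (Ioo_subset_Icc_self ht)
  have h5 := abs_sub_abs_le_abs_sub (F.m (N (G (x, q))) (A (G (x, q))))
    (F.m (N (G (x, t))) (A (G (x, t))))
  norm_num at h3 h4 h5 ⊢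
  linarith

end Pool.Agent.Helper50.MS
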