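import Pool.Agent.Helper50.MS.LiftUnique

/-!
# MS-03  Closing a lift over a half open rectangle

`lift_close`: a lift over `[0,ℓ) × [c₁,c₂]`, such that for every `q` the limit for `x → ℓ` exists in `S₀`, extends to `[0,ℓ] × [c₁,c₂]`.

Proof. Put `G' (ℓ,q) = lim` (choice) and `G' = G` for `x < ℓ`. For `q ∈ J` let `e` be the local homeomorphism at `s = G' (ℓ,q) ∈ S₀`, `Φ s = (ℓ,q)` (limit of
`Φ (G (x,q)) = (x,q)`; `Φ` is continuous at `s` because it is a local homeomorphism there). Take `r` with `Q = (ℓ-r,ℓ+r) × (q-r,q+r) ⊆ e.target`, `e.symm` a lift over `Q`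
(shrink so that `e.symm '' Q ⊆ S₀`). There is `x₁ ∈ (ℓ-r,ℓ)`, `x₁ ≥ 0`, with
`G (x₁,q) ∈ e.source`, so `G (x₁,q) = e.symm (x₁,q)`; `Q ∩ ([0,ℓ) × J)` is a product of two intervals, so preconnected, and `lift_unique` gives
`G = e.symm` on it. So for `q'` near `q` the limit `G' (ℓ,q')` is `e.symm (ℓ,q')` (uniqueness of limits), and `G' = e.symm` on
`Q ∩ ([0,ℓ] × J)`: continuous at `(ℓ,q)`; and `Φ (G' (ℓ,q)) = (ℓ,q)`. At points with `x < ℓ` continuity is that of `G`.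
-/

set_option autoImplicit false

open Filter Topology Set
open scoped RealInnerProductSpace

namespace Pool.Agent.Helper50.MS

variable {S : Type} [TopologicalSpace S] [T2Space S]

/-- near a point of the right side the lift is the local inverse -/
private theorem lift_close_aux {Φ : S → ℝ × ℝ} {S₀ : Set S} (hS₀ : IsOpen S₀)
    (hΦ : IsLocalHomeomorphOn Φ S₀) {ℓ c₁ c₂ : ℝ} (hℓ : 0 < ℓ) {G : ℝ × ℝ → S}
    (h : IsLift Φ S₀ (Ico 0 ℓ ×ˢ Icc c₁ c₂) G) {s : ℝ → S}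
    (hs : ∀ q ∈ Icc c₁ c₂, s q ∈ S₀)
    (hst : ∀ q ∈ Icc c₁ c₂, Tendsto (fun x => G (x, q)) (𝓝[<] ℓ) (𝓝 (s q)))
    (hΦs : ∀ q ∈ Icc c₁ c₂, Φ (s q) = (ℓ, q)) {q : ℝ} (hq : q ∈ Icc c₁ c₂) :
    ∃ (r : ℝ) (k : ℝ × ℝ → S), 0 < r ∧ ContinuousAt k (ℓ, q) ∧
      (∀ x ∈ Ioo (ℓ - r) ℓ, ∀ q' ∈ Ioo (q - r) (q + r) ∩ Icc c₁ c₂, G (x, q') = k (x, q')) ∧
      ∀ q' ∈ Ioo (q - r) (q + r) ∩ Icc c₁ c₂, s q' = k (ℓ, q') := by
  obtain ⟨e, he, rfl⟩ := hΦ (s q) (hs q hq)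
  have htar : ((ℓ, q) : ℝ × ℝ) ∈ e.target := by
    rw [← hΦs q hq]
    exact e.map_source he
  have hsym : e.symm (ℓ, q) = s q := by
    rw [← hΦs q hq]
    exact e.left_inv he
  have hca : ContinuousAt e.symm (ℓ, q) := e.continuousAt_symm htar
  have hN : e.target ∩ e.symm ⁻¹' S₀ ∈ 𝓝 ((ℓ, q) : ℝ × ℝ) := by
    apply inter_mem (e.open_target.mem_nhds htar)
    apply hca
    rw [hsym]
    exact hS₀.mem_nhds (hs q hq)
  obtain ⟨r₀, hr₀, hball⟩ := Metric.mem_nhds_iff.mp hN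
  have hr : 0 < min r₀ ℓ := lt_min hr₀ hℓ
  have hr1 : min r₀ ℓ ≤ r₀ := min_le_left _ _
  have hr2 : min r₀ ℓ ≤ ℓ := min_le_right _ _
  set r := min r₀ ℓ with hrdef
  have hQ : ∀ x q' : ℝ, ℓ - r < x → x ≤ ℓ → q' ∈ Ioo (q - r) (q + r) →
      (x, q') ∈ e.target ∩ e.symm ⁻¹' S₀ := by
    intro x q' h1 h2 h3
    apply hball
    rw [Metric.mem_ball, Prod.dist_eq, max_lt_iff]
    constructor
    · show dist x ℓ < r₀
      rw [Real.dist_eq, abs_lt]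
      constructor <;> linarith
    · show dist q' q < r₀
      rw [Real.dist_eq, abs_lt]
      constructor <;> linarith [h3.1, h3.2]
  refine ⟨r, e.symm, hr, hca, ?_, ?_⟩
  all_goals
    have hEq : EqOn G e.symm (Ioo (ℓ - r) ℓ ×ˢ (Ioo (q - r) (q + r) ∩ Icc c₁ c₂)) := by
      have hpre : IsPreconnected (Ioo (ℓ - r) ℓ ×ˢ (Ioo (q - r) (q + r) ∩ Icc c₁ c₂)) :=
        isPreconnected_Ioo.prod (ordConnected_Ioo.inter ordConnected_Icc).isPreconnected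
      have hsub : Ioo (ℓ - r) ℓ ×ˢ (Ioo (q - r) (q + r) ∩ Icc c₁ c₂) ⊆ Ico 0 ℓ ×ˢ Icc c₁ c₂ := by
        rintro ⟨x, q'⟩ ⟨hx, hq'⟩
        exact ⟨⟨by linarith [hx.1], hx.2⟩, hq'.2⟩
      have h1 : IsLift (e : S → ℝ × ℝ) S₀ (Ioo (ℓ - r) ℓ ×ˢ (Ioo (q - r) (q + r) ∩ Icc c₁ c₂)) G :=
        ⟨h.cont.mono hsub, fun z hz => h.mem z (hsub hz), fun z hz => h.eq z (hsub hz)⟩
      have h2 : IsLift (e : S → ℝ × ℝ) S₀ (Ioo (ℓ - r) ℓ ×ˢ (Ioo (q - r) (q + r) ∩ Icc c₁ c₂))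
          e.symm := by
        refine ⟨e.continuousOn_symm.mono ?_, ?_, ?_⟩
        · rintro ⟨x, q'⟩ ⟨hx, hq'⟩
          exact (hQ x q' hx.1 hx.2.le hq'.1).1
        · rintro ⟨x, q'⟩ ⟨hx, hq'⟩
          exact (hQ x q' hx.1 hx.2.le hq'.1).2
        · rintro ⟨x, q'⟩ ⟨hx, hq'⟩
          exact e.right_inv (hQ x q' hx.1 hx.2.le hq'.1).1
      have h3 : ∀ᶠ x in 𝓝[<] ℓ, G (x, q) ∈ e.source :=
        (hst q hq).eventually (e.open_source.mem_nhds he)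
      have h4 : ∀ᶠ x in 𝓝[<] ℓ, x ∈ Ioo (ℓ - r) ℓ := Ioo_mem_nhdsLT (by linarith)
      obtain ⟨x₁, hx1, hx2⟩ := (h3.and h4).exists
      have hmem : ((x₁, q) : ℝ × ℝ) ∈ Ioo (ℓ - r) ℓ ×ˢ (Ioo (q - r) (q + r) ∩ Icc c₁ c₂) :=
        ⟨hx2, ⟨by constructor <;> linarith, hq⟩⟩
      refine lift_unique hΦ hpre h1 h2 hmem ?_
      have h5 := h1.eq _ hmem
      have h6 := e.left_inv hx1
      rw [h5] at h6
      exact h6.symm
  · intro x hx q' hq'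
    exact hEq ⟨hx, hq'⟩
  · intro q' hq'
    have h1 : ContinuousAt e.symm (ℓ, q') :=
      e.continuousAt_symm (hQ ℓ q' (by linarith) le_rfl hq'.1).1
    have h2 : Tendsto (fun x : ℝ => e.symm (x, q')) (𝓝[<] ℓ) (𝓝 (e.symm (ℓ, q'))) := by
      have h3 : Tendsto (fun x : ℝ => ((x, q') : ℝ × ℝ)) (𝓝[<] ℓ) (𝓝 (ℓ, q')) := by
        have : Continuous fun x : ℝ => ((x, q') : ℝ × ℝ) := by fun_prop
        exact (this.tendsto ℓ).mono_left nhdsWithin_le_nhds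
      exact h1.tendsto.comp h3
    have h4 : (fun x => G (x, q')) =ᶠ[𝓝[<] ℓ] fun x => e.symm (x, q') := by
      filter_upwards [Ioo_mem_nhdsLT (show ℓ - r < ℓ by linarith)] with x hx
      exact hEq ⟨hx, hq'⟩
    exact tendsto_nhds_unique (hst q' hq'.2) (h2.congr' h4.symm)

theorem lift_close {Φ : S → ℝ × ℝ} {S₀ : Set S} (hS₀ : IsOpen S₀) (hΦ : IsLocalHomeomorphOn Φ S₀)
    {ℓ c₁ c₂ : ℝ} (hℓ : 0 < ℓ) (hc : c₁ ≤ c₂) {G : ℝ × ℝ → S}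
    (h : IsLift Φ S₀ (Ico 0 ℓ ×ˢ Icc c₁ c₂) G)
    (hlim : ∀ q ∈ Icc c₁ c₂, ∃ s ∈ S₀, Tendsto (fun x => G (x, q)) (𝓝[<] ℓ) (𝓝 s)) :
    ∃ G' : ℝ × ℝ → S, IsLift Φ S₀ (Icc 0 ℓ ×ˢ Icc c₁ c₂) G' ∧
      EqOn G' G (Ico 0 ℓ ×ˢ Icc c₁ c₂) := by
  have : Nonempty S := ⟨G (0, 0)⟩
  choose! s hs hst using hlim
  have hΦs : ∀ q ∈ Icc c₁ c₂, Φ (s q) = (ℓ, q) := by
    intro q hq
    have h1 : Tendsto (fun x => Φ (G (x, q))) (𝓝[<] ℓ) (𝓝 (Φ (s q))) :=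
      (hΦ.continuousAt (hs q hq)).tendsto.comp (hst q hq)
    have h2 : Tendsto (fun x : ℝ => ((x, q) : ℝ × ℝ)) (𝓝[<] ℓ) (𝓝 (ℓ, q)) := by
      have : Continuous fun x : ℝ => ((x, q) : ℝ × ℝ) := by fun_prop
      exact (this.tendsto ℓ).mono_left nhdsWithin_le_nhds
    refine tendsto_nhds_unique (h1.congr' ?_) h2
    filter_upwards [Ioo_mem_nhdsLT hℓ] with x hx
    exact h.eq _ ⟨⟨hx.1.le, hx.2⟩, hq⟩
  classical
  set G' : ℝ × ℝ → S := fun z => if z.1 < ℓ then G z else s z.2 with hG'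
  have hG1 : ∀ z : ℝ × ℝ, z.1 < ℓ → G' z = G z := fun z hz => if_pos hz
  have hG2 : ∀ z : ℝ × ℝ, ¬ z.1 < ℓ → G' z = s z.2 := fun z hz => if_neg hz
  refine ⟨G', ⟨?_, ?_, ?_⟩, fun z hz => hG1 z hz.1.2⟩
  · rintro ⟨x, q⟩ ⟨hx, hq⟩
    simp only at hx hq
    by_cases hxl : x < ℓ
    · have h1 : ContinuousWithinAt G (Ico 0 ℓ ×ˢ Icc c₁ c₂) (x, q) := h.cont _ ⟨⟨hx.1, hxl⟩, hq⟩
      have hO : {z : ℝ × ℝ | z.1 < ℓ} ∈ 𝓝 ((x, q) : ℝ × ℝ) :=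
        (isOpen_lt continuous_fst continuous_const).mem_nhds hxl
      rw [← continuousWithinAt_inter hO]
      have h2 : (Icc 0 ℓ ×ˢ Icc c₁ c₂) ∩ {z : ℝ × ℝ | z.1 < ℓ} ⊆ Ico 0 ℓ ×ˢ Icc c₁ c₂ := by
        rintro z ⟨⟨hz1, hz2⟩, hz3⟩
        exact ⟨⟨hz1.1, hz3⟩, hz2⟩
      exact (h1.mono h2).congr (fun z hz => hG1 z hz.2) (hG1 _ hxl)
    · have hxe : x = ℓ := le_antisymm hx.2 (not_lt.mp hxl)
      subst hxe
      obtain ⟨r, k, hr, hk, hk1, hk2⟩ := lift_close_aux hS₀ hΦ hℓ h hs hst hΦs hq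
      have h1 : G' (x, q) = k (x, q) := by
        rw [hG2 _ hxl]
        exact hk2 q ⟨by constructor <;> linarith, hq⟩
      refine hk.continuousWithinAt.congr_of_eventuallyEq ?_ h1
      have hO : Ioo (x - r) (x + r) ×ˢ Ioo (q - r) (q + r) ∈ 𝓝 ((x, q) : ℝ × ℝ) :=
        prod_mem_nhds (Ioo_mem_nhds (by linarith) (by linarith))
          (Ioo_mem_nhds (by linarith) (by linarith))
      filter_upwards [nhdsWithin_le_nhds hO, self_mem_nhdsWithin] with z hz hzD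
      by_cases hz1 : z.1 < x
      · rw [hG1 _ hz1]
        exact hk1 z.1 ⟨hz.1.1, hz1⟩ z.2 ⟨hz.2, hzD.2⟩
      · have hz2 : z.1 = x := le_antisymm hzD.1.2 (not_lt.mp hz1)
        rw [hG2 _ hz1]
        have := hk2 z.2 ⟨hz.2, hzD.2⟩
        rw [← hz2] at this
        exact this
  · rintro z ⟨hz1, hz2⟩
    by_cases hz : z.1 < ℓ
    · rw [hG1 z hz]
      exact h.mem z ⟨⟨hz1.1, hz⟩, hz2⟩
    · rw [hG2 z hz]
      exact hs _ hz2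
  · rintro z ⟨hz1, hz2⟩
    by_cases hz : z.1 < ℓ
    · rw [hG1 z hz]
      exact h.eq z ⟨⟨hz1.1, hz⟩, hz2⟩
    · rw [hG2 z hz, hΦs _ hz2]
      exact Prod.ext (le_antisymm (not_lt.mp hz) hz1.2) rfl

end Pool.Agent.Helper50.MS
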