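import Pool.Agent.Helper50.MS.LiftExtend
import Pool.Agent.Helper50.MS.LiftClose

/-!
# MS-04  The continuation dichotomy

Proof. Let `J = [c₁,c₂]` and `T = {ℓ > 0 | ∃ G, IsLift Φ S₀ ([0,ℓ] × J) G ∧ G ∈ 𝒢 ∧ G (0,·) = g₀}`.
(a) `T` is not empty: `fun z => g₀ z.2` is a lift over `[0,0] × J` (on this set `z.1 = 0`); `lift_extend` gives a lift `G` over `[0,δ] × J`; since
`G (0,q) ∈ 𝒢₀` (open) for `q` in the compact `J` and `G` is continuous, there is `0 < δ' ≤ δ` with `G ([0,δ'] × J) ⊆ 𝒢₀ ⊆ 𝒢`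
(tube lemma `generalized_tube_lemma`, or: the set of `z` in the compact `[0,δ] × J` with `G z ∉ 𝒢₀` is compact and does not meet `x = 0`).
(b) `T` is downward closed in `(0,∞)`, and two lifts for `ℓ ≤ ℓ'` agree over `[0,ℓ] × J` (`lift_unique`, start point `(0,c₁)`).
(c) If `T` is unbounded: for `x ≥ 0` let `G (x,q) = G_ℓ (x,q)` for the lift of a chosen `ℓ(x) ∈ T`, `ℓ(x) > x` - by (b) it does not depend on the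
choice; near a point it agrees with one `G_ℓ` (`ℓ > x + 1`): continuous. First alternative.
(d) If `T` is bounded let `ℓ = sup T > 0`; as in (c) there is a lift over `[0,ℓ) × J` with values in `𝒢`, start `g₀`. By `hlim` the limits
exist in `𝒢 ⊆ S₀`; `lift_close` gives a lift `G'` over `[0,ℓ] × J`; its values at `x = ℓ` are the limits (uniqueness of limits, `G'` is
continuous), so they are in `𝒢`. If all `G' (ℓ,q) ∈ 𝒢₀` then `lift_extend` and the argument in (a) give a lift over `[0,ℓ+δ'] × J` with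
values in `𝒢`, contradiction. So the second alternative holds.
-/

set_option autoImplicit false

open Filter Topology Set

namespace Pool.Agent.Helper50.MS

variable {S : Type} [TopologicalSpace S] [T2Space S]

omit [T2Space S] in
private theorem lift_mono {Φ : S → ℝ × ℝ} {S₀ : Set S} {D D' : Set (ℝ × ℝ)} {G : ℝ × ℝ → S}
    (h : IsLift Φ S₀ D G) (hD : D' ⊆ D) : IsLift Φ S₀ D' G :=
  ⟨h.cont.mono hD, fun z hz => h.mem z (hD hz), fun z hz => h.eq z (hD hz)⟩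

/-- A good lift over `[0, ℓ] × [c₁, c₂]`. -/
private structure GoodLift (Φ : S → ℝ × ℝ) (S₀ 𝒢 : Set S) (c₁ c₂ : ℝ) (g₀ : ℝ → S) (ℓ : ℝ)
    (G : ℝ × ℝ → S) : Prop where
  lift : IsLift Φ S₀ (Icc 0 ℓ ×ˢ Icc c₁ c₂) G
  val : ∀ z ∈ Icc 0 ℓ ×ˢ Icc c₁ c₂, G z ∈ 𝒢
  start : ∀ q ∈ Icc c₁ c₂, G (0, q) = g₀ q

private theorem good_unique {Φ : S → ℝ × ℝ} {S₀ 𝒢 : Set S} (hΦ : IsLocalHomeomorphOn Φ S₀)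
    {c₁ c₂ : ℝ} (hc : c₁ ≤ c₂) {g₀ : ℝ → S} {ℓ ℓ' : ℝ} {G G' : ℝ × ℝ → S}
    (h : GoodLift Φ S₀ 𝒢 c₁ c₂ g₀ ℓ G) (h' : GoodLift Φ S₀ 𝒢 c₁ c₂ g₀ ℓ' G') {x q : ℝ} (hx0 : 0 ≤ x)
    (hx : x ≤ ℓ) (hx' : x ≤ ℓ') (hq : q ∈ Icc c₁ c₂) : G (x, q) = G' (x, q) := by
  have hD : IsPreconnected (Icc 0 x ×ˢ Icc c₁ c₂) :=
    (isPreconnected_Icc).prod isPreconnected_Icc
  have h1 : IsLift Φ S₀ (Icc 0 x ×ˢ Icc c₁ c₂) G :=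
    lift_mono h.lift (prod_mono (Icc_subset_Icc_right hx) subset_rfl)
  have h2 : IsLift Φ S₀ (Icc 0 x ×ˢ Icc c₁ c₂) G' :=
    lift_mono h'.lift (prod_mono (Icc_subset_Icc_right hx') subset_rfl)
  have hc₁ : c₁ ∈ Icc c₁ c₂ := left_mem_Icc.2 hc
  exact lift_unique hΦ hD h1 h2 (z₀ := (0, c₁)) ⟨left_mem_Icc.2 hx0, hc₁⟩
    (by rw [h.start _ hc₁, h'.start _ hc₁]) ⟨right_mem_Icc.2 hx0, hq⟩

private theorem good_extend {Φ : S → ℝ × ℝ} {S₀ 𝒢 𝒢₀ : Set S} (hS₀ : IsOpen S₀)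
    (hΦ : IsLocalHomeomorphOn Φ S₀) (h𝒢₀ : 𝒢₀ ⊆ 𝒢) (ho : IsOpen 𝒢₀)
    {c₁ c₂ : ℝ} (hc : c₁ ≤ c₂) {g₀ : ℝ → S} {ℓ : ℝ} (hℓ : 0 ≤ ℓ) {G : ℝ × ℝ → S}
    (h : GoodLift Φ S₀ 𝒢 c₁ c₂ g₀ ℓ G) (hend : ∀ q ∈ Icc c₁ c₂, G (ℓ, q) ∈ 𝒢₀) :
    ∃ ℓ' : ℝ, ℓ < ℓ' ∧ ∃ G', GoodLift Φ S₀ 𝒢 c₁ c₂ g₀ ℓ' G' := by
  obtain ⟨δ, hδ, G', hG', hEq⟩ := lift_extend hS₀ hΦ hℓ hc h.lift
  obtain ⟨u, hu, hu'⟩ := continuousOn_iff'.1 hG'.cont 𝒢₀ ho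
  have hsub : ({ℓ} : Set ℝ) ×ˢ Icc c₁ c₂ ⊆ u := by
    rintro ⟨x, q⟩ ⟨hx, hq⟩
    have hx' : x = ℓ := hx
    subst hx'
    have hmem : ((x, q) : ℝ × ℝ) ∈ Icc 0 (x + δ) ×ˢ Icc c₁ c₂ := ⟨⟨hℓ, by linarith⟩, hq⟩
    have hval : G' (x, q) ∈ 𝒢₀ := by
      rw [hEq ⟨right_mem_Icc.2 hℓ, hq⟩]
      exact hend q hq
    have h1 : ((x, q) : ℝ × ℝ) ∈ G' ⁻¹' 𝒢₀ ∩ Icc 0 (x + δ) ×ˢ Icc c₁ c₂ := ⟨hval, hmem⟩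
    rw [hu'] at h1
    exact h1.1
  obtain ⟨v, w, hv, -, hv1, hw1, hvw⟩ :=
    generalized_tube_lemma isCompact_singleton isCompact_Icc hu hsub
  obtain ⟨ε, hε, hball⟩ := Metric.isOpen_iff.1 hv ℓ (hv1 rfl)
  refine ⟨ℓ + min δ (ε / 2), by have := lt_min hδ (half_pos hε); linarith, G', ?_, ?_, ?_⟩
  · refine lift_mono hG' (prod_mono (Icc_subset_Icc_right ?_) subset_rfl)
    have := min_le_left δ (ε / 2)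
    linarith
  · rintro ⟨x, q⟩ ⟨⟨hx0, hx1⟩, hq⟩
    simp only at hx0 hx1 hq
    rcases le_or_gt x ℓ with hx | hx
    · rw [hEq ⟨⟨hx0, hx⟩, hq⟩]
      exact h.val _ ⟨⟨hx0, hx⟩, hq⟩
    · have h1 := min_le_left δ (ε / 2)
      have h2 := min_le_right δ (ε / 2)
      have hxv : x ∈ v := by
        refine hball ?_
        rw [Metric.mem_ball, Real.dist_eq, abs_lt]
        constructor <;> linarith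
      have h3 : ((x, q) : ℝ × ℝ) ∈ u ∩ Icc 0 (ℓ + δ) ×ˢ Icc c₁ c₂ :=
        ⟨hvw ⟨hxv, hw1 hq⟩, ⟨hx0, by linarith⟩, hq⟩
      rw [← hu'] at h3
      exact h𝒢₀ h3.1
  · intro q hq
    rw [hEq ⟨left_mem_Icc.2 hℓ, hq⟩]
    exact h.start q hq

private theorem good_glue {Φ : S → ℝ × ℝ} {S₀ 𝒢 : Set S} (hΦ : IsLocalHomeomorphOn Φ S₀)
    {c₁ c₂ : ℝ} (hc : c₁ ≤ c₂) {g₀ : ℝ → S} (I : Set ℝ) (hI : ∀ x ∈ I, 0 ≤ x) (h0 : (0 : ℝ) ∈ I)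
    (hT : ∀ x ∈ I, ∃ ℓ, x < ℓ ∧ ∃ G, GoodLift Φ S₀ 𝒢 c₁ c₂ g₀ ℓ G) :
    ∃ G : ℝ × ℝ → S, IsLift Φ S₀ (I ×ˢ Icc c₁ c₂) G ∧ (∀ z ∈ I ×ˢ Icc c₁ c₂, G z ∈ 𝒢) ∧
      ∀ q ∈ Icc c₁ c₂, G (0, q) = g₀ q := by
  classical
  haveI : Nonempty S := ⟨g₀ 0⟩
  choose! L hL F hF using hT
  have key : ∀ x ∈ I, ∀ y ∈ I, x ≤ L y → ∀ q ∈ Icc c₁ c₂, F x (x, q) = F y (x, q) := by
    intro x hx y hy hxy q hq
    exact good_unique hΦ hc (hF x hx) (hF y hy) (hI x hx) (hL x hx).le hxy hq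
  refine ⟨fun z => F z.1 z, ⟨?_, ?_, ?_⟩, ?_, ?_⟩
  · rintro ⟨x, q⟩ ⟨hx, hq⟩
    simp only at hx hq
    have h1 : ContinuousWithinAt (F x) (Icc 0 (L x) ×ˢ Icc c₁ c₂) (x, q) :=
      (hF x hx).lift.cont (x, q) ⟨⟨hI x hx, (hL x hx).le⟩, hq⟩
    have hopen : {z : ℝ × ℝ | z.1 < L x} ∈ 𝓝 ((x, q) : ℝ × ℝ) :=
      (isOpen_lt continuous_fst continuous_const).mem_nhds (hL x hx)
    have h2 : ContinuousWithinAt (F x) (I ×ˢ Icc c₁ c₂) (x, q) := by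
      rw [← continuousWithinAt_inter hopen]
      refine h1.mono ?_
      rintro z ⟨⟨hz1, hz2⟩, hz3⟩
      exact ⟨⟨hI _ hz1, (show z.1 < L x from hz3).le⟩, hz2⟩
    refine h2.congr_of_eventuallyEq ?_ rfl
    filter_upwards [self_mem_nhdsWithin, mem_nhdsWithin_of_mem_nhds hopen] with z hz1 hz2
    exact key z.1 hz1.1 x hx (show z.1 < L x from hz2).le z.2 hz1.2
  · rintro ⟨x, q⟩ ⟨hx, hq⟩
    exact (hF x hx).lift.mem _ ⟨⟨hI x hx, (hL x hx).le⟩, hq⟩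
  · rintro ⟨x, q⟩ ⟨hx, hq⟩
    exact (hF x hx).lift.eq _ ⟨⟨hI x hx, (hL x hx).le⟩, hq⟩
  · rintro ⟨x, q⟩ ⟨hx, hq⟩
    exact (hF x hx).val _ ⟨⟨hI x hx, (hL x hx).le⟩, hq⟩
  · intro q hq
    exact (hF 0 h0).start q hq

theorem lift_dichotomy {Φ : S → ℝ × ℝ} {S₀ 𝒢 𝒢₀ : Set S} (hS₀ : IsOpen S₀)
    (hΦ : IsLocalHomeomorphOn Φ S₀) (h𝒢 : 𝒢 ⊆ S₀) (h𝒢₀ : 𝒢₀ ⊆ 𝒢) (ho : IsOpen 𝒢₀)
    {c₁ c₂ : ℝ} (hc : c₁ ≤ c₂) {g₀ : ℝ → S} (hg₀ : ContinuousOn g₀ (Icc c₁ c₂))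
    (hg₁ : ∀ q ∈ Icc c₁ c₂, g₀ q ∈ 𝒢₀) (hg₂ : ∀ q ∈ Icc c₁ c₂, Φ (g₀ q) = (0, q))
    (hlim : ∀ ℓ : ℝ, 0 < ℓ → ∀ G : ℝ × ℝ → S, IsLift Φ S₀ (Ico 0 ℓ ×ˢ Icc c₁ c₂) G →
      (∀ z ∈ Ico 0 ℓ ×ˢ Icc c₁ c₂, G z ∈ 𝒢) → (∀ q ∈ Icc c₁ c₂, G (0, q) = g₀ q) →
      ∀ q ∈ Icc c₁ c₂, ∃ s ∈ 𝒢, Tendsto (fun x => G (x, q)) (𝓝[<] ℓ) (𝓝 s)) :
    (∃ G : ℝ × ℝ → S, IsLift Φ S₀ (Ici 0 ×ˢ Icc c₁ c₂) G ∧
      (∀ z ∈ Ici 0 ×ˢ Icc c₁ c₂, G z ∈ 𝒢) ∧ ∀ q ∈ Icc c₁ c₂, G (0, q) = g₀ q) ∨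
    ∃ ℓ : ℝ, 0 < ℓ ∧ ∃ G : ℝ × ℝ → S, IsLift Φ S₀ (Icc 0 ℓ ×ˢ Icc c₁ c₂) G ∧
      (∀ z ∈ Icc 0 ℓ ×ˢ Icc c₁ c₂, G z ∈ 𝒢) ∧ (∀ q ∈ Icc c₁ c₂, G (0, q) = g₀ q) ∧
      ∃ q ∈ Icc c₁ c₂, G (ℓ, q) ∉ 𝒢₀ := by
  have hstart : GoodLift Φ S₀ 𝒢 c₁ c₂ g₀ 0 (fun z => g₀ z.2) := by
    refine ⟨⟨?_, ?_, ?_⟩, ?_, fun q _ => rfl⟩
    · exact hg₀.comp continuous_snd.continuousOn (fun z hz => hz.2)
    · intro z hz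
      exact h𝒢 (h𝒢₀ (hg₁ _ hz.2))
    · rintro ⟨x, q⟩ ⟨hx, hq⟩
      have hx0 : x = 0 := le_antisymm hx.2 hx.1
      show Φ (g₀ q) = (x, q)
      rw [hg₂ q hq, hx0]
    · intro z hz
      exact h𝒢₀ (hg₁ _ hz.2)
  obtain ⟨ℓ₀, hℓ₀, G₀, hG₀⟩ := good_extend hS₀ hΦ h𝒢₀ ho hc le_rfl hstart (fun q hq => hg₁ q hq)
  set T : Set ℝ := {ℓ | 0 < ℓ ∧ ∃ G, GoodLift Φ S₀ 𝒢 c₁ c₂ g₀ ℓ G} with hT
  have hne : T.Nonempty := ⟨ℓ₀, hℓ₀, G₀, hG₀⟩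
  by_cases hbdd : BddAbove T
  · right
    have hℓpos : 0 < sSup T := lt_of_lt_of_le hℓ₀ (le_csSup hbdd ⟨hℓ₀, G₀, hG₀⟩)
    obtain ⟨G, hG1, hG2, hG3⟩ := good_glue (Φ := Φ) (S₀ := S₀) (𝒢 := 𝒢) (g₀ := g₀) hΦ hc
      (Ico 0 (sSup T)) (fun x hx => hx.1) ⟨le_rfl, hℓpos⟩ (by
        intro x hx
        obtain ⟨ℓ, ⟨-, G, hG⟩, hxℓ⟩ := exists_lt_of_lt_csSup hne hx.2
        exact ⟨ℓ, hxℓ, G, hG⟩)
    have hl := hlim (sSup T) hℓpos G hG1 hG2 hG3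
    obtain ⟨G', hG', hEq⟩ := lift_close hS₀ hΦ hℓpos hc hG1
      (fun q hq => by
        obtain ⟨s, hs, hs'⟩ := hl q hq
        exact ⟨s, h𝒢 hs, hs'⟩)
    have hgood : GoodLift Φ S₀ 𝒢 c₁ c₂ g₀ (sSup T) G' := by
      refine ⟨hG', ?_, ?_⟩
      · rintro ⟨x, q⟩ ⟨⟨hx0, hx1⟩, hq⟩
        simp only at hx0 hx1 hq
        rcases lt_or_eq_of_le hx1 with hx | hx
        · rw [hEq ⟨⟨hx0, hx⟩, hq⟩]
          exact hG2 _ ⟨⟨hx0, hx⟩, hq⟩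
        · subst hx
          obtain ⟨s, hs, hs'⟩ := hl q hq
          have h1 : Tendsto (fun x => ((x, q) : ℝ × ℝ)) (𝓝[<] (sSup T))
              (𝓝[Icc 0 (sSup T) ×ˢ Icc c₁ c₂] ((sSup T, q) : ℝ × ℝ)) := by
            refine tendsto_nhdsWithin_iff.2 ⟨?_, ?_⟩
            · exact ((continuous_id.prodMk continuous_const).tendsto (sSup T)).mono_left
                nhdsWithin_le_nhds
            · filter_upwards [Ioo_mem_nhdsLT hℓpos] with x hx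
              exact ⟨⟨hx.1.le, hx.2.le⟩, hq⟩
          have h2 : Tendsto (fun x => G' (x, q)) (𝓝[<] (sSup T)) (𝓝 (G' (sSup T, q))) :=
            (hG'.cont (sSup T, q) ⟨⟨hℓpos.le, le_rfl⟩, hq⟩).tendsto.comp h1
          have h3 : Tendsto (fun x => G' (x, q)) (𝓝[<] (sSup T)) (𝓝 s) := by
            refine hs'.congr' ?_
            filter_upwards [Ioo_mem_nhdsLT hℓpos] with x hx
            exact (hEq ⟨⟨hx.1.le, hx.2⟩, hq⟩).symm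
          rw [tendsto_nhds_unique h2 h3]
          exact hs
      · intro q hq
        rw [hEq ⟨⟨le_rfl, hℓpos⟩, hq⟩]
        exact hG3 q hq
    refine ⟨sSup T, hℓpos, G', hgood.lift, hgood.val, hgood.start, ?_⟩
    by_contra hcon
    push Not at hcon
    obtain ⟨ℓ', hℓ', G'', hG''⟩ := good_extend hS₀ hΦ h𝒢₀ ho hc hℓpos.le hgood hcon
    have hmem : ℓ' ∈ T := ⟨hℓpos.trans hℓ', G'', hG''⟩
    exact absurd (le_csSup hbdd hmem) (not_le.2 hℓ')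
  · left
    refine good_glue (Φ := Φ) (S₀ := S₀) (𝒢 := 𝒢) (g₀ := g₀) hΦ hc
      (Ici 0) (fun x hx => hx) (mem_Ici.2 le_rfl) ?_
    intro x _
    by_contra hcon
    push Not at hcon
    refine hbdd ⟨x, ?_⟩
    rintro ℓ ⟨-, G, hG⟩
    by_contra hxℓ
    exact hcon ℓ (not_le.1 hxℓ) G hG

end Pool.Agent.Helper50.MS
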