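import Pool.Agent.Helper50.MS.LiftUnique

/-!
# MS-02  Extension of a lift across a compact leaf

`lift_extend`: a lift over `[0,ℓ] × [c₁,c₂]` extends to `[0,ℓ+δ] × [c₁,c₂]` for some `δ > 0`.

Proof. For each `q ∈ J = [c₁,c₂]` let `e_q` be the local homeomorphism of `hΦ` at `G (ℓ,q)`; `e_q.source` may be shrunk into the open set `S₀`
(`OpenPartialHomeomorph.restrOpen` or intersect the target with the open preimage), so that `e_q.symm` is a lift over a square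
`Q_q = (ℓ-2r_q, ℓ+2r_q) × (q-2r_q, q+2r_q)` contained in `e_q.target ∩ e_q.symm ⁻¹' S₀`, and by `lift_eq_symm` (shrink `r_q`) `G = e_q.symm` on
`Q_q ∩ ([0,ℓ] × J)`. By compactness finitely many `(q-r_q, q+r_q)` cover `J`; let `δ = min r_q > 0` over these. Define
`G' (x,q) = G (x,q)` for `x ≤ ℓ` and `G' (x,q) = e_{q_i}.symm (x,q)` for `ℓ < x ≤ ℓ + δ`, where `q_i` is some centre (choice, depending on `q`
only) with `|q - q_i| < r_{q_i}`. Well behaved: if `|q - q_i| < r_i` and `|q - q_j| < r_j` then `e_i.symm` and `e_j.symm` agree on the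
segment `[ℓ,ℓ+δ] × {q}` by `lift_unique` (connected; at `(ℓ,q)` both are `G (ℓ,q)`). So near a point `(x,q)`, `x > ℓ`, `G' = e_i.symm` on a
neighbourhood (for all `q'` near `q`, `e_i` is admissible), and near `(ℓ,q)`, `G' = e_i.symm` on the part `x ≥ ℓ` and
`G' = G = e_i.symm` on the part `x ≤ ℓ`: continuous.
-/

set_option autoImplicit false

open Filter Topology Set
open scoped RealInnerProductSpace

namespace Pool.Agent.Helper50.MS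

variable {S : Type} [TopologicalSpace S] [T2Space S]

omit [T2Space S] in
private theorem local_lift {Φ : S → ℝ × ℝ} {S₀ : Set S} (hS₀ : IsOpen S₀)
    (hΦ : IsLocalHomeomorphOn Φ S₀) {D : Set (ℝ × ℝ)} {G : ℝ × ℝ → S} (h : IsLift Φ S₀ D G)
    {z : ℝ × ℝ} (hz : z ∈ D) :
    ∃ r : ℝ, 0 < r ∧ ∃ g : ℝ × ℝ → S, IsLift Φ S₀ (Metric.ball z r) g ∧
      ∀ z' ∈ Metric.ball z r, z' ∈ D → G z' = g z' := by
  obtain ⟨e, he, heq⟩ := hΦ (G z) (h.mem z hz)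
  have hez : e (G z) = z := by rw [← heq, h.eq z hz]
  have htar : z ∈ e.target := by
    have := e.map_source he
    rwa [hez] at this
  have hsy : e.symm z = G z := by
    have := e.left_inv he
    rwa [hez] at this
  have e1 := lift_eq_symm h hz e he (fun u _ => by rw [heq])
  rw [eventually_nhdsWithin_iff] at e1
  have e2 : ∀ᶠ z' in 𝓝 z, z' ∈ e.target := e.open_target.mem_nhds htar
  have e3 : ∀ᶠ z' in 𝓝 z, e.symm z' ∈ S₀ := by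
    refine (e.symm.continuousAt htar).eventually_mem ?_
    rw [hsy]
    exact hS₀.mem_nhds (h.mem z hz)
  obtain ⟨r, hr, hb⟩ := Metric.eventually_nhds_iff_ball.1 (e1.and (e2.and e3))
  refine ⟨r, hr, e.symm, ⟨?_, fun z' hz' => (hb z' hz').2.2, fun z' hz' => ?_⟩,
    fun z' hz' hD => (hb z' hz').1 hD⟩
  · exact e.continuousOn_symm.mono fun z' hz' => (hb z' hz').2.1
  · rw [heq]
    exact e.right_inv (hb z' hz').2.1

theorem lift_extend {Φ : S → ℝ × ℝ} {S₀ : Set S} (hS₀ : IsOpen S₀) (hΦ : IsLocalHomeomorphOn Φ S₀)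
    {ℓ c₁ c₂ : ℝ} (hℓ : 0 ≤ ℓ) (hc : c₁ ≤ c₂) {G : ℝ × ℝ → S}
    (h : IsLift Φ S₀ (Icc 0 ℓ ×ˢ Icc c₁ c₂) G) :
    ∃ δ : ℝ, 0 < δ ∧ ∃ G' : ℝ × ℝ → S, IsLift Φ S₀ (Icc 0 (ℓ + δ) ×ˢ Icc c₁ c₂) G' ∧
      EqOn G' G (Icc 0 ℓ ×ˢ Icc c₁ c₂) := by
  classical
  have hloc : ∀ q : ℝ, ∃ r : ℝ, 0 < r ∧ ∃ g : ℝ × ℝ → S, q ∈ Icc c₁ c₂ →
      IsLift Φ S₀ (Metric.ball ((ℓ, q) : ℝ × ℝ) r) g ∧
      ∀ z' ∈ Metric.ball ((ℓ, q) : ℝ × ℝ) r, z' ∈ Icc 0 ℓ ×ˢ Icc c₁ c₂ → G z' = g z' := by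
    intro q
    by_cases hq : q ∈ Icc c₁ c₂
    · obtain ⟨r, hr, g, h1, h2⟩ := local_lift hS₀ hΦ h (z := (ℓ, q)) ⟨⟨hℓ, le_rfl⟩, hq⟩
      exact ⟨r, hr, g, fun _ => ⟨h1, h2⟩⟩
    · exact ⟨1, one_pos, G, fun hq' => absurd hq' hq⟩
  choose r hr g hg using hloc
  obtain ⟨t, htJ, hcov⟩ := (isCompact_Icc (a := c₁) (b := c₂)).elim_nhds_subcover
    (fun q => Metric.ball q (r q)) (fun q _ => Metric.ball_mem_nhds q (hr q))
  have hev : ∀ᶠ δ in 𝓝[>] (0 : ℝ), ∀ i ∈ t, δ < r i := (Filter.eventually_all_finset t).2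
    fun i _ => (eventually_lt_nhds (hr i)).filter_mono nhdsWithin_le_nhds
  obtain ⟨δ, hδt, hδ0⟩ := (hev.and self_mem_nhdsWithin).exists
  replace hδ0 : 0 < δ := hδ0
  have hc' : ∀ y : ℝ, ∃ i : ℝ, y ∈ Icc c₁ c₂ → i ∈ t ∧ dist y i < r i := by
    intro y
    by_cases hy : y ∈ Icc c₁ c₂
    · obtain ⟨i, hi, hyi⟩ := mem_iUnion₂.1 (hcov hy)
      exact ⟨i, fun _ => ⟨hi, hyi⟩⟩
    · exact ⟨0, fun hy' => absurd hy' hy⟩
  choose c hcc using hc'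
  have hball : ∀ k ∈ t, ∀ z : ℝ × ℝ, ℓ - r k < z.1 → z.1 ≤ ℓ + δ → dist z.2 k < r k →
      z ∈ Metric.ball ((ℓ, k) : ℝ × ℝ) (r k) := by
    intro k hk z h1 h2 h3
    rw [Metric.mem_ball, Prod.dist_eq, max_lt_iff]
    refine ⟨?_, h3⟩
    change dist z.1 ℓ < r k
    rw [Real.dist_eq, abs_lt]
    constructor
    · linarith
    · linarith [hδt k hk]
  have hcons : ∀ y ∈ Icc c₁ c₂, ∀ i ∈ t, dist y i < r i → ∀ j ∈ t, dist y j < r j →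
      ∀ x ∈ Icc ℓ (ℓ + δ), g i (x, y) = g j (x, y) := by
    intro y hy i hi hyi j hj hyj x hx
    have hsub : ∀ k ∈ t, dist y k < r k →
        Icc ℓ (ℓ + δ) ×ˢ {y} ⊆ Metric.ball ((ℓ, k) : ℝ × ℝ) (r k) := by
      rintro k hk hyk ⟨x', y'⟩ ⟨hx', hy'⟩
      rw [mem_singleton_iff] at hy'
      refine hball k hk _ (by linarith [hx'.1, hr k]) hx'.2 ?_
      rw [hy']
      exact hyk
    have hlift : ∀ k ∈ t, dist y k < r k → IsLift Φ S₀ (Icc ℓ (ℓ + δ) ×ˢ {y}) (g k) :=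
      fun k hk hyk => ⟨(hg k (htJ k hk)).1.cont.mono (hsub k hk hyk),
        fun z hz => (hg k (htJ k hk)).1.mem z (hsub k hk hyk hz),
        fun z hz => (hg k (htJ k hk)).1.eq z (hsub k hk hyk hz)⟩
    have hpre : IsPreconnected (Icc ℓ (ℓ + δ) ×ˢ ({y} : Set ℝ)) :=
      isPreconnected_Icc.prod isPreconnected_singleton
    have hin : ((ℓ, y) : ℝ × ℝ) ∈ Icc ℓ (ℓ + δ) ×ˢ ({y} : Set ℝ) :=
      ⟨⟨le_rfl, by linarith⟩, rfl⟩
    have hval : ∀ k ∈ t, dist y k < r k → G (ℓ, y) = g k (ℓ, y) := fun k hk hyk =>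
      (hg k (htJ k hk)).2 (ℓ, y) (hsub k hk hyk hin) ⟨⟨hℓ, le_rfl⟩, hy⟩
    exact lift_unique hΦ hpre (hlift i hi hyi) (hlift j hj hyj) hin
      ((hval i hi hyi).symm.trans (hval j hj hyj)) ⟨hx, rfl⟩
  obtain ⟨G', hG'⟩ : ∃ G' : ℝ × ℝ → S, ∀ z, G' z = if z.1 ≤ ℓ then G z else g (c z.2) z :=
    ⟨_, fun _ => rfl⟩
  have hkey : ∀ i ∈ t, ∀ z ∈ Icc 0 (ℓ + δ) ×ˢ Icc c₁ c₂, dist z.2 i < r i → ℓ - r i < z.1 →
      G' z = g i z := by
    intro i hi z hz h1 h2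
    rw [hG']
    by_cases hx : z.1 ≤ ℓ
    · rw [if_pos hx]
      exact (hg i (htJ i hi)).2 z (hball i hi z h2 hz.1.2 h1) ⟨⟨hz.1.1, hx⟩, hz.2⟩
    · rw [if_neg hx]
      obtain ⟨h3, h4⟩ := hcc z.2 hz.2
      exact hcons z.2 hz.2 _ h3 h4 i hi h1 z.1 ⟨(not_le.1 hx).le, hz.1.2⟩
  refine ⟨δ, hδ0, G', ⟨?_, ?_, ?_⟩, ?_⟩
  · intro z hz
    rcases lt_or_ge z.1 ℓ with hx | hx
    · have hlt : ∀ᶠ z' in 𝓝[Icc 0 (ℓ + δ) ×ˢ Icc c₁ c₂] z, z'.1 < ℓ :=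
        (continuousAt_fst.eventually_lt continuousAt_const hx).filter_mono nhdsWithin_le_nhds
      have hD : Icc 0 ℓ ×ˢ Icc c₁ c₂ ∈ 𝓝[Icc 0 (ℓ + δ) ×ˢ Icc c₁ c₂] z := by
        filter_upwards [hlt, self_mem_nhdsWithin] with z' h1 h2
        exact ⟨⟨h2.1.1, h1.le⟩, h2.2⟩
      have hc1 : ContinuousWithinAt G (Icc 0 (ℓ + δ) ×ˢ Icc c₁ c₂) z :=
        (h.cont z ⟨⟨hz.1.1, hx.le⟩, hz.2⟩).mono_of_mem_nhdsWithin hD
      refine hc1.congr_of_eventuallyEq ?_ ?_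
      · filter_upwards [hlt] with z' h1
        rw [hG', if_pos h1.le]
      · rw [hG', if_pos hx.le]
    · obtain ⟨h3, h4⟩ := hcc z.2 hz.2
      have h5 : ℓ - r (c z.2) < z.1 := by linarith [hr (c z.2)]
      have hc1 : ContinuousWithinAt (g (c z.2)) (Icc 0 (ℓ + δ) ×ˢ Icc c₁ c₂) z :=
        ((hg _ (htJ _ h3)).1.cont.continuousAt
          (Metric.isOpen_ball.mem_nhds (hball _ h3 z h5 hz.1.2 h4))).continuousWithinAt
      refine hc1.congr_of_eventuallyEq ?_ (hkey _ h3 z hz h4 h5)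
      have e1 : ∀ᶠ z' : ℝ × ℝ in 𝓝 z, dist z'.2 (c z.2) < r (c z.2) :=
        (continuousAt_snd.dist continuousAt_const).eventually_lt continuousAt_const h4
      have e2 : ∀ᶠ z' : ℝ × ℝ in 𝓝 z, ℓ - r (c z.2) < z'.1 :=
        continuousAt_const.eventually_lt continuousAt_fst h5
      filter_upwards [e1.filter_mono nhdsWithin_le_nhds, e2.filter_mono nhdsWithin_le_nhds,
        self_mem_nhdsWithin] with z' h6 h7 h8
      exact hkey _ h3 z' h8 h6 h7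
  · intro z hz
    rw [hG']
    by_cases hx : z.1 ≤ ℓ
    · rw [if_pos hx]
      exact h.mem z ⟨⟨hz.1.1, hx⟩, hz.2⟩
    · rw [if_neg hx]
      obtain ⟨h3, h4⟩ := hcc z.2 hz.2
      exact (hg _ (htJ _ h3)).1.mem z
        (hball _ h3 z (by linarith [hr (c z.2), not_le.1 hx]) hz.1.2 h4)
  · intro z hz
    rw [hG']
    by_cases hx : z.1 ≤ ℓ
    · rw [if_pos hx]
      exact h.eq z ⟨⟨hz.1.1, hx⟩, hz.2⟩
    · rw [if_neg hx]
      obtain ⟨h3, h4⟩ := hcc z.2 hz.2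
      exact (hg _ (htJ _ h3)).1.eq z
        (hball _ h3 z (by linarith [hr (c z.2), not_le.1 hx]) hz.1.2 h4)
  · intro z hz
    rw [hG', if_pos hz.1.2]

end Pool.Agent.Helper50.MS
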