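import Pool.Agent.Helper50.MS.Defs

/-!
# MS-01  Uniqueness of lifts and the local inverse at a point of a lift

Part 1 (`lift_unique`). Two lifts over a preconnected set which agree at one point agree. Proof: apply
`IsSeparatedMap.eq_of_comp_eq` / the standard open-closed argument: `E = {z ∈ D | G₁ z = G₂ z}` is closed in `D` (`S` is Hausdorff;
`ContinuousOn`), and open in `D`: at `z ∈ E` take the local homeomorphism `e` of `hΦ` at `G₁ z = G₂ z`; for `z'` near `z` in `D` both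
`G₁ z'`, `G₂ z'` lie in `e.source`, where `Φ = e` is injective, and `Φ (G₁ z') = z' = Φ (G₂ z')`.
(Restrict to the subtype `D`: `PreconnectedSpace D`, `IsClopen` set.)

Part 2 (`lift_eq_symm`). At a point `z` of a lift `G`, `G` agrees near `z` (within `D`) with the local inverse `e.symm`: `G z' ∈ e.source`
for `z'` near `z` by continuity, and `e (G z') = Φ (G z') = z'`.

Part 3 (`lift_open`). If `D` is open, a lift over `D` is an open map: for `V ⊆ D` open, `G '' V` is open. (Near `z`, `G = e.symm` on an open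
set `O ⊆ V ∩ e.target`, and `e.symm '' O` is open.) A lift is injective (`Φ (G z) = z`).
-/

set_option autoImplicit false

open Filter Topology Set

namespace Pool.Agent.Helper50.MS

variable {S : Type} [TopologicalSpace S]

theorem lift_eq_symm {Φ : S → ℝ × ℝ} {S₀ : Set S} {D : Set (ℝ × ℝ)} {G : ℝ × ℝ → S}
    (h : IsLift Φ S₀ D G) {z : ℝ × ℝ} (hz : z ∈ D) (e : OpenPartialHomeomorph S (ℝ × ℝ))
    (he : G z ∈ e.source) (heq : ∀ u ∈ e.source, e u = Φ u) : ∀ᶠ z' in 𝓝[D] z, G z' = e.symm z' := by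
  have h1 : ∀ᶠ z' in 𝓝[D] z, G z' ∈ e.source :=
    (h.cont z hz).eventually (e.open_source.mem_nhds he)
  filter_upwards [h1, self_mem_nhdsWithin] with z' hz' hzD
  have h2 : e (G z') = z' := by rw [heq _ hz', h.eq z' hzD]
  rw [← e.left_inv hz', h2]

theorem lift_unique [T2Space S] {Φ : S → ℝ × ℝ} {S₀ : Set S} (hΦ : IsLocalHomeomorphOn Φ S₀)
    {D : Set (ℝ × ℝ)} (hD : IsPreconnected D) {G₁ G₂ : ℝ × ℝ → S} (h₁ : IsLift Φ S₀ D G₁)
    (h₂ : IsLift Φ S₀ D G₂) {z₀ : ℝ × ℝ} (hz₀ : z₀ ∈ D) (h₀ : G₁ z₀ = G₂ z₀) : EqOn G₁ G₂ D := by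
  have : PreconnectedSpace D := isPreconnected_iff_preconnectedSpace.mp hD
  have c1 : Continuous (D.domRestrict G₁) := continuousOn_iff_continuous_domRestrict.mp h₁.cont
  have c2 : Continuous (D.domRestrict G₂) := continuousOn_iff_continuous_domRestrict.mp h₂.cont
  have hclosed : IsClosed {z : D | D.domRestrict G₁ z = D.domRestrict G₂ z} := isClosed_eq c1 c2
  have hopen : IsOpen {z : D | D.domRestrict G₁ z = D.domRestrict G₂ z} := by
    rw [isOpen_iff_mem_nhds]
    rintro ⟨z, hz⟩ (hzz : G₁ z = G₂ z)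
    obtain ⟨e, he, heq⟩ := hΦ (G₁ z) (h₁.mem z hz)
    have e1 := lift_eq_symm h₁ hz e he (fun u _ => by rw [heq])
    have e2 := lift_eq_symm h₂ hz e (by rw [← hzz]; exact he) (fun u _ => by rw [heq])
    have e3 : ∀ᶠ z' in 𝓝[D] z, G₁ z' = G₂ z' := by
      filter_upwards [e1, e2] with z' h1 h2
      rw [h1, h2]
    rw [nhdsWithin_eq_map_subtype_coe hz, eventually_map] at e3
    exact e3
  have huniv := (IsClopen.eq_univ ⟨hclosed, hopen⟩ ⟨⟨z₀, hz₀⟩, h₀⟩)
  intro z hz
  have : (⟨z, hz⟩ : D) ∈ {z : D | D.domRestrict G₁ z = D.domRestrict G₂ z} := by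
    rw [huniv]; trivial
  exact this

theorem lift_open {Φ : S → ℝ × ℝ} {S₀ : Set S} (hΦ : IsLocalHomeomorphOn Φ S₀)
    {D : Set (ℝ × ℝ)} (hD : IsOpen D) {G : ℝ × ℝ → S} (h : IsLift Φ S₀ D G) :
    (∀ V ⊆ D, IsOpen V → IsOpen (G '' V)) ∧ InjOn G D := by
  constructor
  · intro V hVD hV
    rw [isOpen_iff_mem_nhds]
    rintro _ ⟨z, hz, rfl⟩
    obtain ⟨e, he, heq⟩ := hΦ (G z) (h.mem z (hVD hz))
    have e1 := lift_eq_symm h (hVD hz) e he (fun u _ => by rw [heq])
    rw [hD.nhdsWithin_eq (hVD hz)] at e1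
    have hez : e (G z) = z := by rw [← heq, h.eq z (hVD hz)]
    have htar : z ∈ e.target := by
      have := e.map_source he
      rwa [hez] at this
    obtain ⟨O, hO, hOo, hzO⟩ := mem_nhds_iff.mp (inter_mem (inter_mem e1 (hV.mem_nhds hz))
      (e.open_target.mem_nhds htar))
    have h2 : IsOpen (e.symm '' O) :=
      e.symm.isOpen_image_of_subset_source hOo (fun x hx => (hO hx).2)
    refine mem_of_superset (h2.mem_nhds ⟨z, hzO, ?_⟩) ?_
    · exact (hO hzO).1.1.symm
    · rintro _ ⟨x, hx, rfl⟩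
      exact ⟨x, (hO hx).1.2, (hO hx).1.1⟩
  · intro z hz z' hz' hzz
    rw [← h.eq z hz, ← h.eq z' hz', hzz]

end Pool.Agent.Helper50.MS
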