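import Pool.Agent.Helper50.MS.FrameLin

/-!
# MS-07  Continuity of `X, N, A`; `dom` is open

`surface_cont`: near a point `s = ψ u` the map `ψ` is an open embedding, so `X = (X ∘ ψ) ∘ ψ⁻¹` is continuous at `s`:
for an open `O ∋ X s` the set `{u ∈ U | X (ψ u) ∈ O}` is open (`smoothX` gives `ContinuousOn` on the open `U`), and its image under `ψ` is open (`openMap`), contains `s`, and is mapped to `O` by `X`. Same for
`N`, `A`. `dom_isOpen`: `⟪N s,n⟫` is continuous; where it is positive `p`, `q`, `Xx`, `Xy`, `Hyy` are continuous functions of `(N s, A s)`.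
`H_cont`: `p, q, Xx, Xy, Hxx, Hxy, Hyy` are continuous on the open set `{s | 0 < ⟪N s,n⟫}`, `m` on `dom`.
-/

set_option autoImplicit false

open Filter Topology Set
open scoped RealInnerProductSpace

namespace Pool.Agent.Helper50.MS

variable {S : Type} [TopologicalSpace S] {X N : S → E3} {A : S → End3}

private lemma continuousAt_of_param {V : Type*} [TopologicalSpace V] {g : S → V}
    {U : Set (ℝ × ℝ)} {ψ : ℝ × ℝ → S} (hψ : IsParam X N A U ψ)
    (hg : ContinuousOn (fun u => g (ψ u)) U) {u₀ : ℝ × ℝ} (hu₀ : u₀ ∈ U) :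
    ContinuousAt g (ψ u₀) := by
  intro O hO
  have h1 : ContinuousAt (fun u => g (ψ u)) u₀ := hg.continuousAt (hψ.isOpen.mem_nhds hu₀)
  have h2 : {u | g (ψ u) ∈ O} ∩ U ∈ 𝓝 u₀ :=
    inter_mem (h1 hO) (hψ.isOpen.mem_nhds hu₀)
  obtain ⟨W, hW, hWo, huW⟩ := mem_nhds_iff.mp h2
  have h3 : IsOpen (ψ '' W) := hψ.openMap W (fun u hu => (hW hu).2) hWo
  rw [mem_map]
  refine mem_of_superset (h3.mem_nhds ⟨u₀, huW, rfl⟩) ?_
  rintro _ ⟨u, hu, rfl⟩
  exact (hW hu).1

theorem surface_cont (h : IsSurface X N A) : Continuous X ∧ Continuous N ∧ Continuous A ∧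
    ∀ s, ‖N s‖ = 1 := by
  refine ⟨?_, ?_, ?_, ?_⟩
  · rw [continuous_iff_continuousAt]
    intro s
    obtain ⟨U, ψ, hψ, u₀, hu₀, rfl⟩ := h s
    exact continuousAt_of_param hψ hψ.smoothX.continuousOn hu₀
  · rw [continuous_iff_continuousAt]
    intro s
    obtain ⟨U, ψ, hψ, u₀, hu₀, rfl⟩ := h s
    exact continuousAt_of_param hψ hψ.smoothN.continuousOn hu₀
  · rw [continuous_iff_continuousAt]
    intro s
    obtain ⟨U, ψ, hψ, u₀, hu₀, rfl⟩ := h s
    exact continuousAt_of_param hψ hψ.smoothA.continuousOn hu₀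
  · intro s
    obtain ⟨U, ψ, hψ, u₀, hu₀, rfl⟩ := h s
    exact hψ.unit u₀ hu₀

theorem H_cont (h : IsSurface X N A) (F : Frame) :
    ContinuousOn (fun s => F.p (N s)) {s | 0 < ⟪N s, F.n⟫} ∧
    ContinuousOn (fun s => F.q (N s)) {s | 0 < ⟪N s, F.n⟫} ∧
    ContinuousOn (fun s => F.Hxx (N s) (A s)) {s | 0 < ⟪N s, F.n⟫} ∧
    ContinuousOn (fun s => F.Hxy (N s) (A s)) {s | 0 < ⟪N s, F.n⟫} ∧
    ContinuousOn (fun s => F.Hyy (N s) (A s)) {s | 0 < ⟪N s, F.n⟫} ∧
    ContinuousOn (fun s => F.m (N s) (A s)) (F.dom N A) := by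
  obtain ⟨-, hN, hA, -⟩ := surface_cont h
  have hi : ∀ w : E3, ContinuousOn (fun s => ⟪N s, w⟫) {s | 0 < ⟪N s, F.n⟫} := fun w =>
    (hN.inner continuous_const).continuousOn
  have hp : ContinuousOn (fun s => F.p (N s)) {s | 0 < ⟪N s, F.n⟫} :=
    ((hi F.a).neg).div (hi F.n) fun s hs => ne_of_gt hs
  have hq : ContinuousOn (fun s => F.q (N s)) {s | 0 < ⟪N s, F.n⟫} :=
    ((hi F.b).neg).div (hi F.n) fun s hs => ne_of_gt hs
  have hx : ContinuousOn (fun s => F.Xx (N s)) {s | 0 < ⟪N s, F.n⟫} :=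
    continuousOn_const.add (hp.smul continuousOn_const)
  have hy : ContinuousOn (fun s => F.Xy (N s)) {s | 0 < ⟪N s, F.n⟫} :=
    continuousOn_const.add (hq.smul continuousOn_const)
  have hAx : ContinuousOn (fun s => A s (F.Xx (N s))) {s | 0 < ⟪N s, F.n⟫} :=
    hA.continuousOn.clm_apply hx
  have hAy : ContinuousOn (fun s => A s (F.Xy (N s))) {s | 0 < ⟪N s, F.n⟫} :=
    hA.continuousOn.clm_apply hy
  have hxx : ContinuousOn (fun s => F.Hxx (N s) (A s)) {s | 0 < ⟪N s, F.n⟫} := hAx.inner hx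
  have hxy : ContinuousOn (fun s => F.Hxy (N s) (A s)) {s | 0 < ⟪N s, F.n⟫} := hAx.inner hy
  have hyy : ContinuousOn (fun s => F.Hyy (N s) (A s)) {s | 0 < ⟪N s, F.n⟫} := hAy.inner hy
  refine ⟨hp, hq, hxx, hxy, hyy, ?_⟩
  exact (hxy.mono fun s hs => hs.1).div (hyy.mono fun s hs => hs.1) fun s hs => ne_of_gt hs.2

theorem dom_isOpen (h : IsSurface X N A) (F : Frame) : IsOpen (F.dom N A) := by
  obtain ⟨-, hN, -, -⟩ := surface_cont h
  have h1 : IsOpen {s | 0 < ⟪N s, F.n⟫} :=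
    isOpen_lt continuous_const (hN.inner continuous_const)
  exact (H_cont h F).2.2.2.2.1.isOpen_inter_preimage h1 isOpen_Ioi

end Pool.Agent.Helper50.MS
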