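import Pool.Agent.Helper50.MS.EigenLin
import Pool.Agent.Helper50.MS.SurfCont

/-!
# MS-08  The local inverse of `psi` with its derivatives

`psi_local_inverse`. PROOF. Let `s = ψ u₀`, `IsParam X N A U ψ`, `dX = fderiv (X ∘ ψ) u₀`, `Nn = ⟪N s,n⟫ > 0`. The map `f = psi ∘ ψ : U → ℝ²`,
`f u = (⟪X (ψ u),a⟫ - o, -⟪N (ψ u),b⟫/⟪N (ψ u),n⟫)` is of class `C^∞` near `u₀`, with derivative at `v`, `τ = dX v`, `dN v = -A τ`:
 `(⟪τ,a⟫, (⟪A τ,b⟫ ⟪N,n⟫ - ⟪N,b⟫⟪A τ,n⟫)/Nn²) = (⟪τ,a⟫, ⟪A τ, Xy⟫ / Nn)` (because `q = -⟪N,b⟫/Nn`, `Xy = b + q n`); in the same way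
 `d(p) = ⟪A τ, Xx⟫ / Nn`. The derivative is injective: `τ ⟂ N` so `τ = ⟪τ,a⟫ Xx + ⟪τ,b⟫ Xy` (`tangent_expand`); if `⟪τ,a⟫ = 0` and
 `0 = ⟪A τ,Xy⟫ = ⟪τ,b⟫ Hyy` then `τ = 0`, `v = 0` (`immersion`). So it is bijective (`ℝ × ℝ`, `LinearMap.injective_iff_surjective`,
 `ContinuousLinearEquiv.ofBijective`), and the inverse function theorem (`ContDiffAt.toOpenPartialHomeomorph` or
 `HasStrictFDerivAt.toOpenPartialHomeomorph`) gives a local inverse `g` of `f` with `HasFDerivAt g (f')⁻¹ (f u₀)`. The partial homeomorphism `e` of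
 `S` is the composition of the inverse of `ψ` (a homeomorphism of `U` onto the open set `ψ '' U`: `IsParam.openMap`, `inj`, `cont`) with this one,
 restricted to the open set `F.dom N A` (`dom_isOpen`), so `e.symm = ψ ∘ g` near `z`, `z = psi s`.
 Derivatives: `X ∘ e.symm = (X ∘ ψ) ∘ g` near `z`. In the direction `(1,0)`: `v = g' (1,0)` has `⟪τ,a⟫ = 1`, `⟪A τ,Xy⟫ = 0`; `τ = Xx + β Xy`,
 `0 = ⟪A Xx,Xy⟫ + β Hyy` so `β = -m`, `τ = Xx - m Xy`, `dp = ⟪A τ,Xx⟫/Nn = (Hxx - m ⟪A Xy,Xx⟫)/Nn = (Hxx - m Hxy)/Nn` (`eigen_symm`), and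
 `|dA v| ≤ C |A|² |τ|` (`GradBound`). In the direction `(0,1)`: `⟪τ,a⟫ = 0`, `⟪A τ,Xy⟫ = Nn`, so `τ = β Xy`, `β Hyy = Nn`, `dp = β ⟪A Xy,Xx⟫/Nn =
 Hxy/Hyy = m`.
`psi_isLocalHomeomorphOn` follows: `IsLocalHomeomorphOn.mk`, with `e` (`F.psi X N o` agrees with `e` on `e.source`).
-/

set_option autoImplicit false

open Filter Topology Set
open scoped RealInnerProductSpace ContDiff

namespace Pool.Agent.Helper50.MS

variable {S : Type} [TopologicalSpace S] {X N : S → E3} {A : S → End3} {c C : ℝ}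

/-- Derivative of a gradient coordinate along a curve. -/
private lemma hasDerivAt_ratio {g : ℝ → E3} {g' u w : E3} {t : ℝ} (hg : HasDerivAt g g' t)
    (hn : ⟪g t, w⟫ ≠ 0) :
    HasDerivAt (fun t => - ⟪g t, u⟫ / ⟪g t, w⟫)
      (⟪-g', u + (- ⟪g t, u⟫ / ⟪g t, w⟫) • w⟫ / ⟪g t, w⟫) t := by
  have h1 : HasDerivAt (fun t => ⟪g t, u⟫) ⟪g', u⟫ t := by
    have := hg.inner ℝ (hasDerivAt_const t u)
    simpa using this
  have h2 : HasDerivAt (fun t => ⟪g t, w⟫) ⟪g', w⟫ t := by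
    have := hg.inner ℝ (hasDerivAt_const t w)
    simpa using this
  have h3 := h1.neg.div h2 hn
  refine h3.congr_deriv ?_
  rw [inner_neg_left, inner_add_right, inner_smul_right]
  field_simp
  simp
  ring

/-- The inverse of a local parametrization. -/
private lemma exists_homeo {U : Set (ℝ × ℝ)} {ψ : ℝ × ℝ → S} (hψ : IsParam X N A U ψ) :
    ∃ Ψ : OpenPartialHomeomorph (ℝ × ℝ) S, Ψ.source = U ∧ ∀ u, Ψ u = ψ u := by
  have hs : (hψ.inj.toPartialEquiv ψ U).source = U := rfl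
  refine ⟨OpenPartialHomeomorph.ofContinuousOpenRestrict (hψ.inj.toPartialEquiv ψ U) ?_ ?_ ?_,
    rfl, fun u => rfl⟩
  · exact hψ.cont
  · intro V hV
    have hV' : IsOpen ((↑) '' V : Set (ℝ × ℝ)) := hψ.isOpen.isOpenMap_subtype_val _ hV
    have := hψ.openMap ((↑) '' V : Set (ℝ × ℝ)) (by rintro _ ⟨x, _, rfl⟩; exact x.2) hV'
    rw [image_image] at this
    exact this
  · exact hψ.isOpen

theorem psi_local_inverse (h : Hyp X N A c C) (F : Frame) (o : ℝ) {s : S} (hs : s ∈ F.dom N A) :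
    ∃ e : OpenPartialHomeomorph S (ℝ × ℝ), s ∈ e.source ∧
      (∀ u ∈ e.source, u ∈ F.dom N A ∧ e u = F.psi X N o u) ∧
      HasDerivAt (fun x => X (e.symm (x, (F.psi X N o s).2)))
        (F.Xx (N s) - F.m (N s) (A s) • F.Xy (N s)) (F.psi X N o s).1 ∧
      HasDerivAt (fun x => F.p (N (e.symm (x, (F.psi X N o s).2))))
        ((F.Hxx (N s) (A s) - F.m (N s) (A s) * F.Hxy (N s) (A s)) / ⟪N s, F.n⟫)
        (F.psi X N o s).1 ∧
      (∃ B : End3, HasDerivAt (fun x => A (e.symm (x, (F.psi X N o s).2))) B (F.psi X N o s).1 ∧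
        ‖B‖ ≤ C * ‖A s‖ ^ 2 * ‖F.Xx (N s) - F.m (N s) (A s) • F.Xy (N s)‖) ∧
      HasDerivAt (fun q => X (e.symm ((F.psi X N o s).1, q)))
        ((⟪N s, F.n⟫ / F.Hyy (N s) (A s)) • F.Xy (N s)) (F.psi X N o s).2 ∧
      HasDerivAt (fun q => F.p (N (e.symm ((F.psi X N o s).1, q)))) (F.m (N s) (A s))
        (F.psi X N o s).2 ∧
      ∃ B : End3, HasDerivAt (fun q => A (e.symm ((F.psi X N o s).1, q))) B (F.psi X N o s).2 ∧
        ‖B‖ ≤ C * ‖A s‖ ^ 2 * ‖(⟪N s, F.n⟫ / F.Hyy (N s) (A s)) • F.Xy (N s)‖ := by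
  obtain ⟨U, ψ, hψ, u₀, hu₀, rfl⟩ := h.surf s
  have hUn : U ∈ 𝓝 u₀ := hψ.isOpen.mem_nhds hu₀
  set s : S := ψ u₀ with hsdef
  obtain ⟨hn0, hyy⟩ := hs
  -- derivatives of the coordinate expressions
  have hXc : ContDiffAt ℝ ∞ (fun u => X (ψ u)) u₀ := hψ.smoothX.contDiffAt hUn
  have hNc : ContDiffAt ℝ ∞ (fun u => N (ψ u)) u₀ := hψ.smoothN.contDiffAt hUn
  have hAc : ContDiffAt ℝ ∞ (fun u => A (ψ u)) u₀ := hψ.smoothA.contDiffAt hUn
  have hXd : HasFDerivAt (fun u => X (ψ u)) (fderiv ℝ (fun u => X (ψ u)) u₀) u₀ :=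
    (hXc.differentiableAt (by simp)).hasFDerivAt
  have hNd : HasFDerivAt (fun u => N (ψ u)) (fderiv ℝ (fun u => N (ψ u)) u₀) u₀ :=
    (hNc.differentiableAt (by simp)).hasFDerivAt
  have hAd : HasFDerivAt (fun u => A (ψ u)) (fderiv ℝ (fun u => A (ψ u)) u₀) u₀ :=
    (hAc.differentiableAt (by simp)).hasFDerivAt
  set dX := fderiv ℝ (fun u => X (ψ u)) u₀ with hdX
  set dN := fderiv ℝ (fun u => N (ψ u)) u₀ with hdN
  set dA := fderiv ℝ (fun u => A (ψ u)) u₀ with hdA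
  have hshape : ∀ v, dN v = - A s (dX v) := fun v => by
    rw [hψ.shape u₀ hu₀ v, neg_neg]
  have hnorm : ∀ v, ⟪N s, dX v⟫ = 0 := fun v => hψ.normal u₀ hu₀ v
  -- the map f
  set f : ℝ × ℝ → ℝ × ℝ := fun u => F.psi X N o (ψ u) with hf
  have hfc : ContDiffAt ℝ ∞ f u₀ := by
    have h1 : ContDiffAt ℝ ∞ (fun u => ⟪X (ψ u), F.a⟫ - o) u₀ :=
      (hXc.inner ℝ contDiffAt_const).sub contDiffAt_const
    have h2 : ContDiffAt ℝ ∞ (fun u => - ⟪N (ψ u), F.b⟫ / ⟪N (ψ u), F.n⟫) u₀ :=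
      ((hNc.inner ℝ contDiffAt_const).neg).div (hNc.inner ℝ contDiffAt_const) hn0.ne'
    exact h1.prodMk h2
  have hfs : HasStrictFDerivAt f (fderiv ℝ f u₀) u₀ := hfc.hasStrictFDerivAt (by simp)
  -- the derivative of f in a direction v
  have hfv : ∀ v, fderiv ℝ f u₀ v = (⟪dX v, F.a⟫, ⟪A s (dX v), F.Xy (N s)⟫ / ⟪N s, F.n⟫) := by
    intro v
    have hl : HasDerivAt (fun t : ℝ => u₀ + t • v) v 0 := by
      have := ((hasDerivAt_id (0 : ℝ)).smul_const v).const_add u₀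
      simpa using this
    have hl0 : u₀ + (0 : ℝ) • v = u₀ := by simp
    have e1 : HasDerivAt (fun t : ℝ => f (u₀ + t • v)) (fderiv ℝ f u₀ v) 0 := by
      have := HasFDerivAt.comp_hasDerivAt (x := (0 : ℝ)) (f := fun t : ℝ => u₀ + t • v)
        (l := f) (l' := fderiv ℝ f u₀) (f' := v) (by rw [hl0]; exact hfs.hasFDerivAt) hl
      exact this
    have e2 : HasDerivAt (fun t : ℝ => X (ψ (u₀ + t • v))) (dX v) 0 := by
      have := HasFDerivAt.comp_hasDerivAt (x := (0 : ℝ)) (f := fun t : ℝ => u₀ + t • v)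
        (l := fun u => X (ψ u)) (l' := dX) (f' := v) (by rw [hl0]; exact hXd) hl
      exact this
    have e3 : HasDerivAt (fun t : ℝ => N (ψ (u₀ + t • v))) (dN v) 0 := by
      have := HasFDerivAt.comp_hasDerivAt (x := (0 : ℝ)) (f := fun t : ℝ => u₀ + t • v)
        (l := fun u => N (ψ u)) (l' := dN) (f' := v) (by rw [hl0]; exact hNd) hl
      exact this
    have e4 : HasDerivAt (fun t : ℝ => ⟪X (ψ (u₀ + t • v)), F.a⟫ - o) ⟪dX v, F.a⟫ 0 := by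
      have := (e2.inner ℝ (hasDerivAt_const (0 : ℝ) F.a)).sub_const o
      simpa using this
    have e5 := hasDerivAt_ratio (u := F.b) (w := F.n) e3 (by
      simp only [hl0]; exact hn0.ne')
    have e6 := e4.prodMk e5
    have e7 := e1.unique e6
    rw [e7]
    simp only [hl0]
    rw [hshape v, neg_neg]
    rfl
  -- tangent vectors
  have htan : ∀ v, dX v = ⟪dX v, F.a⟫ • F.Xx (N s) + ⟪dX v, F.b⟫ • F.Xy (N s) := fun v =>
    tangent_expand F (N s) (dX v) hn0.ne' (hnorm v)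
  have hAX : ∀ v, ⟪A s (dX v), F.Xy (N s)⟫ =
      ⟪dX v, F.a⟫ * F.Hxy (N s) (A s) + ⟪dX v, F.b⟫ * F.Hyy (N s) (A s) := by
    intro v
    conv_lhs => rw [htan v]
    rw [map_add, map_smul, map_smul, inner_add_left, inner_smul_left, inner_smul_left]
    simp [Frame.Hxy, Frame.Hyy]
  have hinj : Function.Injective (fderiv ℝ f u₀) := by
    rw [injective_iff_map_eq_zero]
    intro v hv
    rw [hfv v] at hv
    have h1 : ⟪dX v, F.a⟫ = 0 := congrArg Prod.fst hv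
    have h2 : ⟪A s (dX v), F.Xy (N s)⟫ / ⟪N s, F.n⟫ = 0 := congrArg Prod.snd hv
    rw [div_eq_zero_iff] at h2
    rcases h2 with h2 | h2
    · rw [hAX v, h1, zero_mul, zero_add] at h2
      rcases mul_eq_zero.mp h2 with h3 | h3
      · have : dX v = 0 := by rw [htan v, h1, h3]; simp
        exact hψ.immersion u₀ hu₀ (this.trans (map_zero dX).symm)
      · exact absurd h3 hyy.ne'
    · exact absurd h2 hn0.ne'
  -- continuous linear equivalence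
  obtain ⟨f', hf'⟩ : ∃ f' : (ℝ × ℝ) ≃L[ℝ] (ℝ × ℝ), (f' : (ℝ × ℝ) →L[ℝ] (ℝ × ℝ)) = fderiv ℝ f u₀ := by
    have hsurj : Function.Surjective (fderiv ℝ f u₀) :=
      (LinearMap.injective_iff_surjective
        (f := (fderiv ℝ f u₀ : (ℝ × ℝ) →ₗ[ℝ] (ℝ × ℝ)))).mp hinj
    refine ⟨ContinuousLinearEquiv.ofBijective (fderiv ℝ f u₀)
      (LinearMap.ker_eq_bot.mpr hinj) (LinearMap.range_eq_top.mpr hsurj), ?_⟩
    exact ContinuousLinearMap.ext fun v => rfl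
  have hfs' : HasStrictFDerivAt f (f' : (ℝ × ℝ) →L[ℝ] (ℝ × ℝ)) u₀ := by rw [hf']; exact hfs
  obtain ⟨Ψ, hΨs, hΨ⟩ := exists_homeo hψ
  set φ : OpenPartialHomeomorph (ℝ × ℝ) (ℝ × ℝ) := hfs'.toOpenPartialHomeomorph f with hφ
  have hφc : ∀ u, φ u = f u := fun u => rfl
  have hφs : u₀ ∈ φ.source := hfs'.mem_toOpenPartialHomeomorph_source
  have hdo := dom_isOpen h.surf F
  set e : OpenPartialHomeomorph S (ℝ × ℝ) := (Ψ.symm.trans φ).restrOpen (F.dom N A) hdo with he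
  have hΨu₀ : Ψ.symm s = u₀ := by
    have := Ψ.left_inv (x := u₀) (by rw [hΨs]; exact hu₀)
    rwa [hΨ] at this
  have hse : s ∈ e.source := by
    rw [he, OpenPartialHomeomorph.restrOpen_source, OpenPartialHomeomorph.trans_source]
    refine ⟨⟨?_, ?_⟩, hn0, hyy⟩
    · have := Ψ.map_source (x := u₀) (by rw [hΨs]; exact hu₀)
      rw [hΨ] at this
      exact this
    · show Ψ.symm s ∈ φ.source
      rw [hΨu₀]; exact hφs
  have hesymm : ∀ z, e.symm z = ψ (φ.symm z) := fun z => by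
    show Ψ (φ.symm z) = _
    rw [hΨ]
  have hφsymm : φ.symm (F.psi X N o s) = u₀ := by
    have := φ.left_inv hφs
    rwa [hφc] at this
  have hinv : HasFDerivAt φ.symm (f'.symm : (ℝ × ℝ) →L[ℝ] (ℝ × ℝ)) (F.psi X N o s) := by
    refine φ.hasFDerivAt_symm ?_ ?_
    · have := φ.map_source hφs
      rwa [hφc] at this
    · rw [hφsymm]; exact hfs'.hasFDerivAt
  -- the inverse images of the two directions
  set v₁ : ℝ × ℝ := f'.symm (1, 0) with hv₁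
  set v₂ : ℝ × ℝ := f'.symm (0, 1) with hv₂
  have hfv₁ : fderiv ℝ f u₀ v₁ = (1, 0) := by
    rw [← hf']; exact f'.apply_symm_apply _
  have hfv₂ : fderiv ℝ f u₀ v₂ = (0, 1) := by
    rw [← hf']; exact f'.apply_symm_apply _
  rw [hfv] at hfv₁ hfv₂
  have a1 : ⟪dX v₁, F.a⟫ = 1 := congrArg Prod.fst hfv₁
  have a2 : ⟪A s (dX v₁), F.Xy (N s)⟫ / ⟪N s, F.n⟫ = 0 := congrArg Prod.snd hfv₁
  have a3 : ⟪dX v₂, F.a⟫ = 0 := congrArg Prod.fst hfv₂
  have a4 : ⟪A s (dX v₂), F.Xy (N s)⟫ / ⟪N s, F.n⟫ = 1 := congrArg Prod.snd hfv₂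
  have hτ₁ : dX v₁ = F.Xx (N s) - F.m (N s) (A s) • F.Xy (N s) := by
    have b1 : ⟪A s (dX v₁), F.Xy (N s)⟫ = 0 := by
      rcases div_eq_zero_iff.mp a2 with h1 | h1
      · exact h1
      · exact absurd h1 hn0.ne'
    rw [hAX v₁, a1, one_mul] at b1
    have b2 : ⟪dX v₁, F.b⟫ = - F.m (N s) (A s) := by
      rw [Frame.m, ← neg_div, eq_div_iff hyy.ne']
      linarith
    rw [htan v₁, a1, b2, one_smul, neg_smul, sub_eq_add_neg]
  have hτ₂ : dX v₂ = (⟪N s, F.n⟫ / F.Hyy (N s) (A s)) • F.Xy (N s) := by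
    have b1 : ⟪A s (dX v₂), F.Xy (N s)⟫ = ⟪N s, F.n⟫ := by
      rwa [div_eq_one_iff_eq hn0.ne'] at a4
    rw [hAX v₂, a3, zero_mul, zero_add] at b1
    have b2 : ⟪dX v₂, F.b⟫ = ⟪N s, F.n⟫ / F.Hyy (N s) (A s) := by
      rw [eq_div_iff hyy.ne']; exact b1
    rw [htan v₂, a3, b2, zero_smul, zero_add]
  -- symmetry
  obtain ⟨e₁, e₂, k₁, k₂, on, hk₁, hk₂, hk₃, -⟩ := h.saddle s
  have hsymm : ⟪A s (F.Xy (N s)), F.Xx (N s)⟫ = F.Hxy (N s) (A s) := by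
    rw [eigen_symm on hk₁ hk₂ hk₃, real_inner_comm]; rfl
  -- curves
  have hc₁ : HasDerivAt (fun x : ℝ => (x, (F.psi X N o s).2)) ((1 : ℝ), (0 : ℝ))
      (F.psi X N o s).1 := (hasDerivAt_id _).prodMk (hasDerivAt_const _ _)
  have hc₂ : HasDerivAt (fun q : ℝ => ((F.psi X N o s).1, q)) ((0 : ℝ), (1 : ℝ))
      (F.psi X N o s).2 := (hasDerivAt_const _ _).prodMk (hasDerivAt_id _)
  have hd₁ : HasDerivAt (fun x : ℝ => φ.symm (x, (F.psi X N o s).2)) v₁ (F.psi X N o s).1 :=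
    HasFDerivAt.comp_hasDerivAt (x := (F.psi X N o s).1)
      (f := fun x : ℝ => (x, (F.psi X N o s).2)) (l := φ.symm) hinv hc₁
  have hd₂ : HasDerivAt (fun q : ℝ => φ.symm ((F.psi X N o s).1, q)) v₂ (F.psi X N o s).2 :=
    HasFDerivAt.comp_hasDerivAt (x := (F.psi X N o s).2)
      (f := fun q : ℝ => ((F.psi X N o s).1, q)) (l := φ.symm) hinv hc₂
  have hp₁ : φ.symm ((F.psi X N o s).1, (F.psi X N o s).2) = u₀ := hφsymm
  have comp₁ : ∀ {V : Type} [NormedAddCommGroup V] [NormedSpace ℝ V] {g : S → V}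
      {g' : (ℝ × ℝ) →L[ℝ] V}, HasFDerivAt (fun u => g (ψ u)) g' u₀ →
      HasDerivAt (fun x : ℝ => g (e.symm (x, (F.psi X N o s).2))) (g' v₁) (F.psi X N o s).1 := by
    intro V _ _ g g' hg
    have := HasFDerivAt.comp_hasDerivAt (x := (F.psi X N o s).1)
      (f := fun x : ℝ => φ.symm (x, (F.psi X N o s).2)) (l := fun u => g (ψ u)) (l' := g')
      (f' := v₁) (by simp only [hp₁]; exact hg) hd₁
    refine this.congr_of_eventuallyEq (Eventually.of_forall fun x => ?_)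
    simp only [hesymm]
    rfl
  have comp₂ : ∀ {V : Type} [NormedAddCommGroup V] [NormedSpace ℝ V] {g : S → V}
      {g' : (ℝ × ℝ) →L[ℝ] V}, HasFDerivAt (fun u => g (ψ u)) g' u₀ →
      HasDerivAt (fun q : ℝ => g (e.symm ((F.psi X N o s).1, q))) (g' v₂) (F.psi X N o s).2 := by
    intro V _ _ g g' hg
    have := HasFDerivAt.comp_hasDerivAt (x := (F.psi X N o s).2)
      (f := fun q : ℝ => φ.symm ((F.psi X N o s).1, q)) (l := fun u => g (ψ u)) (l' := g')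
      (f' := v₂) (by simp only [hp₁]; exact hg) hd₂
    refine this.congr_of_eventuallyEq (Eventually.of_forall fun x => ?_)
    simp only [hesymm]
    rfl
  have hNe : e.symm ((F.psi X N o s).1, (F.psi X N o s).2) = s := by
    rw [hesymm, hp₁]
  refine ⟨e, hse, ?_, ?_, ?_, ?_, ?_, ?_, ?_⟩
  · intro u hu
    rw [he, OpenPartialHomeomorph.restrOpen_source, OpenPartialHomeomorph.trans_source] at hu
    refine ⟨hu.2, ?_⟩
    show F.psi X N o (ψ (Ψ.symm u)) = _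
    rw [← hΨ, Ψ.right_inv hu.1.1]
  · rw [← hτ₁]; exact comp₁ hXd
  · have h1 := comp₁ hNd
    have h2 := hasDerivAt_ratio (u := F.a) (w := F.n) h1 (by
      simp only [hNe]; exact hn0.ne')
    refine h2.congr_deriv ?_
    simp only [hNe]
    rw [hshape, neg_neg]
    congr 1
    show ⟪A s (dX v₁), F.Xx (N s)⟫ = _
    rw [hτ₁, map_sub, map_smul, inner_sub_left, inner_smul_left, hsymm]
    simp [Frame.Hxx]
  · refine ⟨dA v₁, comp₁ hAd, ?_⟩
    rw [← hτ₁]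
    exact h.grad U ψ hψ u₀ hu₀ v₁
  · rw [← hτ₂]; exact comp₂ hXd
  · have h1 := comp₂ hNd
    have h2 := hasDerivAt_ratio (u := F.a) (w := F.n) h1 (by
      simp only [hNe]; exact hn0.ne')
    refine h2.congr_deriv ?_
    simp only [hNe]
    rw [hshape, neg_neg]
    show ⟪A s (dX v₂), F.Xx (N s)⟫ / _ = _
    rw [hτ₂, map_smul, inner_smul_left, hsymm]
    simp only [Frame.m]
    simp
    field_simp
  · refine ⟨dA v₂, comp₂ hAd, ?_⟩
    rw [← hτ₂]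
    exact h.grad U ψ hψ u₀ hu₀ v₂

theorem psi_isLocalHomeomorphOn (h : Hyp X N A c C) (F : Frame) (o : ℝ) :
    IsLocalHomeomorphOn (F.psi X N o) (F.dom N A) := by
  refine IsLocalHomeomorphOn.mk _ _ fun s hs => ?_
  obtain ⟨e, hse, he, -⟩ := psi_local_inverse h F o hs
  exact ⟨e, hse, fun u hu => ((he u hu).2).symm⟩

end Pool.Agent.Helper50.MS
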