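import Pool.Agent.Helper50.MS.SectBasic

/-!
# MS-47  The height function attains its minimum

`Ks = {v | 0 < ⟪v,e⟫}`, `Ws` a section over it. `min_exists`. Let `Z w = σ ⟪X w,e⟫`, `w₁ ∈ Ws`, `M = Z w₁`, `B = {w ∈ Ws | Z w ≤ M}`. For each `v` in the circle `WallAt.compact` gives `ρ_v` and a compact `K_v ⊇ {w ∈ B | ‖N w - v‖ ≤ ρ_v}`. The circle is compact: finitely
many balls `ball v_i ρ_{v_i}` cover it. The rest of the closed half sphere `{‖v‖ = 1, 0 ≤ ⟪v,e⟫}` is compact and contained in `Ks`: its preimage in `Ws` is compact (`proper`). So `B ⊆ K'` compact, `closure B ⊆ K'` is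
compact, nonempty; `Z` attains its minimum on `closure B` at `w`. `w ∈ closure Ws`, `0 ≤ ⟪N w,e⟫`. If `⟪N w,e⟫ = 0`: `WallAt.lower` gives `w' ∈ Ws` with `Z w' < Z w ≤ M`, so `w' ∈ B`: contradiction. So
`N w ∈ Ks`, `w ∈ Ws` by `closure_mem`, and `Z w ≤ Z w'` for all `w' ∈ Ws` (for `w' ∈ B` by minimality, otherwise `Z w' > M ≥ Z w`).
-/

set_option autoImplicit false

open Filter Topology Set
open scoped RealInnerProductSpace

namespace Pool.Agent.Helper50.MS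

variable {S : Type} [TopologicalSpace S] [T2Space S] {X N : S → E3} {A : S → End3}

theorem min_exists (hX : Continuous X) (hN : Continuous N) (hU : ∀ s, ‖N s‖ = 1) {e : E3}
    (he : ‖e‖ = 1) {Ws : Set S} (hs : IsSect N {v | 0 < ⟪v, e⟫} Ws) {σ : ℝ}
    (hW : ∀ u : E3, ‖u‖ = 1 → ⟪u, e⟫ = 0 → WallAt X N A Ws e σ u) :
    ∃ w ∈ Ws, ∀ w' ∈ Ws, σ * ⟪X w, e⟫ ≤ σ * ⟪X w', e⟫ := by
  have hKo : IsOpen {v : E3 | 0 < ⟪v, e⟫} := isOpen_lt continuous_const (by fun_prop)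
  have hee : (0 : ℝ) < ⟪e, e⟫ := by
    rw [real_inner_self_eq_norm_sq, he]
    norm_num
  obtain ⟨w₁, hw₁, -⟩ := hs.nonempty e hee he
  have hZ : Continuous fun w : S => σ * ⟪X w, e⟫ := by
    have h1 : Continuous fun w : S => ⟪X w, e⟫ := hX.inner continuous_const
    exact continuous_const.mul h1
  obtain ⟨M, hM⟩ : ∃ M, M = σ * ⟪X w₁, e⟫ := ⟨_, rfl⟩
  have hD : IsCompact {v : E3 | ‖v‖ = 1 ∧ 0 ≤ ⟪v, e⟫} := by
    refine (isCompact_sphere (0 : E3) 1).of_isClosed_subset ?_ ?_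
    · have h1 : Continuous fun v : E3 => ⟪v, e⟫ := by fun_prop
      exact (isClosed_eq continuous_norm continuous_const).inter
        (isClosed_le continuous_const h1)
    · rintro v ⟨hv, -⟩
      rw [mem_sphere_zero_iff_norm]
      exact hv
  obtain ⟨K', hK', hBK⟩ : ∃ K' : Set S, IsCompact K' ∧
      {w | w ∈ Ws ∧ N w ∈ {v : E3 | ‖v‖ = 1 ∧ 0 ≤ ⟪v, e⟫} ∧ σ * ⟪X w, e⟫ ≤ M} ⊆ K' := by
    refine hD.induction_on (p := fun t => ∃ K' : Set S, IsCompact K' ∧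
      {w | w ∈ Ws ∧ N w ∈ t ∧ σ * ⟪X w, e⟫ ≤ M} ⊆ K') ?_ ?_ ?_ ?_
    · exact ⟨∅, isCompact_empty, fun w hw => hw.2.1⟩
    · rintro s t hst ⟨K', h1, h2⟩
      exact ⟨K', h1, fun w hw => h2 ⟨hw.1, hst hw.2.1, hw.2.2⟩⟩
    · rintro s t ⟨K₁, h1, h2⟩ ⟨K₂, h3, h4⟩
      refine ⟨K₁ ∪ K₂, h1.union h3, ?_⟩
      rintro w ⟨hw, hwt | hwt, hwM⟩
      · exact Or.inl (h2 ⟨hw, hwt, hwM⟩)
      · exact Or.inr (h4 ⟨hw, hwt, hwM⟩)
    · rintro v ⟨hv, hv0⟩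
      rcases eq_or_lt_of_le hv0 with h0 | h0
      · obtain ⟨ρ, hρ, hc⟩ := (hW v hv h0.symm).compact
        obtain ⟨Kv, hKv, hsub⟩ := hc M
        refine ⟨Metric.ball v ρ, mem_nhdsWithin_of_mem_nhds (Metric.ball_mem_nhds v hρ), Kv, hKv,
          ?_⟩
        rintro w ⟨hw, hwv, hwM⟩
        rw [mem_ball_iff_norm] at hwv
        exact hsub ⟨hw, hwv.le, hwM⟩
      · obtain ⟨δ, hδ, hball⟩ := Metric.isOpen_iff.1 hKo v h0
        have h1 : Metric.closedBall v (δ / 2) ⊆ {v : E3 | 0 < ⟪v, e⟫} :=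
          (Metric.closedBall_subset_ball (half_lt_self hδ)).trans hball
        refine ⟨Metric.ball v (δ / 2), mem_nhdsWithin_of_mem_nhds
          (Metric.ball_mem_nhds v (half_pos hδ)), _,
          hs.proper _ (isCompact_closedBall v (δ / 2)) h1, ?_⟩
        rintro w ⟨hw, hwv, -⟩
        exact ⟨hw, Metric.ball_subset_closedBall hwv⟩
  obtain ⟨B, hB⟩ : ∃ B : Set S, B = {w | w ∈ Ws ∧ σ * ⟪X w, e⟫ ≤ M} := ⟨_, rfl⟩
  have hBK2 : B ⊆ K' := by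
    rw [hB]
    rintro w ⟨hw, hwM⟩
    have h1 : 0 < ⟪N w, e⟫ := hs.maps w hw
    exact hBK ⟨hw, ⟨hU w, h1.le⟩, hwM⟩
  have hBWs : B ⊆ Ws := by
    rw [hB]
    exact fun w hw => hw.1
  have hw₁B : w₁ ∈ B := by
    rw [hB]
    exact ⟨hw₁, hM.ge⟩
  have hcB : IsCompact (closure B) :=
    hK'.of_isClosed_subset isClosed_closure (closure_minimal hBK2 hK'.isClosed)
  obtain ⟨w, hw, hmin⟩ := hcB.exists_isMinOn ⟨w₁, subset_closure hw₁B⟩ hZ.continuousOn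
  have hmin' : ∀ w' ∈ B, σ * ⟪X w, e⟫ ≤ σ * ⟪X w', e⟫ := fun w' hw' =>
    isMinOn_iff.1 hmin w' (subset_closure hw')
  have hwM : σ * ⟪X w, e⟫ ≤ M := by
    rw [hM]
    exact hmin' w₁ hw₁B
  have hwWs : w ∈ closure Ws := closure_mono hBWs hw
  have hw0 : 0 ≤ ⟪N w, e⟫ := by
    have h1 : IsClosed {s : S | 0 ≤ ⟪N s, e⟫} :=
      isClosed_le continuous_const (hN.inner continuous_const)
    have h2 : Ws ⊆ {s : S | 0 ≤ ⟪N s, e⟫} := fun s hs' => by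
      have h3 : 0 < ⟪N s, e⟫ := hs.maps s hs'
      exact h3.le
    exact closure_minimal h2 h1 hwWs
  have hwW : w ∈ Ws := by
    rcases eq_or_lt_of_le hw0 with h0 | h0
    · exfalso
      obtain ⟨w', hw', -, hlt⟩ := (hW (N w) (hU w) h0.symm).lower w hwWs rfl 1 one_pos
      have h1 : w' ∈ B := by
        rw [hB]
        exact ⟨hw', hlt.le.trans hwM⟩
      exact absurd hlt (not_lt.2 (hmin' w' h1))
    · exact closure_mem hN hs hKo hwWs h0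
  refine ⟨w, hwW, fun w' hw' => ?_⟩
  rcases le_or_gt (σ * ⟪X w', e⟫) M with h1 | h1
  · exact hmin' w' (by
      rw [hB]
      exact ⟨hw', h1⟩)
  · exact hwM.trans h1.le

end Pool.Agent.Helper50.MS
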