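import Pool.Agent.Helper50.MS.SectBasic

/-!
# MS-48  The minimum is impossible

`Ks = {v | 0 < ⟪v,e⟫}`, `Ws` a section over it. `no_min`. `w ∈ Ws` with `Z w ≤ Z w'` for all `w' ∈ Ws`. PROOF. Let `M₀ = {w' ∈ Ws | Z w' = Z w}`. A point `w' ∈ M₀` is a local minimum of `Z = ⟪X,σ e⟫` (`Ws` open), so `σ e` is a multiple of `N w'` (`hcrit`
with `ε = 0`), both unit, `0 < ⟪N w',e⟫`: `N w' = e`. Let `0 < r < 1`, `Q = Ws ∩ N⁻¹ (closedBall e r)`: compact (the closed ball is in `Ks`: `⟪v,e⟫ ≥ 1 - r`). `Q' = Q ∩ N⁻¹ (sphere e r)` is compact and does not meet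
`M₀`, so `Z ≥ Z w + d` on `Q'` for some `d > 0` (if `Q' = ∅` any `d`). `‖X u - X w‖ ≤ R` on `Q`. Take `ε > 0` with `ε R² < d`. The function `g u = Z u - ε‖X u - X w‖²` has a minimum on `Q` at `u₁`, `g u₁ ≤ g w = Z w`, so
`u₁ ∉ Q'` (there `g ≥ Z w + d - ε R² > Z w`), so `u₁` is in the open set `Ws ∩ N⁻¹ (ball e r) ⊆ Q`: `g` has a local minimum at `u₁`, contradiction with `hmin`.
-/

set_option autoImplicit false

open Filter Topology Set
open scoped RealInnerProductSpace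

namespace Pool.Agent.Helper50.MS

variable {S : Type} [TopologicalSpace S] [T2Space S] {X N : S → E3} {A : S → End3}

theorem no_min (hX : Continuous X) (hN : Continuous N) (hU : ∀ s, ‖N s‖ = 1) {e : E3}
    (he : ‖e‖ = 1) {Ws : Set S} (hs : IsSect N {v | 0 < ⟪v, e⟫} Ws) {σ : ℝ}
    (hσ : σ = 1 ∨ σ = -1)
    (hcrit : ∀ (s : S) (y : E3), IsLocalMin (fun u => ⟪X u, y⟫) s → y = ⟪y, N s⟫ • N s)
    (hmin : ∀ (s : S) (y x₀ : E3) (ε : ℝ), 0 < ε →
      ¬ IsLocalMin (fun u => ⟪X u, y⟫ - ε * ‖X u - x₀‖ ^ 2) s)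
    {w : S} (hw : w ∈ Ws) (hww : ∀ w' ∈ Ws, σ * ⟪X w, e⟫ ≤ σ * ⟪X w', e⟫) : False := by
  have hσ2 : σ * σ = 1 := by
    rcases hσ with rfl | rfl <;> norm_num
  have hZ : ∀ u, ⟪X u, σ • e⟫ = σ * ⟪X u, e⟫ := fun u => by rw [real_inner_smul_right]
  -- the minimum points have normal `e`
  have hM : ∀ w' ∈ Ws, σ * ⟪X w', e⟫ = σ * ⟪X w, e⟫ → N w' = e := by
    intro w' hw' heq
    have hloc : IsLocalMin (fun u => ⟪X u, σ • e⟫) w' := by
      filter_upwards [hs.openW.mem_nhds hw'] with u hu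
      rw [hZ, hZ, heq]
      exact hww u hu
    have h1 := hcrit w' (σ • e) hloc
    set c := ⟪σ • e, N w'⟫ with hc
    have h2 : e = (σ * c) • N w' := by
      have h3 : σ • (σ • e) = σ • (c • N w') := by rw [← h1]
      rwa [smul_smul, hσ2, one_smul, smul_smul] at h3
    have h3 : 0 < ⟪N w', e⟫ := hs.maps w' hw'
    have h4 : ⟪N w', e⟫ = σ * c := by
      conv_lhs => rw [h2]
      rw [real_inner_smul_right, real_inner_self_eq_norm_sq, hU, one_pow, mul_one]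
    have h5 : ‖e‖ = |σ * c| := by
      conv_lhs => rw [h2]
      rw [norm_smul, hU, mul_one, Real.norm_eq_abs]
    rw [h4] at h3
    rw [he, abs_of_pos h3] at h5
    rw [h2, ← h5, one_smul]
  -- a compact neighbourhood
  have hball : Metric.closedBall e (1 / 2) ⊆ {v : E3 | 0 < ⟪v, e⟫} := by
    intro v hv
    rw [mem_closedBall_iff_norm] at hv
    have h1 : ⟪v, e⟫ = 1 + ⟪v - e, e⟫ := by
      rw [inner_sub_left, real_inner_self_eq_norm_sq, he]
      ring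
    have h2 : |⟪v - e, e⟫| ≤ ‖v - e‖ * ‖e‖ := abs_real_inner_le_norm _ _
    rw [he, mul_one] at h2
    have h3 := (abs_le.mp (h2.trans hv)).1
    show 0 < ⟪v, e⟫
    rw [h1]
    linarith
  have hQ : IsCompact (Ws ∩ N ⁻¹' Metric.closedBall e (1 / 2)) :=
    hs.proper _ (isCompact_closedBall e _) hball
  have hwQ : w ∈ Ws ∩ N ⁻¹' Metric.closedBall e (1 / 2) := by
    refine ⟨hw, ?_⟩
    show N w ∈ Metric.closedBall e (1 / 2)
    rw [hM w hw rfl]
    exact Metric.mem_closedBall_self (by norm_num)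
  have hQ' : IsCompact ((Ws ∩ N ⁻¹' Metric.closedBall e (1 / 2)) ∩
      N ⁻¹' Metric.sphere e (1 / 2)) :=
    hQ.inter_right (Metric.isClosed_sphere.preimage hN)
  have hcZ : Continuous fun u => σ * ⟪X u, e⟫ := continuous_const.mul (hX.inner continuous_const)
  obtain ⟨d, hd, hdQ⟩ : ∃ d : ℝ, 0 < d ∧ ∀ u ∈ (Ws ∩ N ⁻¹' Metric.closedBall e (1 / 2)) ∩
      N ⁻¹' Metric.sphere e (1 / 2), σ * ⟪X w, e⟫ + d ≤ σ * ⟪X u, e⟫ := by
    rcases ((Ws ∩ N ⁻¹' Metric.closedBall e (1 / 2)) ∩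
      N ⁻¹' Metric.sphere e (1 / 2)).eq_empty_or_nonempty with hemp | hne
    · exact ⟨1, one_pos, fun u hu => by rw [hemp] at hu; exact absurd hu (notMem_empty _)⟩
    · obtain ⟨u₀, hu₀, hmin₀⟩ := hQ'.exists_isMinOn hne hcZ.continuousOn
      refine ⟨σ * ⟪X u₀, e⟫ - σ * ⟪X w, e⟫, ?_, ?_⟩
      · have h1 := hww u₀ hu₀.1.1
        rcases h1.lt_or_eq with h2 | h2
        · linarith
        · exfalso
          have h3 := hM u₀ hu₀.1.1 h2.symm
          have h4 : N u₀ ∈ Metric.sphere e (1 / 2) := hu₀.2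
          rw [h3, Metric.mem_sphere, dist_self] at h4
          norm_num at h4
      · intro u hu
        have h1 : σ * ⟪X u₀, e⟫ ≤ σ * ⟪X u, e⟫ := hmin₀ hu
        linarith
  obtain ⟨R, hR⟩ := hQ.exists_bound_of_continuousOn (f := fun u => X u - X w)
    (hX.sub continuous_const).continuousOn
  have hR0 : 0 < R ^ 2 + 1 := by positivity
  set ε := d / (2 * (R ^ 2 + 1)) with hεdef
  have hε : 0 < ε := by positivity
  have hεR : ε * R ^ 2 < d := by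
    rw [hεdef, div_mul_eq_mul_div, div_lt_iff₀ (by positivity)]
    nlinarith [sq_nonneg R]
  have hcg : Continuous fun u => ⟪X u, σ • e⟫ - ε * ‖X u - X w‖ ^ 2 := by
    fun_prop
  obtain ⟨u₁, hu₁, hmin₁⟩ := hQ.exists_isMinOn ⟨w, hwQ⟩ hcg.continuousOn
  have h1 : ⟪X u₁, σ • e⟫ - ε * ‖X u₁ - X w‖ ^ 2 ≤ σ * ⟪X w, e⟫ := by
    have := hmin₁ hwQ
    simp only [mem_ofPred_eq, sub_self, norm_zero] at this
    rw [hZ w] at this
    linarith
  have h2 : N u₁ ∉ Metric.sphere e (1 / 2) := by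
    intro h3
    have h4 := hdQ u₁ ⟨hu₁, h3⟩
    have h5 : ‖X u₁ - X w‖ ^ 2 ≤ R ^ 2 := pow_le_pow_left₀ (norm_nonneg _) (hR u₁ hu₁) 2
    have h6 := mul_le_mul_of_nonneg_left h5 hε.le
    rw [hZ] at h1
    linarith
  have h3 : N u₁ ∈ Metric.ball e (1 / 2) := by
    have h4 : dist (N u₁) e ≤ 1 / 2 := hu₁.2
    have h5 : dist (N u₁) e ≠ 1 / 2 := h2
    exact lt_of_le_of_ne h4 h5
  apply hmin u₁ (σ • e) (X w) ε hε
  have h4 : Ws ∩ N ⁻¹' Metric.ball e (1 / 2) ∈ 𝓝 u₁ :=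
    (hs.openW.inter (Metric.isOpen_ball.preimage hN)).mem_nhds ⟨hu₁.1, h3⟩
  filter_upwards [h4] with u hu
  exact hmin₁ ⟨hu.1, Metric.ball_subset_closedBall hu.2⟩

end Pool.Agent.Helper50.MS
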