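import Pool.Agent.Helper50.MS.LocalInverse

/-!
# MS-34  Points with `K ≠ 0` are isolated in their fibres

`k₁ k₂ ≠ 0` at `s = ψ u₀`. Then `N ∘ ψ` is injective near `u₀`: its derivative `v ↦ -A (τ v)` is injective (`A x = 0`, `x ⟂ N s` implies `x = 0` by `eigen_apply`), so the map is
locally injective: compose with a linear left inverse `L : E3 → ℝ²` of the derivative (`LinearMap.exists_leftInverse_of_injective`) and use the inverse function theorem for `L ∘ N ∘ ψ` at `u₀` (derivative the identity). So there is an open `O ∋ s` with `O ∩ N⁻¹ {N s} = {s}`: a preconnected `R ∋ s` inside this fibre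
satisfies `R ⊆ O ∪ {s}ᶜ`, `R ∩ O ∩ {s}ᶜ = ∅`, so `R = {s}` (`S` is Hausdorff, `{s}` is closed), and `X '' R` is bounded.
-/

set_option autoImplicit false

open Filter Topology Set
open scoped RealInnerProductSpace ContDiff

namespace Pool.Agent.Helper50.MS

variable {S : Type} [TopologicalSpace S] {X N : S → E3} {A : S → End3} {c C : ℝ}

theorem no_ray [T2Space S] (h : Hyp X N A c C) {s : S} {e₁ e₂ : E3} {k₁ k₂ : ℝ}
    (on : Orthonormal ℝ ![e₁, e₂, N s]) (h₁ : A s e₁ = k₁ • e₁) (h₂ : A s e₂ = k₂ • e₂)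
    (hk : k₁ * k₂ ≠ 0) : ¬ HasRay X N s := by
  obtain ⟨U, ψ, hψ, u₀, hu₀, rfl⟩ := h.surf s
  have hUn : U ∈ 𝓝 u₀ := hψ.isOpen.mem_nhds hu₀
  rintro ⟨R, hR, hsR, hRN, hunb⟩
  have hNc : ContDiffAt ℝ ∞ (fun u => N (ψ u)) u₀ := hψ.smoothN.contDiffAt hUn
  have hNs : HasStrictFDerivAt (fun u => N (ψ u)) (fderiv ℝ (fun u => N (ψ u)) u₀) u₀ :=
    hNc.hasStrictFDerivAt (by simp)
  have h₃ : A (ψ u₀) (N (ψ u₀)) = 0 := hψ.shape_normal u₀ hu₀
  -- injectivity of the derivative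
  have hinj : Function.Injective (fderiv ℝ (fun u => N (ψ u)) u₀) := by
    rw [injective_iff_map_eq_zero]
    intro v hv
    have h4 := hψ.shape u₀ hu₀ v
    rw [hv, neg_zero, eigen_apply on h₁ h₂ h₃] at h4
    set τ := fderiv ℝ (fun u => X (ψ u)) u₀ v with hτ
    have o11 : ⟪e₁, e₁⟫ = 1 := by
      have := on.1 0
      simp only [Matrix.cons_val_zero] at this
      rw [real_inner_self_eq_norm_sq, this]; norm_num
    have o22 : ⟪e₂, e₂⟫ = 1 := by
      have : ‖e₂‖ = 1 := by simpa using on.1 1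
      rw [real_inner_self_eq_norm_sq, this]; norm_num
    have o12 : ⟪e₁, e₂⟫ = 0 := by
      have := on.2 (i := 0) (j := 1) (by decide)
      simpa using this
    have o21 : ⟪e₂, e₁⟫ = 0 := by rw [real_inner_comm]; exact o12
    have h5 : k₁ * ⟪τ, e₁⟫ = 0 := by
      have := congrArg (fun x => ⟪x, e₁⟫) h4
      simp only [inner_add_left, inner_smul_left, o11, o21, inner_zero_left, conj_trivial,
        mul_one, mul_zero, add_zero] at this
      exact this
    have h6 : k₂ * ⟪τ, e₂⟫ = 0 := by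
      have := congrArg (fun x => ⟪x, e₂⟫) h4
      simp only [inner_add_left, inner_smul_left, o12, o22, inner_zero_left, conj_trivial,
        mul_one, mul_zero, zero_add] at this
      exact this
    have h7 : ⟪τ, e₁⟫ = 0 := (mul_eq_zero.mp h5).resolve_left (left_ne_zero_of_mul hk)
    have h8 : ⟪τ, e₂⟫ = 0 := (mul_eq_zero.mp h6).resolve_left (right_ne_zero_of_mul hk)
    let F : Frame := ⟨e₁, e₂, N (ψ u₀), on⟩
    have h9 := frame_expand F τ
    have h10 : ⟪τ, F.n⟫ = 0 := by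
      rw [real_inner_comm]; exact hψ.normal u₀ hu₀ v
    have h11 : ⟪τ, F.a⟫ = 0 := h7
    have h12 : ⟪τ, F.b⟫ = 0 := h8
    rw [h10, h11, h12] at h9
    simp only [zero_smul, add_zero] at h9
    exact hψ.immersion u₀ hu₀ (h9.trans (map_zero _).symm)
  -- a linear left inverse
  obtain ⟨L, hL⟩ := LinearMap.exists_leftInverse_of_injective
    (fderiv ℝ (fun u => N (ψ u)) u₀ : (ℝ × ℝ) →ₗ[ℝ] E3) (LinearMap.ker_eq_bot.mpr hinj)
  let L' : E3 →L[ℝ] (ℝ × ℝ) := LinearMap.toContinuousLinearMap L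
  have hLs : HasStrictFDerivAt (fun u => L' (N (ψ u)))
      ((ContinuousLinearEquiv.refl ℝ (ℝ × ℝ) : (ℝ × ℝ) ≃L[ℝ] (ℝ × ℝ)) :
        (ℝ × ℝ) →L[ℝ] (ℝ × ℝ)) u₀ := by
    have h5 := L'.hasStrictFDerivAt.comp u₀ hNs
    have h6 : L'.comp (fderiv ℝ (fun u => N (ψ u)) u₀) =
        ((ContinuousLinearEquiv.refl ℝ (ℝ × ℝ) : (ℝ × ℝ) ≃L[ℝ] (ℝ × ℝ)) :
        (ℝ × ℝ) →L[ℝ] (ℝ × ℝ)) :=
      ContinuousLinearMap.ext fun v => LinearMap.congr_fun hL v
    rw [h6] at h5
    exact h5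
  set φ := hLs.toOpenPartialHomeomorph (fun u => L' (N (ψ u))) with hφ
  have hφs : u₀ ∈ φ.source := hLs.mem_toOpenPartialHomeomorph_source
  set O : Set S := ψ '' (U ∩ φ.source) with hO
  have hOo : IsOpen O := hψ.openMap _ inter_subset_left (hψ.isOpen.inter φ.open_source)
  have hsO : ψ u₀ ∈ O := ⟨u₀, ⟨hu₀, hφs⟩, rfl⟩
  have hOR : ∀ r ∈ R, r ∈ O → r = ψ u₀ := by
    rintro r hr ⟨u, hu, rfl⟩
    have h5 : N (ψ u) = N (ψ u₀) := hRN _ hr
    have h6 : φ u = φ u₀ := by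
      show L' (N (ψ u)) = L' (N (ψ u₀))
      rw [h5]
    rw [φ.injOn hu.2 hφs h6]
  have hsub : R ⊆ {ψ u₀} := by
    by_contra hne
    rw [not_subset] at hne
    obtain ⟨r, hr, hrs⟩ := hne
    obtain ⟨q, hq, hqO, hqs⟩ := hR O {ψ u₀}ᶜ hOo isClosed_singleton.isOpen_compl
      (fun q hq => by
        by_cases hqO : q ∈ O
        · exact Or.inl hqO
        · exact Or.inr (fun hqs => hqO (by rw [mem_singleton_iff.mp hqs]; exact hsO)))
      ⟨ψ u₀, hsR, hsO⟩ ⟨r, hr, hrs⟩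
    exact hqs (hOR q hq hqO)
  exact hunb (((finite_singleton (ψ u₀)).subset hsub).image X).isBounded

end Pool.Agent.Helper50.MS
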