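import Pool.Agent.Helper50.MS.SectBasic
import Pool.Agent.Helper50.MS.Circle

/-!
# MS-46  The sign of the walls is constant

`Ks = {v | 0 < ⟪v,e⟫}`, `Ws` a section over it. `sign_const`. For a sign `σ` let `B_σ = {v | ‖v‖ = 1, ⟪v,e⟫ = 0, WallAt X N A Ws e σ v}`. (i) `B_1 ∩ B_{-1} = ∅`: for `v` in both take `ρ` = min of the two radii of `sign`; there is a unit `u ∈ Ks` with
`‖u - v‖ < ρ` (`u = (v + r e)/‖·‖`), `w ∈ Ws` with `N w = u` (`nonempty`), and a nonzero `τ` orthogonal to `N w` and `e` (dimension 3): `⟪A w τ,τ⟫ < 0` and `> 0`. (ii) By `hW` every `v` of the circle is in some `B_σ`, with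
a whole neighbourhood in the circle; with (i) both `B_σ` are relatively open. The circle is preconnected and nonempty (`circle_preconnected`), so it is contained in one `B_σ`.
-/

set_option autoImplicit false

open Filter Topology Set
open scoped RealInnerProductSpace

namespace Pool.Agent.Helper50.MS

variable {S : Type} [TopologicalSpace S] [T2Space S] {X N : S → E3} {A : S → End3}

/-- On the circle of the wall only one sign is possible. -/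
theorem wall_not_both (hU : ∀ s, ‖N s‖ = 1) {e : E3} (he : ‖e‖ = 1)
    {Ws : Set S} (hs : IsSect N {v | 0 < ⟪v, e⟫} Ws) {v : E3} (hv1 : ‖v‖ = 1)
    (hve : ⟪v, e⟫ = 0) (h1 : WallAt X N A Ws e 1 v) (h2 : WallAt X N A Ws e (-1) v) : False := by
  obtain ⟨r1, hr1, hs1⟩ := h1.sign
  obtain ⟨r2, hr2, hs2⟩ := h2.sign
  obtain ⟨r, hr⟩ : ∃ r : ℝ, r = min r1 r2 / 4 := ⟨_, rfl⟩
  have hm : 0 < min r1 r2 := lt_min hr1 hr2
  have hr0 : 0 < r := by rw [hr]; linarith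
  obtain ⟨y, hy⟩ : ∃ y : E3, y = v + r • e := ⟨_, rfl⟩
  have hye : ⟪y, e⟫ = r := by
    rw [hy, inner_add_left, hve, real_inner_smul_left, real_inner_self_eq_norm_sq, he]
    ring
  have hy0 : y ≠ 0 := by
    intro h
    rw [h, inner_zero_left] at hye
    linarith
  have hyn : 0 < ‖y‖ := norm_pos_iff.2 hy0
  have hyv : ‖y - v‖ = r := by
    rw [hy, add_sub_cancel_left, norm_smul, he, mul_one, Real.norm_eq_abs, abs_of_pos hr0]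
  have hu1 : ‖‖y‖⁻¹ • y‖ = 1 := by
    rw [norm_smul, norm_inv, norm_norm, inv_mul_cancel₀ hyn.ne']
  have hue : 0 < ⟪‖y‖⁻¹ • y, e⟫ := by
    rw [real_inner_smul_left, hye]
    positivity
  have huy : ‖‖y‖⁻¹ • y - y‖ ≤ r := by
    have h3 : ‖y‖⁻¹ • y - y = (‖y‖⁻¹ - 1) • y := by rw [sub_smul, one_smul]
    rw [h3, norm_smul, Real.norm_eq_abs]
    have h4 : |‖y‖⁻¹ - 1| * ‖y‖ = |1 - ‖y‖| := by
      have h5 : (‖y‖⁻¹ - 1) * ‖y‖ = 1 - ‖y‖ := by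
        rw [sub_mul, inv_mul_cancel₀ hyn.ne', one_mul]
      rw [← h5, abs_mul, abs_of_pos hyn]
    rw [h4, ← hv1, abs_sub_comm, ← hyv]
    exact abs_norm_sub_norm_le y v
  have huv : ‖‖y‖⁻¹ • y - v‖ < min r1 r2 := by
    calc ‖‖y‖⁻¹ • y - v‖ = ‖(‖y‖⁻¹ • y - y) + (y - v)‖ := by rw [sub_add_sub_cancel]
      _ ≤ ‖‖y‖⁻¹ • y - y‖ + ‖y - v‖ := norm_add_le _ _
      _ ≤ r + r := by rw [hyv]; linarith
      _ < min r1 r2 := by rw [hr]; linarith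
  obtain ⟨w, hw, hNw⟩ := hs.nonempty (‖y‖⁻¹ • y) hue hu1
  have hNw' : N w = ‖y‖⁻¹ • y := hNw
  obtain ⟨τ, hτ0, hτN, hτe⟩ := perp_exists (N w) e
  have k1 := hs1 w hw (by rw [hNw']; exact lt_of_lt_of_le huv (min_le_left _ _)) τ hτN hτe hτ0
  have k2 := hs2 w hw (by rw [hNw']; exact lt_of_lt_of_le huv (min_le_right _ _)) τ hτN hτe hτ0
  linarith

theorem sign_const (hN : Continuous N) (hU : ∀ s, ‖N s‖ = 1) {e : E3} (he : ‖e‖ = 1)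
    {Ws : Set S} (hs : IsSect N {v | 0 < ⟪v, e⟫} Ws)
    (hW : ∀ v : E3, ‖v‖ = 1 → ⟪v, e⟫ = 0 → ∃ σ δ : ℝ, (σ = 1 ∨ σ = -1) ∧ 0 < δ ∧
      ∀ u : E3, ‖u‖ = 1 → ‖u - v‖ < δ → ⟪u, e⟫ = 0 → WallAt X N A Ws e σ u) :
    ∃ σ : ℝ, (σ = 1 ∨ σ = -1) ∧ ∀ u : E3, ‖u‖ = 1 → ⟪u, e⟫ = 0 → WallAt X N A Ws e σ u := by
  classical
  choose! σ δ hσ hδ hWs using hW
  have hc := circle_preconnected he
  obtain ⟨U1, hU1⟩ : ∃ U : Set E3, U = ⋃ v ∈ {v : E3 | (‖v‖ = 1 ∧ ⟪v, e⟫ = 0) ∧ σ v = 1},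
    Metric.ball v (δ v) := ⟨_, rfl⟩
  obtain ⟨U2, hU2⟩ : ∃ U : Set E3, U = ⋃ v ∈ {v : E3 | (‖v‖ = 1 ∧ ⟪v, e⟫ = 0) ∧ σ v = -1},
    Metric.ball v (δ v) := ⟨_, rfl⟩
  have o1 : IsOpen U1 := by
    rw [hU1]
    exact isOpen_biUnion fun v _ => Metric.isOpen_ball
  have o2 : IsOpen U2 := by
    rw [hU2]
    exact isOpen_biUnion fun v _ => Metric.isOpen_ball
  have w1 : ∀ u : E3, ‖u‖ = 1 → ⟪u, e⟫ = 0 → u ∈ U1 → WallAt X N A Ws e 1 u := by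
    intro u hu hue huU
    rw [hU1] at huU
    obtain ⟨v, hv, hvu⟩ := mem_iUnion₂.1 huU
    have h := hWs v hv.1.1 hv.1.2 u hu (by simpa [dist_eq_norm] using hvu) hue
    rwa [hv.2] at h
  have w2 : ∀ u : E3, ‖u‖ = 1 → ⟪u, e⟫ = 0 → u ∈ U2 → WallAt X N A Ws e (-1) u := by
    intro u hu hue huU
    rw [hU2] at huU
    obtain ⟨v, hv, hvu⟩ := mem_iUnion₂.1 huU
    have h := hWs v hv.1.1 hv.1.2 u hu (by simpa [dist_eq_norm] using hvu) hue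
    rwa [hv.2] at h
  have hcov : {v : E3 | ‖v‖ = 1 ∧ ⟪v, e⟫ = 0} ⊆ U1 ∪ U2 := by
    intro v hv
    rcases hσ v hv.1 hv.2 with h | h
    · left
      rw [hU1]
      exact mem_iUnion₂.2 ⟨v, ⟨hv, h⟩, Metric.mem_ball_self (hδ v hv.1 hv.2)⟩
    · right
      rw [hU2]
      exact mem_iUnion₂.2 ⟨v, ⟨hv, h⟩, Metric.mem_ball_self (hδ v hv.1 hv.2)⟩
  by_cases n1 : ({v : E3 | ‖v‖ = 1 ∧ ⟪v, e⟫ = 0} ∩ U1).Nonempty
  · by_cases n2 : ({v : E3 | ‖v‖ = 1 ∧ ⟪v, e⟫ = 0} ∩ U2).Nonempty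
    · obtain ⟨u, hu, huu⟩ := hc U1 U2 o1 o2 hcov n1 n2
      exact (wall_not_both hU he hs hu.1 hu.2 (w1 u hu.1 hu.2 huu.1) (w2 u hu.1 hu.2 huu.2)).elim
    · refine ⟨1, Or.inl rfl, fun u hu hue => w1 u hu hue ?_⟩
      rcases hcov ⟨hu, hue⟩ with h | h
      · exact h
      · exact (n2 ⟨u, ⟨hu, hue⟩, h⟩).elim
  · refine ⟨-1, Or.inr rfl, fun u hu hue => w2 u hu hue ?_⟩
    rcases hcov ⟨hu, hue⟩ with h | h
    · exact (n1 ⟨u, ⟨hu, hue⟩, h⟩).elim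
    · exact h

end Pool.Agent.Helper50.MS
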