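import Pool.Agent.Helper50.MS.ExtendMax
import Pool.Agent.Helper50.MS.ConvexRay

/-!
# MS-45  The largest section is not the whole sphere minus a point

`no_sphere`. `Ks` is the complement of the ray `R = {-t v₀ | t ≥ 0}`. PROOF. Take a unit `u ∉ ℝ v₀` with `‖u + v₀‖ < η/8` (`u = (-v₀ + r y)/‖·‖`), `u ∈ Ks`; `s ∈ Ws` with `N s = u`; `LocalPic` at `s`;
`0 < ⟪N s,e_i⟫` (`ray`, `ray_bounded`), `s ∈ W`. `Ks ∩ K = K \ R` is preconnected, so `glue_fibres`: the fibres of `Ws` and `W` agree over unit `v ∈ Ks ∩ K`.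
(i) `-v₀ ∈ K`: `glue`: `W' = Ws ∪ W` is a section over `Ks ∪ K ⊇ {v ≠ 0}` (a `v ≠ 0` outside `Ks` is `-t v₀`, `t > 0`, in `K`). `W' = W' ∩ N⁻¹ (sphere 0 1)` is compact, open, nonempty: `‖X‖` has a maximum on `W'` at
`w`, so `u ↦ ⟪X u,0⟫ - 1·‖X u - 0‖²` has a local minimum at `w`: contradiction with `hmin`.
(ii) `-v₀ ∉ K`: as `‖-v₀ - N s‖ < η`, some `⟪-v₀,e_i⟫ ≤ 0`. Let `x(λ) = (1-λ) N s - λ v₀`, `λ₁ ∈ (0,1]` the first `λ` where one of the (affine, positive at 0) functions `⟪x(λ),e_i⟫` vanishes; there the other one is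
`≥ 0`, so `> 0` by `disj`. If `λ₁ < 1`, `y := x(λ₁) ∉ R`. If `λ₁ = 1`, `x(1) = -v₀`; choose `y' ⟂ e_i` not a multiple of `v₀` and `y = -v₀ + θ y'`, `θ > 0` small: `y ∉ R`, `⟪y,e_i⟫ = 0 < ⟪y,e_j⟫`. In both cases
`y ∈ Ks`, `‖y - N s‖ < η/4`, and the points `y_μ = (1-μ) y + μ N s`, `μ ∈ (0,1]`, have both products positive, so are in `K`, and in `Ks` for small `μ`: over `y_μ/‖y_μ‖` the fibres agree. `no_wall` at `y/‖y‖`
(`‖y/‖y‖ - N s‖ < η`), with `HasRay` from `wall₁`/`wall₂`: False.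
-/

set_option autoImplicit false

open Filter Topology Set
open scoped RealInnerProductSpace

namespace Pool.Agent.Helper50.MS

variable {S : Type} [TopologicalSpace S] [T2Space S] {X N : S → E3} {A : S → End3}

private theorem perp2 (a b : E3) : ∃ y : E3, ‖y‖ = 1 ∧ ⟪y, a⟫ = 0 ∧ ⟪y, b⟫ = 0 := by
  classical
  set P : Submodule ℝ E3 := Submodule.span ℝ ((({a, b} : Finset E3)) : Set E3) with hP
  have h1 : Module.finrank ℝ P ≤ 2 :=
    (finrank_span_finset_le_card ({a, b} : Finset E3)).trans Finset.card_le_two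
  have h2 : Pᗮ ≠ ⊥ := by
    intro h
    have h3 : P = ⊤ := (Submodule.orthogonal_eq_bot_iff).1 h
    rw [h3, finrank_top, finrank_euclideanSpace_fin] at h1
    omega
  obtain ⟨z, hz, hz0⟩ := Submodule.exists_mem_ne_zero_of_ne_bot h2
  have ha : a ∈ P := Submodule.subset_span (by simp)
  have hb : b ∈ P := Submodule.subset_span (by simp)
  have hza : ⟪z, a⟫ = 0 := Submodule.inner_left_of_mem_orthogonal ha hz
  have hzb : ⟪z, b⟫ = 0 := Submodule.inner_left_of_mem_orthogonal hb hz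
  refine ⟨‖z‖⁻¹ • z, ?_, ?_, ?_⟩
  · rw [norm_smul, norm_inv, norm_norm, inv_mul_cancel₀ (norm_ne_zero_iff.2 hz0)]
  · rw [real_inner_smul_left, hza, mul_zero]
  · rw [real_inner_smul_left, hzb, mul_zero]

private theorem wall_false (hX : Continuous X) (hN : Continuous N) {v₀ : E3} {s₀ : S}
    {Ks : Set E3} {Ws : Set S} (hmax : IsMax N v₀ s₀ Ks Ws) {K : Set E3} {W : Set S}
    (hKc : IsCone K)
    (hag : ∀ v ∈ Ks ∩ K, ‖v‖ = 1 → Ws ∩ N ⁻¹' {v} = W ∩ N ⁻¹' {v}) {n y : E3} {η : ℝ}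
    (hn : ‖n‖ = 1) (hy : y ∈ Ks) (hyn : ‖y - n‖ < η / 4) {e e' : E3} (hye : ⟪y, e⟫ = 0)
    (hye' : 0 < ⟪y, e'⟫) (hne : 0 < ⟪n, e⟫) (hne' : 0 < ⟪n, e'⟫)
    (hball : ∀ v : E3, ‖v - n‖ < η → 0 < ⟪v, e⟫ → 0 < ⟪v, e'⟫ → v ∈ K)
    (hray : ∀ v : E3, ‖v‖ = 1 → ‖v - n‖ < η → ⟪v, e⟫ = 0 → 0 < ⟪v, e'⟫ →
      ∀ w ∈ closure W, N w = v → HasRay X N w) : False := by
  have hcone := hmax.star.cone
  have hy0 : y ≠ 0 := by
    rintro rfl
    exact hcone.zero hy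
  have hyp : 0 < ‖y‖ := norm_pos_iff.2 hy0
  have hη : 0 < η := by
    have := norm_nonneg (y - n)
    linarith
  have hv1 : ‖‖y‖⁻¹ • y‖ = 1 := by
    rw [norm_smul, norm_inv, norm_norm, inv_mul_cancel₀ hyp.ne']
  have hvn : ‖‖y‖⁻¹ • y - n‖ < η := by
    have h1 : ‖‖y‖⁻¹ • y - y‖ ≤ ‖y - n‖ := by
      have h2 : ‖y‖⁻¹ • y - y = (‖y‖⁻¹ - 1) • y := by rw [sub_smul, one_smul]
      rw [h2, norm_smul, Real.norm_eq_abs]
      have h3 : |‖y‖⁻¹ - 1| * ‖y‖ = |1 - ‖y‖| := by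
        rw [← abs_of_pos hyp, ← abs_mul, abs_of_pos hyp, sub_mul, inv_mul_cancel₀ hyp.ne', one_mul]
      rw [h3, ← hn, abs_sub_comm]
      exact abs_norm_sub_norm_le y n
    calc ‖‖y‖⁻¹ • y - n‖ = ‖(‖y‖⁻¹ • y - y) + (y - n)‖ := by congr 1; abel
      _ ≤ ‖‖y‖⁻¹ • y - y‖ + ‖y - n‖ := norm_add_le _ _
      _ < η := by linarith
  refine no_wall hX hN hmax (W := W) (v := ‖y‖⁻¹ • y) (hcone.smul y hy _ (inv_pos.2 hyp)) hv1 ?_
    (hray _ hv1 hvn (by rw [real_inner_smul_left, hye, mul_zero])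
      (by rw [real_inner_smul_left]; exact mul_pos (inv_pos.2 hyp) hye'))
  intro ε hε
  set F : ℝ → E3 := fun μ => (1 - μ) • y + μ • n with hF
  have hF0 : F 0 = y := by simp [hF]
  have hFc : Continuous F := by
    rw [hF]
    fun_prop
  have hGc : ContinuousAt (fun μ => ‖F μ‖⁻¹ • F μ) 0 := by
    refine ContinuousAt.smul (ContinuousAt.inv₀ hFc.norm.continuousAt ?_) hFc.continuousAt
    rw [hF0]
    exact hyp.ne'
  have h1 : ∀ᶠ μ in 𝓝 (0 : ℝ), F μ ∈ Ks :=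
    hFc.continuousAt.eventually (by rw [hF0]; exact hcone.isOpen.mem_nhds hy)
  have h2 : ∀ᶠ μ in 𝓝 (0 : ℝ), ‖‖F μ‖⁻¹ • F μ - ‖y‖⁻¹ • y‖ < ε := by
    have h3 := Metric.tendsto_nhds.1 hGc ε hε
    simp only [hF0, dist_eq_norm] at h3
    exact h3
  have h3 : ∀ᶠ μ in 𝓝[>] (0 : ℝ), μ ∈ Ioo (0 : ℝ) 1 := Ioo_mem_nhdsGT one_pos
  obtain ⟨μ, ⟨hμ1, hμ2⟩, hμ3⟩ :=
    (((h1.and h2).filter_mono nhdsWithin_le_nhds).and h3).exists
  have hFe : 0 < ⟪F μ, e⟫ := by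
    rw [hF]
    simp only
    rw [inner_add_left, real_inner_smul_left, real_inner_smul_left, hye, mul_zero, zero_add]
    exact mul_pos hμ3.1 hne
  have hFe' : 0 < ⟪F μ, e'⟫ := by
    rw [hF]
    simp only
    rw [inner_add_left, real_inner_smul_left, real_inner_smul_left]
    have h4 : 0 < (1 - μ) * ⟪y, e'⟫ := mul_pos (by linarith [hμ3.2]) hye'
    have h5 : 0 < μ * ⟪n, e'⟫ := mul_pos hμ3.1 hne'
    linarith
  have hFn : ‖F μ - n‖ < η := by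
    have h4 : F μ - n = (1 - μ) • (y - n) := by
      rw [hF]
      simp only
      rw [smul_sub, sub_smul, sub_smul, one_smul, one_smul]
      abel
    rw [h4, norm_smul, Real.norm_eq_abs, abs_of_pos (by linarith [hμ3.2])]
    have h5 : (1 - μ) * ‖y - n‖ ≤ 1 * ‖y - n‖ :=
      mul_le_mul_of_nonneg_right (by linarith [hμ3.1]) (norm_nonneg _)
    linarith
  have hFK : F μ ∈ K := hball _ hFn hFe hFe'
  have hFne : F μ ≠ 0 := by
    intro h0
    rw [h0] at hμ1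
    exact hcone.zero hμ1
  have hFp : 0 < ‖F μ‖ := norm_pos_iff.2 hFne
  have hG1 : ‖‖F μ‖⁻¹ • F μ‖ = 1 := by
    rw [norm_smul, norm_inv, norm_norm, inv_mul_cancel₀ hFp.ne']
  have hGs : ‖F μ‖⁻¹ • F μ ∈ Ks := hcone.smul _ hμ1 _ (inv_pos.2 hFp)
  have hGK : ‖F μ‖⁻¹ • F μ ∈ K := hKc.smul _ hFK _ (inv_pos.2 hFp)
  exact ⟨_, hGs, hG1, hμ2, hag _ ⟨hGs, hGK⟩ hG1⟩

private theorem wall_false' (hX : Continuous X) (hN : Continuous N) {v₀ : E3} {s₀ : S}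
    {Ks : Set E3} {Ws : Set S} (hmax : IsMax N v₀ s₀ Ks Ws)
    (hK : ∀ v : E3, v ∈ Ks ↔ ¬ ∃ t : ℝ, 0 ≤ t ∧ v = -(t • v₀)) {K : Set E3} {W : Set S}
    (hKc : IsCone K)
    (hag : ∀ v ∈ Ks ∩ K, ‖v‖ = 1 → Ws ∩ N ⁻¹' {v} = W ∩ N ⁻¹' {v}) {n x : E3} {η : ℝ}
    (hn : ‖n‖ = 1) (hxn : ‖x - n‖ < η / 8) {e e' : E3} (he' : ‖e'‖ = 1)
    (hxe : ⟪x, e⟫ = 0)
    (hxe' : 0 < ⟪x, e'⟫) (hne : 0 < ⟪n, e⟫) (hne' : 0 < ⟪n, e'⟫)
    (hball : ∀ v : E3, ‖v - n‖ < η → 0 < ⟪v, e⟫ → 0 < ⟪v, e'⟫ → v ∈ K)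
    (hray : ∀ v : E3, ‖v‖ = 1 → ‖v - n‖ < η → ⟪v, e⟫ = 0 → 0 < ⟪v, e'⟫ →
      ∀ w ∈ closure W, N w = v → HasRay X N w) : False := by
  have hη : 0 < η := by
    have := norm_nonneg (x - n)
    linarith
  by_cases hx : x ∈ Ks
  · exact wall_false hX hN hmax hKc hag hn hx (by linarith) hxe hxe' hne hne' hball hray
  · have hx' : ∃ t : ℝ, 0 ≤ t ∧ x = -(t • v₀) := by
      by_contra h
      exact hx ((hK x).2 h)
    obtain ⟨t, -, rfl⟩ := hx'
    obtain ⟨y, hy1, hye, hyv⟩ := perp2 e v₀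
    set θ : ℝ := min (η / 16) (⟪-(t • v₀), e'⟫ / 2) with hθ
    have hθ0 : 0 < θ := lt_min (by positivity) (by positivity)
    have hθ1 : θ ≤ η / 16 := min_le_left _ _
    have hθ2 : θ ≤ ⟪-(t • v₀), e'⟫ / 2 := min_le_right _ _
    have hYs : -(t • v₀) + θ • y ∈ Ks := by
      rw [hK]
      rintro ⟨r, -, hr⟩
      have h1 := congrArg (fun z => ⟪y, z⟫) hr
      simp only [inner_add_right, inner_neg_right, real_inner_smul_right, hyv, mul_zero, neg_zero,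
        zero_add] at h1
      rw [real_inner_self_eq_norm_sq, hy1] at h1
      linarith
    refine wall_false hX hN hmax hKc hag hn hYs ?_ ?_ ?_ hne hne' hball hray
    · have h1 : -(t • v₀) + θ • y - n = (-(t • v₀) - n) + θ • y := by abel
      rw [h1]
      refine lt_of_le_of_lt (norm_add_le _ _) ?_
      rw [norm_smul, hy1, mul_one, Real.norm_eq_abs, abs_of_pos hθ0]
      linarith
    · rw [inner_add_left, hxe, real_inner_smul_left, hye, mul_zero, add_zero]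
    · rw [inner_add_left, real_inner_smul_left]
      have h1 : |⟪y, e'⟫| ≤ 1 := by
        have := abs_real_inner_le_norm y e'
        rw [hy1, he', mul_one] at this
        exact this
      have h2 := (abs_le.1 h1).1
      nlinarith

theorem no_sphere (hX : Continuous X) (hN : Continuous N) (hU : ∀ s, ‖N s‖ = 1) {η : ℝ}
    (hη : 0 < η)
    (pic : ∀ s : S, ∃ (K : Set E3) (W : Set S) (e₁ e₂ : E3) (σ : ℝ),
      LocalPic X N A η s K W e₁ e₂ σ)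
    (hmin : ∀ (s : S) (y x₀ : E3) (ε : ℝ), 0 < ε →
      ¬ IsLocalMin (fun u => ⟪X u, y⟫ - ε * ‖X u - x₀‖ ^ 2) s)
    {v₀ : E3} (hv₀ : ‖v₀‖ = 1) {s₀ : S} {Ks : Set E3} {Ws : Set S}
    (hmax : IsMax N v₀ s₀ Ks Ws)
    (hK : ∀ v : E3, v ∈ Ks ↔ ¬ ∃ t : ℝ, 0 ≤ t ∧ v = -(t • v₀)) : False := by
  -- the direction u
  obtain ⟨y, hy1, hyv, -⟩ := perp2 v₀ v₀
  have hvy : ⟪v₀, y⟫ = 0 := by rw [real_inner_comm]; exact hyv
  have hv00 : ⟪v₀, v₀⟫ = 1 := by rw [real_inner_self_eq_norm_sq, hv₀, one_pow]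
  have hyy : ⟪y, y⟫ = 1 := by rw [real_inner_self_eq_norm_sq, hy1, one_pow]
  set θ : ℝ := min 1 (η / 16) with hθ
  have hθ0 : 0 < θ := lt_min one_pos (by positivity)
  have hθ1 : θ ≤ 1 := min_le_left _ _
  have hθ2 : θ ≤ η / 16 := min_le_right _ _
  set u : E3 := -(Real.cos θ • v₀) + Real.sin θ • y with hu
  have hsin : 0 < Real.sin θ := Real.sin_pos_of_pos_of_lt_pi hθ0 (by linarith [Real.pi_gt_three])
  have hunorm : ‖u‖ = 1 := by
    have h1 : ‖u‖ ^ 2 = 1 := by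
      rw [← real_inner_self_eq_norm_sq, hu]
      simp only [inner_add_left, inner_add_right, inner_neg_left, inner_neg_right,
        real_inner_smul_left, real_inner_smul_right, hyv, hvy, hv00, hyy]
      have := Real.sin_sq_add_cos_sq θ
      nlinarith
    have h2 := norm_nonneg u
    nlinarith
  have huv : ‖u + v₀‖ < η / 8 := by
    have h1 : ‖u + v₀‖ ^ 2 = 2 - 2 * Real.cos θ := by
      rw [← real_inner_self_eq_norm_sq, hu]
      simp only [inner_add_left, inner_add_right, inner_neg_left, inner_neg_right,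
        real_inner_smul_left, real_inner_smul_right, hyv, hvy, hv00, hyy]
      have := Real.sin_sq_add_cos_sq θ
      nlinarith
    have h2 : 1 - θ ^ 2 / 2 ≤ Real.cos θ := Real.one_sub_sq_div_two_le_cos
    have h3 : ‖u + v₀‖ ^ 2 ≤ θ ^ 2 := by rw [h1]; linarith
    have h4 : ‖u + v₀‖ ≤ θ := by
      have := abs_le_of_sq_le_sq' h3 hθ0.le
      exact this.2
    linarith
  have huK : u ∈ Ks := by
    rw [hK]
    rintro ⟨t, -, ht⟩
    have h1 := congrArg (fun z => ⟪y, z⟫) ht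
    rw [hu] at h1
    simp only [inner_add_right, inner_neg_right, real_inner_smul_right, hyv, mul_zero, neg_zero,
      zero_add] at h1
    rw [real_inner_self_eq_norm_sq, hy1] at h1
    linarith
  obtain ⟨s, hs, hNs⟩ := hmax.sect.nonempty u huK hunorm
  have hNs' : N s = u := hNs
  obtain ⟨K, W, e₁, e₂, σ, hP⟩ := pic s
  have hpos : 0 < ⟪N s, e₁⟫ ∧ 0 < ⟪N s, e₂⟫ := by
    by_contra hcon
    exact ray_bounded hX hmax.sect hs (by rw [hNs']; exact huK) (hP.ray hcon)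
  obtain ⟨hp1, hp2⟩ := hpos
  have hsW : s ∈ W := hP.mem hp1 hp2
  have hKs : Ks = {v | ¬ ∃ t : ℝ, 0 ≤ t ∧ v = -(t • v₀)} := by
    ext v
    exact hK v
  have hconn : IsPreconnected ((Ks ∩ K) ∩ Metric.sphere (0 : E3) 1) := by
    refine sphere_preconnected (cone_inter hmax.star.cone hP.cone) ?_
    rw [hKs, Set.inter_comm]
    exact convex_minus_ray hv₀ hP.cone hP.convex
  have hag := glue_fibres hN hU hmax.sect hP.sect hmax.star.cone.isOpen hP.cone.isOpen hconn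
    ⟨s, hs, hsW⟩
  by_cases hvK : -v₀ ∈ K
  · -- the union of the two sections is compact
    have hgl := glue hN hU hmax.sect hP.sect hmax.star.cone.isOpen hP.cone.isOpen hconn
      ⟨s, hs, hsW⟩
    have hsub : Metric.sphere (0 : E3) 1 ⊆ Ks ∪ K := by
      intro v hv
      rw [mem_sphere_zero_iff_norm] at hv
      by_cases h : v ∈ Ks
      · exact Or.inl h
      · right
        have h' : ∃ t : ℝ, 0 ≤ t ∧ v = -(t • v₀) := by
          by_contra h2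
          exact h ((hK v).2 h2)
        obtain ⟨t, ht, rfl⟩ := h'
        rw [norm_neg, norm_smul, hv₀, mul_one, Real.norm_eq_abs, abs_of_nonneg ht] at hv
        rw [hv, one_smul]
        exact hvK
    have hcomp := hgl.proper _ (isCompact_sphere (0 : E3) 1) hsub
    have heq : (Ws ∪ W) ∩ N ⁻¹' Metric.sphere (0 : E3) 1 = Ws ∪ W := by
      apply Set.inter_eq_left.2
      intro w _
      exact mem_sphere_zero_iff_norm.2 (hU w)
    rw [heq] at hcomp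
    obtain ⟨w, hw, hwmax⟩ := hcomp.exists_isMaxOn ⟨s, Or.inl hs⟩ hX.norm.continuousOn
    apply hmin w 0 0 1 one_pos
    have hnh : Ws ∪ W ∈ 𝓝 w := hgl.openW.mem_nhds hw
    filter_upwards [hnh] with z hz
    have h1 : ‖X z‖ ≤ ‖X w‖ := isMaxOn_iff.1 hwmax z hz
    have h2 := norm_nonneg (X z)
    simp only [inner_zero_right, sub_zero, zero_sub, one_mul]
    nlinarith
  · have hvn : ‖-v₀ - N s‖ < η / 8 := by
      rw [hNs', ← norm_neg]
      have h1 : -(-v₀ - u) = u + v₀ := by abel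
      rw [h1]
      exact huv
    have hnot : ¬ (0 < ⟪-v₀, e₁⟫ ∧ 0 < ⟪-v₀, e₂⟫) := fun h =>
      hvK ((hP.ball (-v₀) (by linarith)).2 h)
    set x : ℝ → E3 := fun l => (1 - l) • N s + l • (-v₀) with hx
    have hxi : ∀ (l : ℝ) (e : E3), ⟪x l, e⟫ = (1 - l) * ⟪N s, e⟫ + l * ⟪-v₀, e⟫ := by
      intro l e
      rw [hx]
      simp only
      rw [inner_add_left, real_inner_smul_left, real_inner_smul_left]
    have hxn : ∀ l : ℝ, 0 ≤ l → l ≤ 1 → ‖x l - N s‖ < η / 8 := by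
      intro l h0 h1
      have h2 : x l - N s = l • (-v₀ - N s) := by
        rw [hx]
        simp only
        rw [smul_sub, sub_smul, one_smul]
        abel
      rw [h2, norm_smul, Real.norm_eq_abs, abs_of_nonneg h0]
      have h3 : l * ‖-v₀ - N s‖ ≤ 1 * ‖-v₀ - N s‖ :=
        mul_le_mul_of_nonneg_right h1 (norm_nonneg _)
      linarith
    set p₁ := ⟪N s, e₁⟫ with hp₁
    set p₂ := ⟪N s, e₂⟫ with hp₂
    set q₁ := ⟪-v₀, e₁⟫ with hq₁
    set q₂ := ⟪-v₀, e₂⟫ with hq₂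
    have key : ∃ l : ℝ, 0 ≤ l ∧ l ≤ 1 ∧
        ((⟪x l, e₁⟫ = 0 ∧ 0 ≤ ⟪x l, e₂⟫) ∨ (⟪x l, e₂⟫ = 0 ∧ 0 ≤ ⟪x l, e₁⟫)) := by
      have hz : ∀ p q : ℝ, 0 < p → q ≤ 0 → 0 ≤ p / (p - q) ∧ p / (p - q) ≤ 1 ∧
          (1 - p / (p - q)) * p + p / (p - q) * q = 0 := by
        intro p q hp hq
        have h1 : 0 < p - q := by linarith
        refine ⟨by positivity, ?_, ?_⟩
        · rw [div_le_one h1]; linarith
        · field_simp
          ring
      have hcmp : ∀ p q p' q' : ℝ, 0 < p → q ≤ 0 → 0 < p' →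
          (0 < q' ∨ (q' ≤ 0 ∧ p / (p - q) ≤ p' / (p' - q'))) →
          0 ≤ (1 - p / (p - q)) * p' + p / (p - q) * q' := by
        intro p q p' q' hp hq hp' h
        obtain ⟨h1, h2, -⟩ := hz p q hp hq
        rcases h with h | ⟨h, h3⟩
        · have h4 : 0 ≤ (1 - p / (p - q)) * p' := mul_nonneg (by linarith) hp'.le
          have h5 : 0 ≤ p / (p - q) * q' := mul_nonneg h1 h.le
          linarith
        · have h4 : 0 < p' - q' := by linarith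
          rw [le_div_iff₀ h4] at h3
          nlinarith
      rcases le_or_gt q₁ 0 with h1 | h1
      · rcases le_or_gt q₂ 0 with h2 | h2
        · rcases le_total (p₁ / (p₁ - q₁)) (p₂ / (p₂ - q₂)) with h3 | h3
          · obtain ⟨a1, a2, a3⟩ := hz p₁ q₁ hp1 h1
            refine ⟨_, a1, a2, Or.inl ⟨?_, ?_⟩⟩
            · rw [hxi]; exact a3
            · rw [hxi]; exact hcmp p₁ q₁ p₂ q₂ hp1 h1 hp2 (Or.inr ⟨h2, h3⟩)
          · obtain ⟨a1, a2, a3⟩ := hz p₂ q₂ hp2 h2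
            refine ⟨_, a1, a2, Or.inr ⟨?_, ?_⟩⟩
            · rw [hxi]; exact a3
            · rw [hxi]; exact hcmp p₂ q₂ p₁ q₁ hp2 h2 hp1 (Or.inr ⟨h1, h3⟩)
        · obtain ⟨a1, a2, a3⟩ := hz p₁ q₁ hp1 h1
          refine ⟨_, a1, a2, Or.inl ⟨?_, ?_⟩⟩
          · rw [hxi]; exact a3
          · rw [hxi]; exact hcmp p₁ q₁ p₂ q₂ hp1 h1 hp2 (Or.inl h2)
      · have h2 : q₂ ≤ 0 := by
          by_contra h2
          exact hnot ⟨h1, not_le.1 h2⟩
        obtain ⟨a1, a2, a3⟩ := hz p₂ q₂ hp2 h2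
        refine ⟨_, a1, a2, Or.inr ⟨?_, ?_⟩⟩
        · rw [hxi]; exact a3
        · rw [hxi]; exact hcmp p₂ q₂ p₁ q₁ hp2 h2 hp1 (Or.inl h1)
    obtain ⟨l, hl0, hl1, h⟩ := key
    have hdisj := hP.disj hp1 hp2 (x l) (by linarith [hxn l hl0 hl1])
    rcases h with ⟨h1, h2⟩ | ⟨h1, h2⟩
    · have h3 : 0 < ⟪x l, e₂⟫ := lt_of_le_of_ne h2 (fun h => hdisj ⟨h1, h.symm⟩)
      exact wall_false' hX hN hmax hK hP.cone hag (hU s) (hxn l hl0 hl1) hP.unit₂ h1 h3 hp1 hp2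
        (fun v hv h4 h5 => (hP.ball v hv).2 ⟨h4, h5⟩)
        (fun v hv hvn h4 h5 => (hP.wall₁ hp1 hp2 v hv hvn h4 h5).2)
    · have h3 : 0 < ⟪x l, e₁⟫ := lt_of_le_of_ne h2 (fun h => hdisj ⟨h.symm, h1⟩)
      exact wall_false' hX hN hmax hK hP.cone hag (hU s) (hxn l hl0 hl1) hP.unit₁ h1 h3 hp2 hp1
        (fun v hv h4 h5 => (hP.ball v hv).2 ⟨h5, h4⟩)
        (fun v hv hvn h4 h5 => (hP.wall₂ hp1 hp2 v hv hvn h4 h5).2)

end Pool.Agent.Helper50.MS
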