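import Pool.Agent.Helper50.MS.AllPics
import Pool.Agent.Helper50.MS.Critical
import Pool.Agent.Helper50.MS.NoRay
import Pool.Agent.Helper50.MS.ExistsMax
import Pool.Agent.Helper50.MS.Boundary
import Pool.Agent.Helper50.MS.ConeGlobal
import Pool.Agent.Helper50.MS.Sphere
import Pool.Agent.Helper50.MS.SignConst
import Pool.Agent.Helper50.MS.MinExists
import Pool.Agent.Helper50.MS.NoMin

/-!
# MS-49  The theorem

PROOF. Suppose `k₁ k₂ < 0` at `s₀`, `v₀ = N s₀`. `surface_cont` gives `hX, hN, hU`; `pic = localPic_exists`, `η = del C / 100 > 0` (`kap_del`). At `s₀`: `LocalPic`: `K, W, e₁, e₂`; `no_ray` and `ray` give `0 < ⟪v₀,e_i⟫`,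
`s₀ ∈ W`, `v₀ ∈ K` (`maps`). `ball_star` gives `B ⊆ K` star-shaped, `W ∩ N⁻¹ B` is a section (`sect_restrict`) containing `s₀`. `exists_max` gives `(Ks,Ws)`. `boundary` and `cone_global` give: either
`Ks = {v | 0 < ⟪v,e⟫}` or the complement of a ray; the second is excluded by `no_sphere` (`hmin` from `no_local_min`). In the first case for each unit `v ⟂ e`: `v ∉ Ks`, `v + t v₀ ∈ Ks` for `t > 0`; `boundary` gives
`e', σ, δ`; `e' = e` because `0 < ⟪u,e⟫ ↔ 0 < ⟪u,e'⟫` near `v`, `⟪v,e⟫ = ⟪v,e'⟫ = 0`, both unit (`unit_eq`). `sign_const`, `min_exists`, `no_min` (`hcrit` from `crit_tangent` with `ε = 0`). Contradiction.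
`saddle_flat` is the form with `Hyp`; `main` the form with principal curvature functions: `Hyp X N A (c/2) (max C 1)`: `‖A s‖ = max |k₁| |k₂| ≥ c/2` (`eigen_norm`; `A s (N s) = 0` from `IsParam.shape_normal`).
-/

set_option autoImplicit false

open Filter Topology Set
open scoped RealInnerProductSpace

namespace Pool.Agent.Helper50.MS

variable {S : Type} [TopologicalSpace S] [T2Space S] {X N : S → E3} {A : S → End3}

theorem saddle_flat {c C : ℝ} (h : Hyp X N A c C) {s : S} {e₁ e₂ : E3} {k₁ k₂ : ℝ}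
    (on : Orthonormal ℝ ![e₁, e₂, N s]) (h₁ : A s e₁ = k₁ • e₁) (h₂ : A s e₂ = k₂ • e₂) :
    k₁ * k₂ = 0 := by
  by_contra hk
  obtain ⟨hX, hN, -, hU⟩ := surface_cont h.surf
  have hC : 0 < C := lt_of_lt_of_le one_pos h.one_le
  have hη : 0 < del C / 100 := by
    unfold del kap
    positivity
  have pic := fun s => localPic_exists h s
  have hmin : ∀ (s : S) (y x₀ : E3) (ε : ℝ), 0 < ε →
      ¬ IsLocalMin (fun u => ⟪X u, y⟫ - ε * ‖X u - x₀‖ ^ 2) s :=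
    fun s y x₀ ε hε => no_local_min h s y x₀ hε
  have hcrit : ∀ (s : S) (y : E3), IsLocalMin (fun u => ⟪X u, y⟫) s → y = ⟪y, N s⟫ • N s := by
    intro s y hs
    have h3 := crit_tangent h (s := s) y 0 0 (by simpa using hs)
    simpa using h3
  obtain ⟨K, W, a₁, a₂, τ, hp⟩ := pic s
  have hnr := no_ray h on h₁ h₂ hk
  have hpos : 0 < ⟪N s, a₁⟫ ∧ 0 < ⟪N s, a₂⟫ := by
    by_contra hc
    exact hnr (hp.ray hc)
  have hsW : s ∈ W := hp.mem hpos.1 hpos.2
  have hv₀ : ‖N s‖ = 1 := hU s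
  obtain ⟨B, hB, hBK⟩ := ball_star hp.cone (hp.sect.maps s hsW) hv₀
  obtain ⟨Ks, Ws, hmax⟩ := exists_max hN hU (v₀ := N s) (s₀ := s) rfl hB
    (sect_restrict hN hp.sect hB.cone.isOpen hBK) ⟨hsW, hB.mem⟩
  have hbd : ∀ v : E3, ‖v‖ = 1 → v ∉ Ks → (∀ t : ℝ, 0 < t → v + t • N s ∈ Ks) →
      ∃ (e : E3) (σ δ : ℝ), ‖e‖ = 1 ∧ (σ = 1 ∨ σ = -1) ∧ 0 < δ ∧ ⟪v, e⟫ = 0 ∧ 0 < ⟪N s, e⟫ ∧
      (∀ u : E3, ‖u - v‖ < δ → (u ∈ Ks ↔ 0 < ⟪u, e⟫)) ∧
      ∀ u : E3, ‖u‖ = 1 → ‖u - v‖ < δ → ⟪u, e⟫ = 0 → WallAt X N A Ws e σ u :=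
    fun v hv hvK hray => boundary hX hN hU hη pic hv₀ hmax hv hvK hray
  rcases cone_global hv₀ hmax.star (fun v hv hvK hray => by
    obtain ⟨e, σ, δ, he, -, hδ, hve, hv₀e, hloc, -⟩ := hbd v hv hvK hray
    exact ⟨e, δ, he, hδ, hve, hv₀e, hloc⟩) with ⟨e, he, hve, hKe⟩ | hK
  · have hKs : Ks = {v | 0 < ⟪v, e⟫} := Set.ext hKe
    have hs : IsSect N {v | 0 < ⟪v, e⟫} Ws := hKs ▸ hmax.sect
    have hW : ∀ v : E3, ‖v‖ = 1 → ⟪v, e⟫ = 0 → ∃ σ δ : ℝ, (σ = 1 ∨ σ = -1) ∧ 0 < δ ∧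
        ∀ u : E3, ‖u‖ = 1 → ‖u - v‖ < δ → ⟪u, e⟫ = 0 → WallAt X N A Ws e σ u := by
      intro v hv hv0
      obtain ⟨e', σ, δ, he', hσ, hδ, hve', hv₀e', hloc, hwall⟩ := hbd v hv
        (fun hvK => by
          have := (hKe v).1 hvK
          rw [hv0] at this
          exact lt_irrefl _ this)
        (fun t ht => (hKe _).2 (by
          rw [inner_add_left, real_inner_smul_left, hv0, zero_add]
          exact mul_pos ht hve))
      have hee : e = e' := by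
        refine unit_eq he he' (fun y hy => ?_)
        obtain ⟨r, hr, hr2⟩ : ∃ r : ℝ, 0 < r ∧ r * ‖y‖ < δ := by
          refine ⟨δ / (‖y‖ + 1), by positivity, ?_⟩
          rw [div_mul_eq_mul_div, div_lt_iff₀ (by positivity)]
          nlinarith [norm_nonneg y]
        have h3 : ‖v + r • y - v‖ < δ := by
          rw [add_sub_cancel_left, norm_smul, Real.norm_eq_abs, abs_of_pos hr]
          exact hr2
        have h4 : v + r • y ∈ Ks := (hKe _).2 (by
          rw [inner_add_left, real_inner_smul_left, hv0, zero_add]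
          exact mul_pos hr hy)
        have h5 := (hloc _ h3).1 h4
        rw [inner_add_left, real_inner_smul_left, hve', zero_add] at h5
        exact (mul_pos_iff_of_pos_left hr).1 h5
      subst hee
      exact ⟨σ, δ, hσ, hδ, hwall⟩
    obtain ⟨σ, hσ, hwall⟩ := sign_const hN hU he hs hW
    obtain ⟨w, hw, hww⟩ := min_exists hX hN hU he hs hwall
    exact no_min hX hN hU he hs hσ hcrit hmin hw hww
  · exact no_sphere hX hN hU hη pic hmin hv₀ hmax hK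

theorem main (hS : IsSurface X N A) (hcomp : IsCompleteSurface X) {k₁ k₂ : S → ℝ}
    (hk : ArePrincipal N A k₁ k₂) (hK : ∀ s, k₁ s * k₂ s ≤ 0)
    (hinf : ∃ c : ℝ, 0 < c ∧ ∀ s, c ≤ |k₁ s| + |k₂ s|)
    (hgrad : ∃ C : ℝ, GradBound X N A C) : ∀ s, k₁ s * k₂ s = 0 := by
  intro s
  obtain ⟨c, hc, hinf⟩ := hinf
  obtain ⟨C, hgrad⟩ := hgrad
  have hAN : ∀ s, A s (N s) = 0 := by
    intro s
    obtain ⟨U, ψ, hψ, u, hu, rfl⟩ := hS s
    exact hψ.shape_normal u hu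
  have hyp : Hyp X N A (c / 2) (max C 1) := by
    refine ⟨hS, hcomp, by positivity, ?_, le_max_right _ _, ?_, ?_⟩
    · intro s
      obtain ⟨e₁, e₂, on, h1, h2⟩ := hk s
      rw [eigen_norm on h1 h2 (hAN s)]
      have h3 := hinf s
      have h4 := le_max_left |k₁ s| |k₂ s|
      have h5 := le_max_right |k₁ s| |k₂ s|
      linarith
    · intro U ψ hψ u hu v
      refine (hgrad U ψ hψ u hu v).trans ?_
      gcongr
      exact le_max_left _ _
    · intro s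
      obtain ⟨e₁, e₂, on, h1, h2⟩ := hk s
      exact ⟨e₁, e₂, k₁ s, k₂ s, on, h1, h2, hAN s, hK s⟩
  obtain ⟨e₁, e₂, on, h1, h2⟩ := hk s
  exact saddle_flat hyp on h1 h2

end Pool.Agent.Helper50.MS
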