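import Mathlib

/-!
# MS-20  Continuous midpoint affine functions on an interval are affine

`g q = w q - α - β q`, `α = (w κ + w (-κ))/2`, `β = (w κ - w (-κ))/(2κ)`: `g (±κ) = 0`, `g` is midpoint affine and continuous. Suppose `μ = max |g| > 0` (compact), attained; replacing `g` by `-g` assume
`g q₁ = μ` for some `q₁`; let `q₁` be the largest point of `[-κ,κ]` with `g = μ` (closed set). `q₁ ≠ ±κ`. For small `h > 0`: `2 μ = 2 g q₁ = g (q₁-h) + g (q₁+h) < 2μ`: contradiction.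
(Or density of the dyadic points.)
-/

set_option autoImplicit false

open Filter Topology Set

namespace Pool.Agent.Helper50.MS

private theorem ma_nonpos {κ : ℝ} (hκ : 0 < κ) {g : ℝ → ℝ} (hc : ContinuousOn g (Icc (-κ) κ))
    (hm : ∀ q₁ ∈ Icc (-κ) κ, ∀ q₂ ∈ Icc (-κ) κ, g q₁ + g q₂ = 2 * g ((q₁ + q₂) / 2))
    (h1 : g κ = 0) (h2 : g (-κ) = 0) : ∀ q ∈ Icc (-κ) κ, g q ≤ 0 := by
  intro q hq
  by_contra hcon
  have hcon' : 0 < g q := lt_of_not_ge hcon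
  obtain ⟨q', hq', hmax⟩ := isCompact_Icc.exists_isMaxOn ⟨q, hq⟩ hc
  have hmax' : ∀ x ∈ Icc (-κ) κ, g x ≤ g q' := fun x hx => hmax hx
  have hμ : 0 < g q' := lt_of_lt_of_le hcon' (hmax' q hq)
  have hT : IsCompact (Icc (-κ) κ ∩ g ⁻¹' {g q'}) := by
    apply isCompact_Icc.of_isClosed_subset
    · exact hc.preimage_isClosed_of_isClosed isClosed_Icc isClosed_singleton
    · exact inter_subset_left
  obtain ⟨q1, hq1, hgr⟩ := hT.exists_isGreatest ⟨q', hq', rfl⟩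
  have hq1v : g q1 = g q' := hq1.2
  obtain ⟨ha, hb⟩ := hq1.1
  have hne1 : q1 ≠ κ := by
    rintro rfl
    rw [h1] at hq1v
    linarith
  have hne2 : q1 ≠ -κ := by
    intro h
    rw [h, h2] at hq1v
    linarith
  have hlt1 : q1 < κ := lt_of_le_of_ne hb hne1
  have hlt2 : -κ < q1 := lt_of_le_of_ne ha (Ne.symm hne2)
  obtain ⟨h, hh, hh1, hh2⟩ : ∃ h : ℝ, 0 < h ∧ h ≤ κ - q1 ∧ h ≤ q1 + κ := by
    refine ⟨min (κ - q1) (q1 + κ), ?_, min_le_left _ _, min_le_right _ _⟩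
    exact lt_min (by linarith) (by linarith)
  have hp : q1 + h ∈ Icc (-κ) κ := ⟨by linarith, by linarith⟩
  have hn : q1 - h ∈ Icc (-κ) κ := ⟨by linarith, by linarith⟩
  have h3 := hm (q1 - h) hn (q1 + h) hp
  have h4 : (q1 - h + (q1 + h)) / 2 = q1 := by ring
  rw [h4, hq1v] at h3
  have h5 := hmax' _ hp
  have h6 := hmax' _ hn
  have h7 : g (q1 + h) = g q' := by linarith
  have h8 : q1 + h ≤ q1 := hgr ⟨hp, h7⟩
  linarith

theorem mid_affine {κ : ℝ} (hκ : 0 < κ) {w : ℝ → ℝ} (hc : ContinuousOn w (Icc (-κ) κ))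
    (hm : ∀ q₁ ∈ Icc (-κ) κ, ∀ q₂ ∈ Icc (-κ) κ, w q₁ + w q₂ = 2 * w ((q₁ + q₂) / 2)) :
    ∃ α β : ℝ, ∀ q ∈ Icc (-κ) κ, w q = α + β * q := by
  obtain ⟨α, hα⟩ : ∃ α : ℝ, α = (w κ + w (-κ)) / 2 := ⟨_, rfl⟩
  obtain ⟨β, hβ⟩ : ∃ β : ℝ, β = (w κ - w (-κ)) / (2 * κ) := ⟨_, rfl⟩
  have hβκ : β * κ = (w κ - w (-κ)) / 2 := by
    rw [hβ]
    field_simp
  have hcl : ContinuousOn (fun q : ℝ => α + β * q) (Icc (-κ) κ) := by fun_prop
  have a1 := ma_nonpos hκ (g := fun q => w q - (α + β * q)) (hc.sub hcl)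
    (fun q₁ hq₁ q₂ hq₂ => by
      have := hm q₁ hq₁ q₂ hq₂
      linarith) (by linarith) (by linarith)
  have a2 := ma_nonpos hκ (g := fun q => (α + β * q) - w q) (hcl.sub hc)
    (fun q₁ hq₁ q₂ hq₂ => by
      have := hm q₁ hq₁ q₂ hq₂
      linarith) (by linarith) (by linarith)
  refine ⟨α, β, fun q hq => ?_⟩
  have b1 := a1 q hq
  have b2 := a2 q hq
  linarith

end Pool.Agent.Helper50.MS
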