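import Pool.Agent.Helper50.MS.Walls

/-!
# MS-31  The local picture for adapted frames

Assembly. `full_exists` gives the full strip. `K = coneOf`, `W = secOf`, `e_i = ‖w_i‖⁻¹ w_i`, `σ = -1`, `η = δ/100`. `cone`, `convex`, `ball`: `cone_props` (`0 < ⟪v,e_i⟫ ↔ 0 < ⟪v,w_i⟫`). `pos`: `N s = n`. `sect`: `sec_isSect`. `ray`: `⟪n,w₁⟫ = -α₁`, `⟪n,w₂⟫ = α₂`; `P(0,0) = p (N s) = 0`. If `α₁ ≥ 0` then `alt₁` is in the first
 case and `α₁ ≤ P(x,0) ≤ P(0,0) = 0` for `x ≥ 0`: so `α₁ = 0`, `P(x,0) = 0`, `N (G (x,0)) = n`: the ray `R = G '' ([0,∞) × {0})` (as in MS-28). Same for `α₂ ≤ 0` with `(-∞,0]` (or `full_reflect`). `mem`: `s = G (0,0)`. `disj`: if both walls are of the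
 first kind then `d q = (α₂ + β₂q) - (α₁+β₁q) ≥ 0` on `J` (`P(0,q)` is between), affine, `d 0 > 0`, so `d q > 0` for `|q| < κ` (if `d q = 0` then `d` changes sign between `q` and `±κ`, as `d 0 > 0`); if `v` is on both walls, `d (q v) = 0`, `|q v| ≤ κ/4`. If one
 is of the second kind, say `α₁ = -δ/5`, `β₁ = 0`, then `⟪v,w₁⟫ = -⟪v,a⟫ + (δ/5)⟪v,n⟫ > 0` on the ball. `wall₁`, `wall₂`: MS-30.
-/

set_option autoImplicit false

open Filter Topology Set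
open scoped RealInnerProductSpace

namespace Pool.Agent.Helper50.MS

variable {S : Type} [TopologicalSpace S] [T2Space S] {X N : S → E3} {A : S → End3} {c C : ℝ}

omit [T2Space S] in
private theorem ray_aux (h : Hyp X N A c C) (F : Frame) {s : S} (hs : Adapted F N A s)
    {I : Set ℝ} {G : ℝ × ℝ → S} {α₁ β₁ α₂ β₂ : ℝ}
    (hf : IsFull F X N A C s I G α₁ β₁ α₂ β₂) (hα : 0 ≤ α₁) : HasRay X N s := by
  obtain ⟨hκ0, hκ1, hCκ, hδ0, hδ⟩ := kap_del h.one_le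
  obtain ⟨haa, hbb, hnn, hab, han, hbn⟩ := frame_inner F
  have hna : ⟪F.n, F.a⟫ = 0 := by rw [real_inner_comm]; exact han
  obtain ⟨-, -, -, hN1⟩ := surface_cont h.surf
  rcases hf.alt₁ with ⟨hI, hP⟩ | ⟨-, hα', -⟩
  · have h0 : (0 : ℝ) ∈ Icc (-kap C) (kap C) := ⟨by linarith, hκ0.le⟩
    have hD : ∀ x : ℝ, 0 ≤ x → (x, (0 : ℝ)) ∈ I ×ˢ Icc (-kap C) (kap C) :=
      fun x hx => ⟨hI hx, h0⟩
    have hp0 : F.p (N (G (0, 0))) = 0 := by
      rw [hf.start, hs.1, Frame.p, hna, hnn]; simp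
    have hPx : ∀ x : ℝ, 0 ≤ x → F.p (N (G (x, 0))) = 0 := by
      intro x hx
      apply le_antisymm
      · have := strip_P_anti h F _ hf.lift hx (fun y hy => hD y hy.1)
        rwa [hp0] at this
      · have := hP (x, 0) (hD x hx)
        simp only [mul_zero, add_zero] at this
        linarith
    have hNx : ∀ x : ℝ, 0 ≤ x → N (G (x, 0)) = F.n := by
      intro x hx
      have h1 := hPx x hx
      have h2 : F.q (N (G (x, 0))) = 0 := (strip_Xa F _ hf.lift (hD x hx)).2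
      have h3 : 0 < ⟪N (G (x, 0)), F.n⟫ := (hf.lift.mem _ (hD x hx)).1
      have h4 : ⟪N (G (x, 0)), F.a⟫ = 0 := by
        rw [Frame.p, div_eq_zero_iff] at h1
        rcases h1 with h1 | h1
        · linarith
        · exact absurd h1 h3.ne'
      have h5 : ⟪N (G (x, 0)), F.b⟫ = 0 := by
        rw [Frame.q, div_eq_zero_iff] at h2
        rcases h2 with h2 | h2
        · linarith
        · exact absurd h2 h3.ne'
      have h6 := frame_norm_sq F (N (G (x, 0)))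
      rw [hN1, h4, h5] at h6
      have h7 : ⟪N (G (x, 0)), F.n⟫ = 1 := by nlinarith
      have h8 := frame_expand F (N (G (x, 0)))
      rw [h4, h5, h7] at h8
      rw [h8]; simp
    refine ⟨G '' (Ici (0 : ℝ) ×ˢ {(0 : ℝ)}), ?_, ?_, ?_, ?_⟩
    · refine (isPreconnected_Ici.prod isPreconnected_singleton).image G (hf.lift.cont.mono ?_)
      rintro ⟨x, y⟩ ⟨hx, hy⟩
      have hy' : y = 0 := hy
      subst hy'
      exact hD x hx
    · exact ⟨(0, 0), ⟨self_mem_Ici, rfl⟩, hf.start⟩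
    · rintro r ⟨⟨x, y⟩, ⟨hx, hy⟩, rfl⟩
      have hy' : y = 0 := hy
      subst hy'
      rw [hNx x hx, hs.1]
    · intro hb
      obtain ⟨M, hM⟩ := hb.exists_norm_le
      have hna1 : ‖F.a‖ = 1 := by simpa using F.on.1 0
      have hx0 : (0 : ℝ) ≤ |M| + |⟪X s, F.a⟫| + 1 := by positivity
      have h1 : ‖X (G (|M| + |⟪X s, F.a⟫| + 1, 0))‖ ≤ M :=
        hM _ ⟨_, ⟨(_, 0), ⟨hx0, rfl⟩, rfl⟩, rfl⟩
      have h2 := (strip_Xa F _ hf.lift (hD _ hx0)).1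
      have h3 : ⟪X (G (|M| + |⟪X s, F.a⟫| + 1, 0)), F.a⟫
          ≤ ‖X (G (|M| + |⟪X s, F.a⟫| + 1, 0))‖ := by
        have := real_inner_le_norm (X (G (|M| + |⟪X s, F.a⟫| + 1, 0))) F.a
        rwa [hna1, mul_one] at this
      simp only at h2
      linarith [le_abs_self M, neg_abs_le ⟪X s, F.a⟫]
  · exfalso
    linarith

theorem localPic_adapted (h : Hyp X N A c C) (F : Frame) {s : S} (hs : Adapted F N A s) :
    ∃ (K : Set E3) (W : Set S) (e₁ e₂ : E3),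
      LocalPic X N A (del C / 100) s K W e₁ e₂ (-1) := by
  obtain ⟨I, G, α₁, β₁, α₂, β₂, hf⟩ := full_exists h F hs
  obtain ⟨hκ0, hκ1, hCκ, hδ0, hδ⟩ := kap_del h.one_le
  obtain ⟨haa, hbb, hnn, hab, han, hbn⟩ := frame_inner F
  have hna : ⟪F.n, F.a⟫ = 0 := by rw [real_inner_comm]; exact han
  have hnb : ⟪F.n, F.b⟫ = 0 := by rw [real_inner_comm]; exact hbn
  have hna1 : ‖F.a‖ = 1 := by simpa using F.on.1 0
  have hnb1 : ‖F.b‖ = 1 := by simpa using F.on.1 1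
  have hnn1 : ‖F.n‖ = 1 := by simpa using F.on.1 2
  obtain ⟨hcone, hconv, hw1, -, hw2, -, -, -, hball⟩ :=
    cone_props h.one_le F hf.alpha₁ hf.beta₁ hf.alpha₂ hf.beta₂
  set u₁ := w₁ F α₁ β₁ with hu₁
  set u₂ := w₂ F α₂ β₂ with hu₂
  have hi₁ : 0 < ‖u₁‖⁻¹ := inv_pos.mpr (by linarith)
  have hi₂ : 0 < ‖u₂‖⁻¹ := inv_pos.mpr (by linarith)
  have hpos₁ : ∀ v : E3, 0 < ⟪v, ‖u₁‖⁻¹ • u₁⟫ ↔ 0 < ⟪v, u₁⟫ := by
    intro v
    rw [inner_smul_right]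
    exact mul_pos_iff_of_pos_left hi₁
  have hpos₂ : ∀ v : E3, 0 < ⟪v, ‖u₂‖⁻¹ • u₂⟫ ↔ 0 < ⟪v, u₂⟫ := by
    intro v
    rw [inner_smul_right]
    exact mul_pos_iff_of_pos_left hi₂
  have hz₁ : ∀ v : E3, ⟪v, ‖u₁‖⁻¹ • u₁⟫ = 0 → ⟪v, u₁⟫ = 0 := by
    intro v hv
    rw [inner_smul_right] at hv
    exact (mul_eq_zero.mp hv).resolve_left hi₁.ne'
  have hz₂ : ∀ v : E3, ⟪v, ‖u₂‖⁻¹ • u₂⟫ = 0 → ⟪v, u₂⟫ = 0 := by
    intro v hv
    rw [inner_smul_right] at hv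
    exact (mul_eq_zero.mp hv).resolve_left hi₂.ne'
  have hn₁ : ⟪F.n, u₁⟫ = -α₁ := by
    rw [hu₁, inner_w₁, hna, hnb, hnn]; ring
  have hn₂ : ⟪F.n, u₂⟫ = α₂ := by
    rw [hu₂, inner_w₂, hna, hnb, hnn]; ring
  have h00 : (0 : ℝ) ∈ Icc (-kap C) (kap C) := ⟨by linarith, hκ0.le⟩
  have h0I : (0 : ℝ) ∈ I := mem_of_mem_nhds hf.nhds
  have hp0 : F.p (N (G (0, 0))) = 0 := by
    rw [hf.start, hs.1, Frame.p, hna, hnn]; simp
  refine ⟨coneOf F C α₁ β₁ α₂ β₂, secOf F N C I G α₁ β₁ α₂ β₂, ‖u₁‖⁻¹ • u₁, ‖u₂‖⁻¹ • u₂, ?_⟩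
  refine ⟨hcone, hconv, ?_, sec_isSect h F hf, ?_, ?_, Or.inr rfl, ?_, ?_, ?_, ?_, ?_, ?_⟩
  · intro v hv
    rw [hs.1]
    exact hv.1
  · rw [norm_smul, norm_inv, norm_norm]
    exact inv_mul_cancel₀ (by linarith)
  · rw [norm_smul, norm_inv, norm_norm]
    exact inv_mul_cancel₀ (by linarith)
  · intro v hv
    rw [hs.1] at hv
    rw [hpos₁, hpos₂]
    exact hball v hv
  · intro hnot
    rw [hs.1, hpos₁, hpos₂, hn₁, hn₂] at hnot
    by_cases hα₁ : 0 ≤ α₁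
    · exact ray_aux h F hs hf hα₁
    · have hα₂ : α₂ ≤ 0 := by
        by_contra hc
        exact hnot ⟨by linarith, by linarith⟩
      obtain ⟨F', -, -, -, hs', hf', -⟩ := full_reflect hs hf
      exact ray_aux h F' hs' hf' (by linarith)
  · intro h1 h2
    rw [hs.1, hpos₁, hn₁] at h1
    rw [hs.1, hpos₂, hn₂] at h2
    refine ⟨(0, 0), ⟨h0I, ?_, ?_, ?_⟩, hf.start⟩
    · simp only [abs_zero]; linarith
    · rw [hp0]; simp only [mul_zero, add_zero]; linarith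
    · rw [hp0]; simp only [mul_zero, add_zero]; linarith
  · intro h1 h2 v hv hvv
    rw [hs.1, hpos₁, hn₁] at h1
    rw [hs.1, hpos₂, hn₂] at h2
    rw [hs.1] at hv
    have e1 := hz₁ v hvv.1
    have e2 := hz₂ v hvv.2
    rw [hu₁, inner_w₁] at e1
    rw [hu₂, inner_w₂] at e2
    have hva : |⟪v, F.a⟫| ≤ del C / 100 := by
      have h3 : ⟪v, F.a⟫ = ⟪v - F.n, F.a⟫ := by rw [inner_sub_left, hna, sub_zero]
      have h4 := abs_real_inner_le_norm (v - F.n) F.a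
      rw [hna1, mul_one] at h4
      rw [h3]
      linarith
    have hvb : |⟪v, F.b⟫| ≤ del C / 100 := by
      have h3 : ⟪v, F.b⟫ = ⟪v - F.n, F.b⟫ := by rw [inner_sub_left, hnb, sub_zero]
      have h4 := abs_real_inner_le_norm (v - F.n) F.b
      rw [hnb1, mul_one] at h4
      rw [h3]
      linarith
    have hvn : 1 / 2 ≤ ⟪v, F.n⟫ := by
      have h3 : ⟪v, F.n⟫ = 1 + ⟪v - F.n, F.n⟫ := by rw [inner_sub_left, hnn]; ring
      have h4 := abs_real_inner_le_norm (v - F.n) F.n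
      rw [hnn1, mul_one] at h4
      have h5 := (abs_le.mp h4).1
      rw [h3]
      linarith
    rcases hf.alt₁ with ⟨-, hP₁⟩ | ⟨-, hα', hβ'⟩
    · rcases hf.alt₂ with ⟨-, hP₂⟩ | ⟨-, hα', hβ'⟩
      · have hd : ∀ q ∈ Icc (-kap C) (kap C), α₁ + β₁ * q ≤ α₂ + β₂ * q := by
          intro q hq
          exact (hP₁ (0, q) ⟨h0I, hq⟩).trans (hP₂ (0, q) ⟨h0I, hq⟩)
        have d1 := hd (kap C) ⟨by linarith, le_rfl⟩
        have d2 := hd (-kap C) ⟨le_rfl, by linarith⟩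
        have hb : |β₂ - β₁| * kap C ≤ α₂ - α₁ := by
          rcases abs_cases (β₂ - β₁) with ⟨hh, -⟩ | ⟨hh, -⟩ <;> rw [hh] <;> nlinarith
        have e3 : (α₂ - α₁) * ⟪v, F.n⟫ = (β₂ - β₁) * ⟪v, F.b⟫ := by linarith
        have e4 : (β₂ - β₁) * ⟪v, F.b⟫ ≤ |β₂ - β₁| * (kap C / 4) := by
          calc (β₂ - β₁) * ⟪v, F.b⟫ ≤ |(β₂ - β₁) * ⟪v, F.b⟫| := le_abs_self _
            _ = |β₂ - β₁| * |⟪v, F.b⟫| := abs_mul _ _
            _ ≤ |β₂ - β₁| * (kap C / 4) := by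
              apply mul_le_mul_of_nonneg_left _ (abs_nonneg _)
              linarith
        have e5 : (α₂ - α₁) * (1 / 2) ≤ (α₂ - α₁) * ⟪v, F.n⟫ :=
          mul_le_mul_of_nonneg_left hvn (by linarith)
        linarith
      · rw [hα', hβ'] at e2
        have := (abs_le.mp hva).1
        nlinarith
    · rw [hα', hβ'] at e1
      have := (abs_le.mp hva).2
      nlinarith
  · intro h1 h2 v hv1 hv h3 h4
    rw [hs.1] at hv
    exact wall₁_props h F hs hf hv1 hv (hz₁ v h3) ((hpos₂ v).mp h4)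
  · intro h1 h2 v hv1 hv h3 h4
    rw [hs.1] at hv
    exact wall₂_props h F hs hf hv1 hv ((hpos₁ v).mp h4) (hz₂ v h3)

end Pool.Agent.Helper50.MS
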