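import Pool.Agent.Helper50.MS.ConeProps
import Pool.Agent.Helper50.MS.FullExists

/-!
# MS-26  The section of a full strip

`secOf` is a section over `coneOf`. PROOF. Put `Z = {(x,q) | x ∈ I, |q| < κ/2, α₁+β₁q < P < α₂+β₂q}`, `P = p (N (G (x,q)))`. (i) If `I` has a greatest element `ℓ` and we are in the second case of `alt₁`
 then `α₁ = -δ/5, β₁ = 0` and by `near₁` (all `η`, at `x = ℓ`) `P(ℓ,q) ≤ α₁` for `|q| ≤ κ/2`, so `Z` has no point with `x = ℓ`; in the first case `[0,∞) ⊆ I` and there is no greatest element;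
 same on the left; so `Z ⊆ interior I × (-κ/2,κ/2)` (`I` is an interval), and `Z` is open (`P` is continuous there), `G '' Z` is open (`lift_open` on `interior I ×ˢ Ioo (-κ) κ`).
 (ii) `N (G z) ∈ coneOf`: `q (N (G z)) = z.2` (`strip_Xa`), `⟪N,n⟫ ≥ 1/2`. (iii) proper: `K ⊆ coneOf` compact. On `K`, `|q| ≤ κ' < κ/2`, `p ≥ α₁+β₁q+η`, `p ≤ α₂+β₂q-η` for some `η > 0` (continuous
 positive functions on a compact set). Let `x₁`, `x₂ ∈ I` be the points of `near₁`, `near₂` for `η`. `Z_K = {z ∈ [x₂,x₁] × [-κ',κ'] | N (G z) ∈ K}` (with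
 `[x₂,x₁] ⊆ I`; if `x₁ < x₂` it is empty) is closed in a compact rectangle of the domain (`N ∘ G` is continuous), so compact, and `secOf ∩ N⁻¹ K = G '' Z_K`.
 (iv) the fibre over a unit vector `v ∈ coneOf`, `(p,q) = (p v, q v)`: a unit vector with `⟪·,n⟫ > 0` is determined by `(p,q)` (`inner_n_sq`, `frame_expand`), so the fibre is the image under `x ↦ G (x,q)` of
 `{x ∈ I | P (x,q) = p}`: nonempty by `near₁`, `near₂` and the intermediate value theorem on `I` (`ord`), an order-connected set because `P(·,q)` is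
 monotone (`strip_P_anti`), so preconnected, and `G` is continuous.
-/

set_option autoImplicit false

open Filter Topology Set
open scoped RealInnerProductSpace

namespace Pool.Agent.Helper50.MS

variable {S : Type} [TopologicalSpace S] [T2Space S] {X N : S → E3} {A : S → End3} {c C : ℝ}

/-- A unit vector with positive third coordinate is determined by its gradient coordinates. -/
theorem unit_eq_of_pq (F : Frame) {v w : E3} (hv : ‖v‖ = 1) (hw : ‖w‖ = 1)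
    (hvn : 0 < ⟪v, F.n⟫) (hwn : 0 < ⟪w, F.n⟫) (hp : F.p v = F.p w) (hq : F.q v = F.q w) :
    v = w := by
  have h1 := inner_n_sq F v hv hvn.ne'
  have h2 := inner_n_sq F w hw hwn.ne'
  rw [hp, hq] at h1
  have h0 : 0 < 1 + F.p w ^ 2 + F.q w ^ 2 := by positivity
  have h3 : ⟪v, F.n⟫ ^ 2 = ⟪w, F.n⟫ ^ 2 := by
    have := h1.trans h2.symm
    exact mul_left_cancel₀ h0.ne' this
  have h4 : ⟪v, F.n⟫ = ⟪w, F.n⟫ := by
    rcases sq_eq_sq_iff_eq_or_eq_neg.1 h3 with h | h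
    · exact h
    · linarith
  have ha : ∀ u : E3, 0 < ⟪u, F.n⟫ → ⟪u, F.a⟫ = -(F.p u * ⟪u, F.n⟫) := by
    intro u hu
    rw [Frame.p, div_mul_cancel₀ _ hu.ne', neg_neg]
  have hb : ∀ u : E3, 0 < ⟪u, F.n⟫ → ⟪u, F.b⟫ = -(F.q u * ⟪u, F.n⟫) := by
    intro u hu
    rw [Frame.q, div_mul_cancel₀ _ hu.ne', neg_neg]
  rw [frame_expand F v, frame_expand F w, ha v hvn, ha w hwn, hb v hvn, hb w hwn, h4, hp, hq]

private theorem mem_int {I : Set ℝ} (ho : I.OrdConnected) (hn : I ∈ 𝓝 (0 : ℝ)) {x : ℝ} (hx : x ∈ I)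
    (h1 : 0 < x → ∃ y ∈ I, x < y) (h2 : x < 0 → ∃ y ∈ I, y < x) : x ∈ interior I := by
  have h0 : (0 : ℝ) ∈ I := mem_of_mem_nhds hn
  rcases lt_trichotomy x 0 with h | h | h
  · obtain ⟨y, hy, hyx⟩ := h2 h
    rw [mem_interior_iff_mem_nhds]
    exact mem_of_superset (Icc_mem_nhds hyx h) (ho.out hy h0)
  · rw [h, mem_interior_iff_mem_nhds]
    exact hn
  · obtain ⟨y, hy, hyx⟩ := h1 h
    rw [mem_interior_iff_mem_nhds]
    exact mem_of_superset (Icc_mem_nhds h hyx) (ho.out h0 hy)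

omit [T2Space S] in
private theorem Z_int {F : Frame} {s : S} {I : Set ℝ} {G : ℝ × ℝ → S}
    {α₁ β₁ α₂ β₂ : ℝ} (hf : IsFull F X N A C s I G α₁ β₁ α₂ β₂) {z : ℝ × ℝ}
    (h1 : z.1 ∈ I) (h2 : |z.2| < kap C / 2) (h3 : α₁ + β₁ * z.2 < F.p (N (G z)))
    (h4 : F.p (N (G z)) < α₂ + β₂ * z.2) : z.1 ∈ interior I := by
  refine mem_int hf.ord hf.nhds h1 ?_ ?_
  · intro hx
    by_contra hne
    push Not at hne
    have hgr : IsGreatest I z.1 := ⟨h1, fun y hy => hne y hy⟩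
    obtain ⟨x₀, hx₀, hx₀'⟩ := hf.near₁ (F.p (N (G z)) - (α₁ + β₁ * z.2)) (by linarith)
    have := hx₀' z.1 h1 (hgr.2 hx₀) z.2 h2.le
    have h5 : F.p (N (G (z.1, z.2))) = F.p (N (G z)) := rfl
    rw [h5] at this
    linarith
  · intro hx
    by_contra hne
    push Not at hne
    have hgr : IsLeast I z.1 := ⟨h1, fun y hy => hne y hy⟩
    obtain ⟨x₀, hx₀, hx₀'⟩ := hf.near₂ (α₂ + β₂ * z.2 - F.p (N (G z))) (by linarith)
    have := hx₀' z.1 h1 (hgr.2 hx₀) z.2 h2.le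
    have h5 : F.p (N (G (z.1, z.2))) = F.p (N (G z)) := rfl
    rw [h5] at this
    linarith

theorem sec_isSect (h : Hyp X N A c C) (F : Frame) {s : S} {I : Set ℝ} {G : ℝ × ℝ → S}
    {α₁ β₁ α₂ β₂ : ℝ} (hf : IsFull F X N A C s I G α₁ β₁ α₂ β₂) :
    IsSect N (coneOf F C α₁ β₁ α₂ β₂) (secOf F N C I G α₁ β₁ α₂ β₂) := by
  obtain ⟨hκ0, -, -, -, -⟩ := kap_del h.one_le
  obtain ⟨-, hN, -, hN1⟩ := surface_cont h.surf
  obtain ⟨hPc, -, -, -, -⟩ := strip_cont h F _ hf.lift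
  have hNc : ContinuousOn (fun z => N (G z)) (I ×ˢ Icc (-kap C) (kap C)) :=
    hN.comp_continuousOn hf.lift.cont
  have hq : ∀ z ∈ I ×ˢ Icc (-kap C) (kap C), F.q (N (G z)) = z.2 := fun z hz =>
    (strip_Xa F _ hf.lift hz).2
  have hD : ∀ z : ℝ × ℝ, z.1 ∈ I → |z.2| < kap C / 2 → z ∈ I ×ˢ Icc (-kap C) (kap C) := by
    intro z h1 h2
    refine ⟨h1, ?_, ?_⟩
    · linarith [(abs_lt.1 h2).1]
    · linarith [(abs_lt.1 h2).2]
  have hcone : ∀ z : ℝ × ℝ, z.1 ∈ I → |z.2| < kap C / 2 → α₁ + β₁ * z.2 < F.p (N (G z)) →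
      F.p (N (G z)) < α₂ + β₂ * z.2 → N (G z) ∈ coneOf F C α₁ β₁ α₂ β₂ := by
    intro z h1 h2 h3 h4
    have hz := hD z h1 h2
    have hn : 0 < ⟪N (G z), F.n⟫ := (hf.lift.mem z hz).1
    have hqz := hq z hz
    refine ⟨hn, ?_, by rw [hqz]; exact h3, by rw [hqz]; exact h4⟩
    have : ⟪N (G z), F.b⟫ = -(z.2 * ⟪N (G z), F.n⟫) := by
      rw [← hqz, Frame.q, div_mul_cancel₀ _ hn.ne', neg_neg]
    rw [this, abs_neg, abs_mul, abs_of_pos hn]
    exact mul_lt_mul_of_pos_right h2 hn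
  refine ⟨?_, ?_, ?_, ?_, ?_⟩
  · -- open
    obtain ⟨O, hO⟩ : ∃ O : Set (ℝ × ℝ), O = interior I ×ˢ Ioo (-kap C) (kap C) := ⟨_, rfl⟩
    have hOo : IsOpen O := by rw [hO]; exact isOpen_interior.prod isOpen_Ioo
    have hOD : O ⊆ I ×ˢ Icc (-kap C) (kap C) := by
      rw [hO]
      exact prod_mono interior_subset Ioo_subset_Icc_self
    have hL : IsLift (F.psi X N ⟪X s, F.a⟫) (F.dom N A) O G :=
      ⟨hf.lift.cont.mono hOD, fun z hz => hf.lift.mem z (hOD hz), fun z hz => hf.lift.eq z (hOD hz)⟩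
    refine (lift_open (psi_isLocalHomeomorphOn h F _) hOo hL).1 _ ?_ ?_
    · rintro z ⟨h1, h2, h3, h4⟩
      rw [hO]
      refine ⟨Z_int hf h1 h2 h3 h4, ?_, ?_⟩
      · linarith [(abs_lt.1 h2).1]
      · linarith [(abs_lt.1 h2).2]
    · have c1 : ContinuousOn (fun z : ℝ × ℝ => F.p (N (G z)) - (α₁ + β₁ * z.2)) O :=
        (hPc.mono hOD).sub (by fun_prop)
      have c2 : ContinuousOn (fun z : ℝ × ℝ => α₂ + β₂ * z.2 - F.p (N (G z))) O :=
        ContinuousOn.sub (by fun_prop) (hPc.mono hOD)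
      have o1 := c1.isOpen_inter_preimage hOo (isOpen_Ioi (a := (0 : ℝ)))
      have o2 := c2.isOpen_inter_preimage hOo (isOpen_Ioi (a := (0 : ℝ)))
      have o3 : IsOpen {z : ℝ × ℝ | |z.2| < kap C / 2} :=
        isOpen_lt (by fun_prop) continuous_const
      have : {z : ℝ × ℝ | z.1 ∈ I ∧ |z.2| < kap C / 2 ∧ α₁ + β₁ * z.2 < F.p (N (G z)) ∧
          F.p (N (G z)) < α₂ + β₂ * z.2} = (O ∩ (fun z : ℝ × ℝ => F.p (N (G z)) -
            (α₁ + β₁ * z.2)) ⁻¹' Ioi 0) ∩ (O ∩ (fun z : ℝ × ℝ => α₂ + β₂ * z.2 -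
              F.p (N (G z))) ⁻¹' Ioi 0) ∩ {z : ℝ × ℝ | |z.2| < kap C / 2} := by
        ext z
        constructor
        · rintro ⟨h1, h2, h3, h4⟩
          have hzO : z ∈ O := by
            rw [hO]
            refine ⟨Z_int hf h1 h2 h3 h4, ?_, ?_⟩
            · linarith [(abs_lt.1 h2).1]
            · linarith [(abs_lt.1 h2).2]
          exact ⟨⟨⟨hzO, sub_pos.2 h3⟩, ⟨hzO, sub_pos.2 h4⟩⟩, h2⟩
        · rintro ⟨⟨⟨h1, h3⟩, ⟨_, h4⟩⟩, h2⟩
          exact ⟨(hOD h1).1, h2, sub_pos.1 h3, sub_pos.1 h4⟩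
      rw [this]
      exact (o1.inter o2).inter o3
  · -- maps
    rintro w ⟨z, ⟨h1, h2, h3, h4⟩, rfl⟩
    exact hcone z h1 h2 h3 h4
  · -- proper
    intro K hK hKC
    rcases K.eq_empty_or_nonempty with hKe | hKe
    · rw [hKe, preimage_empty, inter_empty]
      exact isCompact_empty
    have cn : ∀ w : E3, ContinuousOn (fun v : E3 => ⟪v, w⟫) K := fun w =>
      (continuous_id.inner continuous_const).continuousOn
    have cp : ContinuousOn (fun v : E3 => F.p v) K :=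
      (cn F.a).neg.div (cn F.n) fun v hv => (hKC hv).1.ne'
    have cq : ContinuousOn (fun v : E3 => F.q v) K :=
      (cn F.b).neg.div (cn F.n) fun v hv => (hKC hv).1.ne'
    obtain ⟨v₁, hv₁, hv₁'⟩ := hK.exists_isMinOn hKe (f := fun v => F.p v - (α₁ + β₁ * F.q v))
      (cp.sub (continuousOn_const.add (continuousOn_const.mul cq)))
    obtain ⟨v₂, hv₂, hv₂'⟩ := hK.exists_isMinOn hKe (f := fun v => α₂ + β₂ * F.q v - F.p v)
      ((continuousOn_const.add (continuousOn_const.mul cq)).sub cp)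
    obtain ⟨v₃, hv₃, hv₃'⟩ := hK.exists_isMaxOn hKe (f := fun v => |F.q v|) cq.abs
    have hη₁ : 0 < F.p v₁ - (α₁ + β₁ * F.q v₁) := sub_pos.2 (hKC hv₁).2.2.1
    have hη₂ : 0 < α₂ + β₂ * F.q v₂ - F.p v₂ := sub_pos.2 (hKC hv₂).2.2.2
    have hqv : ∀ v ∈ K, |F.q v| < kap C / 2 := by
      intro v hv
      have h5 := (hKC hv).1
      rw [Frame.q, abs_div, abs_neg, abs_of_pos h5, div_lt_iff₀ h5]
      exact (hKC hv).2.1
    have hκ' := hqv v₃ hv₃
    obtain ⟨x₁, hx₁, hx₁'⟩ := hf.near₁ _ hη₁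
    obtain ⟨x₂, hx₂, hx₂'⟩ := hf.near₂ _ hη₂
    have hR : Icc x₂ x₁ ×ˢ Icc (-|F.q v₃|) |F.q v₃| ⊆ I ×ˢ Icc (-kap C) (kap C) := by
      refine prod_mono (hf.ord.out hx₂ hx₁) (Icc_subset_Icc ?_ ?_) <;> linarith
    have hRc : IsCompact (Icc x₂ x₁ ×ˢ Icc (-|F.q v₃|) |F.q v₃|) := isCompact_Icc.prod isCompact_Icc
    have hcl : IsClosed ((Icc x₂ x₁ ×ˢ Icc (-|F.q v₃|) |F.q v₃|) ∩ (fun z => N (G z)) ⁻¹' K) :=
      (hNc.mono hR).preimage_isClosed_of_isClosed hRc.isClosed hK.isClosed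
    have hcomp : IsCompact ((Icc x₂ x₁ ×ˢ Icc (-|F.q v₃|) |F.q v₃|) ∩ (fun z => N (G z)) ⁻¹' K) :=
      hRc.of_isClosed_subset hcl inter_subset_left
    have himg := hcomp.image_of_continuousOn (hf.lift.cont.mono (inter_subset_left.trans hR))
    have heq : secOf F N C I G α₁ β₁ α₂ β₂ ∩ N ⁻¹' K =
        G '' ((Icc x₂ x₁ ×ˢ Icc (-|F.q v₃|) |F.q v₃|) ∩ (fun z => N (G z)) ⁻¹' K) := by
      ext w
      constructor
      · rintro ⟨⟨z, ⟨h1, h2, h3, h4⟩, rfl⟩, hwK⟩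
        have hwK' : N (G z) ∈ K := hwK
        have hqz := hq z (hD z h1 h2)
        have e1 := hv₁' hwK'
        have e2 := hv₂' hwK'
        have e3 := hv₃' hwK'
        simp only [mem_ofPred_eq] at e1 e2 e3
        rw [hqz] at e1 e2 e3
        refine ⟨z, ⟨⟨⟨?_, ?_⟩, abs_le.1 e3⟩, hwK'⟩, rfl⟩
        · by_contra hlt
          push Not at hlt
          have := hx₂' z.1 h1 hlt.le z.2 h2.le
          have h5 : F.p (N (G (z.1, z.2))) = F.p (N (G z)) := rfl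
          rw [h5] at this
          linarith
        · by_contra hlt
          push Not at hlt
          have := hx₁' z.1 h1 hlt.le z.2 h2.le
          have h5 : F.p (N (G (z.1, z.2))) = F.p (N (G z)) := rfl
          rw [h5] at this
          linarith
      · rintro ⟨z, ⟨hz, hzK⟩, rfl⟩
        have hzK' : N (G z) ∈ K := hzK
        have hzD := hR hz
        have hqz := hq z hzD
        have h5 := hKC hzK'
        refine ⟨⟨z, ⟨hzD.1, lt_of_le_of_lt (abs_le.2 hz.2) hκ', ?_, ?_⟩, rfl⟩, hzK'⟩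
        · have := h5.2.2.1
          rwa [hqz] at this
        · have := h5.2.2.2
          rwa [hqz] at this
    rw [heq]
    exact himg
  all_goals
    intro v hv hv1
    have hvn : 0 < ⟪v, F.n⟫ := hv.1
    have hqv : |F.q v| < kap C / 2 := by
      rw [Frame.q, abs_div, abs_neg, abs_of_pos hvn, div_lt_iff₀ hvn]
      exact hv.2.1
    have hfib : secOf F N C I G α₁ β₁ α₂ β₂ ∩ N ⁻¹' {v} =
        (fun x => G (x, F.q v)) '' {x | x ∈ I ∧ F.p (N (G (x, F.q v))) = F.p v} := by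
      ext w
      constructor
      · rintro ⟨⟨z, ⟨h1, h2, h3, h4⟩, rfl⟩, hwv⟩
        have hwv' : N (G z) = v := hwv
        have hqz := hq z (hD z h1 h2)
        rw [hwv'] at hqz
        have hz : z = (z.1, F.q v) := by rw [hqz]
        refine ⟨z.1, ⟨h1, ?_⟩, ?_⟩
        · rw [← hz, hwv']
        · change G (z.1, F.q v) = G z
          rw [← hz]
      · rintro ⟨x, ⟨hx, hxp⟩, rfl⟩
        have hzD := hD (x, F.q v) hx hqv
        have hqz := hq _ hzD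
        have hNv : N (G (x, F.q v)) = v :=
          unit_eq_of_pq F (hN1 _) hv1 (hf.lift.mem _ hzD).1 hvn hxp hqz
        refine ⟨⟨(x, F.q v), ⟨hx, hqv, ?_, ?_⟩, rfl⟩, hNv⟩
        · rw [hxp]
          exact hv.2.2.1
        · rw [hxp]
          exact hv.2.2.2
    have hcx : ContinuousOn (fun x : ℝ => G (x, F.q v)) I := by
      refine hf.lift.cont.comp (by fun_prop) ?_
      intro x hx
      exact hD (x, F.q v) hx hqv
    have hcP : ContinuousOn (fun x : ℝ => F.p (N (G (x, F.q v)))) I := by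
      refine hPc.comp (f := fun x : ℝ => (x, F.q v)) (by fun_prop) ?_
      intro x hx
      exact hD (x, F.q v) hx hqv
    rw [hfib]
  · -- nonempty
    obtain ⟨x₁, hx₁, hx₁'⟩ := hf.near₁ (F.p v - (α₁ + β₁ * F.q v)) (sub_pos.2 hv.2.2.1)
    obtain ⟨x₂, hx₂, hx₂'⟩ := hf.near₂ (α₂ + β₂ * F.q v - F.p v) (sub_pos.2 hv.2.2.2)
    have e1 := hx₁' x₁ hx₁ le_rfl (F.q v) hqv.le
    have e2 := hx₂' x₂ hx₂ le_rfl (F.q v) hqv.le
    have e3 : F.p v ∈ (fun x : ℝ => F.p (N (G (x, F.q v)))) '' I :=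
      hf.ord.isPreconnected.intermediate_value hx₁ hx₂ hcP
        ⟨by change F.p (N (G (x₁, F.q v))) ≤ F.p v; linarith,
          by change F.p v ≤ F.p (N (G (x₂, F.q v))); linarith⟩
    obtain ⟨x, hx, hxp⟩ := e3
    exact ⟨_, x, ⟨hx, hxp⟩, rfl⟩
  · -- connected
    refine IsPreconnected.image ?_ _ (hcx.mono fun x hx => hx.1)
    refine OrdConnected.isPreconnected ⟨?_⟩
    rintro x ⟨hx, hxp⟩ y ⟨hy, hyp⟩ z hz
    have hzI : z ∈ I := hf.ord.out hx hy hz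
    refine ⟨hzI, le_antisymm ?_ ?_⟩
    · rw [← hxp]
      exact strip_P_anti h F _ hf.lift hz.1 fun t ht =>
        hD (t, F.q v) (hf.ord.out hx hzI ht) hqv
    · rw [← hyp]
      exact strip_P_anti h F _ hf.lift hz.2 fun t ht =>
        hD (t, F.q v) (hf.ord.out hzI hy ht) hqv

end Pool.Agent.Helper50.MS
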