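import Pool.Agent.Helper50.MS.Defs

/-!
# MS-35  Basic facts on sections

`N` is continuous. `sect_restrict`: `K' ⊆ K` open: `W ∩ N⁻¹ K'` is a section over `K'` (for compact `L ⊆ K'`: `(W ∩ N⁻¹K') ∩ N⁻¹ L = W ∩ N⁻¹ L`).
`fibre_subset`: `Φ = W ∩ N⁻¹{v}` is compact (`proper` with `L = {v}`), so closed; `R ⊆ N⁻¹{v}` preconnected meeting `W`: `R ⊆ W ∪ Φᶜ`, both open, and
`R ∩ W ∩ Φᶜ = ∅` because `R ⊆ N⁻¹{v}`: so `R ⊆ W` (`IsPreconnected.subset_left_of_subset_union` or `isPreconnected_iff_subset_of_disjoint`).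
`tube`: `v ∈ K` unit, `K` open, `O` open, `W ∩ N⁻¹{v} ⊆ O`. Take `r > 0` with `closedBall v r ⊆ K`; `L = (W ∩ N⁻¹ (closedBall v r)) \ O` is compact, `N '' L` is compact and does
not contain `v`: so there is `ε ≤ r` with `ball v ε` disjoint from `N '' L` (if `L = ∅` take `ε = r`).
`cluster`: `T ⊆ W` and points of `N '' T` arbitrarily close to `v` give a point `w ∈ W`, `N w = v`, `w ∈ closure T` (otherwise `tube` with `O = (closure T)ᶜ`).
`closure_mem`: `w ∈ closure W`, `N w ∈ K` implies `w ∈ W` (`W ∩ N⁻¹ (closedBall (N w) r)` is compact, so closed, and `w` is a limit of its points).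
`ray_bounded`: if `w ∈ W`, `v = N w ∈ K` then `¬ HasRay X N w` (`R ⊆ W ∩ N⁻¹{v}` by `fibre_subset`, compact, `X` continuous, so `X '' R` is bounded).
-/

set_option autoImplicit false

open Filter Topology Set
open scoped RealInnerProductSpace

namespace Pool.Agent.Helper50.MS

variable {S : Type} [TopologicalSpace S] [T2Space S] {X N : S → E3}

private theorem sb_ball {K : Set E3} (hK : IsOpen K) {v : E3} (hv : v ∈ K) :
    ∃ r : ℝ, 0 < r ∧ Metric.closedBall v r ⊆ K := by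
  obtain ⟨δ, hδ, h⟩ := Metric.isOpen_iff.1 hK v hv
  exact ⟨δ / 2, half_pos hδ, (Metric.closedBall_subset_ball (half_lt_self hδ)).trans h⟩

theorem sect_restrict (hN : Continuous N) {K K' : Set E3} {W : Set S} (h : IsSect N K W)
    (hK' : IsOpen K') (hsub : K' ⊆ K) : IsSect N K' (W ∩ N ⁻¹' K') := by
  have hpre : ∀ L : Set E3, L ⊆ K' → (W ∩ N ⁻¹' K') ∩ N ⁻¹' L = W ∩ N ⁻¹' L := by
    intro L hL
    ext w
    constructor
    · rintro ⟨⟨h1, _⟩, h3⟩
      exact ⟨h1, h3⟩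
    · rintro ⟨h1, h3⟩
      exact ⟨⟨h1, hL h3⟩, h3⟩
  refine ⟨h.openW.inter (hK'.preimage hN), fun w hw => hw.2, fun L hL hLK => ?_,
    fun v hv hv1 => ?_, fun v hv hv1 => ?_⟩
  · rw [hpre L hLK]
    exact h.proper L hL (hLK.trans hsub)
  · rw [hpre {v} (singleton_subset_iff.2 hv)]
    exact h.nonempty v (hsub hv) hv1
  · rw [hpre {v} (singleton_subset_iff.2 hv)]
    exact h.conn v (hsub hv) hv1

theorem fibre_subset {K : Set E3} {W : Set S} (h : IsSect N K W) {v : E3} (hv : v ∈ K)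
    {R : Set S} (hR : IsPreconnected R) (hRv : R ⊆ N ⁻¹' {v}) (hRW : (R ∩ W).Nonempty) :
    R ⊆ W := by
  have hcl : IsClosed (W ∩ N ⁻¹' {v}) :=
    (h.proper {v} isCompact_singleton (singleton_subset_iff.2 hv)).isClosed
  have h1 := isPreconnected_iff_subset_of_disjoint.1 hR W (W ∩ N ⁻¹' {v})ᶜ h.openW
    hcl.isOpen_compl (fun r _ => by
      by_cases hrW : r ∈ W
      · exact Or.inl hrW
      · exact Or.inr (fun h2 => hrW h2.1)) (by
      rw [eq_empty_iff_forall_notMem]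
      rintro r ⟨hr, hrW, hrn⟩
      exact hrn ⟨hrW, hRv hr⟩)
  rcases h1 with h1 | h1
  · exact h1
  · obtain ⟨r, hr, hrW⟩ := hRW
    exact absurd ⟨hrW, hRv hr⟩ (h1 hr)

theorem tube (hN : Continuous N) {K : Set E3} {W : Set S} (h : IsSect N K W) (hK : IsOpen K)
    {v : E3} (hv : v ∈ K) {O : Set S} (hO : IsOpen O) (hWO : W ∩ N ⁻¹' {v} ⊆ O) :
    ∃ ε : ℝ, 0 < ε ∧ ∀ w ∈ W, ‖N w - v‖ < ε → w ∈ O := by
  obtain ⟨r, hr, hrK⟩ := sb_ball hK hv
  have hL : IsCompact ((W ∩ N ⁻¹' Metric.closedBall v r) \ O) :=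
    (h.proper _ (isCompact_closedBall v r) hrK).diff hO
  have hL2 : IsClosed (N '' ((W ∩ N ⁻¹' Metric.closedBall v r) \ O)) := (hL.image hN).isClosed
  have hvL : v ∈ (N '' ((W ∩ N ⁻¹' Metric.closedBall v r) \ O))ᶜ := by
    rintro ⟨w, ⟨⟨hw, _⟩, hwO⟩, hwv⟩
    exact hwO (hWO ⟨hw, hwv⟩)
  obtain ⟨ε, hε, hball⟩ := Metric.isOpen_iff.1 hL2.isOpen_compl v hvL
  refine ⟨min ε r, lt_min hε hr, fun w hw hwv => ?_⟩
  by_contra hwO
  have h1 : N w ∈ Metric.ball v ε := by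
    rw [mem_ball_iff_norm]
    exact hwv.trans_le (min_le_left _ _)
  have h2 : N w ∈ Metric.closedBall v r := by
    rw [mem_closedBall_iff_norm]
    exact hwv.le.trans (min_le_right _ _)
  exact hball h1 ⟨w, ⟨⟨hw, h2⟩, hwO⟩, rfl⟩

theorem cluster (hN : Continuous N) {K : Set E3} {W : Set S} (h : IsSect N K W) (hK : IsOpen K)
    {v : E3} (hv : v ∈ K) {T : Set S} (hT : T ⊆ W)
    (hcl : ∀ ε : ℝ, 0 < ε → ∃ w ∈ T, ‖N w - v‖ < ε) : ∃ w ∈ W, N w = v ∧ w ∈ closure T := by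
  by_contra hcon
  push Not at hcon
  obtain ⟨ε, hε, h1⟩ := tube hN h hK hv (O := (closure T)ᶜ) isClosed_closure.isOpen_compl
    (fun w hw => hcon w hw.1 hw.2)
  obtain ⟨w, hw, hwv⟩ := hcl ε hε
  exact h1 w (hT hw) hwv (subset_closure hw)

theorem closure_mem (hN : Continuous N) {K : Set E3} {W : Set S} (h : IsSect N K W)
    (hK : IsOpen K) {w : S} (hw : w ∈ closure W) (hNw : N w ∈ K) : w ∈ W := by
  obtain ⟨r, hr, hrK⟩ := sb_ball hK hNw
  have hC : IsClosed (W ∩ N ⁻¹' Metric.closedBall (N w) r) :=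
    (h.proper _ (isCompact_closedBall (N w) r) hrK).isClosed
  have hU : IsOpen (N ⁻¹' Metric.ball (N w) r) := Metric.isOpen_ball.preimage hN
  have h1 : w ∈ closure (N ⁻¹' Metric.ball (N w) r ∩ W) :=
    hU.inter_closure ⟨Metric.mem_ball_self hr, hw⟩
  have h2 : N ⁻¹' Metric.ball (N w) r ∩ W ⊆ W ∩ N ⁻¹' Metric.closedBall (N w) r :=
    fun x hx => ⟨hx.2, Metric.ball_subset_closedBall hx.1⟩
  exact (closure_minimal h2 hC h1).1

theorem ray_bounded (hX : Continuous X) {K : Set E3} {W : Set S} (h : IsSect N K W) {w : S}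
    (hw : w ∈ W) (hNw : N w ∈ K) : ¬ HasRay X N w := by
  rintro ⟨R, hR, hwR, hNR, hunb⟩
  apply hunb
  have h1 : R ⊆ W := fibre_subset h hNw hR (fun r hr => hNR r hr) ⟨w, hwR, hw⟩
  have h2 : IsCompact (W ∩ N ⁻¹' {N w}) :=
    h.proper {N w} isCompact_singleton (singleton_subset_iff.2 hNw)
  exact (h2.image hX).isBounded.subset (image_mono fun r hr => ⟨h1 hr, hNR r hr⟩)

end Pool.Agent.Helper50.MS
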