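import Pool.Agent.Helper50.MS.HalfStrip
import Pool.Agent.Helper50.MS.LeafExists
import Pool.Agent.Helper50.MS.AffineLimit

/-!
# MS-23  The data on the right side of a leaf

PROOF. `half_strip`. In the first case apply `affine_limit` to `P x q = p (N (G (x,q)))`, `Y x q = ⟪X (G (x,q)), b⟫`, `m x q = m (..)`, `κ = kap C`,
`M = 1e-4` (`leaf_slope`), `L = 2/c` (`∂_q Y = Nn/Hyy ∈ (0, 2/c]`: `strip_Y`, `Hyy ≥ ‖A‖/2 ≥ c/2`, mean value inequality), `B = del C`; `antitone` from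
`strip_P_anti`, continuity from `strip_cont`, derivatives from `strip_deriv`, `strip_Y`. `|α| ≤ δ`: `α ≤ P 0 0 ≤ δ`, and `α + η > P x 0 ≥ -δ` for all `η > 0`. In the second case `α = -δ/5`, `β = 0`, `I = [0,ℓ]`, `x₀ = ℓ` in `near`.
-/

set_option autoImplicit false

open Filter Topology Set
open scoped RealInnerProductSpace

namespace Pool.Agent.Helper50.MS

variable {S : Type} [TopologicalSpace S] [T2Space S] {X N : S → E3} {A : S → End3} {c C : ℝ}

theorem side_exists (h : Hyp X N A c C) (F : Frame) (o : ℝ) {g : ℝ → S}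
    (hg : IsLeaf F X N A C o g) : ∃ (I : Set ℝ) (G : ℝ × ℝ → S) (α β : ℝ),
      IsSide F X N A C o g I G α β := by
  obtain ⟨hκ0, hκ1, hCκ, hδ0, hδ⟩ := kap_del h.one_le
  rcases half_strip h F o hg with ⟨G, hG, hgood, hstart⟩ | ⟨ℓ, hℓ, G, hG, hgood, hstart, hp⟩
  · -- the infinite strip
    have hmem : ∀ x : ℝ, 0 ≤ x → ∀ q ∈ Icc (-kap C) (kap C),
        ((x, q) : ℝ × ℝ) ∈ (Ici (0 : ℝ)) ×ˢ Icc (-kap C) (kap C) :=
      fun x hx q hq => ⟨hx, hq⟩
    obtain ⟨hc1, hc2, hc3, hc4, -⟩ := strip_cont h F o hG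
    have hderq : ∀ x : ℝ, 0 ≤ x → ∀ q ∈ Icc (-kap C) (kap C),
        HasDerivWithinAt (fun q => F.p (N (G (x, q)))) (F.m (N (G (x, q))) (A (G (x, q))))
          (Icc (-kap C) (kap C)) q := by
      intro x hx q hq
      have h1 := (strip_deriv h F o hG (z := (x, q)) (hmem x hx q hq)).2.2.2.2.1
      exact h1.mono (fun y hy => hmem x hx y hy)
    have hderx : ∀ q ∈ Icc (-kap C) (kap C), ∀ x : ℝ, 0 ≤ x →
        HasDerivWithinAt (fun x => ⟪X (G (x, q)), F.b⟫) (-F.m (N (G (x, q))) (A (G (x, q))))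
          (Ici 0) x := by
      intro q hq x hx
      have h1 := (strip_Y h F o hG (z := (x, q)) (hmem x hx q hq)).1
      exact h1.mono (fun y hy => hmem y hy q hq)
    have hYL : ∀ x : ℝ, 0 ≤ x → ∀ q ∈ Icc (-kap C) (kap C), ∀ q' ∈ Icc (-kap C) (kap C),
        q ≤ q' → 0 ≤ ⟪X (G (x, q')), F.b⟫ - ⟪X (G (x, q)), F.b⟫ ∧
          ⟪X (G (x, q')), F.b⟫ - ⟪X (G (x, q)), F.b⟫ ≤ 2 / c * (q' - q) := by
      intro x hx q hq q' hq' hqq
      rcases hqq.eq_or_lt with heq | hlt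
      · rw [heq]
        simp
      have hsub : Icc q q' ⊆ Icc (-kap C) (kap C) := Icc_subset_Icc hq.1 hq'.2
      have hd : ∀ t ∈ Icc q q', HasDerivWithinAt (fun q => ⟪X (G (x, q)), F.b⟫)
          (⟪N (G (x, t)), F.n⟫ / F.Hyy (N (G (x, t))) (A (G (x, t)))) (Icc q q') t := by
        intro t ht
        have h1 := (strip_Y h F o hG (z := (x, t)) (hmem x hx t (hsub ht))).2
        exact h1.mono (fun y hy => hmem x hx y (hsub hy))
      obtain ⟨t, ht, hslope⟩ := exists_hasDerivAt_eq_slope (fun q => ⟪X (G (x, q)), F.b⟫)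
        (fun t => ⟪N (G (x, t)), F.n⟫ / F.Hyy (N (G (x, t))) (A (G (x, t)))) hlt
        (fun t ht => (hd t ht).continuousWithinAt)
        (fun t ht => (hd t (Ioo_subset_Icc_self ht)).hasDerivAt (Icc_mem_nhds ht.1 ht.2))
      have htJ := hsub (Ioo_subset_Icc_self ht)
      obtain ⟨hN0, hH0⟩ := hG.mem _ (hmem x hx t htJ)
      obtain ⟨-, -, -, hHA⟩ := hgood _ (hmem x hx t htJ)
      obtain ⟨-, -, -, hN1⟩ := surface_cont h.surf
      have hnle : ⟪N (G (x, t)), F.n⟫ ≤ 1 := by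
        have h1 := real_inner_le_norm (N (G (x, t))) F.n
        have h2 : ‖F.n‖ = 1 := by simpa using F.on.1 2
        rwa [hN1 _, h2, mul_one] at h1
      have hlow := h.lower (G (x, t))
      have hpos : (0 : ℝ) < q' - q := by linarith
      have hval : ⟪X (G (x, q')), F.b⟫ - ⟪X (G (x, q)), F.b⟫ =
          ⟪N (G (x, t)), F.n⟫ / F.Hyy (N (G (x, t))) (A (G (x, t))) * (q' - q) := by
        have h3 : ⟪N (G (x, t)), F.n⟫ / F.Hyy (N (G (x, t))) (A (G (x, t))) =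
          (⟪X (G (x, q')), F.b⟫ - ⟪X (G (x, q)), F.b⟫) / (q' - q) := hslope
        rw [h3, div_mul_cancel₀ _ hpos.ne']
      have hsl0 : 0 ≤ ⟪N (G (x, t)), F.n⟫ / F.Hyy (N (G (x, t))) (A (G (x, t))) :=
        div_nonneg (le_of_lt hN0) (le_of_lt hH0)
      have hcpos := h.cpos
      have hsl1 : ⟪N (G (x, t)), F.n⟫ / F.Hyy (N (G (x, t))) (A (G (x, t))) ≤ 2 / c := by
        have hH1 : c / 2 ≤ F.Hyy (N (G (x, t))) (A (G (x, t))) := by linarith
        rw [div_le_div_iff₀ hH0 hcpos]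
        have hN0' : 0 < ⟪N (G (x, t)), F.n⟫ := hN0
        nlinarith
      rw [hval]
      exact ⟨mul_nonneg hsl0 hpos.le, mul_le_mul_of_nonneg_right hsl1 hpos.le⟩
    have hslope : ∀ x : ℝ, 0 ≤ x → ∀ q ∈ Icc (-kap C) (kap C),
        |F.m (N (G (x, q))) (A (G (x, q)))| ≤ 1 / 10 ^ 4 := by
      intro x hx
      exact leaf_slope h F o hG (fun q hq => hmem x hx q hq)
        (fun q hq => hgood _ (hmem x hx q hq))
    have hanti : ∀ q ∈ Icc (-kap C) (kap C),
        AntitoneOn (fun x => F.p (N (G (x, q)))) (Ici 0) := by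
      intro q hq x hx y hy hxy
      have hx0 : (0 : ℝ) ≤ x := hx
      exact strip_P_anti h F o hG hxy (fun t ht => hmem t (hx0.trans ht.1) q hq)
    have hbdd : ∀ x : ℝ, 0 ≤ x → ∀ q ∈ Icc (-kap C) (kap C),
        -del C ≤ F.p (N (G (x, q))) := by
      intro x hx q hq
      exact (abs_le.1 (hgood _ (hmem x hx q hq)).2.1).1
    have hc : 0 < c := h.cpos
    obtain ⟨α, β, hβ, hlo, hup⟩ := affine_limit (κ := kap C) (L := 2 / c) (M := 1 / 10 ^ 4)
      (B := del C) hκ0 (by positivity) (by norm_num)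
      (P := fun x q => F.p (N (G (x, q)))) (Y := fun x q => ⟪X (G (x, q)), F.b⟫)
      (m := fun x q => F.m (N (G (x, q))) (A (G (x, q))))
      hc1 hc2 (hc4.inner (𝕜 := ℝ) continuousOn_const) hderq hderx hYL hslope hanti hbdd
    have h0J : (0 : ℝ) ∈ Icc (-kap C) (kap C) := ⟨by linarith, hκ0.le⟩
    have hhalf : ∀ q : ℝ, |q| ≤ kap C / 2 → q ∈ Icc (-kap C) (kap C) := by
      intro q hq
      have h1 := abs_le.1 hq
      exact ⟨by linarith [h1.1], by linarith [h1.2]⟩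
    refine ⟨Ici 0, G, α, β, hG, hgood, hstart, ?_, hβ, ?_, Or.inl ⟨rfl, ?_⟩⟩
    · rw [abs_le]
      constructor
      · refine le_of_forall_pos_lt_add (fun η hη => ?_)
        obtain ⟨x₀, hx₀, hx⟩ := hup η hη
        have h1 := hx x₀ le_rfl 0 h0J
        have h2 := hbdd x₀ hx₀ 0 h0J
        have h3 : F.p (N (G (x₀, 0))) < α + β * 0 + η := h1
        linarith
      · have h1 : α + β * 0 ≤ F.p (N (G (0, 0))) := hlo 0 le_rfl 0 h0J
        have h2 := (abs_le.1 (hgood _ (hmem 0 le_rfl 0 h0J)).2.1).2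
        linarith
    · intro η hη
      obtain ⟨x₀, hx₀, hx⟩ := hup η hη
      exact ⟨x₀, hx₀, fun x _ hxx q hq => hx x hxx q (hhalf q hq)⟩
    · rintro ⟨x, q⟩ hz
      exact hlo x hz.1 q hz.2
  · refine ⟨Icc 0 ℓ, G, -del C / 5, 0, hG, hgood, hstart, ?_, ?_, ?_,
      Or.inr ⟨⟨ℓ, hℓ, rfl⟩, rfl, rfl⟩⟩
    · rw [abs_le]
      constructor <;> linarith
    · rw [abs_zero]
      positivity
    · intro η hη
      refine ⟨ℓ, ⟨hℓ.le, le_rfl⟩, fun x hx hxx q hq => ?_⟩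
      have hx' : x = ℓ := le_antisymm hx.2 hxx
      have h1 := hp q (abs_le.1 hq)
      rw [hx']
      linarith

end Pool.Agent.Helper50.MS
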