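import Pool.Agent.Helper50.MS.LiftUnique
import Pool.Agent.Helper50.MS.LocalInverse

/-!
# MS-09  Derivatives along a strip

`strip_deriv`: at every point `z` of a strip `G` (a lift of `psi` over `D`) the derivatives of `X ∘ G`, `p ∘ G`, `A ∘ G` in both directions
are given by the formulas of `psi_local_inverse`. PROOF. Take `e` of `psi_local_inverse` at `s = G z` (`psi s = z`). By `lift_eq_symm` (MS-01)
`G = e.symm` near `z` within `D`; so along the line `{x | (x, z.2) ∈ D}` the function `x ↦ X (G (x, z.2))` agrees near `z.1` (within this set)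
with `x ↦ X (e.symm (x, z.2))`: `HasDerivAt.hasDerivWithinAt` and `HasDerivWithinAt.congr_of_eventuallyEq` (the map `x ↦ (x, z.2)` is continuous and maps the
set into `D`, so `Tendsto _ (𝓝[{x | (x,z.2) ∈ D}] z.1) (𝓝[D] z)`; at `z.1` itself both sides are equal because `z ∈ D`).
`strip_cont`: compositions of `G` (continuous on `D`, values in `dom`) with `surface_cont`, `H_cont`.
-/

set_option autoImplicit false

open Filter Topology Set
open scoped RealInnerProductSpace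

namespace Pool.Agent.Helper50.MS

variable {S : Type} [TopologicalSpace S] {X N : S → E3} {A : S → End3} {c C : ℝ}

theorem strip_deriv (h : Hyp X N A c C) (F : Frame) (o : ℝ) {D : Set (ℝ × ℝ)} {G : ℝ × ℝ → S}
    (hG : IsLift (F.psi X N o) (F.dom N A) D G) {z : ℝ × ℝ} (hz : z ∈ D) :
    HasDerivWithinAt (fun x => X (G (x, z.2)))
        (F.Xx (N (G z)) - F.m (N (G z)) (A (G z)) • F.Xy (N (G z))) {x | (x, z.2) ∈ D} z.1 ∧
      HasDerivWithinAt (fun x => F.p (N (G (x, z.2))))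
        ((F.Hxx (N (G z)) (A (G z)) - F.m (N (G z)) (A (G z)) * F.Hxy (N (G z)) (A (G z))) /
          ⟪N (G z), F.n⟫) {x | (x, z.2) ∈ D} z.1 ∧
      (∃ B : End3, HasDerivWithinAt (fun x => A (G (x, z.2))) B {x | (x, z.2) ∈ D} z.1 ∧
        ‖B‖ ≤ C * ‖A (G z)‖ ^ 2 *
          ‖F.Xx (N (G z)) - F.m (N (G z)) (A (G z)) • F.Xy (N (G z))‖) ∧
      HasDerivWithinAt (fun q => X (G (z.1, q)))
        ((⟪N (G z), F.n⟫ / F.Hyy (N (G z)) (A (G z))) • F.Xy (N (G z))) {q | (z.1, q) ∈ D} z.2 ∧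
      HasDerivWithinAt (fun q => F.p (N (G (z.1, q)))) (F.m (N (G z)) (A (G z)))
        {q | (z.1, q) ∈ D} z.2 ∧
      ∃ B : End3, HasDerivWithinAt (fun q => A (G (z.1, q))) B {q | (z.1, q) ∈ D} z.2 ∧
        ‖B‖ ≤ C * ‖A (G z)‖ ^ 2 *
          ‖(⟪N (G z), F.n⟫ / F.Hyy (N (G z)) (A (G z))) • F.Xy (N (G z))‖ := by
  obtain ⟨e, hse, he, h1, h2, ⟨B₁, h3, h3'⟩, h4, h5, ⟨B₂, h6, h6'⟩⟩ :=
    psi_local_inverse h F o (hG.mem z hz)
  have hpsi : F.psi X N o (G z) = z := hG.eq z hz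
  rw [hpsi] at h1 h2 h3 h4 h5 h6
  have hev := lift_eq_symm hG hz e hse (fun u hu => (he u hu).2)
  have hezz : G z = e.symm z := hev.self_of_nhdsWithin hz
  have t1 : Tendsto (fun x : ℝ => (x, z.2)) (𝓝[{x | (x, z.2) ∈ D}] z.1) (𝓝[D] z) := by
    refine tendsto_nhdsWithin_iff.mpr ⟨?_, ?_⟩
    · have : Continuous (fun x : ℝ => (x, z.2)) := by fun_prop
      have h7 := this.tendsto z.1
      exact h7.mono_left nhdsWithin_le_nhds
    · exact self_mem_nhdsWithin
  have t2 : Tendsto (fun q : ℝ => (z.1, q)) (𝓝[{q | (z.1, q) ∈ D}] z.2) (𝓝[D] z) := by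
    refine tendsto_nhdsWithin_iff.mpr ⟨?_, ?_⟩
    · have : Continuous (fun q : ℝ => (z.1, q)) := by fun_prop
      have h7 := this.tendsto z.2
      exact h7.mono_left nhdsWithin_le_nhds
    · exact self_mem_nhdsWithin
  have ev1 := t1.eventually hev
  have ev2 := t2.eventually hev
  have g1 : ∀ {V : Type} [NormedAddCommGroup V] [NormedSpace ℝ V] {g : S → V} {g' : V},
      HasDerivAt (fun x => g (e.symm (x, z.2))) g' z.1 →
      HasDerivWithinAt (fun x => g (G (x, z.2))) g' {x | (x, z.2) ∈ D} z.1 := by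
    intro V _ _ g g' hg
    refine hg.hasDerivWithinAt.congr_of_eventuallyEq ?_ ?_
    · filter_upwards [ev1] with x hx
      rw [hx]
    · show g (G z) = g (e.symm z)
      rw [← hezz]
  have g2 : ∀ {V : Type} [NormedAddCommGroup V] [NormedSpace ℝ V] {g : S → V} {g' : V},
      HasDerivAt (fun q => g (e.symm (z.1, q))) g' z.2 →
      HasDerivWithinAt (fun q => g (G (z.1, q))) g' {q | (z.1, q) ∈ D} z.2 := by
    intro V _ _ g g' hg
    refine hg.hasDerivWithinAt.congr_of_eventuallyEq ?_ ?_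
    · filter_upwards [ev2] with x hx
      rw [hx]
    · show g (G z) = g (e.symm z)
      rw [← hezz]
  exact ⟨g1 (g := X) h1, g1 (g := fun s => F.p (N s)) h2, ⟨B₁, g1 (g := A) h3, h3'⟩,
    g2 (g := X) h4, g2 (g := fun s => F.p (N s)) h5, ⟨B₂, g2 (g := A) h6, h6'⟩⟩

/-- The function `(p, m, Hyy, ...)` are continuous along a strip. -/
theorem strip_cont (h : Hyp X N A c C) (F : Frame) (o : ℝ) {D : Set (ℝ × ℝ)} {G : ℝ × ℝ → S}
    (hG : IsLift (F.psi X N o) (F.dom N A) D G) :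
    ContinuousOn (fun z => F.p (N (G z))) D ∧ ContinuousOn (fun z => F.m (N (G z)) (A (G z))) D ∧
      ContinuousOn (fun z => F.Hyy (N (G z)) (A (G z))) D ∧
      ContinuousOn (fun z => X (G z)) D ∧ ContinuousOn (fun z => A (G z)) D := by
  obtain ⟨hX, hN, hA, -⟩ := surface_cont h.surf
  obtain ⟨hp, -, -, -, hyy, hm⟩ := H_cont h.surf F
  have hmaps : MapsTo G D {s | 0 < ⟪N s, F.n⟫} := fun z hz => (hG.mem z hz).1
  exact ⟨hp.comp hG.cont hmaps, hm.comp hG.cont hG.mem, hyy.comp hG.cont hmaps,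
    hX.comp_continuousOn hG.cont, hA.comp_continuousOn hG.cont⟩

end Pool.Agent.Helper50.MS
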