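import Mathlib

/-!
# Immersed surfaces in Euclidean three-space

`E` is Euclidean three-space. An oriented surface immersed in `E` is given by a Hausdorff space `S`,
the immersion `X : S → E`, the unit normal `N` and the shape operator `A` (with `A N = 0`), all
smooth in local parametrizations of `S`.
-/

set_option autoImplicit false

namespace Pool.Agent.Helper50.MS

open Filter Topology Set
open scoped RealInnerProductSpace ContDiff

/-- `ψ`, on the open set `U` of the plane, is a local parametrization of the surface `(X, N, A)`: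
an open embedding of `U` in `S` such that `X ∘ ψ` is a smooth immersion, `N ∘ ψ` is a smooth unit
normal, and `A ∘ ψ` is the shape operator, extended by `0` on the normal line. -/
structure SurfaceChart {E S : Type} [NormedAddCommGroup E] [InnerProductSpace ℝ E]
    [TopologicalSpace S]
    (X N : S → E) (A : S → E →L[ℝ] E) (U : Set (ℝ × ℝ)) (ψ : ℝ × ℝ → S) : Prop where
  isOpen : IsOpen U
  cont : ContinuousOn ψ U
  inj : InjOn ψ U
  openMap : ∀ V ⊆ U, IsOpen V → IsOpen (ψ '' V)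
  smoothX : ContDiffOn ℝ ∞ (X ∘ ψ) U
  smoothN : ContDiffOn ℝ ∞ (N ∘ ψ) U
  smoothA : ContDiffOn ℝ ∞ (A ∘ ψ) U
  immersion : ∀ u ∈ U, ∀ v, lineDeriv ℝ (X ∘ ψ) u v = 0 → v = 0
  unit : ∀ u ∈ U, ‖N (ψ u)‖ = 1
  normal : ∀ u ∈ U, ∀ v, ⟪N (ψ u), lineDeriv ℝ (X ∘ ψ) u v⟫ = 0
  shape : ∀ u ∈ U, ∀ v, A (ψ u) (lineDeriv ℝ (X ∘ ψ) u v) = -lineDeriv ℝ (N ∘ ψ) u v
  shape_normal : ∀ u ∈ U, A (ψ u) (N (ψ u)) = 0

end Pool.Agent.Helper50.MS
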