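import Pool.Agent.Helper50.MS.Main
import Pool.Agent.Helper50.MS.Surf

/-!
# The theorem for an arbitrary Euclidean three-space
-/

set_option autoImplicit false

namespace Pool.Agent.Helper50.MS

open Filter Topology Set
open scoped RealInnerProductSpace ContDiff

section transport

variable {E E' S : Type} [NormedAddCommGroup E] [InnerProductSpace ℝ E] [NormedAddCommGroup E']
  [InnerProductSpace ℝ E'] [TopologicalSpace S]

/-- Conjugation of an endomorphism by an isometry. -/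
noncomputable def conj (L : E ≃ₗᵢ[ℝ] E') (B : E →L[ℝ] E) : E' →L[ℝ] E' :=
  (L.toContinuousLinearEquiv : E →L[ℝ] E').comp
    (B.comp (L.symm.toContinuousLinearEquiv : E' →L[ℝ] E))

lemma conj_apply (L : E ≃ₗᵢ[ℝ] E') (B : E →L[ℝ] E) (x : E') : conj L B x = L (B (L.symm x)) := rfl

lemma conj_norm_le (L : E ≃ₗᵢ[ℝ] E') (B : E →L[ℝ] E) : ‖conj L B‖ ≤ ‖B‖ := by
  refine (conj L B).opNorm_le_bound (norm_nonneg _) fun x => ?_
  rw [conj_apply, L.norm_map]
  have := B.le_opNorm (L.symm x)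
  rwa [L.symm.norm_map] at this

lemma conj_conj (L : E ≃ₗᵢ[ℝ] E') (B : E →L[ℝ] E) : conj L.symm (conj L B) = B := by
  ext x
  rw [conj_apply, conj_apply]
  simp

lemma conj_norm (L : E ≃ₗᵢ[ℝ] E') (B : E →L[ℝ] E) : ‖conj L B‖ = ‖B‖ := by
  refine le_antisymm (conj_norm_le L B) ?_
  have := conj_norm_le L.symm (conj L B)
  rwa [conj_conj] at this

/-- Conjugation as a linear map. -/
noncomputable def conjL (L : E ≃ₗᵢ[ℝ] E') : (E →L[ℝ] E) →L[ℝ] (E' →L[ℝ] E') :=
  LinearMap.mkContinuous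
    { toFun := conj L
      map_add' := fun B B' => by ext x; simp [conj_apply]
      map_smul' := fun r B => by ext x; simp [conj_apply] } 1
    (fun B => by rw [one_mul]; exact conj_norm_le L B)

lemma conjL_apply (L : E ≃ₗᵢ[ℝ] E') (B : E →L[ℝ] E) : conjL L B = conj L B := rfl

lemma lineDeriv_comp {V W : Type} [NormedAddCommGroup V] [NormedSpace ℝ V] [NormedAddCommGroup W]
    [NormedSpace ℝ W] (T : V →L[ℝ] W) {f : ℝ × ℝ → V} {u : ℝ × ℝ} (hf : DifferentiableAt ℝ f u)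
    (v : ℝ × ℝ) : lineDeriv ℝ (fun u => T (f u)) u v = T (lineDeriv ℝ f u v) := by
  have h1 : HasFDerivAt (fun u => T (f u)) (T.comp (fderiv ℝ f u)) u :=
    T.hasFDerivAt.comp u hf.hasFDerivAt
  rw [hf.lineDeriv_eq_fderiv, h1.differentiableAt.lineDeriv_eq_fderiv, h1.fderiv]
  rfl

lemma transport {X N : S → E} {A : S → E →L[ℝ] E} {U : Set (ℝ × ℝ)} {ψ : ℝ × ℝ → S}
    (L : E ≃ₗᵢ[ℝ] E') (h : SurfaceChart X N A U ψ) :
    SurfaceChart (fun s => L (X s)) (fun s => L (N s)) (fun s => conj L (A s)) U ψ := by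
  have dX : ∀ u ∈ U, DifferentiableAt ℝ (X ∘ ψ) u := fun u hu =>
    (h.smoothX.contDiffAt (h.isOpen.mem_nhds hu)).differentiableAt (by simp)
  have dN : ∀ u ∈ U, DifferentiableAt ℝ (N ∘ ψ) u := fun u hu =>
    (h.smoothN.contDiffAt (h.isOpen.mem_nhds hu)).differentiableAt (by simp)
  have lX : ∀ u ∈ U, ∀ v, lineDeriv ℝ ((fun s => L (X s)) ∘ ψ) u v =
      L (lineDeriv ℝ (X ∘ ψ) u v) := fun u hu v =>
    lineDeriv_comp (L.toContinuousLinearEquiv : E →L[ℝ] E') (dX u hu) v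
  have lN : ∀ u ∈ U, ∀ v, lineDeriv ℝ ((fun s => L (N s)) ∘ ψ) u v =
      L (lineDeriv ℝ (N ∘ ψ) u v) := fun u hu v =>
    lineDeriv_comp (L.toContinuousLinearEquiv : E →L[ℝ] E') (dN u hu) v
  refine ⟨h.isOpen, h.cont, h.inj, h.openMap, ?_, ?_, ?_, ?_, ?_, ?_, ?_, ?_⟩
  · exact (L.toContinuousLinearEquiv.contDiff).comp_contDiffOn h.smoothX
  · exact (L.toContinuousLinearEquiv.contDiff).comp_contDiffOn h.smoothN
  · exact ((conjL L).contDiff).comp_contDiffOn h.smoothA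
  · intro u hu v hv
    rw [lX u hu v] at hv
    exact h.immersion u hu v (by simpa using hv)
  · intro u hu
    rw [L.norm_map]; exact h.unit u hu
  · intro u hu v
    rw [lX u hu v, L.inner_map_map]; exact h.normal u hu v
  · intro u hu v
    rw [lX u hu v, lN u hu v, conj_apply, L.symm_apply_apply, h.shape u hu v, map_neg]
  · intro u hu
    rw [conj_apply, L.symm_apply_apply, h.shape_normal u hu, map_zero]

end transport

lemma param_iff {S : Type} [TopologicalSpace S] {X N : S → E3} {A : S → End3} (U : Set (ℝ × ℝ))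
    (ψ : ℝ × ℝ → S) : IsParam X N A U ψ ↔ SurfaceChart X N A U ψ := by
  have lX : ContDiffOn ℝ ∞ (fun u => X (ψ u)) U → IsOpen U → ∀ u ∈ U, ∀ v,
      lineDeriv ℝ (X ∘ ψ) u v = fderiv ℝ (fun u => X (ψ u)) u v := fun h hU u hu v =>
    (((h.contDiffAt (hU.mem_nhds hu)).differentiableAt (by simp)).lineDeriv_eq_fderiv)
  have lN : ContDiffOn ℝ ∞ (fun u => N (ψ u)) U → IsOpen U → ∀ u ∈ U, ∀ v,
      lineDeriv ℝ (N ∘ ψ) u v = fderiv ℝ (fun u => N (ψ u)) u v := fun h hU u hu v =>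
    (((h.contDiffAt (hU.mem_nhds hu)).differentiableAt (by simp)).lineDeriv_eq_fderiv)
  constructor
  · intro h
    refine ⟨h.isOpen, h.cont, h.inj, fun V hV => h.openMap V hV, h.smoothX, h.smoothN,
      h.smoothA, ?_, h.unit, ?_, ?_, h.shape_normal⟩
    · intro u hu v hv
      rw [lX h.smoothX h.isOpen u hu] at hv
      exact h.immersion u hu (hv.trans (map_zero _).symm)
    · intro u hu v
      rw [lX h.smoothX h.isOpen u hu]
      exact h.normal u hu v
    · intro u hu v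
      rw [lX h.smoothX h.isOpen u hu, lN h.smoothN h.isOpen u hu]
      exact h.shape u hu v
  · intro h
    refine ⟨h.isOpen, h.cont, h.inj, fun V hV => h.openMap V hV, h.smoothX, h.smoothN,
      h.smoothA, ?_, h.unit, ?_, ?_, h.shape_normal⟩
    · intro u hu
      rw [injective_iff_map_eq_zero]
      intro v hv
      rw [← lX h.smoothX h.isOpen u hu] at hv
      exact h.immersion u hu v hv
    · intro u hu v
      rw [← lX h.smoothX h.isOpen u hu]
      exact h.normal u hu v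
    · intro u hu v
      rw [← lX h.smoothX h.isOpen u hu, ← lN h.smoothN h.isOpen u hu]
      exact h.shape u hu v

/-- A complete oriented immersed saddle surface in Euclidean three-space with
`|k₁| + |k₂| ≥ c > 0` and `|dA| ≤ C |A|²` has Gaussian curvature zero. -/
theorem main_general {E S : Type} [NormedAddCommGroup E] [InnerProductSpace ℝ E]
    (hE : Module.finrank ℝ E = 3) [TopologicalSpace S] [T2Space S] (X N : S → E)
    (A : S → E →L[ℝ] E) (k₁ k₂ : S → ℝ)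
    (hsurf : ∀ s, ∃ U ψ, SurfaceChart X N A U ψ ∧ s ∈ ψ '' U)
    (hcomplete : ∀ γ : ℝ → S, ContinuousOn γ (Ico 0 1) →
      (∃ L, LipschitzOnWith L (X ∘ γ) (Ico 0 1)) → ∃ s, Tendsto γ (𝓝[<] 1) (𝓝 s))
    (hprincipal : ∀ s, ∃ e₁ e₂, Orthonormal ℝ ![e₁, e₂, N s] ∧
      A s e₁ = k₁ s • e₁ ∧ A s e₂ = k₂ s • e₂)
    (hsaddle : ∀ s, k₁ s * k₂ s ≤ 0) (c C : ℝ) (hc : 0 < c)
    (hinf : ∀ s, c ≤ |k₁ s| + |k₂ s|)
    (hgrad : ∀ U ψ, SurfaceChart X N A U ψ → ∀ u ∈ U, ∀ v,
      ‖lineDeriv ℝ (A ∘ ψ) u v‖ ≤ C * ‖A (ψ u)‖ ^ 2 * ‖lineDeriv ℝ (X ∘ ψ) u v‖) :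
    ∀ s, k₁ s * k₂ s = 0 := by
  have : FiniteDimensional ℝ E := Module.finite_of_finrank_pos (by omega)
  let L : E ≃ₗᵢ[ℝ] EuclideanSpace ℝ (Fin 3) :=
    ((stdOrthonormalBasis ℝ E).reindex (finCongr hE)).repr
  have hback : ∀ U ψ, SurfaceChart (fun s => L (X s)) (fun s => L (N s)) (fun s => conj L (A s)) U ψ →
      SurfaceChart X N A U ψ := by
    intro U ψ h
    have h1 := transport L.symm h
    simpa only [L.symm_apply_apply, conj_conj] using h1
  refine main (X := fun s => L (X s)) (N := fun s => L (N s))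
    (A := fun s => conj L (A s)) ?_ ?_ ?_ hsaddle ⟨c, hc, hinf⟩ ⟨C, ?_⟩
  · intro s
    obtain ⟨U, ψ, h1, h2⟩ := hsurf s
    exact ⟨U, ψ, (param_iff U ψ).mpr (transport L h1), h2⟩
  · rintro γ hγ ⟨K, hK⟩
    refine hcomplete γ hγ ⟨K, ?_⟩
    refine LipschitzOnWith.of_dist_le_mul fun t ht t' ht' => ?_
    have h1 := hK.dist_le_mul t ht t' ht'
    rwa [L.dist_map] at h1
  · intro s
    obtain ⟨e₁, e₂, on, h1, h2⟩ := hprincipal s
    refine ⟨L e₁, L e₂, ?_, ?_, ?_⟩
    · have h3 := on.comp_linearIsometryEquiv L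
      have h4 : (⇑L ∘ ![e₁, e₂, N s]) = ![L e₁, L e₂, L (N s)] := by
        funext i
        fin_cases i <;> rfl
      rwa [h4] at h3
    · rw [conj_apply, L.symm_apply_apply, h1, map_smul]
    · rw [conj_apply, L.symm_apply_apply, h2, map_smul]
  · intro U ψ hψ u hu v
    have hp := hback U ψ ((param_iff U ψ).mp hψ)
    have h1 := hgrad U ψ hp u hu v
    have dX : DifferentiableAt ℝ (X ∘ ψ) u :=
      (hp.smoothX.contDiffAt (hp.isOpen.mem_nhds hu)).differentiableAt (by simp)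
    have dA : DifferentiableAt ℝ (A ∘ ψ) u :=
      (hp.smoothA.contDiffAt (hp.isOpen.mem_nhds hu)).differentiableAt (by simp)
    have e1 : fderiv ℝ (fun u => L (X (ψ u))) u v = L (lineDeriv ℝ (X ∘ ψ) u v) := by
      refine Eq.trans ?_
        (lineDeriv_comp (L.toContinuousLinearEquiv : E →L[ℝ] EuclideanSpace ℝ (Fin 3)) dX v)
      exact ((((hψ.smoothX.contDiffAt (hψ.isOpen.mem_nhds hu)).differentiableAt
        (by simp)).lineDeriv_eq_fderiv)).symm
    have e2 : fderiv ℝ (fun u => conj L (A (ψ u))) u v = conj L (lineDeriv ℝ (A ∘ ψ) u v) := by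
      refine Eq.trans ?_ (lineDeriv_comp (conjL L) dA v)
      exact ((((hψ.smoothA.contDiffAt (hψ.isOpen.mem_nhds hu)).differentiableAt
        (by simp)).lineDeriv_eq_fderiv)).symm
    show ‖fderiv ℝ (fun u => conj L (A (ψ u))) u v‖ ≤
      C * ‖conj L (A (ψ u))‖ ^ 2 * ‖fderiv ℝ (fun u => L (X (ψ u))) u v‖
    rw [e1, e2, conj_norm, conj_norm, L.norm_map]
    exact h1

end Pool.Agent.Helper50.MS
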