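import Pool.Agent.Helper50.MS.SecSect

/-!
# MS-27  Points of the right wall, part 1

`full_closed`: `I` is closed: by `ord`, `alt₁`, `alt₂` it is `ℝ`, `[a,∞)`, `(-∞,b]` or `[a,b]`.
`height_mono`: for `(x₁,q), (x₂,q)` in the strip, `x₁ ≤ x₂`: the function `x ↦ -⟪X (G (x,q)), w₁⟫` has derivative `-⟪Xx - m Xy, w₁⟫ = (1 + α₁ p) + m (β₁ - α₁ q) ≥ 1/2` (`⟪Xx,w₁⟫ = -1 - α₁ p`, `⟪Xy,w₁⟫ = β₁ - α₁ q`; `strip_deriv`,
`slope`, `Good`), so it increases by at least `(x₂ - x₁)/2`.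
`wall₁_case`: `v` near `n` with `⟪v,w₁⟫ = 0`. `q̄ = q v`: `|q̄| ≤ κ/4` (`|⟪v,b⟫| ≤ δ/100`, `⟪v,n⟫ ≥ 1/2`), `p v = α₁ + β₁ q̄`. The second case of `alt₁` is impossible: there
`⟪v,w₁⟫ = -⟪v,a⟫ + (δ/5)⟪v,n⟫ ≥ -δ/100 + δ/10 > 0`. And `p v < α₂ + β₂ q̄`, `|p v| ≤ δ/25`.
`wall₁_limit`: `w ∈ closure secOf`, `N w = v`. Then `w = G (x,q̄)` for some `x ∈ I`. PROOF. `w` is the limit of a filter on `secOf` (`mem_closure_iff_ultrafilter` or `mem_closure_iff_clusterPt`); for the points `G (x,q)` of `secOf`: `x = ⟪X,a⟫ - ⟪X s,a⟫` converges to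
`x̄ = ⟪X w,a⟫ - ⟪X s,a⟫` (`surface_cont`), `q = q (N ..) → q̄`, `x̄ ∈ I` (closed), and `G` is continuous on `I × J` at `(x̄,q̄)`; Hausdorff.
-/

set_option autoImplicit false

open Filter Topology Set
open scoped RealInnerProductSpace

namespace Pool.Agent.Helper50.MS

variable {S : Type} [TopologicalSpace S] [T2Space S] {X N : S → E3} {A : S → End3} {c C : ℝ}

theorem full_closed {F : Frame} {s : S} {I : Set ℝ} {G : ℝ × ℝ → S} {α₁ β₁ α₂ β₂ : ℝ}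
    (hf : IsFull F X N A C s I G α₁ β₁ α₂ β₂) : IsClosed I := by
  have h0 : (0 : ℝ) ∈ I := mem_of_mem_nhds hf.nhds
  rcases hf.alt₁ with ⟨h1, -⟩ | ⟨⟨ℓ, h1⟩, -⟩ <;> rcases hf.alt₂ with ⟨h2, -⟩ | ⟨⟨ℓ', h2⟩, -⟩
  · have : I = univ := by
      rw [eq_univ_iff_forall]
      intro x
      rcases le_total 0 x with hx | hx
      · exact h1 hx
      · exact h2 hx
    rw [this]
    exact isClosed_univ
  · have : I = Ici ℓ' := by
      ext x
      constructor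
      · intro hx
        exact h2.2 hx
      · intro hx
        rcases le_total 0 x with hx' | hx'
        · exact h1 hx'
        · exact hf.ord.out h2.1 h0 ⟨hx, hx'⟩
    rw [this]
    exact isClosed_Ici
  · have : I = Iic ℓ := by
      ext x
      constructor
      · intro hx
        exact h1.2 hx
      · intro hx
        rcases le_total 0 x with hx' | hx'
        · exact hf.ord.out h0 h1.1 ⟨hx', hx⟩
        · exact h2 hx'
    rw [this]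
    exact isClosed_Iic
  · have : I = Icc ℓ' ℓ := by
      ext x
      constructor
      · intro hx
        exact ⟨h2.2 hx, h1.2 hx⟩
      · intro hx
        exact hf.ord.out h2.1 h1.1 hx
    rw [this]
    exact isClosed_Icc

theorem height_mono (h : Hyp X N A c C) (F : Frame) {s : S} (hs : Adapted F N A s) {I : Set ℝ}
    {G : ℝ × ℝ → S} {α₁ β₁ α₂ β₂ : ℝ} (hf : IsFull F X N A C s I G α₁ β₁ α₂ β₂)
    {x₁ x₂ q : ℝ} (hx₁ : x₁ ∈ I) (hx₂ : x₂ ∈ I) (hx : x₁ ≤ x₂) (hq : q ∈ Icc (-kap C) (kap C)) :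
    (x₂ - x₁) / 2 ≤ -⟪X (G (x₂, q)), w₁ F α₁ β₁⟫ + ⟪X (G (x₁, q)), w₁ F α₁ β₁⟫ := by
  obtain ⟨hκ0, hκ1, -, hδ0, hδ⟩ := kap_del h.one_le
  obtain ⟨haa, hbb, hnn, hab, han, hbn⟩ := frame_inner F
  have hba : ⟪F.b, F.a⟫ = 0 := by rw [real_inner_comm]; exact hab
  have hna : ⟪F.n, F.a⟫ = 0 := by rw [real_inner_comm]; exact han
  have hnb : ⟪F.n, F.b⟫ = 0 := by rw [real_inner_comm]; exact hbn
  have hseg : ∀ x ∈ Icc x₁ x₂, (x, q) ∈ I ×ˢ Icc (-kap C) (kap C) := fun x hxx =>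
    ⟨hf.ord.out hx₁ hx₂ hxx, hq⟩
  have hval : ∀ x ∈ Icc x₁ x₂, ⟪F.Xx (N (G (x, q))) - F.m (N (G (x, q))) (A (G (x, q))) •
      F.Xy (N (G (x, q))), w₁ F α₁ β₁⟫ ≤ -(1 / 2) := by
    intro x hxx
    obtain ⟨-, g2, g3, -⟩ := hf.good _ (hseg x hxx)
    have g4 := hf.slope _ (hseg x hxx)
    have g5 := hf.alpha₁
    have g6 := hf.beta₁
    have e1 : ⟪F.Xx (N (G (x, q))), w₁ F α₁ β₁⟫ = -1 - α₁ * F.p (N (G (x, q))) := by
      rw [inner_w₁, Frame.Xx]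
      simp only [inner_add_left, real_inner_smul_left, haa, hab, han, hna, hnb, hnn]
      ring
    have e2 : ⟪F.Xy (N (G (x, q))), w₁ F α₁ β₁⟫ = β₁ - α₁ * F.q (N (G (x, q))) := by
      rw [inner_w₁, Frame.Xy]
      simp only [inner_add_left, real_inner_smul_left, hba, hbb, hbn, hna, hnb, hnn]
      ring
    rw [inner_sub_left, real_inner_smul_left, e1, e2]
    have hδ1 : del C ≤ 1 / 10 := by rw [hδ]; norm_num at hκ1 ⊢; linarith
    have k1 : |α₁ * F.p (N (G (x, q)))| ≤ 1 / 10 * (1 / 10) := by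
      rw [abs_mul]
      exact mul_le_mul (g5.trans hδ1) (g2.trans hδ1) (abs_nonneg _) (by norm_num)
    have k2 : |α₁ * F.q (N (G (x, q)))| ≤ 1 / 10 * (1 / 10) := by
      rw [abs_mul]
      exact mul_le_mul (g5.trans hδ1) (g3.trans (hκ1.trans (by norm_num))) (abs_nonneg _)
        (by norm_num)
    have k3 : |β₁ - α₁ * F.q (N (G (x, q)))| ≤ 1 / 10 := by
      refine (abs_sub _ _).trans ?_
      norm_num at g6 k2 ⊢
      linarith
    have k4 : |F.m (N (G (x, q))) (A (G (x, q))) * (β₁ - α₁ * F.q (N (G (x, q))))| ≤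
        1 / 10 * (1 / 10) := by
      rw [abs_mul]
      exact mul_le_mul (g4.trans (by norm_num)) k3 (abs_nonneg _) (by norm_num)
    have k5 := (abs_le.1 k1).1
    have k6 := (abs_le.1 k4).1
    norm_num at k5 k6 ⊢
    linarith
  have hder : ∀ x ∈ Icc x₁ x₂, HasDerivWithinAt
      (fun x => -⟪X (G (x, q)), w₁ F α₁ β₁⟫ - x / 2)
      (-⟪F.Xx (N (G (x, q))) - F.m (N (G (x, q))) (A (G (x, q))) •
        F.Xy (N (G (x, q))), w₁ F α₁ β₁⟫ - 1 / 2) (Icc x₁ x₂) x := by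
    intro x hxx
    have h1 := (strip_deriv h F _ hf.lift (z := (x, q)) (hseg x hxx)).1
    have h2 := (h1.mono (fun y hy => hseg y hy) : HasDerivWithinAt (fun x => X (G (x, q))) _
      (Icc x₁ x₂) x).inner ℝ (hasDerivWithinAt_const x _ (w₁ F α₁ β₁))
    have h3 := (h2.neg).sub ((hasDerivWithinAt_id x (Icc x₁ x₂)).div_const 2)
    refine h3.congr_deriv ?_
    rw [inner_zero_right, zero_add]
  have hmono : MonotoneOn (fun x => -⟪X (G (x, q)), w₁ F α₁ β₁⟫ - x / 2) (Icc x₁ x₂) := by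
    refine monotoneOn_of_deriv_nonneg (convex_Icc _ _)
      (fun x hxx => (hder x hxx).continuousWithinAt) ?_ ?_
    · intro x hxx
      rw [interior_Icc] at hxx
      exact ((hder x (Ioo_subset_Icc_self hxx)).hasDerivAt
        (Icc_mem_nhds hxx.1 hxx.2)).differentiableAt.differentiableWithinAt
    · intro x hxx
      rw [interior_Icc] at hxx
      rw [((hder x (Ioo_subset_Icc_self hxx)).hasDerivAt (Icc_mem_nhds hxx.1 hxx.2)).deriv]
      have := hval x (Ioo_subset_Icc_self hxx)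
      linarith
  have := hmono (left_mem_Icc.2 hx) (right_mem_Icc.2 hx) hx
  simp only at this
  linarith

theorem wall₁_case (h : Hyp X N A c C) (F : Frame) {s : S} (hs : Adapted F N A s) {I : Set ℝ}
    {G : ℝ × ℝ → S} {α₁ β₁ α₂ β₂ : ℝ} (hf : IsFull F X N A C s I G α₁ β₁ α₂ β₂) {v : E3}
    (hv : ‖v‖ = 1) (hn : ‖v - F.n‖ < del C / 100) (h₁ : ⟪v, w₁ F α₁ β₁⟫ = 0)
    (h₂ : 0 < ⟪v, w₂ F α₂ β₂⟫) :
    Ici 0 ⊆ I ∧ (∀ z ∈ I ×ˢ Icc (-kap C) (kap C), α₁ + β₁ * z.2 ≤ F.p (N (G z))) ∧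
      F.p v = α₁ + β₁ * F.q v ∧ F.p v < α₂ + β₂ * F.q v ∧ |F.q v| ≤ kap C / 4 ∧
      |F.p v| ≤ del C / 25 ∧ 1 / 2 ≤ ⟪v, F.n⟫ := by
  obtain ⟨hκ0, hκ1, -, hδ0, hδ⟩ := kap_del h.one_le
  obtain ⟨haa, hbb, hnn, hab, han, hbn⟩ := frame_inner F
  have hna : ⟪F.n, F.a⟫ = 0 := by rw [real_inner_comm]; exact han
  have hnb : ⟪F.n, F.b⟫ = 0 := by rw [real_inner_comm]; exact hbn
  have hδ1 : del C ≤ 1 := by rw [hδ]; norm_num at hκ1 ⊢; linarith
  have ha1 : ‖F.a‖ = 1 := by simpa using F.on.1 0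
  have hb1 : ‖F.b‖ = 1 := by simpa using F.on.1 1
  have hn1 : ‖F.n‖ = 1 := by simpa using F.on.1 2
  have h5 : |⟪v, F.n⟫ - 1| ≤ del C / 100 := by
    have : ⟪v, F.n⟫ - 1 = ⟪v - F.n, F.n⟫ := by rw [inner_sub_left, hnn]
    rw [this]
    refine (abs_real_inner_le_norm _ _).trans ?_
    rw [hn1, mul_one]
    exact hn.le
  have h6 : |⟪v, F.b⟫| ≤ del C / 100 := by
    have : ⟪v, F.b⟫ = ⟪v - F.n, F.b⟫ := by rw [inner_sub_left, hnb, sub_zero]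
    rw [this]
    refine (abs_real_inner_le_norm _ _).trans ?_
    rw [hb1, mul_one]
    exact hn.le
  have h7 : |⟪v, F.a⟫| ≤ del C / 100 := by
    have : ⟪v, F.a⟫ = ⟪v - F.n, F.a⟫ := by rw [inner_sub_left, hna, sub_zero]
    rw [this]
    refine (abs_real_inner_le_norm _ _).trans ?_
    rw [ha1, mul_one]
    exact hn.le
  have h8 : 1 / 2 ≤ ⟪v, F.n⟫ := by
    have := (abs_le.1 h5).1
    linarith
  have h9 : 0 < ⟪v, F.n⟫ := by linarith
  have hp : F.p v = α₁ + β₁ * F.q v := by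
    rw [inner_w₁] at h₁
    rw [Frame.p, Frame.q]
    field_simp
    linarith
  have hp2 : F.p v < α₂ + β₂ * F.q v :=
    ((cone_props h.one_le F hf.alpha₁ hf.beta₁ hf.alpha₂ hf.beta₂).2.2.2.2.2.2.2.1 v h9).2 h₂
  have hpb : |F.p v| ≤ del C / 50 := by
    rw [Frame.p, abs_div, abs_neg, abs_of_pos h9, div_le_iff₀ h9]
    nlinarith
  have hqb : |F.q v| ≤ del C / 50 := by
    rw [Frame.q, abs_div, abs_neg, abs_of_pos h9, div_le_iff₀ h9]
    nlinarith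
  have hqk : |F.q v| ≤ kap C / 4 := by
    refine hqb.trans ?_
    rw [hδ]
    linarith
  rcases hf.alt₁ with ⟨g1, g2⟩ | ⟨-, g1, g2⟩
  · exact ⟨g1, g2, hp, hp2, hqk, by linarith, h8⟩
  · exfalso
    rw [g1, g2, zero_mul, add_zero] at hp
    rw [hp] at hpb
    have := (abs_le.1 hpb).1
    linarith

theorem wall₁_limit (h : Hyp X N A c C) (F : Frame) {s : S} (hs : Adapted F N A s) {I : Set ℝ}
    {G : ℝ × ℝ → S} {α₁ β₁ α₂ β₂ : ℝ} (hf : IsFull F X N A C s I G α₁ β₁ α₂ β₂) {v : E3}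
    (hv : ‖v‖ = 1) (hn : ‖v - F.n‖ < del C / 100) (h₁ : ⟪v, w₁ F α₁ β₁⟫ = 0)
    (h₂ : 0 < ⟪v, w₂ F α₂ β₂⟫) {w : S}
    (hw : w ∈ closure (secOf F N C I G α₁ β₁ α₂ β₂)) (hwv : N w = v) :
    ∃ x ∈ I, w = G (x, F.q v) := by
  obtain ⟨-, -, -, -, -, -, hvn⟩ := wall₁_case h F hs hf hv hn h₁ h₂
  obtain ⟨hX, hN, -, -⟩ := surface_cont h.surf
  obtain ⟨hκ0, -, -, -, -⟩ := kap_del h.one_le
  have hwn : 0 < ⟪N w, F.n⟫ := by rw [hwv]; linarith
  have hopen : IsOpen {s : S | 0 < ⟪N s, F.n⟫} :=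
    isOpen_lt continuous_const (hN.inner continuous_const)
  have hqc : ContinuousAt (fun s => F.q (N s)) w :=
    (H_cont h.surf F).2.1.continuousAt (hopen.mem_nhds hwn)
  have hpsi : ContinuousAt (F.psi X N ⟪X s, F.a⟫) w := by
    have h3 : ContinuousAt (fun u => ⟪X u, F.a⟫ - ⟪X s, F.a⟫) w :=
      ((hX.inner continuous_const).sub continuous_const).continuousAt
    exact h3.prodMk hqc
  have hne : (𝓝[secOf F N C I G α₁ β₁ α₂ β₂] w).NeBot := mem_closure_iff_nhdsWithin_neBot.1 hw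
  have hD : IsClosed (I ×ˢ Icc (-kap C) (kap C)) := (full_closed hf).prod isClosed_Icc
  have hmem : ∀ u ∈ secOf F N C I G α₁ β₁ α₂ β₂, F.psi X N ⟪X s, F.a⟫ u ∈
      I ×ˢ Icc (-kap C) (kap C) ∧ G (F.psi X N ⟪X s, F.a⟫ u) = u := by
    rintro u ⟨z, ⟨g1, g2, g3, g4⟩, rfl⟩
    have hz : z ∈ I ×ˢ Icc (-kap C) (kap C) := by
      refine ⟨g1, ?_, ?_⟩
      · linarith [(abs_lt.1 g2).1]
      · linarith [(abs_lt.1 g2).2]
    have e1 := hf.lift.eq z hz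
    constructor
    · rw [e1]
      exact hz
    · rw [e1]
  have ht : Tendsto (F.psi X N ⟪X s, F.a⟫) (𝓝[secOf F N C I G α₁ β₁ α₂ β₂] w)
      (𝓝 (F.psi X N ⟪X s, F.a⟫ w)) := hpsi.tendsto.mono_left nhdsWithin_le_nhds
  have hmw : F.psi X N ⟪X s, F.a⟫ w ∈ I ×ˢ Icc (-kap C) (kap C) := by
    refine hD.mem_of_tendsto ht ?_
    filter_upwards [self_mem_nhdsWithin] with u hu
    exact (hmem u hu).1
  have ht' : Tendsto (F.psi X N ⟪X s, F.a⟫) (𝓝[secOf F N C I G α₁ β₁ α₂ β₂] w)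
      (𝓝[I ×ˢ Icc (-kap C) (kap C)] (F.psi X N ⟪X s, F.a⟫ w)) := by
    refine tendsto_nhdsWithin_iff.2 ⟨ht, ?_⟩
    filter_upwards [self_mem_nhdsWithin] with u hu
    exact (hmem u hu).1
  have h4 : Tendsto (fun u => G (F.psi X N ⟪X s, F.a⟫ u)) (𝓝[secOf F N C I G α₁ β₁ α₂ β₂] w)
      (𝓝 (G (F.psi X N ⟪X s, F.a⟫ w))) := (hf.lift.cont _ hmw).tendsto.comp ht'
  have h5 : Tendsto (fun u => G (F.psi X N ⟪X s, F.a⟫ u)) (𝓝[secOf F N C I G α₁ β₁ α₂ β₂] w)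
      (𝓝 w) := by
    refine (tendsto_id.mono_left nhdsWithin_le_nhds).congr' ?_
    filter_upwards [self_mem_nhdsWithin] with u hu
    exact (hmem u hu).2.symm
  have h6 : G (F.psi X N ⟪X s, F.a⟫ w) = w := tendsto_nhds_unique h4 h5
  refine ⟨(F.psi X N ⟪X s, F.a⟫ w).1, hmw.1, ?_⟩
  have h7 : (F.psi X N ⟪X s, F.a⟫ w).2 = F.q v := by
    change F.q (N w) = F.q v
    rw [hwv]
  rw [← h7]
  exact h6.symm

end Pool.Agent.Helper50.MS
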