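import Pool.Agent.Helper50.MS.WallCase

/-!
# MS-29  Points of the right wall, part 3: sign and compactness

`wall₁_sign`: `w = G z ∈ secOf`, `τ ⟂ N w`, `τ ⟂ w₁`, `τ ≠ 0`: `τ = ξ Xx + η Xy` (`tangent_expand`), `0 = ⟪τ,w₁⟫ = -ξ (1 + α₁ p) + η (β₁ - α₁ q)`, so `|ξ| ≤ 2e-4 |η|`, `η ≠ 0`, and
`⟪Aτ,τ⟫ = ξ²Hxx + 2ξηHxy + η²Hyy ≥ η²(Hyy - 4e-4|Hxy| - 4e-8|Hxx|) > 0` because `|Hxy|, |Hxx| ≤ 1.01‖A‖ ≤ 2.02 Hyy` (`H_le`, `Good`; `A` symmetric by `eigen_symm`), `Hyy > 0`.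
`wall₁_compact`: let `q̄ = q v`, `2η' = α₂ + β₂q̄ - (α₁ + β₁q̄) > 0`. Choose `ρ > 0` such that `‖v' - v‖ ≤ ρ`, implies `⟪v',n⟫ > 1/4`, `|q v'| ≤ κ/3`, `p v' < α₂ + β₂ q v' - η'/2` (continuity of `p`, `q` at `v`, where `p = α₁+β₁q̄`). Let
`x₂ ∈ I` be the point of `near₂` for `η'/2` (we may take it `≤ 0`: `min x₂ 0` also works and is in `I`). If `w = G (x,q) ∈ secOf`, `‖N w - v‖ ≤ ρ` then `P(x,q) < α₂+β₂q-η'/2`, so `x > x₂`. If `-⟪X w,w₁⟫ ≤ M` and `x ≥ 0` then by `height_mono` `x/2 ≤ M + ⟪X (G (0,q)),w₁⟫ ≤ M + M₀`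
(`M₀` a bound of the continuous function on the compact leaf), so `x ≤ x_M := max 0 (2(M+M₀))`. `K = G '' ([x₂,x_M] × [-κ/3,κ/3])` is compact; `[x₂,x_M] ⊆ I` since `[0,∞) ⊆ I` (`wall₁_case`) and `ord`.
-/

set_option autoImplicit false

open Filter Topology Set
open scoped RealInnerProductSpace

namespace Pool.Agent.Helper50.MS

variable {S : Type} [TopologicalSpace S] [T2Space S] {X N : S → E3} {A : S → End3} {c C : ℝ}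

private theorem wc_kap {C : ℝ} (hC : 1 ≤ C) : 0 < kap C ∧ kap C ≤ 1 / 10 ^ 8 := by
  have h0 : 0 < C := by linarith
  constructor
  · unfold kap
    positivity
  · unfold kap
    apply one_div_le_one_div_of_le (by norm_num)
    nlinarith

private theorem wc_num {ξ η p q α β H₁ H₂ H₃ : ℝ} (hα : |α| ≤ 1 / 10 ^ 8)
    (hβ : |β| ≤ 1 / 10 ^ 4) (hp : |p| ≤ 1 / 10 ^ 8) (hq : |q| ≤ 1 / 10 ^ 8)
    (h0 : -ξ + β * η - α * (ξ * p + η * q) = 0) (hne : ¬ (ξ = 0 ∧ η = 0))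
    (hH : 0 < H₃) (h1 : |H₁| ≤ 101 / 50 * H₃) (h2 : |H₂| ≤ 101 / 50 * H₃) :
    0 < ξ ^ 2 * H₁ + 2 * ξ * η * H₂ + η ^ 2 * H₃ := by
  have hαp : |α * p| ≤ 1 / 10 ^ 8 := by
    rw [abs_mul]
    calc |α| * |p| ≤ 1 / 10 ^ 8 * (1 / 10 ^ 8) := by gcongr
      _ ≤ 1 / 10 ^ 8 := by norm_num
  have hαq : |α * q| ≤ 1 / 10 ^ 8 := by
    rw [abs_mul]
    calc |α| * |q| ≤ 1 / 10 ^ 8 * (1 / 10 ^ 8) := by gcongr
      _ ≤ 1 / 10 ^ 8 := by norm_num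
  have e1 : ξ = η * (β - α * q) - ξ * (α * p) := by linarith
  have hb : |β - α * q| ≤ 1 / 10 ^ 4 + 1 / 10 ^ 8 := (abs_sub _ _).trans (by linarith)
  have e2 : |ξ| ≤ |η| * (1 / 10 ^ 4 + 1 / 10 ^ 8) + |ξ| * (1 / 10 ^ 8) := by
    calc |ξ| = |η * (β - α * q) - ξ * (α * p)| := by rw [← e1]
      _ ≤ |η * (β - α * q)| + |ξ * (α * p)| := abs_sub _ _
      _ = |η| * |β - α * q| + |ξ| * |α * p| := by rw [abs_mul, abs_mul]
      _ ≤ |η| * (1 / 10 ^ 4 + 1 / 10 ^ 8) + |ξ| * (1 / 10 ^ 8) := by gcongr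
  have hξ0 := abs_nonneg ξ
  have hη0 := abs_nonneg η
  have e3 : |ξ| ≤ 1 / 5000 * |η| := by
    norm_num at e2 ⊢
    linarith
  have hη : 0 < |η| := by
    rcases hη0.lt_or_eq with h | h
    · exact h
    · exfalso
      rw [← h, mul_zero] at e3
      exact hne ⟨abs_eq_zero.1 (le_antisymm e3 hξ0), abs_eq_zero.1 h.symm⟩
  have e4 : ξ ^ 2 ≤ 1 / 5000 * |η| * (1 / 5000 * |η|) := by
    rw [← sq_abs ξ, sq]
    gcongr
  have e5 : |ξ * η| ≤ 1 / 5000 * |η| * |η| := by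
    rw [abs_mul]
    gcongr
  have e6 : -(1 / 5000 * |η| * (1 / 5000 * |η|) * (101 / 50 * H₃)) ≤ ξ ^ 2 * H₁ := by
    have : |ξ ^ 2 * H₁| ≤ 1 / 5000 * |η| * (1 / 5000 * |η|) * (101 / 50 * H₃) := by
      rw [abs_mul, abs_of_nonneg (sq_nonneg ξ)]
      gcongr
    exact (abs_le.1 this).1
  have e7 : -(1 / 5000 * |η| * |η| * (101 / 50 * H₃)) ≤ ξ * η * H₂ := by
    have : |ξ * η * H₂| ≤ 1 / 5000 * |η| * |η| * (101 / 50 * H₃) := by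
      rw [abs_mul]
      gcongr
    exact (abs_le.1 this).1
  have e8 : η ^ 2 * H₃ = |η| * |η| * H₃ := by rw [← sq_abs η, sq]
  have e9 : 0 < |η| * |η| * H₃ := by positivity
  rw [e8]
  nlinarith

theorem wall₁_sign (h : Hyp X N A c C) (F : Frame) {s : S} (hs : Adapted F N A s) {I : Set ℝ}
    {G : ℝ × ℝ → S} {α₁ β₁ α₂ β₂ : ℝ} (hf : IsFull F X N A C s I G α₁ β₁ α₂ β₂) {w : S}
    (hw : w ∈ secOf F N C I G α₁ β₁ α₂ β₂) {τ : E3} (h₁ : ⟪τ, N w⟫ = 0)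
    (h₂ : ⟪τ, w₁ F α₁ β₁⟫ = 0) (h₃ : τ ≠ 0) : 0 < ⟪A w τ, τ⟫ := by
  obtain ⟨z, ⟨hzI, hz2, -, -⟩, rfl⟩ := hw
  obtain ⟨hκ0, hκ⟩ := wc_kap h.one_le
  have hδ : del C ≤ 1 / 10 ^ 8 := by
    unfold del
    norm_num at hκ ⊢
    linarith
  have hzz : z ∈ I ×ˢ Icc (-kap C) (kap C) := by
    obtain ⟨a1, a2⟩ := abs_lt.1 hz2
    exact ⟨hzI, by linarith, by linarith⟩
  obtain ⟨g1, g2, g3, g4⟩ := hf.good z hzz
  have hvn : ⟪N (G z), F.n⟫ ≠ 0 := by linarith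
  obtain ⟨e₁, e₂, k₁, k₂, on, he₁, he₂, he₃, -⟩ := h.saddle (G z)
  have ht := tangent_expand F (N (G z)) τ hvn (by rw [real_inner_comm]; exact h₁)
  obtain ⟨haa, hbb, hnn, hab, han, hbn⟩ := frame_inner F
  obtain ⟨hxx, hyy, -⟩ := norm_Xx F (N (G z))
  obtain ⟨hH1, -, hH2⟩ := H_le F (N (G z)) (A (G z))
  have hlow := h.lower (G z)
  have hcp := h.cpos
  have hsym : ⟪A (G z) (F.Xy (N (G z))), F.Xx (N (G z))⟫ =
      ⟪A (G z) (F.Xx (N (G z))), F.Xy (N (G z))⟫ := by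
    rw [eigen_symm on he₁ he₂ he₃, real_inner_comm]
  have hquad : ⟪A (G z) τ, τ⟫ = ⟪τ, F.a⟫ ^ 2 * F.Hxx (N (G z)) (A (G z)) +
      2 * ⟪τ, F.a⟫ * ⟪τ, F.b⟫ * F.Hxy (N (G z)) (A (G z)) +
      ⟪τ, F.b⟫ ^ 2 * F.Hyy (N (G z)) (A (G z)) := by
    rw [Frame.Hxx, Frame.Hxy, Frame.Hyy]
    conv_lhs => rw [ht]
    simp only [map_add, map_smul, inner_add_left, inner_add_right, inner_smul_left,
      inner_smul_right, conj_trivial, hsym]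
    ring
  have htn : ⟪τ, F.n⟫ = ⟪τ, F.a⟫ * F.p (N (G z)) + ⟪τ, F.b⟫ * F.q (N (G z)) := by
    conv_lhs => rw [ht, Frame.Xx, Frame.Xy]
    simp only [inner_add_left, inner_smul_left, conj_trivial, han, hbn, hnn]
    ring
  have hw1 : -⟪τ, F.a⟫ + β₁ * ⟪τ, F.b⟫ - α₁ * (⟪τ, F.a⟫ * F.p (N (G z)) +
      ⟪τ, F.b⟫ * F.q (N (G z))) = 0 := by
    rw [← htn, ← h₂, w₁]
    simp only [inner_sub_right, inner_add_right, inner_neg_right, inner_smul_right]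
  rw [hquad]
  have hpb : |F.p (N (G z))| ≤ 1 / 10 ^ 8 := g2.trans hδ
  have hqb : |F.q (N (G z))| ≤ 1 / 10 ^ 8 := g3.trans hκ
  have hp2 : F.p (N (G z)) ^ 2 ≤ 1 / 100 := by
    rw [← sq_abs]
    calc |F.p (N (G z))| ^ 2 ≤ (1 / 10 ^ 8) ^ 2 := by gcongr
      _ ≤ 1 / 100 := by norm_num
  have hq2 : F.q (N (G z)) ^ 2 ≤ 1 / 100 := by
    rw [← sq_abs]
    calc |F.q (N (G z))| ^ 2 ≤ (1 / 10 ^ 8) ^ 2 := by gcongr
      _ ≤ 1 / 100 := by norm_num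
  have hA0 : 0 < ‖A (G z)‖ := by linarith
  refine wc_num (hf.alpha₁.trans hδ) hf.beta₁ hpb hqb hw1 ?_ (by linarith) ?_ ?_
  · rintro ⟨c1, c2⟩
    apply h₃
    rw [ht, c1, c2, zero_smul, zero_smul, add_zero]
  · calc |F.Hxx (N (G z)) (A (G z))| ≤ ‖A (G z)‖ * (1 + F.p (N (G z)) ^ 2) := hH1
      _ ≤ ‖A (G z)‖ * (101 / 100) := by gcongr; linarith
      _ ≤ 101 / 50 * F.Hyy (N (G z)) (A (G z)) := by linarith
  · have hprod : ‖F.Xx (N (G z))‖ * ‖F.Xy (N (G z))‖ ≤ 101 / 100 := by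
      nlinarith [sq_nonneg (‖F.Xx (N (G z))‖ - ‖F.Xy (N (G z))‖)]
    calc |F.Hxy (N (G z)) (A (G z))|
        ≤ ‖A (G z)‖ * (‖F.Xx (N (G z))‖ * ‖F.Xy (N (G z))‖) := hH2
      _ ≤ ‖A (G z)‖ * (101 / 100) := by gcongr
      _ ≤ 101 / 50 * F.Hyy (N (G z)) (A (G z)) := by linarith

theorem wall₁_compact (h : Hyp X N A c C) (F : Frame) {s : S} (hs : Adapted F N A s) {I : Set ℝ}
    {G : ℝ × ℝ → S} {α₁ β₁ α₂ β₂ : ℝ} (hf : IsFull F X N A C s I G α₁ β₁ α₂ β₂) {v : E3}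
    (hv : ‖v‖ = 1) (hn : ‖v - F.n‖ < del C / 100) (h₁ : ⟪v, w₁ F α₁ β₁⟫ = 0)
    (h₂ : 0 < ⟪v, w₂ F α₂ β₂⟫) :
    ∃ ρ : ℝ, 0 < ρ ∧ ∀ M : ℝ, ∃ K : Set S, IsCompact K ∧
      {w | w ∈ secOf F N C I G α₁ β₁ α₂ β₂ ∧ ‖N w - v‖ ≤ ρ ∧ -⟪X w, w₁ F α₁ β₁⟫ ≤ M} ⊆ K := by
  obtain ⟨hκ0, -⟩ := wc_kap h.one_le
  obtain ⟨hI0, -, -, hpv, hqv, -, hvn⟩ := wall₁_case h F hs hf hv hn h₁ h₂
  obtain ⟨η, hη⟩ : ∃ η, η = α₂ + β₂ * F.q v - F.p v := ⟨_, rfl⟩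
  have hη0 : 0 < η := by linarith
  have hvn' : ⟪v, F.n⟫ ≠ 0 := by linarith
  have hpc : ContinuousAt F.p v := by
    unfold Frame.p
    exact ContinuousAt.div (by fun_prop) (by fun_prop) hvn'
  have hqc : ContinuousAt F.q v := by
    unfold Frame.q
    exact ContinuousAt.div (by fun_prop) (by fun_prop) hvn'
  have hev : ∀ᶠ v' in 𝓝 v, |F.q v'| < kap C / 3 ∧ F.p v' < α₂ + β₂ * F.q v' - η / 2 := by
    refine ((hqc.abs).eventually (gt_mem_nhds (by linarith))).and ?_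
    exact hpc.eventually_lt (f := F.p) (g := fun v' => α₂ + β₂ * F.q v' - η / 2)
      ((continuousAt_const.add (continuousAt_const.mul hqc)).sub continuousAt_const)
      (by linarith)
  obtain ⟨ρ, hρ, hball⟩ := Metric.eventually_nhds_iff.1 hev
  refine ⟨ρ / 2, by linarith, fun M => ?_⟩
  obtain ⟨x₂, hx₂, hnear⟩ := hf.near₂ (η / 2) (by linarith)
  obtain ⟨hXc, -, -, -⟩ := surface_cont h.surf
  have h00 : (0 : ℝ) ∈ I := hI0 (mem_Ici.2 le_rfl)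
  have hleaf : ContinuousOn (fun q : ℝ => ⟪X (G (0, q)), w₁ F α₁ β₁⟫) (Icc (-kap C) (kap C)) := by
    have h3 : ContinuousOn (fun q : ℝ => G (0, q)) (Icc (-kap C) (kap C)) :=
      hf.lift.cont.comp (by fun_prop) (fun q hq => ⟨h00, hq⟩)
    exact ((hXc.comp_continuousOn h3).inner continuousOn_const)
  obtain ⟨M₀, hM₀⟩ := (isCompact_Icc.image_of_continuousOn hleaf).bddAbove
  refine ⟨G '' (Icc x₂ (max 0 (2 * (M + M₀))) ×ˢ Icc (-(kap C / 3)) (kap C / 3)), ?_, ?_⟩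
  · refine (isCompact_Icc.prod isCompact_Icc).image_of_continuousOn (hf.lift.cont.mono ?_)
    refine prod_mono ?_ ?_
    · exact hf.ord.out hx₂ (hI0 (mem_Ici.2 (le_max_left _ _)))
    · exact Icc_subset_Icc (by linarith) (by linarith)
  · rintro w ⟨⟨z, ⟨hzI, hz2, -, -⟩, rfl⟩, hρw, hMw⟩
    obtain ⟨x, q⟩ := z
    obtain ⟨a1, a2⟩ := abs_lt.1 hz2
    have hqI : q ∈ Icc (-kap C) (kap C) := by
      constructor
      · simp only at a1; linarith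
      · simp only at a2; linarith
    have hzz : (x, q) ∈ I ×ˢ Icc (-kap C) (kap C) := ⟨hzI, hqI⟩
    have hqq : F.q (N (G (x, q))) = q := by
      have h3 := hf.lift.eq _ hzz
      have h4 := congrArg Prod.snd h3
      exact h4
    obtain ⟨b1, b2⟩ := hball (show dist (N (G (x, q))) v < ρ by
      rw [dist_eq_norm]; linarith)
    rw [hqq] at b1 b2
    refine ⟨(x, q), ⟨⟨?_, ?_⟩, ?_⟩, rfl⟩
    · change x₂ ≤ x
      by_contra hlt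
      push Not at hlt
      have h3 := hnear x hzI hlt.le q (le_of_lt hz2)
      linarith
    · change x ≤ max 0 (2 * (M + M₀))
      rcases le_total x 0 with hx | hx
      · exact hx.trans (le_max_left _ _)
      · refine le_trans ?_ (le_max_right _ _)
        have h3 := height_mono h F hs hf h00 hzI hx hqI
        have h4 : ⟪X (G (0, q)), w₁ F α₁ β₁⟫ ≤ M₀ := hM₀ ⟨q, hqI, rfl⟩
        linarith
    · change q ∈ Icc (-(kap C / 3)) (kap C / 3)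
      exact ⟨(abs_lt.1 b1).1.le, (abs_lt.1 b1).2.le⟩

end Pool.Agent.Helper50.MS
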