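import Pool.Agent.Helper50.MS.WallCase

/-!
# MS-28  Points of the right wall, part 2: rays and lower points

`w ∈ closure secOf`, `N w = v` on the right wall; `w = G (x̄,q̄)` (`wall₁_limit`), `q̄ = q v`, `P(x̄,q̄) = p v = α₁ + β₁q̄`.
`wall₁_ray`: `P(x,q̄) = α₁+β₁q̄` for all `x ≥ x̄` (antitone `strip_P_anti`, and `wall₁_case`), so `N (G (x,q̄)) = v` (a unit vector with `⟪·,n⟫ > 0` is determined by `(p,q)`); `R = G '' ([x̄,∞) × {q̄})` is preconnected, and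
`⟪X,a⟫ = ⟪X s,a⟫ + x` is unbounded on it.
`wall₁_lower`: let `ξ = inf {x ∈ I | P(x,q̄) = α₁+β₁q̄}`. By `near₂` with `η` such that `α₂+β₂q̄-η > α₁+β₁q̄` there is `x₀ ∈ I` with `P(x,q̄) > α₁+β₁q̄` for `x ≤ x₀`: so `ξ > x₀` (the set is closed in `I`), `P(ξ,q̄) = α₁+β₁q̄`, and for
`x₀ < x' < ξ`: `P(x',q̄) > α₁+β₁q̄` (`wall₁_case`), `P(x',q̄) → α₁+β₁q̄ < α₂+β₂q̄` as `x' → ξ`. So for `x'` close to `ξ` `w' = G (x',q̄) ∈ secOf`, and `N w' → N (G (ξ,q̄)) = v`. `height_mono`: `ξ ≤ x̄`, so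
`-⟪X w',w₁⟫ < -⟪X w,w₁⟫`.
-/

set_option autoImplicit false

open Filter Topology Set
open scoped RealInnerProductSpace

namespace Pool.Agent.Helper50.MS

variable {S : Type} [TopologicalSpace S] [T2Space S] {X N : S → E3} {A : S → End3} {c C : ℝ}

private theorem wr_kap (hC : 1 ≤ C) : 0 < kap C := by
  unfold kap
  positivity

private theorem wr_unit (F : Frame) {u v : E3} (hu : ‖u‖ = 1) (hv : ‖v‖ = 1)
    (hun : 0 < ⟪u, F.n⟫) (hvn : 0 < ⟪v, F.n⟫) (hp : F.p u = F.p v) (hq : F.q u = F.q v) :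
    u = v := by
  have h1 := inner_n_sq F u hu hun.ne'
  have h2 := inner_n_sq F v hv hvn.ne'
  rw [hp, hq] at h1
  have h1' := h1.trans h2.symm
  have h3 : 0 < 1 + F.p v ^ 2 + F.q v ^ 2 := by positivity
  have h4 : ⟪u, F.n⟫ ^ 2 = ⟪v, F.n⟫ ^ 2 := mul_left_cancel₀ h3.ne' h1'
  have h5 : ⟪u, F.n⟫ = ⟪v, F.n⟫ := by
    rcases sq_eq_sq_iff_eq_or_eq_neg.1 h4 with h5 | h5
    · exact h5
    · linarith
  have ha : ∀ x : E3, 0 < ⟪x, F.n⟫ → ⟪x, F.a⟫ = -(F.p x * ⟪x, F.n⟫) := by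
    intro x hx
    unfold Frame.p
    rw [div_mul_cancel₀ _ hx.ne', neg_neg]
  have hb : ∀ x : E3, 0 < ⟪x, F.n⟫ → ⟪x, F.b⟫ = -(F.q x * ⟪x, F.n⟫) := by
    intro x hx
    unfold Frame.q
    rw [div_mul_cancel₀ _ hx.ne', neg_neg]
  rw [frame_expand F u, frame_expand F v, ha u hun, hb u hun, ha v hvn, hb v hvn, hp, hq, h5]

/-- the basic facts on the line `q = q v` -/
private theorem wr_line (h : Hyp X N A c C) (F : Frame) {s : S} {I : Set ℝ}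
    {G : ℝ × ℝ → S} {α₁ β₁ α₂ β₂ : ℝ} (hf : IsFull F X N A C s I G α₁ β₁ α₂ β₂) {v : E3}
    (hv : ‖v‖ = 1) (hvn : 0 < ⟪v, F.n⟫) (hq : F.q v ∈ Icc (-kap C) (kap C)) {x : ℝ}
    (hx : x ∈ I) (hp : F.p (N (G (x, F.q v))) = F.p v) : N (G (x, F.q v)) = v := by
  have hD : (x, F.q v) ∈ I ×ˢ Icc (-kap C) (kap C) := ⟨hx, hq⟩
  have h1 := (strip_Xa F _ hf.lift hD).2
  have h2 := (hf.good _ hD).1
  have h3 := (surface_cont h.surf).2.2.2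
  exact wr_unit F (h3 _) hv (by linarith) hvn hp h1

private theorem wr_cont {F : Frame} {s : S} {I : Set ℝ}
    {G : ℝ × ℝ → S} {α₁ β₁ α₂ β₂ : ℝ} (hf : IsFull F X N A C s I G α₁ β₁ α₂ β₂) {q : ℝ}
    (hq : q ∈ Icc (-kap C) (kap C)) {T : Set ℝ} (hT : T ⊆ I) :
    ContinuousOn (fun x => G (x, q)) T := by
  refine hf.lift.cont.comp (f := fun x : ℝ => (x, q)) ?_ ?_
  · exact (continuous_id.prodMk continuous_const).continuousOn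
  · intro x hx
    exact ⟨hT hx, hq⟩

theorem wall₁_ray (h : Hyp X N A c C) (F : Frame) {s : S} (hs : Adapted F N A s) {I : Set ℝ}
    {G : ℝ × ℝ → S} {α₁ β₁ α₂ β₂ : ℝ} (hf : IsFull F X N A C s I G α₁ β₁ α₂ β₂) {v : E3}
    (hv : ‖v‖ = 1) (hn : ‖v - F.n‖ < del C / 100) (h₁ : ⟪v, w₁ F α₁ β₁⟫ = 0)
    (h₂ : 0 < ⟪v, w₂ F α₂ β₂⟫) {w : S}
    (hw : w ∈ closure (secOf F N C I G α₁ β₁ α₂ β₂)) (hwv : N w = v) : HasRay X N w := by
  obtain ⟨hI, hge, hp, hlt, hq, hp', hvn⟩ := wall₁_case h F hs hf hv hn h₁ h₂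
  obtain ⟨x₀, hx₀, hw₀⟩ := wall₁_limit h F hs hf hv hn h₁ h₂ hw hwv
  have hk := wr_kap h.one_le
  have hvn' : 0 < ⟪v, F.n⟫ := by linarith
  have hqI : F.q v ∈ Icc (-kap C) (kap C) := by
    obtain ⟨g1, g2⟩ := abs_le.1 hq
    constructor <;> linarith
  have h0 : (0 : ℝ) ∈ I := hI (Set.mem_Ici.2 le_rfl)
  have hIci : Ici x₀ ⊆ I := by
    intro x hx
    rcases le_total 0 x with h3 | h3
    · exact hI h3
    · exact hf.ord.out hx₀ h0 ⟨hx, h3⟩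
  have hNv : ∀ x ∈ Ici x₀, N (G (x, F.q v)) = v := by
    intro x hx
    have hxI := hIci hx
    apply wr_line h F hf hv hvn' hqI hxI
    apply le_antisymm
    · have h3 := strip_P_anti h F _ hf.lift (x₁ := x₀) (x₂ := x) (q := F.q v) hx
        (fun t ht => ⟨hIci ht.1, hqI⟩)
      rw [← hw₀, hwv] at h3
      exact h3
    · rw [hp]
      exact hge (x, F.q v) ⟨hxI, hqI⟩
  refine ⟨(fun x => G (x, F.q v)) '' Ici x₀, ?_, ⟨x₀, Set.mem_Ici.2 le_rfl, hw₀.symm⟩, ?_, ?_⟩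
  · exact isPreconnected_Ici.image _ (wr_cont hf hqI hIci)
  · rintro _ ⟨x, hx, rfl⟩
    rw [hwv]
    exact hNv x hx
  · intro hb
    obtain ⟨M, hM⟩ := hb.exists_norm_le
    have ha : ‖F.a‖ = 1 := by
      have h3 := (frame_inner F).1
      rw [real_inner_self_eq_norm_sq] at h3
      have h4 := norm_nonneg F.a
      nlinarith
    have key : ∀ x ∈ Ici x₀, x ≤ M - ⟪X s, F.a⟫ := by
      intro x hx
      have h3 := (strip_Xa F _ hf.lift (z := (x, F.q v)) ⟨hIci hx, hqI⟩).1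
      have h4 := hM (X (G (x, F.q v))) ⟨_, ⟨x, hx, rfl⟩, rfl⟩
      have h5 := real_inner_le_norm (X (G (x, F.q v))) F.a
      rw [ha, mul_one] at h5
      simp only at h3
      linarith
    have h6 := key (max x₀ (M - ⟪X s, F.a⟫ + 1)) (Set.mem_Ici.2 (le_max_left _ _))
    have h7 := le_max_right x₀ (M - ⟪X s, F.a⟫ + 1)
    linarith

theorem wall₁_lower (h : Hyp X N A c C) (F : Frame) {s : S} (hs : Adapted F N A s) {I : Set ℝ}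
    {G : ℝ × ℝ → S} {α₁ β₁ α₂ β₂ : ℝ} (hf : IsFull F X N A C s I G α₁ β₁ α₂ β₂) {v : E3}
    (hv : ‖v‖ = 1) (hn : ‖v - F.n‖ < del C / 100) (h₁ : ⟪v, w₁ F α₁ β₁⟫ = 0)
    (h₂ : 0 < ⟪v, w₂ F α₂ β₂⟫) {w : S}
    (hw : w ∈ closure (secOf F N C I G α₁ β₁ α₂ β₂)) (hwv : N w = v) {ε : ℝ} (hε : 0 < ε) :
    ∃ w' ∈ secOf F N C I G α₁ β₁ α₂ β₂, ‖N w' - v‖ < ε ∧
      -⟪X w', w₁ F α₁ β₁⟫ < -⟪X w, w₁ F α₁ β₁⟫ := by
  obtain ⟨hI, hge, hp, hlt, hq, hp', hvn⟩ := wall₁_case h F hs hf hv hn h₁ h₂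
  obtain ⟨x₁, hx₁, hw₁⟩ := wall₁_limit h F hs hf hv hn h₁ h₂ hw hwv
  have hk := wr_kap h.one_le
  have hvn' : 0 < ⟪v, F.n⟫ := by linarith
  have hqI : F.q v ∈ Icc (-kap C) (kap C) := by
    obtain ⟨g1, g2⟩ := abs_le.1 hq
    constructor <;> linarith
  have hP1 : F.p (N (G (x₁, F.q v))) = F.p v := by rw [← hw₁, hwv]
  obtain ⟨x₀, hx₀, hnear⟩ := hf.near₂ (α₂ + β₂ * F.q v - F.p v) (by linarith)
  have hgt : ∀ x ∈ I, x ≤ x₀ → F.p v < F.p (N (G (x, F.q v))) := by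
    intro x hx hxx
    have h3 := hnear x hx hxx (F.q v) (by linarith)
    linarith
  have hx01 : x₀ < x₁ := by
    by_contra hcon
    have h3 := hgt x₁ hx₁ (not_lt.1 hcon)
    rw [hP1] at h3
    exact lt_irrefl _ h3
  have hsub : Icc x₀ x₁ ⊆ I := hf.ord.out hx₀ hx₁
  have hcP : ContinuousOn (fun x => F.p (N (G (x, F.q v)))) (Icc x₀ x₁) := by
    refine (strip_cont h F _ hf.lift).1.comp (f := fun x : ℝ => (x, F.q v)) ?_ ?_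
    · exact (continuous_id.prodMk continuous_const).continuousOn
    · intro x hx
      exact ⟨hsub hx, hqI⟩
  have hcN : ContinuousOn (fun x => N (G (x, F.q v))) (Icc x₀ x₁) :=
    (surface_cont h.surf).2.1.comp_continuousOn (wr_cont hf hqI hsub)
  have hcl : IsClosed (Icc x₀ x₁ ∩ (fun x => F.p (N (G (x, F.q v)))) ⁻¹' {F.p v}) :=
    hcP.preimage_isClosed_of_isClosed isClosed_Icc isClosed_singleton
  have hcomp : IsCompact (Icc x₀ x₁ ∩ (fun x => F.p (N (G (x, F.q v)))) ⁻¹' {F.p v}) :=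
    isCompact_Icc.of_isClosed_subset hcl inter_subset_left
  obtain ⟨ξ, ⟨hξ1, hξ2⟩, hξ3⟩ := hcomp.exists_isLeast ⟨x₁, ⟨hx01.le, le_rfl⟩, hP1⟩
  have hPξ : F.p (N (G (ξ, F.q v))) = F.p v := hξ2
  have hx0ξ : x₀ < ξ := by
    refine lt_of_le_of_ne hξ1.1 ?_
    rintro rfl
    have h3 := hgt x₀ hx₀ le_rfl
    rw [hPξ] at h3
    exact lt_irrefl _ h3
  have hNξ : N (G (ξ, F.q v)) = v := wr_line h F hf hv hvn' hqI (hsub hξ1) hPξ
  have hIoo : Ioo x₀ ξ ⊆ Icc x₀ x₁ := fun x hx => ⟨hx.1.le, hx.2.le.trans hξ1.2⟩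
  haveI hne : (𝓝[Ioo x₀ ξ] ξ).NeBot := right_nhdsWithin_Ioo_neBot hx0ξ
  have e1 : ∀ᶠ x in 𝓝[Ioo x₀ ξ] ξ, F.p (N (G (x, F.q v))) < α₂ + β₂ * F.q v := by
    have h3 : Tendsto (fun x => F.p (N (G (x, F.q v)))) (𝓝[Ioo x₀ ξ] ξ) (𝓝 (F.p v)) := by
      have h4 := ((hcP ξ hξ1).mono hIoo).tendsto
      rwa [hPξ] at h4
    exact h3.eventually (gt_mem_nhds hlt)
  have e2 : ∀ᶠ x in 𝓝[Ioo x₀ ξ] ξ, ‖N (G (x, F.q v)) - v‖ < ε := by
    have h3 : Tendsto (fun x => N (G (x, F.q v))) (𝓝[Ioo x₀ ξ] ξ) (𝓝 v) := by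
      have h4 := ((hcN ξ hξ1).mono hIoo).tendsto
      rwa [hNξ] at h4
    have h5 := h3.eventually (Metric.ball_mem_nhds v hε)
    filter_upwards [h5] with x hx
    rw [← dist_eq_norm]
    exact hx
  have e3 : ∀ᶠ x in 𝓝[Ioo x₀ ξ] ξ, x ∈ Ioo x₀ ξ := self_mem_nhdsWithin
  obtain ⟨x', hx'1, hx'2, hx'3⟩ := (e1.and (e2.and e3)).exists
  have hx'I : x' ∈ I := hsub (hIoo hx'3)
  have hx'P : α₁ + β₁ * F.q v < F.p (N (G (x', F.q v))) := by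
    rw [← hp]
    refine lt_of_le_of_ne ?_ ?_
    · rw [hp]
      exact hge (x', F.q v) ⟨hx'I, hqI⟩
    · intro h3
      have h4 := hξ3 ⟨hIoo hx'3, h3.symm⟩
      exact absurd h4 (not_le.2 hx'3.2)
  refine ⟨G (x', F.q v), ⟨(x', F.q v), ⟨hx'I, ?_, hx'P, hx'1⟩, rfl⟩, hx'2, ?_⟩
  · show |F.q v| < kap C / 2
    linarith
  · have h3 := height_mono h F hs hf hx'I hx₁ (hx'3.2.le.trans hξ1.2) hqI
    rw [← hw₁] at h3
    have h4 : x' < x₁ := lt_of_lt_of_le hx'3.2 hξ1.2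
    linarith

end Pool.Agent.Helper50.MS
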