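import Pool.Agent.Helper50.MS.WallRay
import Pool.Agent.Helper50.MS.WallCompact

/-!
# MS-30  The wall properties

`wall₁_props`: `e = ‖w₁‖⁻¹ w₁`, `σ = -1`; assembly of MS-28, MS-29: `⟪τ,e⟫ = 0 ↔ ⟪τ,w₁⟫ = 0`; `-1 * ⟪A w τ,τ⟫ < 0`; `-1 * ⟪X w,e⟫ = ‖w₁‖⁻¹ (-⟪X w,w₁⟫)` (`‖w₁‖ ≥ 1 > 0`, `cone_props`).
`wall₂_props`: by the reflection `F' = (-a,b,n)`: `Adapted F' N A s`, `IsFull F' X N A C s (-I) G' (-α₂) (-β₂) (-α₁) (-β₁)` with `G' (x,q) = G (-x,q)` (`F'.p = -F.p`, `F'.q = F.q`, `F'.Hyy = F.Hyy`, `F'.m = -F.m`, `F'.psi X N ⟪X s,-a⟫ u = (-(F.psi X N ⟪X s,a⟫ u).1, (..).2)`;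
`near₁'` is `near₂` and so on), `w₁ F' (-α₂) (-β₂) = a - β₂ b + α₂ n = w₂ F α₂ β₂`, `w₂ F' (-α₁) (-β₁) = -a + β₁ b - α₁ n = w₁ F α₁ β₁`, `secOf F' N C (-I) G' (-α₂) (-β₂) (-α₁) (-β₁) = secOf F N C I G α₁ β₁ α₂ β₂`. `full_reflect` is this statement.
-/

set_option autoImplicit false

open Filter Topology Set
open scoped RealInnerProductSpace

namespace Pool.Agent.Helper50.MS

variable {S : Type} [TopologicalSpace S] [T2Space S] {X N : S → E3} {A : S → End3} {c C : ℝ}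

/-- the reflected frame -/
private noncomputable def refl (F : Frame) : Frame where
  a := -F.a
  b := F.b
  n := F.n
  on := by
    have h := F.on
    rw [orthonormal_iff_ite] at h ⊢
    intro i j
    have hij := h i j
    fin_cases i <;> fin_cases j <;> simpa using hij

private theorem refl_p (F : Frame) (v : E3) : (refl F).p v = -F.p v := by
  unfold Frame.p refl
  simp only [inner_neg_right]
  ring

private theorem refl_q (F : Frame) (v : E3) : (refl F).q v = F.q v := rfl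

private theorem refl_Xx (F : Frame) (v : E3) : (refl F).Xx v = -F.Xx v := by
  unfold Frame.Xx
  rw [refl_p]
  change -F.a + (-F.p v) • F.n = -(F.a + F.p v • F.n)
  rw [neg_smul, neg_add]

private theorem refl_Xy (F : Frame) (v : E3) : (refl F).Xy v = F.Xy v := rfl

private theorem refl_Hyy (F : Frame) (v : E3) (B : End3) : (refl F).Hyy v B = F.Hyy v B := rfl

private theorem refl_Hxy (F : Frame) (v : E3) (B : End3) : (refl F).Hxy v B = -F.Hxy v B := by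
  unfold Frame.Hxy
  rw [refl_Xx, refl_Xy, map_neg, inner_neg_left]

private theorem refl_m (F : Frame) (v : E3) (B : End3) : (refl F).m v B = -F.m v B := by
  unfold Frame.m
  rw [refl_Hxy, refl_Hyy, neg_div]

theorem full_reflect {F : Frame} {s : S} {I : Set ℝ} {G : ℝ × ℝ → S} {α₁ β₁ α₂ β₂ : ℝ}
    (hs : Adapted F N A s) (hf : IsFull F X N A C s I G α₁ β₁ α₂ β₂) :
    ∃ F' : Frame, F'.a = -F.a ∧ F'.b = F.b ∧ F'.n = F.n ∧ Adapted F' N A s ∧
      IsFull F' X N A C s {x | -x ∈ I} (fun z => G (-z.1, z.2)) (-α₂) (-β₂) (-α₁) (-β₁) ∧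
      w₁ F' (-α₂) (-β₂) = w₂ F α₂ β₂ ∧ w₂ F' (-α₁) (-β₁) = w₁ F α₁ β₁ ∧
      secOf F' N C {x | -x ∈ I} (fun z => G (-z.1, z.2)) (-α₂) (-β₂) (-α₁) (-β₁) =
        secOf F N C I G α₁ β₁ α₂ β₂ := by
  have hD : ∀ z : ℝ × ℝ, z ∈ {x | -x ∈ I} ×ˢ Icc (-kap C) (kap C) →
      ((-z.1, z.2) : ℝ × ℝ) ∈ I ×ˢ Icc (-kap C) (kap C) := fun z hz => ⟨hz.1, hz.2⟩
  refine ⟨refl F, rfl, rfl, rfl, ?_, ?_, ?_, ?_, ?_⟩
  · obtain ⟨h1, h2, ⟨k, h3⟩, h4⟩ := hs
    refine ⟨h1, h2, ⟨k, ?_⟩, h4⟩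
    change A s (-F.a) = k • (-F.a)
    rw [map_neg, h3, smul_neg]
  · refine
      { ord := ?_
        nhds := ?_
        lift := ?_
        good := ?_
        start := ?_
        slope := ?_
        alpha₁ := by rw [abs_neg]; exact hf.alpha₂
        beta₁ := by rw [abs_neg]; exact hf.beta₂
        alpha₂ := by rw [abs_neg]; exact hf.alpha₁
        beta₂ := by rw [abs_neg]; exact hf.beta₁
        near₁ := ?_
        near₂ := ?_
        alt₁ := ?_
        alt₂ := ?_ }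
    · refine ⟨fun x hx y hy z hz => ?_⟩
      exact hf.ord.out hy hx ⟨neg_le_neg hz.2, neg_le_neg hz.1⟩
    · have h1 : Tendsto (fun x : ℝ => -x) (𝓝 0) (𝓝 0) := by
        have h2 := (continuous_neg (G := ℝ)).tendsto 0
        rwa [neg_zero] at h2
      exact h1 hf.nhds
    · refine ⟨?_, ?_, ?_⟩
      · refine hf.lift.cont.comp (Continuous.continuousOn (by fun_prop)) ?_
        intro z hz
        exact hD z hz
      · intro z hz
        exact hf.lift.mem _ (hD z hz)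
      · intro z hz
        have h1 := hf.lift.eq _ (hD z hz)
        have h2 : ⟪X (G (-z.1, z.2)), F.a⟫ - ⟪X s, F.a⟫ = -z.1 := congrArg Prod.fst h1
        have h3 : F.q (N (G (-z.1, z.2))) = z.2 := congrArg Prod.snd h1
        refine Prod.ext ?_ h3
        change ⟪X (G (-z.1, z.2)), -F.a⟫ - ⟪X s, -F.a⟫ = z.1
        rw [inner_neg_right, inner_neg_right]
        linarith
    · intro z hz
      obtain ⟨g1, g2, g3, g4⟩ := hf.good _ (hD z hz)
      refine ⟨g1, ?_, g3, g4⟩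
      rw [refl_p, abs_neg]
      exact g2
    · change G (-0, 0) = s
      rw [neg_zero]
      exact hf.start
    · intro z hz
      rw [refl_m, abs_neg]
      exact hf.slope _ (hD z hz)
    · intro η hη
      obtain ⟨x₀, hx₀, h1⟩ := hf.near₂ η hη
      refine ⟨-x₀, ?_, ?_⟩
      · change -(-x₀) ∈ I
        rw [neg_neg]
        exact hx₀
      · intro x hx hxx q hq
        have h2 := h1 (-x) hx (by linarith) q hq
        rw [refl_p]
        change -F.p (N (G (-x, q))) < -α₂ + -β₂ * q + η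
        linarith
    · intro η hη
      obtain ⟨x₀, hx₀, h1⟩ := hf.near₁ η hη
      refine ⟨-x₀, ?_, ?_⟩
      · change -(-x₀) ∈ I
        rw [neg_neg]
        exact hx₀
      · intro x hx hxx q hq
        have h2 := h1 (-x) hx (by linarith) q hq
        rw [refl_p]
        change -α₁ + -β₁ * q - η < -F.p (N (G (-x, q)))
        linarith
    · rcases hf.alt₂ with ⟨h1, h2⟩ | ⟨⟨ℓ, h1⟩, h2, h3⟩
      · refine Or.inl ⟨fun x hx => ?_, fun z hz => ?_⟩
        · refine h1 ?_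
          change -x ≤ 0
          have hx' : 0 ≤ x := hx
          linarith
        · have h4 := h2 _ (hD z hz)
          rw [refl_p]
          change -α₂ + -β₂ * z.2 ≤ -F.p (N (G (-z.1, z.2)))
          simp only at h4
          linarith
      · refine Or.inr ⟨⟨-ℓ, ?_, ?_⟩, ?_, ?_⟩
        · change -(-ℓ) ∈ I
          rw [neg_neg]
          exact h1.1
        · intro x hx
          have h4 := h1.2 hx
          linarith
        · rw [h2]
          ring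
        · rw [h3, neg_zero]
    · rcases hf.alt₁ with ⟨h1, h2⟩ | ⟨⟨ℓ, h1⟩, h2, h3⟩
      · refine Or.inl ⟨fun x hx => ?_, fun z hz => ?_⟩
        · refine h1 ?_
          change 0 ≤ -x
          have hx' : x ≤ 0 := hx
          linarith
        · have h4 := h2 _ (hD z hz)
          rw [refl_p]
          change -F.p (N (G (-z.1, z.2))) ≤ -α₁ + -β₁ * z.2
          simp only at h4
          linarith
      · refine Or.inr ⟨⟨-ℓ, ?_, ?_⟩, ?_, ?_⟩
        · change -(-ℓ) ∈ I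
          rw [neg_neg]
          exact h1.1
        · intro x hx
          have h4 := h1.2 hx
          linarith
        · rw [h2]
          ring
        · rw [h3, neg_zero]
  · unfold w₁ w₂
    change -(-F.a) + (-β₂) • F.b - (-α₂) • F.n = F.a - β₂ • F.b + α₂ • F.n
    rw [neg_neg, neg_smul, neg_smul]
    abel
  · unfold w₁ w₂
    change -F.a - (-β₁) • F.b + (-α₁) • F.n = -F.a + β₁ • F.b - α₁ • F.n
    rw [neg_smul, neg_smul]
    abel
  · unfold secOf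
    ext u
    constructor
    · rintro ⟨z, ⟨h1, h2, h3, h4⟩, rfl⟩
      rw [refl_p] at h3 h4
      refine ⟨(-z.1, z.2), ⟨h1, h2, ?_, ?_⟩, rfl⟩
      · change α₁ + β₁ * z.2 < F.p (N (G (-z.1, z.2)))
        simp only at h4
        linarith
      · change F.p (N (G (-z.1, z.2))) < α₂ + β₂ * z.2
        simp only at h3
        linarith
    · rintro ⟨z, ⟨h1, h2, h3, h4⟩, rfl⟩
      have e : ((-(-z.1), z.2) : ℝ × ℝ) = z := by rw [neg_neg]
      refine ⟨(-z.1, z.2), ⟨?_, h2, ?_, ?_⟩, ?_⟩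
      · change -(-z.1) ∈ I
        rw [neg_neg]
        exact h1
      · rw [refl_p]
        change -α₂ + -β₂ * z.2 < -F.p (N (G (-(-z.1), z.2)))
        rw [e]
        linarith
      · rw [refl_p]
        change -F.p (N (G (-(-z.1), z.2))) < -α₁ + -β₁ * z.2
        rw [e]
        linarith
      · change G (-(-z.1), z.2) = G z
        rw [e]

theorem wall₁_props (h : Hyp X N A c C) (F : Frame) {s : S} (hs : Adapted F N A s) {I : Set ℝ}
    {G : ℝ × ℝ → S} {α₁ β₁ α₂ β₂ : ℝ} (hf : IsFull F X N A C s I G α₁ β₁ α₂ β₂) {v : E3}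
    (hv : ‖v‖ = 1) (hn : ‖v - F.n‖ < del C / 100) (h₁ : ⟪v, w₁ F α₁ β₁⟫ = 0)
    (h₂ : 0 < ⟪v, w₂ F α₂ β₂⟫) :
    WallAt X N A (secOf F N C I G α₁ β₁ α₂ β₂) ((‖w₁ F α₁ β₁‖)⁻¹ • w₁ F α₁ β₁) (-1) v ∧
      ∀ w ∈ closure (secOf F N C I G α₁ β₁ α₂ β₂), N w = v → HasRay X N w := by
  have hr : 1 ≤ ‖w₁ F α₁ β₁‖ :=
    (cone_props h.one_le F hf.alpha₁ hf.beta₁ hf.alpha₂ hf.beta₂).2.2.1
  have hr0 : 0 < ‖w₁ F α₁ β₁‖ := by linarith
  have hr0' : 0 < ‖w₁ F α₁ β₁‖⁻¹ := inv_pos.mpr hr0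
  refine ⟨⟨⟨1, one_pos, ?_⟩, ?_, ?_⟩, fun w hw hwv => wall₁_ray h F hs hf hv hn h₁ h₂ hw hwv⟩
  · intro w hw _ τ hτ1 hτ2 hτ3
    rw [inner_smul_right] at hτ2
    have h3 : ⟪τ, w₁ F α₁ β₁⟫ = 0 := by
      rcases mul_eq_zero.mp hτ2 with h4 | h4
      · exact absurd h4 hr0'.ne'
      · exact h4
    have h5 := wall₁_sign h F hs hf hw hτ1 h3 hτ3
    linarith
  · intro w hw hwv ε hε
    obtain ⟨w', hw', h3, h4⟩ := wall₁_lower h F hs hf hv hn h₁ h₂ hw hwv hε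
    refine ⟨w', hw', h3, ?_⟩
    rw [inner_smul_right, inner_smul_right]
    have h5 := mul_lt_mul_of_pos_left h4 hr0'
    linarith
  · obtain ⟨ρ, hρ, h3⟩ := wall₁_compact h F hs hf hv hn h₁ h₂
    refine ⟨ρ, hρ, fun M => ?_⟩
    obtain ⟨K, hK, h4⟩ := h3 (‖w₁ F α₁ β₁‖ * M)
    refine ⟨K, hK, ?_⟩
    rintro w ⟨hw1, hw2, hw3⟩
    refine h4 ⟨hw1, hw2, ?_⟩
    rw [inner_smul_right] at hw3
    have h5 := mul_le_mul_of_nonneg_left hw3 hr0.le
    have h6 : ‖w₁ F α₁ β₁‖ * (-1 * (‖w₁ F α₁ β₁‖⁻¹ * ⟪X w, w₁ F α₁ β₁⟫)) =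
        -⟪X w, w₁ F α₁ β₁⟫ := by
      field_simp
    rw [h6] at h5
    exact h5

theorem wall₂_props (h : Hyp X N A c C) (F : Frame) {s : S} (hs : Adapted F N A s) {I : Set ℝ}
    {G : ℝ × ℝ → S} {α₁ β₁ α₂ β₂ : ℝ} (hf : IsFull F X N A C s I G α₁ β₁ α₂ β₂) {v : E3}
    (hv : ‖v‖ = 1) (hn : ‖v - F.n‖ < del C / 100) (h₁ : 0 < ⟪v, w₁ F α₁ β₁⟫)
    (h₂ : ⟪v, w₂ F α₂ β₂⟫ = 0) :
    WallAt X N A (secOf F N C I G α₁ β₁ α₂ β₂) ((‖w₂ F α₂ β₂‖)⁻¹ • w₂ F α₂ β₂) (-1) v ∧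
      ∀ w ∈ closure (secOf F N C I G α₁ β₁ α₂ β₂), N w = v → HasRay X N w := by
  obtain ⟨F', -, -, e3, hs', hf', e4, e5, e6⟩ := full_reflect hs hf
  have h3 := wall₁_props h F' hs' hf' hv (by rw [e3]; exact hn) (by rw [e4]; exact h₂)
    (by rw [e5]; exact h₁)
  rw [e4, e6] at h3
  exact h3

end Pool.Agent.Helper50.MS
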